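import Pool.Agent.Lib_helper25.AD.Base

set_option autoImplicit false

open Finset Filter Topology

namespace Pool.Agent.Lib_helper25.AD

theorem SEG_comm (c d : ℕ → ℕ) (k l : ℕ) (x : E) :
    cls c k (cls d l x) = cls d l (cls c k x) := by
  rw [cls, cls, res_res, res_res, Set.inter_comm]

theorem seg_est_pr {ν : Seminorm ℝ E} {p K L U : ℝ} (hp : 1 < p) (hK : 1 ≤ K) (hL : 1 ≤ L)
    (hU : 1 ≤ U) (hAs : AsLp ν p K) {r : ℕ} {s : ℕ → ℕ} {x : E} (hs : Monotone s)
    (hsr : ∀ i, s i < r) (hx : ∀ i ∈ x.support, r ≤ i) {m : ℕ} {c : ℕ → ℕ}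
    (hl : ∀ j < r, LowAt ν p L m c (cls s j x)) (hu : ∀ j < r, UppAt ν p U m c (cls s j x)) :
    LowAt ν p (K * K * L) m c x ∧ UppAt ν p (K * K * U) m c x := by
  have hK0 : 0 ≤ K := by linarith
  have hL0 : 0 ≤ L := by linarith
  have hU0 : 0 ≤ U := by linarith
  obtain ⟨h1, h2⟩ := hAs r s x hs hsr hx
  have h3 : ∀ k, LowAt ν p K r s (cls c k x) ∧ UppAt ν p K r s (cls c k x) := fun k =>
    hAs r s (cls c k x) hs hsr (fun i hi => hx i (supp_cls_subset c k x hi))
  simp only [LowAt, UppAt] at *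
  constructor
  · calc ∑ k ∈ range m, ν (cls c k x) ^ p
        ≤ ∑ k ∈ range m, K * ∑ j ∈ range r, ν (cls s j (cls c k x)) ^ p :=
          sum_le_sum fun k _ => (h3 k).2
      _ = K * ∑ j ∈ range r, ∑ k ∈ range m, ν (cls c k (cls s j x)) ^ p := by
          rw [← mul_sum, sum_comm]
          congr 1
          refine sum_congr rfl fun j _ => sum_congr rfl fun k _ => ?_
          rw [SEG_comm]
      _ ≤ K * ∑ j ∈ range r, L * ν (cls s j x) ^ p := by
          refine mul_le_mul_of_nonneg_left (sum_le_sum fun j hj => hl j (mem_range.1 hj)) hK0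
      _ = K * L * ∑ j ∈ range r, ν (cls s j x) ^ p := by rw [← mul_sum]; ring
      _ ≤ K * L * (K * ν x ^ p) := mul_le_mul_of_nonneg_left h1 (mul_nonneg hK0 hL0)
      _ = K * K * L * ν x ^ p := by ring
  · calc ν x ^ p ≤ K * ∑ j ∈ range r, ν (cls s j x) ^ p := h2
      _ ≤ K * ∑ j ∈ range r, U * ∑ k ∈ range m, ν (cls c k (cls s j x)) ^ p := by
          refine mul_le_mul_of_nonneg_left (sum_le_sum fun j hj => hu j (mem_range.1 hj)) hK0
      _ = K * U * ∑ k ∈ range m, ∑ j ∈ range r, ν (cls s j (cls c k x)) ^ p := by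
          rw [← mul_sum, sum_comm, mul_assoc]
          congr 2
          refine sum_congr rfl fun j _ => sum_congr rfl fun k _ => ?_
          rw [SEG_comm]
      _ ≤ K * U * ∑ k ∈ range m, K * ν (cls c k x) ^ p := by
          refine mul_le_mul_of_nonneg_left (sum_le_sum fun k _ => (h3 k).1) (mul_nonneg hK0 hU0)
      _ = K * K * U * ∑ k ∈ range m, ν (cls c k x) ^ p := by rw [← mul_sum]; ring

alias seg_est := seg_est_pr

end Pool.Agent.Lib_helper25.AD
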