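import Pool.Agent.Lib_helper25.AD.Base

/-!
# MP_a4bf89_an, block SPAN
-/

set_option autoImplicit false

open Finset Filter Topology

namespace Pool.Agent.Lib_helper25.AD

theorem span_coord {y : ℕ → E} (hy : IsBlk y) (a : E) {t j : ℕ} (ht : t ∈ (y j).support) :
    lc y a t = a j * y j t := by
  classical
  have hne : ∀ i, i ≠ j → y i t = 0 := by
    intro i hij
    by_contra h
    have hi : t ∈ (y i).support := by simpa using h
    rcases lt_or_gt_of_ne hij with h1 | h1
    · exact lt_irrefl _ (hy.bef h1 t hi t ht)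
    · exact lt_irrefl _ (hy.bef h1 t ht t hi)
  rw [lc_apply, Finsupp.finsetSum_apply]
  simp only [Finsupp.smul_apply, smul_eq_mul]
  by_cases hj : j ∈ a.support
  · rw [Finset.sum_eq_single_of_mem j hj]
    intro i _ hij
    rw [hne i hij, mul_zero]
  · have h0 : a j = 0 := by simpa using hj
    rw [h0, zero_mul]
    apply Finset.sum_eq_zero
    intro i hi
    by_cases hij : i = j
    · subst hij; exact absurd hi hj
    · rw [hne i hij, mul_zero]

theorem span_coord_zero (y : ℕ → E) (a : E) {t : ℕ} (ht : ∀ j, t ∉ (y j).support) :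
    lc y a t = 0 := by
  rw [lc_apply, Finsupp.finsetSum_apply]
  apply Finset.sum_eq_zero
  intro i _
  have h0 : y i t = 0 := by simpa using ht i
  simp [h0]

theorem span_mem_supp {y : ℕ → E} (hy : IsBlk y) (a : E) {t : ℕ} :
    t ∈ (lc y a).support ↔ ∃ j ∈ a.support, t ∈ (y j).support := by
  constructor
  · intro h
    have h' : lc y a t ≠ 0 := by simpa using h
    by_cases hex : ∃ j, t ∈ (y j).support
    · obtain ⟨j, hj⟩ := hex
      rw [span_coord hy a hj] at h'
      exact ⟨j, by simpa using left_ne_zero_of_mul h', hj⟩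
    · push Not at hex
      exact absurd (span_coord_zero y a hex) h'
  · rintro ⟨j, hj, ht⟩
    have h1 : a j ≠ 0 := by simpa using hj
    have h2 : y j t ≠ 0 := by simpa using ht
    rw [Finsupp.mem_support_iff, span_coord hy a ht]
    exact mul_ne_zero h1 h2

/-- SPAN1 -/
theorem starts_subset_pr {y z : ℕ → E} (hy : IsBlk y) (hz : IsBlk z) (h : Le z y) :
    starts z ⊆ starts y := by
  intro s hs
  obtain ⟨i, rfl⟩ := (mem_starts hz).1 hs
  obtain ⟨a, ha⟩ := mem_bsp.1 (h i)
  have h1 := st_mem hz i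
  rw [← ha] at h1
  obtain ⟨j, hj, ht⟩ := (span_mem_supp hy a).1 h1
  refine (mem_starts hy).2 ⟨j, le_antisymm ?_ (st_le hy ht)⟩
  apply st_le hz
  rw [← ha]
  exact (span_mem_supp hy a).2 ⟨j, hj, st_mem hy j⟩

/-- a colouring which jumps only at the starts is constant on the blocks -/
theorem span_const {y : ℕ → E} (hy : IsBlk y) {c : ℕ → ℕ} (hc : jump c ⊆ starts y) {i t : ℕ}
    (ht : t ∈ (y i).support) : c t = c (st hy i) := by
  have key : ∀ d, st hy i + d ≤ t → c (st hy i + d) = c (st hy i) := by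
    intro d
    induction d with
    | zero => intro _; rfl
    | succ d ih =>
      intro hd
      have ih' := ih (by omega)
      by_contra hne
      have hj : st hy i + (d + 1) ∈ jump c := by
        refine ⟨by omega, ?_⟩
        intro heq
        apply hne
        rw [heq, ← ih']
        congr 1
      obtain ⟨j, hj'⟩ := (mem_starts hy).1 (hc hj)
      have hij : i < j := by
        have : st hy i < st hy j := by omega
        exact (st_strictMono hy).lt_iff_lt.1 this
      have := hy.bef hij t ht _ (st_mem hy j)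
      omega
  have h1 := st_le hy ht
  have h2 := key (t - st hy i) (by omega)
  rwa [Nat.add_sub_cancel' h1] at h2

/-- the colour classes of a linear combination of blocks -/
theorem span_cls_lc {y : ℕ → E} (hy : IsBlk y) {c : ℕ → ℕ} (hc : jump c ⊆ starts y) (a : E)
    (k : ℕ) : cls c k (lc y a) = lc y (cls (fun i => c (st hy i)) k a) := by
  ext t
  rw [cls_apply]
  by_cases hex : ∃ j, t ∈ (y j).support
  · obtain ⟨j, hj⟩ := hex
    rw [span_coord hy _ hj, span_coord hy _ hj, cls_apply, span_const hy hc hj]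
    split_ifs <;> simp
  · push Not at hex
    rw [span_coord_zero y _ hex, span_coord_zero y _ hex]
    simp

/-- SPAN2 -/
theorem cls_mem_pr {y : ℕ → E} (hy : IsBlk y) {c : ℕ → ℕ} (hc : jump c ⊆ starts y) {x : E}
    (hx : x ∈ bsp y) (k : ℕ) : cls c k x ∈ bsp y := by
  obtain ⟨a, rfl⟩ := mem_bsp.1 hx
  rw [span_cls_lc hy hc]
  exact lc_mem y _

/-- SPAN3 -/
theorem tl_facts_pr {y : ℕ → E} (hy : RBlk y) (n : ℕ) :
    RBlk (tl n y) ∧ Le (tl n y) y ∧ starts (tl n y) ⊆ starts y ∧
      (∀ x ∈ bsp (tl n y), ∀ i ∈ x.support, st hy.toIsBlk n ≤ i) ∧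
      (∀ x ∈ bsp y, (∀ i ∈ x.support, st hy.toIsBlk n ≤ i) → x ∈ bsp (tl n y)) := by
  have hy' := hy.toIsBlk
  have hB : IsBlk (tl n y) := ⟨fun i => hy'.ne _, fun i => hy'.bef (by omega)⟩
  refine ⟨⟨hB, fun i j => hy.rat _ _⟩, fun i => self_mem_bsp y _, ?_, ?_, ?_⟩
  · rintro s ⟨i, hi⟩
    exact ⟨i + n, hi⟩
  · intro x hx i hi
    obtain ⟨a, rfl⟩ := mem_bsp.1 hx
    obtain ⟨j, hj, ht⟩ := (span_mem_supp hB a).1 hi
    have h1 : st hy' n ≤ st hy' (j + n) := (st_strictMono hy').monotone (by omega)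
    exact h1.trans (st_le hy' ht)
  · intro x hx hsup
    obtain ⟨a, rfl⟩ := mem_bsp.1 hx
    have h1 : ∀ j ∈ a.support, n ≤ j := by
      intro j hj
      have := hsup (st hy' j) ((span_mem_supp hy' a).2 ⟨j, hj, st_mem hy' j⟩)
      exact (st_strictMono hy').le_iff_le.1 this
    rw [lc_apply]
    apply Submodule.sum_mem
    intro j hj
    apply Submodule.smul_mem
    have h2 : tl n y (j - n) = y j := by
      unfold tl
      rw [Nat.sub_add_cancel (h1 j hj)]
    rw [← h2]
    exact self_mem_bsp _ _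

/-- SPAN4 -/
theorem sub_facts_pr {y : ℕ → E} (hy : RBlk y) (φ : ℕ → ℕ) (hφ : StrictMono φ) :
    RBlk (fun i => y (φ i)) ∧ Le (fun i => y (φ i)) y := by
  have hy' := hy.toIsBlk
  exact ⟨⟨⟨fun i => hy'.ne _, fun i => hy'.bef (hφ (Nat.lt_succ_self i))⟩,
    fun i j => hy.rat _ _⟩, fun i => self_mem_bsp y _⟩

alias starts_subset := starts_subset_pr

alias cls_mem := cls_mem_pr

alias tl_facts := tl_facts_pr

alias sub_facts := sub_facts_pr

end Pool.Agent.Lib_helper25.AD
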