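import Pool.Agent.Lib_helper25.AD.Base
import Pool.Agent.Lib_helper25.AD.Blk.SEG
import Pool.Agent.Lib_helper25.AD.Blk.SPAN

set_option autoImplicit false

open Finset Filter Topology

namespace Pool.Agent.Lib_helper25.AD

/-- no jump: constant -/
theorem apr_const {c : ℕ → ℕ} {a b : ℕ} (hab : a ≤ b) (h : ∀ u, a < u → u ≤ b → u ∉ jump c) :
    c a = c b := by
  induction b, hab using Nat.le_induction with
  | base => rfl
  | succ b hab ih =>
    rw [ih (fun u h1 h2 => h u h1 (by omega))]
    by_contra hne
    apply h (b + 1) (by omega) (le_refl _)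
    refine ⟨by omega, ?_⟩
    rw [Nat.add_sub_cancel]
    exact fun h' => hne h'.symm

/-- one colour on the support -/
theorem apr_mono {ν : Seminorm ℝ E} {p L U : ℝ} (hp : 1 < p) (hL : 1 ≤ L) (hU : 1 ≤ U) {m : ℕ}
    {c : ℕ → ℕ} {x : E} (k0 : ℕ) (hk0 : k0 < m) (h : ∀ i ∈ x.support, c i = k0) :
    LowAt ν p L m c x ∧ UppAt ν p U m c x := by
  have h0 : ∀ k, k ≠ k0 → cls c k x = 0 := by
    intro k hk
    apply res_eq_zero
    intro i hi hi'
    exact hk (by rw [← hi', h i hi])
  have h1 : cls c k0 x = x := res_self (fun i hi => h i hi)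
  have hsum : ∑ k ∈ range m, ν (cls c k x) ^ p = ν x ^ p := by
    rw [Finset.sum_eq_single k0]
    · rw [h1]
    · intro k _ hk
      rw [h0 k hk, map_zero, Real.zero_rpow (by linarith)]
    · intro hk; exact absurd (mem_range.mpr hk0) hk
  have hpos : 0 ≤ ν x ^ p := Real.rpow_nonneg (apply_nonneg ν x) p
  constructor
  · unfold LowAt; rw [hsum]; nlinarith
  · unfold UppAt; rw [hsum]; nlinarith

theorem apr_zero {ν : Seminorm ℝ E} {p L U : ℝ} (hp : 1 < p) {m : ℕ} {c : ℕ → ℕ} :
    LowAt ν p L m c 0 ∧ UppAt ν p U m c 0 := by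
  have h0 : (0 : ℝ) ^ p = 0 := Real.zero_rpow (by linarith)
  constructor
  · unfold LowAt
    simp [h0]
  · unfold UppAt
    simp [h0]

/-- counting cut points -/
noncomputable def aprS (Q : Finset ℕ) (i : ℕ) : ℕ := (Q.filter (· ≤ i)).card

theorem aprS_mono (Q : Finset ℕ) : Monotone (aprS Q) := by
  intro a b hab
  apply card_le_card
  intro q hq
  rw [mem_filter] at hq ⊢
  exact ⟨hq.1, hq.2.trans hab⟩

theorem aprS_lt {Q : Finset ℕ} {a b q : ℕ} (hq : q ∈ Q) (h1 : a < q) (h2 : q ≤ b) :
    aprS Q a < aprS Q b := by
  apply card_lt_card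
  rw [Finset.ssubset_iff_of_subset]
  · exact ⟨q, mem_filter.mpr ⟨hq, h2⟩, fun h => absurd (mem_filter.mp h).2 (by omega)⟩
  · intro u hu
    rw [mem_filter] at hu ⊢
    exact ⟨hu.1, by omega⟩

theorem aprS_jump (Q : Finset ℕ) : ∀ u ∈ jump (aprS Q), u ∈ Q := by
  intro u hu
  by_contra hq
  apply hu.2
  unfold aprS
  congr 1
  ext v
  rw [mem_filter, mem_filter]
  constructor
  · rintro ⟨h1, h2⟩
    refine ⟨h1, ?_⟩
    have : v ≠ u := fun h => hq (h ▸ h1)
    omega
  · rintro ⟨h1, h2⟩
    exact ⟨h1, by omega⟩

theorem apriori_core_pr {ν : Seminorm ℝ E} {p K L U : ℝ} (hp : 1 < p) (hK : 1 ≤ K) (hL : 1 ≤ L)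
    (hU : 1 ≤ U) (hAs : AsLp ν p K) (G : ℕ → Set (Finset ℕ))
    (hG : ∀ s t, s ≤ t → ∀ A ∈ G s, ∃ B ∈ G t, A ⊆ B) (F : Set (Finset ℕ))
    (hF : ∀ A ∈ F, ∀ t ∈ A, (∀ u ∈ A, t ≤ u) → ∃ B ∈ G t, A.erase t ⊆ B)
    (y : ℕ → E) (hy : RBlk y) (z : ℕ → E) (hz : RBlk z) (hzy : Le z y)
    (hsp : ∀ i m M, m ≤ st hz.toIsBlk i → M ≤ st hz.toIsBlk i →
        ∀ c, Adm (G (st hz.toIsBlk i)) m M y c →
          ∀ x ∈ bsp y, (∀ j ∈ x.support, st hz.toIsBlk (i + 1) ≤ j) →
            LowAt ν p L m c x ∧ UppAt ν p U m c x) :
    Low ν p F (K * K * L) z ∧ Upp ν p F (K * K * U) z := by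
  classical
  have key : ∀ m M : ℕ, ∀ c, Adm F m M z c → ∀ x ∈ bsp z,
      (∀ i ∈ x.support, m + M + 2 * M + 1 ≤ i) →
      LowAt ν p (K * K * L) m c x ∧ UppAt ν p (K * K * U) m c x := by
    intro m M c hc x hx hxT
    set T : ℕ := m + M + 2 * M + 1 with hT
    obtain ⟨hcm, hcj, S, hSM, hSF, hScov⟩ := hc
    have hm0 : 0 < m := lt_of_le_of_lt (Nat.zero_le _) (hcm 0)
    -- reduced members of the cover
    set R : Finset ℕ → Finset ℕ := fun A => A.filter (fun u => u ∈ jump c ∧ T < u) with hR
    set τ : Finset ℕ → ℕ := fun A => if h : (R A).Nonempty then (R A).min' h else 0 with hτ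
    have hτmem : ∀ A, (R A).Nonempty → τ A ∈ R A := by
      intro A h
      simp only [hτ]; rw [dif_pos h]; exact min'_mem _ _
    have hτle : ∀ A, ∀ u ∈ R A, τ A ≤ u := by
      intro A u hu
      simp only [hτ]; rw [dif_pos ⟨u, hu⟩]; exact min'_le _ _ hu
    have hidx : ∀ A, ∃ n, (R A).Nonempty → τ A = st hz.toIsBlk n := by
      intro A
      by_cases h : (R A).Nonempty
      · have h1 := hτmem A h
        have h2 : τ A ∈ starts z := hcj (mem_filter.mp h1).2.1
        obtain ⟨n, hn⟩ := (mem_starts hz.toIsBlk).mp h2
        exact ⟨n, fun _ => hn⟩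
      · exact ⟨0, fun h' => absurd h' h⟩
    choose idx hidx using hidx
    set S' : Finset (Finset ℕ) := S.filter (fun A => (R A).Nonempty) with hS'
    set Q : Finset ℕ := S'.image τ ∪ S'.image (fun A => st hz.toIsBlk (idx A + 1)) with hQ
    have hQcard : Q.card ≤ 2 * M := by
      have h1 : S'.card ≤ M := (card_filter_le _ _).trans hSM
      have h2 : Q.card ≤ (S'.image τ).card + (S'.image (fun A => st hz.toIsBlk (idx A + 1))).card :=
        card_union_le _ _
      have h3 : (S'.image τ).card ≤ S'.card := card_image_le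
      have h4 : (S'.image (fun A => st hz.toIsBlk (idx A + 1))).card ≤ S'.card := card_image_le
      omega
    have hQst : ∀ q ∈ Q, q ∈ starts z := by
      intro q hq
      rw [hQ, mem_union, mem_image, mem_image] at hq
      rcases hq with ⟨A, hA, rfl⟩ | ⟨A, hA, rfl⟩
      · rw [hidx A (mem_filter.mp hA).2]
        exact (mem_starts hz.toIsBlk).mpr ⟨_, rfl⟩
      · exact (mem_starts hz.toIsBlk).mpr ⟨_, rfl⟩
    -- jumps
    have hjmp : ∀ u ∈ jump c, T < u → ∃ A ∈ S', u ∈ R A := by
      intro u hu hTu
      obtain ⟨A, hA, huA⟩ := hScov u hu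
      have : u ∈ R A := mem_filter.mpr ⟨huA, hu, hTu⟩
      exact ⟨A, mem_filter.mpr ⟨hA, ⟨u, this⟩⟩, this⟩
    have hτQ : ∀ A ∈ S', τ A ∈ Q := fun A hA => mem_union_left _ (mem_image_of_mem _ hA)
    have hnQ : ∀ A ∈ S', st hz.toIsBlk (idx A + 1) ∈ Q := fun A hA =>
      mem_union_right _ (mem_image_of_mem (fun A => st hz.toIsBlk (idx A + 1)) hA)
    have hτT : ∀ A ∈ S', T < τ A := fun A hA =>
      (mem_filter.mp (hτmem A (mem_filter.mp hA).2)).2.2
    -- members of G
    have hGB : ∀ A ∈ S', ∃ B ∈ G (τ A), (R A).erase (τ A) ⊆ B := by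
      intro A hA
      have hne := (mem_filter.mp hA).2
      have hAF := hSF A (mem_filter.mp hA).1
      have hτA : τ A ∈ A := (mem_filter.mp (hτmem A hne)).1
      have hAne : A.Nonempty := ⟨_, hτA⟩
      obtain ⟨B, hB, hsub⟩ := hF A hAF (A.min' hAne) (min'_mem _ _) (fun u hu => min'_le _ _ hu)
      have hle : A.min' hAne ≤ τ A := min'_le _ _ hτA
      obtain ⟨B', hB', hsub'⟩ := hG _ _ hle B hB
      refine ⟨B', hB', fun u hu => hsub' (hsub ?_)⟩
      rw [mem_erase] at hu ⊢
      have h1 := (mem_filter.mp hu.2).1
      refine ⟨?_, h1⟩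
      have h2 := hτle A u hu.2
      have h3 : τ A ≠ u := fun h => hu.1 h.symm
      omega
    -- the segments
    have hsr : ∀ i, aprS Q i < 2 * M + 1 := by
      intro i
      have : aprS Q i ≤ Q.card := card_filter_le _ _
      omega
    have hseg : ∀ j < 2 * M + 1, LowAt ν p L m c (cls (aprS Q) j x) ∧
        UppAt ν p U m c (cls (aprS Q) j x) := by
      intro j _
      set xj := cls (aprS Q) j x with hxj
      by_cases hx0 : xj = 0
      · rw [hx0]; exact apr_zero hp
      have hne : xj.support.Nonempty := Finsupp.support_nonempty_iff.mpr hx0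
      have hsj : ∀ i ∈ xj.support, aprS Q i = j ∧ T ≤ i := fun i hi =>
        ⟨(mem_supp_cls.mp hi).2, hxT i (mem_supp_cls.mp hi).1⟩
      set w := xj.support.max' hne with hw
      have hwm : w ∈ xj.support := max'_mem _ _
      have hwle : ∀ i ∈ xj.support, i ≤ w := fun i hi => le_max' _ _ hi
      by_cases hQe : (Q.filter (· ≤ w)).Nonempty
      · set q := (Q.filter (· ≤ w)).max' hQe with hq
        have hqm : q ∈ Q.filter (· ≤ w) := max'_mem _ _
        have hqQ : q ∈ Q := (mem_filter.mp hqm).1
        have hqw : q ≤ w := (mem_filter.mp hqm).2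
        have hqi : ∀ i ∈ xj.support, q ≤ i := by
          intro i hi
          by_contra hcon
          push Not at hcon
          have := aprS_lt hqQ hcon hqw
          rw [(hsj i hi).1, (hsj w hwm).1] at this
          exact lt_irrefl _ this
        have hnocut : ∀ v ∈ Q, v ≤ w → v ≤ q := fun v hv hvw =>
          le_max' _ _ (mem_filter.mpr ⟨hv, hvw⟩)
        by_cases hqτ : ∃ A ∈ S', τ A = q
        · -- inside one block of z
          obtain ⟨A, hA, hAq⟩ := hqτ
          have hi := hidx A (mem_filter.mp hA).2
          have hnext : w < st hz.toIsBlk (idx A + 1) := by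
            by_contra hcon
            push Not at hcon
            have h1 := hnocut _ (hnQ A hA) hcon
            have h2 := st_strictMono hz.toIsBlk (Nat.lt_succ_self (idx A))
            rw [← hAq, hi] at h1
            exact absurd h1 (not_le.mpr h2)
          have hnoj : ∀ u, q < u → u ≤ w → u ∉ jump c := by
            intro u h1 h2 h3
            obtain ⟨n, hn⟩ := (mem_starts hz.toIsBlk).mp (hcj h3)
            rw [hn] at h1 h2
            rw [← hAq, hi] at h1
            have h4 := (st_strictMono hz.toIsBlk).lt_iff_lt.mp h1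
            have h5 := (st_strictMono hz.toIsBlk).lt_iff_lt.mp (lt_of_le_of_lt h2 hnext)
            omega
          apply apr_mono hp hL hU (c q) (hcm q)
          intro i hi'
          exact (apr_const (hqi i hi') (fun u h1 h2 => hnoj u h1 (h2.trans (hwle i hi')))).symm
        · -- q is the start after some τ
          push Not at hqτ
          have : ∃ A ∈ S', st hz.toIsBlk (idx A + 1) = q := by
            rw [hQ, mem_union, mem_image, mem_image] at hqQ
            rcases hqQ with ⟨A, hA, h⟩ | ⟨A, hA, h⟩
            · exact absurd h (hqτ A hA)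
            · exact ⟨A, hA, h⟩
          obtain ⟨A, hA, hAq⟩ := this
          have hi := hidx A (mem_filter.mp hA).2
          have hτA := hτT A hA
          rw [hi] at hτA
          set c' : ℕ → ℕ := fun i => c (max q (min i w)) with hc'
          have hcc' : ∀ i ∈ xj.support, c i = c' i := by
            intro i hi'
            simp only [hc']
            rw [min_eq_left (hwle i hi'), max_eq_right (hqi i hi')]
          have hj' : ∀ u ∈ jump c', u ∈ jump c ∧ q < u ∧ u ≤ w := by
            intro u hu
            obtain ⟨hu0, hu1⟩ := hu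
            have h1 : q < u := by
              by_contra hcon
              push Not at hcon
              apply hu1
              simp only [hc']
              congr 1
              omega
            have h2 : u ≤ w := by
              by_contra hcon
              push Not at hcon
              apply hu1
              simp only [hc']
              congr 1
              omega
            refine ⟨⟨hu0, ?_⟩, h1, h2⟩
            have h3 : max q (min u w) = u := by omega
            have h4 : max q (min (u - 1) w) = u - 1 := by omega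
            simp only [hc'] at hu1
            rw [h3, h4] at hu1
            exact hu1
          have hadm : Adm (G (st hz.toIsBlk (idx A))) m M y c' := by
            refine ⟨fun i => hcm _, ?_, ?_⟩
            · intro u hu
              exact starts_subset hy.toIsBlk hz.toIsBlk hzy (hcj (hj' u hu).1)
            · -- cover
              have hex : ∀ B ∈ S', τ B ≤ st hz.toIsBlk (idx A) →
                  ∃ B' ∈ G (st hz.toIsBlk (idx A)), (R B).erase (τ B) ⊆ B' := by
                intro B hB hle
                obtain ⟨B1, hB1, hs1⟩ := hGB B hB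
                obtain ⟨B2, hB2, hs2⟩ := hG _ _ hle B1 hB1
                exact ⟨B2, hB2, hs1.trans hs2⟩
              set f : Finset ℕ → Finset ℕ := fun B =>
                if h : B ∈ S' ∧ τ B ≤ st hz.toIsBlk (idx A) then (hex B h.1 h.2).choose else ∅
                with hf
              refine ⟨(S'.filter (fun B => τ B ≤ st hz.toIsBlk (idx A))).image f, ?_, ?_, ?_⟩
              · refine card_image_le.trans ((card_filter_le _ _).trans
                  ((card_filter_le _ _).trans hSM))
              · intro B hB
                rw [mem_image] at hB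
                obtain ⟨B0, hB0, rfl⟩ := hB
                have h := mem_filter.mp hB0
                simp only [hf]
                rw [dif_pos h]
                exact (hex B0 h.1 h.2).choose_spec.1
              · intro u hu
                obtain ⟨hu1, hu2, hu3⟩ := hj' u hu
                have hTu : T < u := by
                  have h1 := st_strictMono hz.toIsBlk (Nat.lt_succ_self (idx A))
                  have h2 : st hz.toIsBlk (idx A) < q := by rw [← hAq]; exact h1
                  omega
                obtain ⟨B, hB, huB⟩ := hjmp u hu1 hTu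
                have h1 : τ B ≤ u := hτle B u huB
                have h2 : τ B ≤ q := hnocut _ (hτQ B hB) (h1.trans hu3)
                have h3 : τ B ≠ q := hqτ B hB
                have h4 : τ B ≤ st hz.toIsBlk (idx A) := by
                  have h5 := hidx B (mem_filter.mp hB).2
                  rw [h5]
                  have h6 : st hz.toIsBlk (idx B) < st hz.toIsBlk (idx A + 1) := by
                    rw [hAq, ← h5]; omega
                  have h7 := (st_strictMono hz.toIsBlk).lt_iff_lt.mp h6
                  exact (st_strictMono hz.toIsBlk).monotone (by omega)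
                refine ⟨f B, mem_image_of_mem _ (mem_filter.mpr ⟨hB, h4⟩), ?_⟩
                simp only [hf]
                rw [dif_pos ⟨hB, h4⟩]
                apply (hex B hB h4).choose_spec.2
                rw [mem_erase]
                exact ⟨by omega, huB⟩
          have hxjy : xj ∈ bsp y := by
            apply cls_mem hy.toIsBlk _ (bsp_le hzy hx)
            intro u hu
            exact starts_subset hy.toIsBlk hz.toIsBlk hzy (hQst u (aprS_jump Q u hu))
          have hres := hsp (idx A) m M (by omega) (by omega) c' hadm xj hxjy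
            (by rw [hAq]; exact hqi)
          have hcls : ∀ k, cls c k xj = cls c' k xj := cls_congr hcc'
          constructor
          · have := hres.1
            unfold LowAt at this ⊢
            simp_rw [hcls]; exact this
          · have := hres.2
            unfold UppAt at this ⊢
            simp_rw [hcls]; exact this
      · -- before all cut points
        have hnoQ : ∀ v ∈ Q, ¬ v ≤ w := fun v hv hvw => hQe ⟨v, mem_filter.mpr ⟨hv, hvw⟩⟩
        have hnoj : ∀ u, T < u → u ≤ w → u ∉ jump c := by
          intro u h1 h2 h3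
          obtain ⟨A, hA, huA⟩ := hjmp u h3 h1
          exact hnoQ _ (hτQ A hA) ((hτle A u huA).trans h2)
        apply apr_mono hp hL hU (c T) (hcm T)
        intro i hi
        exact (apr_const (hsj i hi).2 (fun u h1 h2 => hnoj u h1 (h2.trans (hwle i hi)))).symm
    exact seg_est hp hK hL hU hAs (aprS_mono Q) hsr (fun i hi => by
      have := hxT i hi
      omega) (fun j hj => (hseg j hj).1) (fun j hj => (hseg j hj).2)
  constructor
  · intro m M
    exact ⟨m + M + 2 * M + 1, fun c hc x hx hxT => (key m M c hc x hx hxT).1⟩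
  · intro m M
    exact ⟨m + M + 2 * M + 1, fun c hc x hx hxT => (key m M c hc x hx hxT).2⟩

alias apriori_core := apriori_core_pr

end Pool.Agent.Lib_helper25.AD
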