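import Pool.Agent.Lib_helper25.AD.Base

/-!
# MP_a4bf89_an: block CUT
-/

set_option autoImplicit false

open Finset Filter Topology

namespace Pool.Agent.Lib_helper25.AD

open Classical in
/-- CUT -/
theorem cut_pr (l r : ℕ) (g x : ℕ → E) (hg : Suc l g) (hx : Suc r x) :
    ((range r).filter (fun j => ∃ k k', k < k' ∧ k' < l ∧ ¬ Dis (g k) (x j) ∧
      ¬ Dis (g k') (x j))).card ≤ l - 1 := by
  let f : ℕ → ℕ := fun j => sInf {k | ¬ Dis (g k) (x j)}
  have hmain : ∀ j j', j < j' → j' < r →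
      (∃ k k', k < k' ∧ k' < l ∧ ¬ Dis (g k) (x j) ∧ ¬ Dis (g k') (x j)) →
      (∃ k k', k < k' ∧ k' < l ∧ ¬ Dis (g k) (x j') ∧ ¬ Dis (g k') (x j')) →
      f j ≠ f j' := by
    intro j j' hjj hj' h1 h2 heq
    obtain ⟨k, k', hkk, hk', hd, hd'⟩ := h1
    obtain ⟨m, _, _, _, hm, _⟩ := h2
    have h3 : f j ≤ k := Nat.sInf_le hd
    have h4' : f j' ∈ {k | ¬ Dis (g k) (x j')} := Nat.sInf_mem ⟨m, hm⟩
    have h4 : ¬ Dis (g (f j')) (x j') := h4'
    rw [← heq] at h4
    obtain ⟨t, ht1, ht2⟩ := Finset.not_disjoint_iff.1 hd'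
    obtain ⟨s, hs1, hs2⟩ := Finset.not_disjoint_iff.1 h4
    have h5 := hg (f j) k' (by omega) hk' s hs1 t ht1
    have h6 := hx j j' hjj hj' t ht2 s hs2
    omega
  have h0 : ((range r).filter (fun j => ∃ k k', k < k' ∧ k' < l ∧ ¬ Dis (g k) (x j) ∧
      ¬ Dis (g k') (x j))).card ≤ (range (l - 1)).card := by
    apply Finset.card_le_card_of_injOn f
    · intro j hj
      have hj1 := (Finset.mem_filter.1 (Finset.mem_coe.1 hj)).2
      obtain ⟨k, k', hkk, hk', hd, hd'⟩ := hj1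
      have h3 : f j ≤ k := Nat.sInf_le hd
      rw [Finset.mem_coe, Finset.mem_range]
      omega
    · intro j hj j' hj' heq
      have hj1 := Finset.mem_filter.1 (Finset.mem_coe.1 hj)
      have hj2 := Finset.mem_filter.1 (Finset.mem_coe.1 hj')
      by_contra hne
      rcases lt_or_gt_of_ne hne with h | h
      · exact hmain j j' h (mem_range.1 hj2.1) hj1.2 hj2.2 heq
      · exact hmain j' j h (mem_range.1 hj1.1) hj2.2 hj1.2 heq.symm
  rwa [Finset.card_range] at h0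

alias cut := cut_pr

end Pool.Agent.Lib_helper25.AD
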