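import Pool.Agent.Lib_helper25.AD.Base
import Pool.Agent.Lib_helper25.AD.Blk.CUT

/-!
# MP_a4bf89_an: block AVG
-/

set_option autoImplicit false

open Finset Filter Topology

namespace Pool.Agent.Lib_helper25.AD

theorem AVG_pr_dis {g x : E} (h : Dis g x) : pr g x = 0 := by
  rw [pr]
  refine Finset.sum_eq_zero fun i hi => ?_
  have h0 : g i = 0 := by
    by_contra hne
    exact Finset.disjoint_left.1 h (Finsupp.mem_support_iff.2 hne) hi
  rw [h0, abs_zero, zero_mul]

theorem AVG_pr_sum_le (g : E) (N : ℕ) (y : ℕ → E) :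
    pr g (∑ i ∈ range N, y i) ≤ ∑ i ∈ range N, pr g (y i) := by
  induction N with
  | zero => simp [pr]
  | succ N ih =>
    rw [Finset.sum_range_succ, Finset.sum_range_succ]
    exact (pr_add_le _ _ _).trans (by linarith)

/-- AVG (cites CUT) -/
theorem avg_bound_pr {n : Seminorm ℝ E} (hn : IsNS n) (N l : ℕ) (x : E) (hx : IsAvg n N x)
    (g : ℕ → E) (hg : ∀ k < l, KK (g k)) (hs : Suc l g) :
    ∑ k ∈ range l, pr (g k) x ≤ 1 + (l : ℝ) ^ 2 / N := by
  classical
  obtain ⟨hN, y, hy, hsy, rfl⟩ := hx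
  have hN0 : (0 : ℝ) < N := by exact_mod_cast hN
  set Cu := (range N).filter (fun j => ∃ k k', k < k' ∧ k' < l ∧ ¬ Dis (g k) (y j) ∧
      ¬ Dis (g k') (y j)) with hCu
  have hcut : Cu.card ≤ l - 1 := by
    have := cut l N g y hs hsy
    convert this
  have h1 : ∀ k < l, ∀ i < N, pr (g k) (y i) ≤ 1 := fun k hk i hi =>
    (hn.ge _ _ (hg k hk)).trans (hy i hi)
  have h2 : ∀ i ∈ range N, ∑ k ∈ range l, pr (g k) (y i) ≤
      1 + if i ∈ Cu then (l : ℝ) else 0 := by
    intro i hi
    have hiN := mem_range.1 hi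
    split_ifs with hc
    · calc ∑ k ∈ range l, pr (g k) (y i) ≤ ∑ k ∈ range l, (1 : ℝ) :=
            Finset.sum_le_sum fun k hk => h1 k (mem_range.1 hk) i hiN
        _ = l := by simp
        _ ≤ _ := by linarith
    · rw [add_zero]
      by_cases hex : ∃ k < l, ¬ Dis (g k) (y i)
      · obtain ⟨k, hk, hkd⟩ := hex
        rw [Finset.sum_eq_single_of_mem k (mem_range.2 hk)]
        · exact h1 k hk i hiN
        · intro k' hk' hne
          apply AVG_pr_dis
          by_contra hd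
          apply hc
          rw [hCu, Finset.mem_filter]
          refine ⟨hi, ?_⟩
          rcases lt_or_gt_of_ne hne with h | h
          · exact ⟨k', k, h, hk, hd, hkd⟩
          · exact ⟨k, k', h, mem_range.1 hk', hkd, hd⟩
      · push Not at hex
        rw [Finset.sum_eq_zero]
        · norm_num
        · intro k hk
          exact AVG_pr_dis (hex k (mem_range.1 hk))
  have h3 : ∑ k ∈ range l, pr (g k) ((N : ℝ)⁻¹ • ∑ i ∈ range N, y i) ≤
      (N : ℝ)⁻¹ * ∑ i ∈ range N, ∑ k ∈ range l, pr (g k) (y i) := by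
    rw [Finset.sum_comm, Finset.mul_sum]
    refine Finset.sum_le_sum fun k _ => ?_
    rw [pr_smul, abs_of_pos (inv_pos.2 hN0)]
    exact mul_le_mul_of_nonneg_left (AVG_pr_sum_le _ _ _) (inv_pos.2 hN0).le
  refine h3.trans ?_
  have h4 : ∑ i ∈ range N, ∑ k ∈ range l, pr (g k) (y i) ≤ N + (l : ℝ) ^ 2 := by
    refine (Finset.sum_le_sum h2).trans ?_
    rw [Finset.sum_add_distrib, Finset.sum_const, Finset.card_range, nsmul_eq_mul, mul_one,
      Finset.sum_ite_mem, Finset.sum_const, nsmul_eq_mul]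
    have h5 : ((range N ∩ Cu).card : ℝ) ≤ l := by
      have h6 : (range N ∩ Cu).card ≤ Cu.card := Finset.card_le_card Finset.inter_subset_right
      exact_mod_cast (h6.trans hcut).trans (Nat.sub_le _ _)
    have h7 : (0 : ℝ) ≤ l := Nat.cast_nonneg _
    nlinarith
  rw [inv_mul_le_iff₀ hN0]
  have h8 : (N : ℝ) * (1 + (l : ℝ) ^ 2 / N) = N + (l : ℝ) ^ 2 := by
    field_simp
  rw [h8]
  exact h4

alias avg_bound := avg_bound_pr

end Pool.Agent.Lib_helper25.AD
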