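import Pool.Agent.Lib_helper25.AD.Base

/-! MP_a4bf89_an, block BLKZ: block sequences in infinite dimensional subspaces -/

set_option autoImplicit false

open Finset

namespace Pool.Agent.Lib_helper25.AD

/-- the first `n` coordinates -/
noncomputable def BLKZ_f (n : ℕ) : E →ₗ[ℝ] (Fin n → ℝ) where
  toFun := fun z i => z i
  map_add' := fun x y => by ext i; simp
  map_smul' := fun t x => by ext i; simp

theorem BLKZ_far (Z : Submodule ℝ E) (h : ¬ FiniteDimensional ℝ Z) (n : ℕ) :
    ∃ z ∈ Z, z ≠ 0 ∧ ∀ i ∈ z.support, n ≤ i := by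
  by_contra hcon
  push Not at hcon
  apply h
  have hf : Function.Injective ((BLKZ_f n).domRestrict Z) := by
    intro z z' hz
    by_contra hne
    have hne' : (z : E) - (z' : E) ≠ 0 := fun h0 => hne (Subtype.ext (sub_eq_zero.mp h0))
    obtain ⟨i, hi, hin⟩ := hcon _ (Z.sub_mem z.2 z'.2) hne'
    have h1 : (z : E) i = (z' : E) i := congrFun hz ⟨i, hin⟩
    refine (Finsupp.mem_support_iff.mp hi) ?_
    rw [Finsupp.sub_apply, h1, sub_self]
  exact FiniteDimensional.of_injective ((BLKZ_f n).domRestrict Z) hf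

theorem exists_blk_pr (Z : Submodule ℝ E) (h : ¬ FiniteDimensional ℝ Z) :
    ∃ z, IsBlk z ∧ ∀ i, z i ∈ Z := by
  choose g hg1 hg2 hg3 using BLKZ_far Z h
  let z : ℕ → E := fun k => Nat.rec (g 0) (fun _ v => g (v.support.sup id + 1)) k
  have hz1 : ∀ k, z (k + 1) = g ((z k).support.sup id + 1) := fun k => rfl
  have hform : ∀ k, ∃ n, z k = g n := by
    intro k
    cases k with
    | zero => exact ⟨0, rfl⟩
    | succ k => exact ⟨_, hz1 k⟩
  refine ⟨z, ⟨fun i => ?_, fun i a ha b hb => ?_⟩, fun i => ?_⟩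
  · obtain ⟨n, hn⟩ := hform i
    rw [hn]
    exact hg2 n
  · rw [hz1] at hb
    have h1 := hg3 _ b hb
    have h2 : a ≤ (z i).support.sup id := Finset.le_sup (f := id) ha
    omega
  · obtain ⟨n, hn⟩ := hform i
    rw [hn]
    exact hg1 n

alias exists_blk := exists_blk_pr

end Pool.Agent.Lib_helper25.AD
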