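import Pool.Agent.Lib_helper25.AD.Base

/-! MP_a4bf89_an, block PULL: pulling back bounded distortion along an injection -/

set_option autoImplicit false

open Finset

namespace Pool.Agent.Lib_helper25.AD

section
variable {V V' : Type} [AddCommGroup V] [Module ℝ V] [AddCommGroup V'] [Module ℝ V']

/-- the competitors -/
noncomputable def PULL_f (ν : Seminorm ℝ V) (φ : V' →ₗ[ℝ] V) (N : Seminorm ℝ V') (β : ℝ) (x : V)
    (w : V') : ℝ := N w + β * ν (x - φ w)

theorem PULL_nn (ν : Seminorm ℝ V) (φ : V' →ₗ[ℝ] V) (N : Seminorm ℝ V') {β : ℝ} (hβ : 0 < β)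
    (x : V) (w : V') : 0 ≤ PULL_f ν φ N β x w :=
  add_nonneg (apply_nonneg _ _) (mul_nonneg hβ.le (apply_nonneg _ _))

theorem PULL_bdd (ν : Seminorm ℝ V) (φ : V' →ₗ[ℝ] V) (N : Seminorm ℝ V') {β : ℝ} (hβ : 0 < β)
    (x : V) : BddBelow (Set.range (PULL_f ν φ N β x)) := by
  refine ⟨0, ?_⟩
  rintro _ ⟨w, rfl⟩
  exact PULL_nn ν φ N hβ x w

theorem PULL_val (ν : Seminorm ℝ V) (φ : V' →ₗ[ℝ] V) (N : Seminorm ℝ V') {β : ℝ} (hβ : 0 < β)
    (h : ∀ w, N w ≤ β * ν (φ w)) (w : V') : ⨅ w', PULL_f ν φ N β (φ w) w' = N w := by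
  apply le_antisymm
  · refine (ciInf_le (PULL_bdd ν φ N hβ (φ w)) w).trans ?_
    unfold PULL_f
    rw [sub_self, map_zero, mul_zero, add_zero]
  · refine le_ciInf fun w' => ?_
    unfold PULL_f
    have h1 : N w ≤ N w' + N (w - w') := by
      have := map_add_le_add N w' (w - w')
      rwa [add_sub_cancel] at this
    have h2 := h (w - w')
    rw [φ.map_sub] at h2
    linarith

/-- the extended seminorm -/
noncomputable def PULL_N (ν : Seminorm ℝ V) (φ : V' →ₗ[ℝ] V) (N : Seminorm ℝ V') {β : ℝ}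
    (hβ : 0 < β) (h : ∀ w, N w ≤ β * ν (φ w)) : Seminorm ℝ V :=
  Seminorm.ofSMulLE (fun x => ⨅ w, PULL_f ν φ N β x w)
    (by
      have := PULL_val ν φ N hβ h 0
      rw [map_zero, map_zero] at this
      exact this)
    (fun x y => by
      refine le_ciInf_add_ciInf fun w1 w2 => ?_
      refine (ciInf_le (PULL_bdd ν φ N hβ (x + y)) (w1 + w2)).trans ?_
      unfold PULL_f
      have h1 := map_add_le_add N w1 w2
      have h2 := map_add_le_add ν (x - φ w1) (y - φ w2)
      have e : x + y - φ (w1 + w2) = (x - φ w1) + (y - φ w2) := by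
        rw [map_add]; abel
      rw [e]
      have h3 := mul_le_mul_of_nonneg_left h2 hβ.le
      linarith)
    (fun t x => by
      rw [Real.mul_iInf_of_nonneg (norm_nonneg t)]
      refine le_ciInf fun w => ?_
      refine (ciInf_le (PULL_bdd ν φ N hβ (t • x)) (t • w)).trans ?_
      unfold PULL_f
      rw [φ.map_smul, ← smul_sub, map_smul_eq_mul, map_smul_eq_mul]
      apply le_of_eq
      ring)

theorem PULL_N_apply (ν : Seminorm ℝ V) (φ : V' →ₗ[ℝ] V) (N : Seminorm ℝ V') {β : ℝ}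
    (hβ : 0 < β) (h : ∀ w, N w ≤ β * ν (φ w)) (x : V) :
    PULL_N ν φ N hβ h x = ⨅ w, PULL_f ν φ N β x w := rfl

end

theorem bd_pullback_pr {V V' : Type} [AddCommGroup V] [Module ℝ V] [AddCommGroup V'] [Module ℝ V']
    (ν : Seminorm ℝ V) (D : ℝ) (h : BD ν D) (φ : V' →ₗ[ℝ] V) (hφ : Function.Injective φ) :
    BD (ν.comp φ) D := by
  intro N hN Y hY
  obtain ⟨α, β, hα, hβ, hab⟩ := hN
  have hup : ∀ w, N w ≤ β * ν (φ w) := fun w => (hab w).2
  have hlo : ∀ w, α * ν (φ w) ≤ N w := fun w => (hab w).1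
  have hmap : ¬ FiniteDimensional ℝ (Y.map φ) := by
    intro hfd
    exact hY ((Submodule.equivMapOfInjective φ hφ Y).symm.finiteDimensional)
  obtain ⟨Z, hZ1, hZ2, hZ3⟩ := h (PULL_N ν φ N hβ hup)
    ⟨min α β, β, lt_min hα hβ, hβ, fun x => by
      constructor
      · rw [PULL_N_apply]
        refine le_ciInf fun w => ?_
        unfold PULL_f
        have h1 : ν x ≤ ν (φ w) + ν (x - φ w) := by
          have := map_add_le_add ν (φ w) (x - φ w)
          rwa [add_sub_cancel] at this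
        have h2 : 0 ≤ ν (φ w) := apply_nonneg _ _
        have h3 : 0 ≤ ν (x - φ w) := apply_nonneg _ _
        have h4 : 0 < min α β := lt_min hα hβ
        calc min α β * ν x ≤ min α β * (ν (φ w) + ν (x - φ w)) :=
              mul_le_mul_of_nonneg_left h1 h4.le
          _ = min α β * ν (φ w) + min α β * ν (x - φ w) := mul_add _ _ _
          _ ≤ α * ν (φ w) + β * ν (x - φ w) :=
              add_le_add (mul_le_mul_of_nonneg_right (min_le_left _ _) h2)
                (mul_le_mul_of_nonneg_right (min_le_right _ _) h3)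
          _ ≤ N w + β * ν (x - φ w) := add_le_add (hlo w) le_rfl
      · rw [PULL_N_apply]
        refine (ciInf_le (PULL_bdd ν φ N hβ x) 0).trans ?_
        unfold PULL_f
        rw [map_zero, map_zero, sub_zero, zero_add]⟩ (Y.map φ) hmap
  have hcom : ∀ w ∈ Z.comap φ, w ∈ Y := by
    intro w hw
    obtain ⟨w', hw', he⟩ := Submodule.mem_map.mp (hZ1 (Submodule.mem_comap.mp hw))
    rw [← hφ he]
    exact hw'
  refine ⟨Z.comap φ, hcom, ?_, ?_⟩
  · intro hfd
    apply hZ2
    have e : (Z.comap φ).map φ = Z := by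
      apply le_antisymm (Submodule.map_comap_le _ _)
      intro z hz
      obtain ⟨w', _, he⟩ := Submodule.mem_map.mp (hZ1 hz)
      exact Submodule.mem_map.mpr ⟨w', Submodule.mem_comap.mpr (by rw [he]; exact hz), he⟩
    rw [← e]
    infer_instance
  · intro z hz w hw
    have := hZ3 (φ z) hz (φ w) hw
    rw [PULL_N_apply, PULL_N_apply, PULL_val ν φ N hβ hup, PULL_val ν φ N hβ hup] at this
    exact this

alias bd_pullback := bd_pullback_pr

end Pool.Agent.Lib_helper25.AD
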