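import Pool.Agent.Lib_helper25.AD.Base
import Pool.Agent.Lib_helper25.AD.Blk.BLKZ
import Pool.Agent.Lib_helper25.AD.Blk.PULL

/-! MP_a4bf89_an, block BDF: bounded distortion in block form -/

set_option autoImplicit false

open Finset

namespace Pool.Agent.Lib_helper25.AD

theorem BDF_inj {y : ℕ → E} (hy : IsBlk y) : LinearIndependent ℝ y := by
  have h : Function.Injective (Finsupp.linearCombination ℝ y) := by
    refine (injective_iff_map_eq_zero _).mpr fun a ha => ?_
    by_contra hne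
    obtain ⟨i, hi⟩ := Finsupp.support_nonempty_iff.mpr hne
    have h1 : (Finsupp.linearCombination ℝ y a) (st hy i) = a i * (y i) (st hy i) := by
      have e : Finsupp.linearCombination ℝ y a = ∑ j ∈ a.support, a j • y j := lc_apply y a
      rw [e, Finsupp.finsetSum_apply, Finset.sum_eq_single i]
      · rw [Finsupp.smul_apply, smul_eq_mul]
      · intro j _ hj
        rw [Finsupp.smul_apply, smul_eq_mul]
        have h0 : (y j) (st hy i) = 0 := by
          by_contra hc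
          have hm : st hy i ∈ (y j).support := Finsupp.mem_support_iff.mpr hc
          rcases lt_or_gt_of_ne hj with h | h
          · exact lt_irrefl _ (hy.bef h _ hm _ (st_mem hy i))
          · exact lt_irrefl _ (hy.bef h _ (st_mem hy i) _ hm)
        rw [h0, mul_zero]
      · intro hn
        exact absurd hi hn
    rw [ha, Finsupp.zero_apply] at h1
    have h2 : (y i) (st hy i) ≠ 0 := Finsupp.mem_support_iff.mp (st_mem hy i)
    have h3 : a i ≠ 0 := Finsupp.mem_support_iff.mp hi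
    exact mul_ne_zero h3 h2 h1.symm
  exact h

theorem BDF_inf {y : ℕ → E} (hy : IsBlk y) : ¬ FiniteDimensional ℝ (bsp y) := by
  intro hfd
  have h := linearIndependent_span (BDF_inj hy)
  have : Module.Finite ℝ (Submodule.span ℝ (Set.range y)) := hfd
  have h2 : Finite ℕ := h.finite
  exact not_finite ℕ

theorem BDF_map {V W : Type} [AddCommGroup V] [Module ℝ V] [AddCommGroup W] [Module ℝ W]
    (φ : V →ₗ[ℝ] W) (hφ : Function.Injective φ) (Z : Submodule ℝ V)
    (h : ¬ FiniteDimensional ℝ Z) : ¬ FiniteDimensional ℝ (Z.map φ) := by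
  intro hfd
  exact h ((Submodule.equivMapOfInjective φ hφ Z).symm.finiteDimensional)

theorem BDF_gen {V : Type} [AddCommGroup V] [Module ℝ V] (φ : V →ₗ[ℝ] E)
    (hφ : Function.Injective φ) (hV : ¬ FiniteDimensional ℝ V) (ν : Seminorm ℝ V) (D : ℝ)
    (h : BD ν D) (N : Seminorm ℝ V)
    (hN : ∃ α β : ℝ, 0 < α ∧ 0 < β ∧ ∀ x, α * ν x ≤ N x ∧ N x ≤ β * ν x) :
    ∃ z, IsBlk z ∧ (∀ a ∈ bsp z, ∃ v, φ v = a) ∧
      ∀ v w, φ v ∈ bsp z → φ w ∈ bsp z → N v * ν w ≤ D * (N w * ν v) := by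
  have htop : ¬ FiniteDimensional ℝ (⊤ : Submodule ℝ V) := by
    intro hfd
    exact hV (Submodule.topEquiv.finiteDimensional)
  obtain ⟨Z, -, hZ2, hZ3⟩ := h N hN ⊤ htop
  obtain ⟨z, hz1, hz2⟩ := exists_blk (Z.map φ) (BDF_map φ hφ Z hZ2)
  have hsp : bsp z ≤ Z.map φ := by
    unfold bsp
    rw [Submodule.span_le]
    rintro _ ⟨i, rfl⟩
    exact hz2 i
  have hmem : ∀ v, φ v ∈ bsp z → v ∈ Z := by
    intro v hv
    obtain ⟨w, hw, he⟩ := Submodule.mem_map.mp (hsp hv)
    rw [← hφ he]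
    exact hw
  refine ⟨z, hz1, fun a ha => ?_, fun v w hv hw => hZ3 v (hmem v hv) w (hmem w hw)⟩
  obtain ⟨v, _, he⟩ := Submodule.mem_map.mp (hsp ha)
  exact ⟨v, he⟩

theorem bdf_of_bd_pr (ν : Seminorm ℝ E) (D : ℝ) (h : BD ν D) : BDF ν D := by
  intro y hy N hN
  obtain ⟨hadd, hsmul, α, β, hα, hβ, hab⟩ := hN
  have hinj : Function.Injective (bsp y).subtype := Subtype.coe_injective
  have h1 := bd_pullback (V := E) (V' := bsp y) ν D h (bsp y).subtype hinj
  let N' : Seminorm ℝ (bsp y) := Seminorm.of (fun v => N v)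
    (fun a b => hadd a a.2 b b.2) (fun t a => by
      rw [Real.norm_eq_abs]
      exact hsmul t a a.2)
  obtain ⟨z, hz1, hz2, hz3⟩ := BDF_gen (V := bsp y) (bsp y).subtype hinj (BDF_inf hy)
    (ν.comp (bsp y).subtype) D h1 N' ⟨α, β, hα, hβ, fun x => hab x x.2⟩
  refine ⟨z, hz1, fun i => ?_, fun a ha b hb => ?_⟩
  · obtain ⟨v, hv⟩ := hz2 (z i) (self_mem_bsp z i)
    rw [← hv]
    exact v.2
  · obtain ⟨v, rfl⟩ := hz2 a ha
    obtain ⟨w, rfl⟩ := hz2 b hb
    exact hz3 v w ha hb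

alias bdf_of_bd := bdf_of_bd_pr

end Pool.Agent.Lib_helper25.AD
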