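import Pool.Agent.Lib_helper25.AD.Base

/-!
# MP_a4bf89_an: block DPT
-/

set_option autoImplicit false

open Finset Filter Topology

namespace Pool.Agent.Lib_helper25.AD

/-- DPT -/
theorem dual_pt_pr (μ μd : Seminorm ℝ E) (hμ : Lat μ) (hd : IsDual μ μd) (m₁ : ℕ) (hm : 1 ≤ m₁)
    (h : ∀ (x : E) (c : ℕ → ℕ), (∀ i, c i < m₁) → (∀ k < m₁, μ (cls c k x) ≤ 1) →
      4 * μ x ≤ m₁)
    (g : E) (c : ℕ → ℕ) (hc : ∀ i, c i < m₁) (hg : ∀ k < m₁, 1 ≤ μd (cls c k g)) :
    2 ≤ μd g := by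
  have h1 : ∀ k, ∃ y : E, k < m₁ → μ y ≤ 1 ∧ 1 / 2 < pr (cls c k g) y := by
    intro k
    by_cases hk : k < m₁
    · by_contra hcon
      push Not at hcon
      have h2 := hd.sup (cls c k g) (1 / 2) (by norm_num) fun y hy => (hcon y).2 hy
      linarith [hg k hk]
    · exact ⟨0, fun h => absurd h hk⟩
  choose y hy using h1
  set Y : E := ∑ k ∈ range m₁, cls c k (y k) with hY
  have hYi : ∀ i, Y i = y (c i) i := by
    intro i
    rw [hY, Finsupp.finsetSum_apply]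
    simp only [cls_apply]
    rw [Finset.sum_ite_eq (range m₁) (c i) (fun k => y k i), if_pos (mem_range.2 (hc i))]
  have hcl : ∀ k < m₁, μ (cls c k Y) ≤ 1 := by
    intro k hk
    refine le_trans (hμ _ _ fun i => ?_) (hy k hk).1
    rw [cls_apply]
    split_ifs with hi
    · rw [hYi, hi]
    · simp
  have h3 := h Y c hc hcl
  have h4 : pr g Y = ∑ k ∈ range m₁, pr (cls c k g) (y k) := by
    have h5 : ∀ k, pr (cls c k g) (y k) = ∑ i ∈ g.support, |cls c k g i| * |y k i| :=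
      fun k => pr_eq_sum' (supp_cls_subset c k g)
    simp only [h5]
    rw [pr_eq_sum' (Finset.Subset.refl g.support), Finset.sum_comm]
    refine Finset.sum_congr rfl fun i _ => ?_
    rw [Finset.sum_eq_single_of_mem (c i) (mem_range.2 (hc i))]
    · rw [cls_apply, if_pos rfl, hYi]
    · intro k _ hk
      rw [cls_apply, if_neg (fun h => hk h.symm), abs_zero, zero_mul]
  have h6 : (m₁ : ℝ) * (1 / 2) ≤ pr g Y := by
    rw [h4]
    calc (m₁ : ℝ) * (1 / 2) = ∑ k ∈ range m₁, (1 / 2 : ℝ) := by simp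
      _ ≤ _ := Finset.sum_le_sum fun k hk => (hy k (mem_range.1 hk)).2.le
  have h7 := hd.le g Y
  have h8 : μd g * μ Y ≤ μd g * (m₁ / 4) :=
    mul_le_mul_of_nonneg_left (by linarith) (apply_nonneg _ _)
  have hm0 : (0 : ℝ) < m₁ := by exact_mod_cast hm
  have h9 : (m₁ : ℝ) * 2 ≤ m₁ * μd g := by nlinarith
  exact le_of_mul_le_mul_left h9 hm0

alias dual_pt := dual_pt_pr

end Pool.Agent.Lib_helper25.AD
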