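import Pool.Agent.Lib_helper25.AD.Base

/-! MP_a4bf89_an, block HB: Hahn-Banach -/

set_option autoImplicit false

open Finset

namespace Pool.Agent.Lib_helper25.AD

theorem hahn_pr (ν : Seminorm ℝ E) (x : E) : ∃ f : E →ₗ[ℝ] ℝ, f x = ν x ∧ ∀ y, |f y| ≤ ν y := by
  by_cases hx : x = 0
  · refine ⟨0, ?_, fun y => ?_⟩
    · rw [hx, map_zero, map_zero]
    · rw [LinearMap.zero_apply, abs_zero]
      exact apply_nonneg _ _
  · obtain ⟨g, hg1, hg2⟩ := exists_extension_of_le_sublinear
      (LinearPMap.mkSpanSingleton x (ν x) hx) (fun y => ν y)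
      (fun c hc y => by
        rw [map_smul_eq_mul, Real.norm_eq_abs, abs_of_pos hc])
      (fun a b => map_add_le_add ν a b)
      (fun v => by
        obtain ⟨c, hc⟩ := Submodule.mem_span_singleton.mp v.2
        have e : LinearPMap.mkSpanSingleton x (ν x) hx v = c * ν x := by
          have h2 : v = ⟨c • x, Submodule.mem_span_singleton.mpr ⟨c, rfl⟩⟩ := Subtype.ext hc.symm
          rw [h2]
          exact LinearPMap.mkSpanSingleton'_apply x (ν x) _ c _
        rw [e, ← hc, map_smul_eq_mul, Real.norm_eq_abs]
        exact mul_le_mul_of_nonneg_right (le_abs_self c) (apply_nonneg _ _))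
    refine ⟨g, ?_, fun y => ?_⟩
    · have h1 := hg1 ⟨x, Submodule.mem_span_singleton_self x⟩
      rw [h1]
      exact LinearPMap.mkSpanSingleton_apply ℝ ℝ hx (ν x)
    · rw [abs_le]
      constructor
      · have h1 := hg2 (-y)
        rw [map_neg, map_neg_eq_map] at h1
        linarith
      · exact hg2 y

/-- the vector of absolute values -/
noncomputable def HB_abs (x : E) : E := x.mapRange (fun t : ℝ => |t|) abs_zero

theorem HB_abs_apply (x : E) (i : ℕ) : HB_abs x i = |x i| := by
  rw [HB_abs, Finsupp.mapRange_apply]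

theorem HB_lin (f : E →ₗ[ℝ] ℝ) (x : E) {S : Finset ℕ} (h : x.support ⊆ S) :
    f x = ∑ i ∈ S, x i * f (Finsupp.single i 1) := by
  have e : x = ∑ i ∈ S, x i • (Finsupp.single i (1 : ℝ) : E) := by
    ext j
    rw [Finsupp.finsetSum_apply]
    simp only [Finsupp.smul_apply, smul_eq_mul]
    by_cases hj : j ∈ S
    · rw [Finset.sum_eq_single j]
      · rw [Finsupp.single_eq_same, mul_one]
      · intro i _ hi
        rw [Finsupp.single_eq_of_ne (Ne.symm hi), mul_zero]
      · intro hn
        exact absurd hj hn
    · have h0 : x j = 0 := by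
        by_contra hc
        exact hj (h (Finsupp.mem_support_iff.mpr hc))
      rw [h0, Finset.sum_eq_zero]
      intro i hi
      have hne : j ≠ i := fun he => hj (he ▸ hi)
      rw [Finsupp.single_eq_of_ne hne, mul_zero]
  calc f x = f (∑ i ∈ S, x i • (Finsupp.single i (1 : ℝ) : E)) := by rw [← e]
    _ = ∑ i ∈ S, x i * f (Finsupp.single i 1) := by
        rw [map_sum]
        refine Finset.sum_congr rfl fun i _ => ?_
        rw [f.map_smul, smul_eq_mul]

theorem hahn_lat_pr (μ : Seminorm ℝ E) (hμ : Lat μ) (x : E) :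
    ∃ g : E, (∀ y, pr g y ≤ μ y) ∧ pr g x = μ x ∧ g.support ⊆ x.support := by
  classical
  obtain ⟨f, hf1, hf2⟩ := hahn_pr μ (HB_abs x)
  have habs : μ (HB_abs x) = μ x := by
    apply le_antisymm
    · refine hμ _ _ fun i => ?_
      rw [HB_abs_apply, abs_abs]
    · refine hμ _ _ fun i => ?_
      rw [HB_abs_apply, abs_abs]
  let g : E := Finsupp.onFinset x.support
    (fun i => if i ∈ x.support then f (Finsupp.single i 1) else 0) (fun i hi => by
      by_contra hn
      exact hi (if_neg hn))
  have hg : ∀ i, g i = if i ∈ x.support then f (Finsupp.single i 1) else 0 := fun i => by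
    show (Finsupp.onFinset _ _ _) i = _
    rw [Finsupp.onFinset_apply]
  have hgs : g.support ⊆ x.support := Finsupp.support_onFinset_subset
  have hle : ∀ y, pr g y ≤ μ y := by
    intro y
    let u : E := Finsupp.onFinset x.support
      (fun i => if i ∈ x.support then SignType.sign (g i) * |y i| else 0) (fun i hi => by
        by_contra hn
        exact hi (if_neg hn))
    have hu : ∀ i, u i = if i ∈ x.support then SignType.sign (g i) * |y i| else 0 := fun i => by
      show (Finsupp.onFinset _ _ _) i = _
      rw [Finsupp.onFinset_apply]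
    have hus : u.support ⊆ x.support := Finsupp.support_onFinset_subset
    have h1 : pr g y = f u := by
      rw [HB_lin f u hus, pr_eq_sum' hgs]
      refine Finset.sum_congr rfl fun i hi => ?_
      have h2 : f (Finsupp.single i 1) = g i := by rw [hg, if_pos hi]
      rw [h2, hu, if_pos hi]
      have h3 := sign_mul_self (g i)
      calc |g i| * |y i| = (SignType.sign (g i) * g i) * |y i| := by rw [h3]
        _ = SignType.sign (g i) * |y i| * g i := by ring
    rw [h1]
    refine (le_abs_self _).trans ((hf2 u).trans (hμ _ _ fun i => ?_))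
    rw [hu]
    split_ifs
    · rw [abs_mul, abs_abs]
      have h4 : |((SignType.sign (g i) : SignType) : ℝ)| ≤ 1 := by
        rcases lt_trichotomy (g i) 0 with h | h | h
        · rw [sign_neg h]; simp
        · rw [h, sign_zero]; simp
        · rw [sign_pos h]; simp
      have h5 := abs_nonneg (y i)
      nlinarith
    · rw [abs_zero]
      exact abs_nonneg _
  refine ⟨g, hle, le_antisymm (hle x) ?_, hgs⟩
  have hsx : (HB_abs x).support ⊆ x.support := by
    intro i hi
    rw [Finsupp.mem_support_iff, HB_abs_apply] at hi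
    rw [Finsupp.mem_support_iff]
    exact fun h0 => hi (by rw [h0, abs_zero])
  rw [← habs, ← hf1, HB_lin f (HB_abs x) hsx, pr_eq_sum' hgs]
  refine Finset.sum_le_sum fun i hi => ?_
  have h2 : f (Finsupp.single i 1) = g i := by rw [hg, if_pos hi]
  rw [h2, HB_abs_apply, mul_comm]
  exact mul_le_mul_of_nonneg_right (le_abs_self _) (abs_nonneg _)

alias hahn := hahn_pr

alias hahn_lat := hahn_lat_pr

end Pool.Agent.Lib_helper25.AD
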