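import Pool.Agent.Lib_helper25.AD.Base

/-! MP_a4bf89_an, block SUP: lattice seminorms as suprema -/

set_option autoImplicit false

open Finset

namespace Pool.Agent.Lib_helper25.AD

theorem SUP_bdd (G : Set E) (hb : ∀ i, ∃ B : ℝ, ∀ g ∈ G, |g i| ≤ B) (x : E) :
    BddAbove (Set.range fun g : G => pr g x) := by
  choose B hB using hb
  refine ⟨∑ i ∈ x.support, B i * |x i|, ?_⟩
  rintro _ ⟨g, rfl⟩
  exact Finset.sum_le_sum fun i _ => mul_le_mul_of_nonneg_right (hB i g g.2) (abs_nonneg _)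

theorem exists_sup_pr (G : Set E) (hne : G.Nonempty) (hb : ∀ i, ∃ B : ℝ, ∀ g ∈ G, |g i| ≤ B) :
    ∃ μ : Seminorm ℝ E, Lat μ ∧ (∀ g ∈ G, ∀ x, pr g x ≤ μ x) ∧
      (∀ x b, (∀ g ∈ G, pr g x ≤ b) → μ x ≤ b) := by
  have : Nonempty G := hne.to_subtype
  have hbd := SUP_bdd G hb
  let μ : Seminorm ℝ E := Seminorm.of (fun x => ⨆ g : G, pr g x)
    (fun x y => by
      refine ciSup_le fun g => ?_
      exact (pr_add_le _ _ _).trans (add_le_add (le_ciSup (hbd x) g) (le_ciSup (hbd y) g)))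
    (fun t x => by
      rw [Real.mul_iSup_of_nonneg (norm_nonneg t)]
      congr 1
      funext g
      rw [pr_smul, Real.norm_eq_abs])
  have hμ : ∀ x, μ x = ⨆ g : G, pr g x := fun x => rfl
  refine ⟨μ, fun x y hxy => ?_, fun g hg x => ?_, fun x b h => ?_⟩
  · rw [hμ, hμ]
    refine ciSup_le fun g => ?_
    exact (pr_mono (fun i => le_rfl) hxy).trans (le_ciSup (hbd y) g)
  · rw [hμ]
    exact le_ciSup (hbd x) (⟨g, hg⟩ : G)
  · rw [hμ]
    exact ciSup_le fun g => h g g.2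

alias exists_sup := exists_sup_pr

end Pool.Agent.Lib_helper25.AD
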