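import Pool.Agent.Lib_helper25.AD.Base
import Pool.Agent.Lib_helper25.AD.Blk.HB
import Pool.Agent.Lib_helper25.AD.Blk.SUP

/-!
# MP_a4bf89_an: block DUAL
-/

set_option autoImplicit false

open Finset Filter Topology

namespace Pool.Agent.Lib_helper25.AD

theorem DUAL_single_le {μ : Seminorm ℝ E} (hμ : Lat μ) (x : E) (i : ℕ) :
    |x i| * μ (Finsupp.single i 1) ≤ μ x := by
  have h1 : μ (x i • Finsupp.single i (1 : ℝ)) = |x i| * μ (Finsupp.single i 1) := by
    rw [map_smul_eq_mul, Real.norm_eq_abs]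
  rw [← h1]
  apply hμ
  intro j
  rw [Finsupp.smul_apply, Finsupp.single_apply]
  split_ifs with h
  · subst h
    simp
  · simp

theorem DUAL_pr_single (x : E) (i : ℕ) (t : ℝ) : pr (Finsupp.single i t) x = |t| * |x i| := by
  rw [pr_eq_sum' (S := {i}) (Finsupp.support_single_subset)]
  simp

/-- DUAL (cites HBL, SUP) -/
theorem exists_dual_pr (μ : Seminorm ℝ E) (hμ : Lat μ) (hd : Dfn μ) :
    ∃ μd : Seminorm ℝ E, Lat μd ∧ Dfn μd ∧ IsDual μ μd := by
  have hs : ∀ i, 0 < μ (Finsupp.single i 1) := fun i => hd _ (by simp)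
  obtain ⟨μd, hlat, hge, hle⟩ := exists_sup {y : E | μ y ≤ 1} ⟨0, by simp⟩ (by
    intro i
    refine ⟨(μ (Finsupp.single i 1))⁻¹, fun g hg => ?_⟩
    have h1 := DUAL_single_le hμ g i
    have h2 : μ g ≤ 1 := hg
    rw [← one_div, le_div_iff₀ (hs i)]
    exact h1.trans h2)
  have hpr : ∀ g y, pr g y ≤ μd g * μ y := by
    intro g y
    by_cases hy : y = 0
    · subst hy
      simp [pr]
    have hy0 := hd y hy
    have h1 := hge ((μ y)⁻¹ • y) (by
      show μ ((μ y)⁻¹ • y) ≤ 1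
      rw [map_smul_eq_mul, norm_inv, Real.norm_of_nonneg hy0.le, inv_mul_cancel₀ hy0.ne']) g
    rw [pr_comm, pr_smul, abs_of_pos (inv_pos.2 hy0), inv_mul_le_iff₀ hy0] at h1
    linarith
  refine ⟨μd, hlat, ?_, ⟨hpr, ?_, ?_⟩⟩
  · intro x hx
    obtain ⟨i, hi⟩ := Finsupp.support_nonempty_iff.2 hx
    have hi0 : 0 < |x i| := abs_pos.2 (Finsupp.mem_support_iff.1 hi)
    have h1 := hpr x (Finsupp.single i 1)
    rw [pr_comm, DUAL_pr_single, abs_one, one_mul] at h1
    by_contra h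
    have h2 : μd x = 0 := le_antisymm (not_lt.1 h) (apply_nonneg _ _)
    rw [h2, zero_mul] at h1
    linarith
  · intro g b _ h
    apply hle
    intro y hy
    rw [pr_comm]
    exact h y hy
  · intro x
    obtain ⟨g, h1, h2, h3⟩ := hahn_lat μ hμ x
    refine ⟨g, hle g 1 fun y hy => ?_, h2, h3⟩
    rw [pr_comm]
    exact (h1 y).trans hy

alias exists_dual := exists_dual_pr

end Pool.Agent.Lib_helper25.AD
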