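import Pool.Agent.Lib_helper25.AD.Base

set_option autoImplicit false

open Finset Filter Topology

namespace Pool.Agent.Lib_helper25.AD

theorem DUR_holder {p q : ℝ} (hpq : p.HolderConjugate q) {a b u v : ℝ} (ha : 0 ≤ a) (hb : 0 ≤ b)
    (hu : 0 ≤ u) (hv : 0 ≤ v) :
    a * u + b * v ≤ (a ^ p + b ^ p) ^ (1 / p) * (u ^ q + v ^ q) ^ (1 / q) := by
  have := Real.inner_le_Lp_mul_Lq_of_nonneg (univ : Finset (Fin 2)) (f := ![a, b]) (g := ![u, v])
    hpq (by intro i _; fin_cases i <;> simp [ha, hb]) (by intro i _; fin_cases i <;> simp [hu, hv])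
  simpa [Fin.sum_univ_two] using this

theorem DUR_pr_res (g x : E) : pr x g = pr x (res {i | i ∈ x.support} g) := by
  classical
  rw [pr_eq_sum' (g := x) (x := g) (Finset.Subset.refl _),
    pr_eq_sum' (g := x) (x := res {i | i ∈ x.support} g) (Finset.Subset.refl _)]
  refine sum_congr rfl fun i hi => ?_
  rw [res_apply_mem (A := {i | i ∈ x.support}) hi]

theorem dual_UR_pr (μ ν : Seminorm ℝ E) (hμ : Lat μ) (hd : IsDual μ ν) (t : ℕ) (ht : 2 ≤ t)
    (h : LS μ t) : UR ν ((t : ℝ) / ((t : ℝ) - 1)) := by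
  classical
  intro x y hxy
  have ht2 : (2 : ℝ) ≤ t := by exact_mod_cast ht
  set r : ℝ := (t : ℝ) / ((t : ℝ) - 1) with hr
  have hr0 : 0 < r := div_pos (by linarith) (by linarith)
  have hpq : r.HolderConjugate (t : ℝ) := by
    rw [Real.holderConjugate_iff]
    refine ⟨?_, ?_⟩
    · rw [hr, lt_div_iff₀ (by linarith)]; linarith
    · rw [hr]
      have h1 : (t : ℝ) ≠ 0 := by positivity
      have h2 : (t : ℝ) - 1 ≠ 0 := by linarith
      field_simp
      ring
  have hS0 : 0 ≤ ν x ^ r + ν y ^ r :=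
    add_nonneg (Real.rpow_nonneg (apply_nonneg ν x) _) (Real.rpow_nonneg (apply_nonneg ν y) _)
  have key : ν (x + y) ≤ (ν x ^ r + ν y ^ r) ^ (1 / r) := by
    refine hd.sup (x + y) _ (Real.rpow_nonneg hS0 _) fun g hg => ?_
    set u := res {i | i ∈ x.support} g with hu
    set v := res {i | i ∈ y.support} g with hv
    have h1 : pr (x + y) g = pr x g + pr y g := by
      rw [pr_comm, pr_add_dis g hxy, pr_comm g x, pr_comm g y]
    have h2 : pr x g ≤ ν x * μ u := by rw [DUR_pr_res]; exact hd.le x _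
    have h3 : pr y g ≤ ν y * μ v := by rw [DUR_pr_res]; exact hd.le y _
    have hdis : Dis u v := by
      rw [Dis, Finset.disjoint_left]
      intro i hi hi'
      have h4 := (mem_supp_res.1 hi).2
      have h5 := (mem_supp_res.1 hi').2
      exact (Finset.disjoint_left.1 hxy) h4 h5
    have h6 : μ (u + v) ≤ μ g := by
      apply hμ
      intro i
      by_cases hi : i ∈ x.support
      · have hi' : i ∉ y.support := fun h => (Finset.disjoint_left.1 hxy) hi h
        rw [Finsupp.add_apply, hu, hv, res_apply_mem (A := {i | i ∈ x.support}) hi,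
          res_apply_not_mem (A := {i | i ∈ y.support}) hi', add_zero]
      · rw [Finsupp.add_apply, hu, hv, res_apply_not_mem (A := {i | i ∈ x.support}) hi, zero_add]
        exact abs_res_le _ _ _
    have h7 : μ u ^ t + μ v ^ t ≤ 1 :=
      (h u v hdis).trans (pow_le_one₀ (apply_nonneg μ _) (h6.trans hg))
    have h8 : μ u ^ (t : ℝ) + μ v ^ (t : ℝ) ≤ 1 := by
      rw [Real.rpow_natCast, Real.rpow_natCast]; exact h7
    have h9 : 0 ≤ μ u ^ (t : ℝ) + μ v ^ (t : ℝ) :=
      add_nonneg (Real.rpow_nonneg (apply_nonneg μ _) _) (Real.rpow_nonneg (apply_nonneg μ _) _)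
    calc pr (x + y) g ≤ ν x * μ u + ν y * μ v := by rw [h1]; exact add_le_add h2 h3
      _ ≤ (ν x ^ r + ν y ^ r) ^ (1 / r) * (μ u ^ (t : ℝ) + μ v ^ (t : ℝ)) ^ (1 / (t : ℝ)) :=
          DUR_holder hpq (apply_nonneg ν x) (apply_nonneg ν y) (apply_nonneg μ u)
            (apply_nonneg μ v)
      _ ≤ (ν x ^ r + ν y ^ r) ^ (1 / r) * 1 := by
          refine mul_le_mul_of_nonneg_left ?_ (Real.rpow_nonneg hS0 _)
          exact Real.rpow_le_one h9 h8 (by positivity)
      _ = (ν x ^ r + ν y ^ r) ^ (1 / r) := mul_one _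
  calc ν (x + y) ^ r ≤ ((ν x ^ r + ν y ^ r) ^ (1 / r)) ^ r :=
        Real.rpow_le_rpow (apply_nonneg ν _) key hr0.le
    _ = ν x ^ r + ν y ^ r := by
        rw [← Real.rpow_mul hS0, one_div_mul_cancel hr0.ne', Real.rpow_one]

alias dual_UR := dual_UR_pr

end Pool.Agent.Lib_helper25.AD
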