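import Pool.Agent.Lib_helper25.AD.Base

set_option autoImplicit false

open Finset Filter Topology

namespace Pool.Agent.Lib_helper25.AD

/-- the inclusion of `ℝ^S` -/
noncomputable def loz_inc (S : Finset ℕ) : (S → ℝ) →ₗ[ℝ] E :=
  ∑ i : S, (Finsupp.lsingle (i : ℕ) : ℝ →ₗ[ℝ] E).comp (LinearMap.proj i)

theorem loz_inc_apply (S : Finset ℕ) (x : S → ℝ) (j : ℕ) :
    loz_inc S x j = if h : j ∈ S then x ⟨j, h⟩ else 0 := by
  classical
  unfold loz_inc
  rw [LinearMap.sum_apply, Finsupp.finsetSum_apply]
  simp only [LinearMap.comp_apply, LinearMap.proj_apply, Finsupp.lsingle_apply,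
    Finsupp.single_apply]
  split_ifs with h
  · rw [Finset.sum_eq_single (⟨j, h⟩ : S)]
    · simp
    · intro b _ hb
      rw [if_neg]
      intro hbj
      exact hb (Subtype.ext hbj)
    · intro h'
      exact absurd (Finset.mem_univ _) h'
  · apply Finset.sum_eq_zero
    intro b _
    rw [if_neg]
    intro hbj
    exact h (hbj ▸ b.2)

theorem loz_inc_mem {S : Finset ℕ} (x : S → ℝ) {j : ℕ} (h : j ∈ S) :
    loz_inc S x j = x ⟨j, h⟩ := by rw [loz_inc_apply, dif_pos h]

theorem loz_inc_not {S : Finset ℕ} (x : S → ℝ) {j : ℕ} (h : j ∉ S) :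
    loz_inc S x j = 0 := by rw [loz_inc_apply, dif_neg h]

theorem loz_le (n : Seminorm ℝ E) (S : Finset ℕ) (x : S → ℝ) :
    n (loz_inc S x) ≤ ∑ i : S, |x i| * n (Finsupp.single (i : ℕ) 1) := by
  unfold loz_inc
  rw [LinearMap.sum_apply]
  refine (Finset.le_sum_of_subadditive n (map_zero n).le (map_add_le_add n) _ _).trans
    (le_of_eq ?_)
  apply Finset.sum_congr rfl
  intro i _
  have : (Finsupp.lsingle (i : ℕ) : ℝ →ₗ[ℝ] E) (x i) = x i • Finsupp.single (i : ℕ) (1 : ℝ) := by
    simp
  simp only [LinearMap.comp_apply, LinearMap.proj_apply]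
  rw [this, map_smul_eq_mul, Real.norm_eq_abs]

theorem loz_cont (n : Seminorm ℝ E) (S : Finset ℕ) :
    Continuous (fun x : S → ℝ => n (loz_inc S x)) := by
  have h0 : ContinuousAt (fun x : S → ℝ => (n.comp (loz_inc S)) x) 0 := by
    have hlim : Tendsto (fun x : S → ℝ => ∑ i : S, |x i| * n (Finsupp.single (i : ℕ) 1)) (𝓝 0)
        (𝓝 0) := by
      have hc : Continuous (fun x : S → ℝ => ∑ i : S, |x i| * n (Finsupp.single (i : ℕ) 1)) := by
        fun_prop
      have := hc.tendsto 0
      simpa using this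
    have h00 : (n.comp (loz_inc S)) 0 = 0 := map_zero _
    change Tendsto _ _ (𝓝 ((n.comp (loz_inc S)) 0))
    rw [h00]
    refine squeeze_zero (fun x => apply_nonneg _ _) (fun x => ?_) hlim
    rw [Seminorm.comp_apply]
    exact loz_le n S x
  exact (Seminorm.continuous_of_continuousAt_zero h0)

theorem loz_pr_le {n : Seminorm ℝ E} (hd : Dfn n) {g : E}
    (h : ∀ x, n x ≤ 1 → pr g x ≤ 1) : DB n g := by
  intro x
  by_cases hx : x = 0
  · subst hx
    rw [map_zero]
    simp [pr]
  · have hnx := hd x hx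
    have h1 := h ((n x)⁻¹ • x) (by
      rw [map_smul_eq_mul, Real.norm_eq_abs, abs_of_pos (inv_pos.mpr hnx), inv_mul_cancel₀ hnx.ne'])
    rw [pr_smul, abs_of_pos (inv_pos.mpr hnx), inv_mul_le_iff₀ hnx, mul_one] at h1
    exact h1

theorem loz_pr (n : Seminorm ℝ E) (hn : Lat n) (hd : Dfn n) (h : E) (hh : Prob h) :
    ∃ y ys, IsMx n h y ys := by
  classical
  set S := h.support with hS
  have hpos : ∀ i ∈ S, 0 < h i := by
    intro i hi
    have h1 : h i ≠ 0 := by simpa [hS] using hi
    exact lt_of_le_of_ne (hh.1 i) (Ne.symm h1)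
  have hsum : ∑ i : S, h i = 1 := by
    rw [Finset.sum_coe_sort S (fun i => h i)]
    exact hh.2
  have he : ∀ i, 0 < n (Finsupp.single i 1) := fun i => hd _ (by simp)
  -- the compact set
  set Kc : Set (S → ℝ) := {x | (∀ i, 0 ≤ x i) ∧ n (loz_inc S x) ≤ 1} with hK
  have hcoord : ∀ x ∈ Kc, ∀ i : S, x i ≤ (n (Finsupp.single (i : ℕ) 1))⁻¹ := by
    intro x hx i
    have h1 : n (x i • Finsupp.single (i : ℕ) (1 : ℝ)) ≤ n (loz_inc S x) := by
      apply hn
      intro j
      by_cases hj : j = i
      · subst hj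
        rw [loz_inc_mem x i.2]
        simp
      · simp [Ne.symm hj]
    rw [map_smul_eq_mul, Real.norm_eq_abs, abs_of_nonneg (hx.1 i)] at h1
    have h2 := h1.trans hx.2
    rw [← one_div]
    exact (le_div_iff₀ (he i)).mpr h2
  have hclosed : IsClosed Kc := by
    have h1 : IsClosed {x : S → ℝ | ∀ i, 0 ≤ x i} := by
      simp only [Set.ofPred_forall]
      exact isClosed_iInter fun i => isClosed_le continuous_const (continuous_apply i)
    have h2 : IsClosed {x : S → ℝ | n (loz_inc S x) ≤ 1} :=
      isClosed_le (loz_cont n S) continuous_const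
    exact h1.inter h2
  have hcomp : IsCompact Kc := by
    have hbox : IsCompact (Set.pi Set.univ fun i : S =>
        Set.Icc (0 : ℝ) (n (Finsupp.single (i : ℕ) 1))⁻¹) :=
      isCompact_univ_pi fun i => isCompact_Icc
    refine hbox.of_isClosed_subset hclosed fun x hx i _ => ⟨hx.1 i, hcoord x hx i⟩
  have hne : Kc.Nonempty := ⟨0, fun i => le_rfl, by simp⟩
  -- the product
  set P : (S → ℝ) → ℝ := fun x => ∏ i : S, x i ^ h i with hP
  have hPc : Continuous P := by
    refine continuous_finsetProd _ fun i _ => ?_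
    exact (Real.continuous_rpow_const (hpos i i.2).le).comp (continuous_apply i)
  obtain ⟨x0, hx0, hmax⟩ := hcomp.exists_isMaxOn hne hPc.continuousOn
  -- a point with positive coordinates
  obtain ⟨c, hc, hcK⟩ : ∃ c : ℝ, 0 < c ∧ (fun _ : S => c) ∈ Kc := by
    set B := n (loz_inc S (fun _ : S => (1 : ℝ))) with hB
    have hB0 : 0 ≤ B := apply_nonneg _ _
    refine ⟨(B + 1)⁻¹, by positivity, fun i => by positivity, ?_⟩
    have e : (fun _ : S => (B + 1)⁻¹) = (B + 1)⁻¹ • (fun _ : S => (1 : ℝ)) := by
      funext i; simp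
    rw [e, map_smul, map_smul_eq_mul, Real.norm_eq_abs, abs_of_pos (by positivity), ← hB,
      inv_mul_le_iff₀ (by positivity)]
    linarith
  have hPc0 : 0 < P (fun _ : S => c) := Finset.prod_pos fun i _ => Real.rpow_pos_of_pos hc _
  have hP0 : 0 < P x0 := lt_of_lt_of_le hPc0 (hmax hcK)
  have hx0pos : ∀ i, 0 < x0 i := by
    intro i
    refine lt_of_le_of_ne (hx0.1 i) fun hi => ?_
    have : P x0 = 0 := by
      simp only [hP]
      apply Finset.prod_eq_zero (Finset.mem_univ i)
      rw [← hi, Real.zero_rpow (hpos i i.2).ne']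
    rw [this] at hP0
    exact lt_irrefl _ hP0
  set y : E := loz_inc S x0 with hy
  have hyS : ∀ i (hi : i ∈ S), y i = x0 ⟨i, hi⟩ := fun i hi => loz_inc_mem x0 hi
  have hyN : ∀ i, i ∉ S → y i = 0 := fun i hi => loz_inc_not x0 hi
  have hypos : ∀ i ∈ S, 0 < y i := fun i hi => by rw [hyS i hi]; exact hx0pos _
  have hynn : ∀ i, 0 ≤ y i := fun i => by
    by_cases hi : i ∈ S
    · exact (hypos i hi).le
    · rw [hyN i hi]
  have hysupp : y.support = S := by
    ext i
    rw [Finsupp.mem_support_iff]
    by_cases hi : i ∈ S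
    · exact ⟨fun _ => hi, fun _ => (hypos i hi).ne'⟩
    · exact ⟨fun h' => absurd (hyN i hi) h', fun h' => absurd h' hi⟩
  have hcmp : Cmp n h y := ⟨hx0.2, hypos⟩
  have hmx : ∀ x, Cmp n h x → hlog h x ≤ hlog h y := by
    intro x hx
    set z : S → ℝ := fun i => x i with hz
    have hzpos : ∀ i, 0 < z i := fun i => hx.2 i i.2
    have hzK : z ∈ Kc := by
      refine ⟨fun i => (hzpos i).le, ?_⟩
      refine (hn _ x fun i => ?_).trans hx.1
      by_cases hi : i ∈ S
      · rw [loz_inc_mem z hi]
      · rw [loz_inc_not z hi]; simp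
    have h1 : P z ≤ P x0 := hmax hzK
    have hlogP : ∀ w : S → ℝ, (∀ i, 0 < w i) → Real.log (P w) = ∑ i : S, h i * Real.log (w i) := by
      intro w hw
      simp only [hP]
      rw [Real.log_prod fun i _ => (Real.rpow_pos_of_pos (hw i) _).ne']
      exact Finset.sum_congr rfl fun i _ => Real.log_rpow (hw i) _
    have h2 := Real.log_le_log (Finset.prod_pos fun i _ => Real.rpow_pos_of_pos (hzpos i) _ :
      0 < P z) h1
    rw [hlogP z hzpos, hlogP x0 hx0pos] at h2
    unfold hlog
    rw [← hS, ← Finset.sum_coe_sort S, ← Finset.sum_coe_sort S]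
    refine h2.trans (le_of_eq ?_)
    apply Finset.sum_congr rfl
    intro i _
    rw [hyS i i.2]
  -- the quotient
  set ys : E := Finsupp.zipWith (fun a b : ℝ => a / b) (by simp) h y with hys
  have hysa : ∀ i, ys i = h i / y i := fun i => by rw [hys, Finsupp.zipWith_apply]
  have hyssupp : ys.support = S := by
    ext i
    rw [Finsupp.mem_support_iff, hysa]
    by_cases hi : i ∈ S
    · exact ⟨fun _ => hi, fun _ => (div_pos (hpos i hi) (hypos i hi)).ne'⟩
    · have h0 : h i = 0 := by simpa [hS] using hi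
      rw [h0, zero_div]
      exact ⟨fun h' => absurd rfl h', fun h' => absurd h' hi⟩
  refine ⟨y, ys, hcmp, hmx, hysupp, hyssupp, hynn, fun i => ?_, fun i => ?_, ?_⟩
  · rw [hysa]; exact div_nonneg (hh.1 i) (hynn i)
  · rw [hysa]
    by_cases hi : i ∈ S
    · exact mul_div_cancel₀ _ (hypos i hi).ne'
    · have h0 : h i = 0 := by simpa [hS] using hi
      rw [h0]; simp
  · apply loz_pr_le hd
    intro x hx
    rw [pr_eq_sum' (S := S) (by rw [hyssupp])]
    -- direction
    set r : ℕ → ℝ := fun i => |x i| / y i - 1 with hr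
    have key : ∀ t : ℝ, 0 < t → t ≤ 1 / 2 → ∑ i ∈ S, h i * r i ≤ t * (2 * ∑ i ∈ S, h i * r i ^ 2) := by
      intro t ht ht2
      set z : E := (1 - t) • y + t • loz_inc S (fun i : S => |x i|) with hz
      have hzS : ∀ i ∈ S, z i = y i * (1 + t * r i) := by
        intro i hi
        have ha : loz_inc S (fun i : S => |x i|) i = |x i| := loz_inc_mem _ hi
        rw [hz, Finsupp.add_apply, Finsupp.smul_apply, Finsupp.smul_apply, ha]
        simp only [smul_eq_mul, hr]
        have := (hypos i hi).ne'
        field_simp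
        ring
      have hr1 : ∀ i ∈ S, -1 ≤ r i := by
        intro i hi
        simp only [hr]
        have : 0 ≤ |x i| / y i := div_nonneg (abs_nonneg _) (hynn i)
        linarith
      have hfac : ∀ i ∈ S, 1 / 2 ≤ 1 + t * r i := by
        intro i hi
        nlinarith [hr1 i hi]
      have hzc : Cmp n h z := by
        constructor
        · have h1 : n (loz_inc S (fun i : S => |x i|)) ≤ 1 := by
            refine (hn _ x fun i => ?_).trans hx
            by_cases hi : i ∈ S
            · rw [loz_inc_mem _ hi, abs_abs]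
            · rw [loz_inc_not _ hi]; simp
          calc n z ≤ n ((1 - t) • y) + n (t • loz_inc S (fun i : S => |x i|)) :=
                map_add_le_add n _ _
            _ = (1 - t) * n y + t * n (loz_inc S (fun i : S => |x i|)) := by
                rw [map_smul_eq_mul, map_smul_eq_mul, Real.norm_eq_abs, Real.norm_eq_abs,
                  abs_of_pos (by linarith : (0 : ℝ) < 1 - t), abs_of_pos ht]
            _ ≤ (1 - t) * 1 + t * 1 := by
                have := hx0.2
                have h3 : (0 : ℝ) ≤ 1 - t := by linarith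
                gcongr
            _ = 1 := by ring
        · intro i hi
          rw [hzS i hi]
          have := hfac i hi
          have := hypos i hi
          positivity
      have h1 := hmx z hzc
      unfold hlog at h1
      rw [← hS] at h1
      have h2 : ∑ i ∈ S, h i * Real.log (z i) =
          ∑ i ∈ S, h i * Real.log (y i) + ∑ i ∈ S, h i * Real.log (1 + t * r i) := by
        rw [← Finset.sum_add_distrib]
        apply Finset.sum_congr rfl
        intro i hi
        have := hfac i hi
        rw [hzS i hi, Real.log_mul (hypos i hi).ne' (by linarith)]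
        ring
      rw [h2] at h1
      have h3 : ∑ i ∈ S, h i * (t * r i - 2 * t ^ 2 * r i ^ 2) ≤
          ∑ i ∈ S, h i * Real.log (1 + t * r i) := by
        apply Finset.sum_le_sum
        intro i hi
        have hf := hfac i hi
        have hf0 : 0 < 1 + t * r i := by linarith
        have h4 := Real.one_sub_inv_le_log_of_pos hf0
        refine mul_le_mul_of_nonneg_left (le_trans ?_ h4) (hpos i hi).le
        have h5 : 1 - (1 + t * r i)⁻¹ = t * r i / (1 + t * r i) := by
          field_simp
          ring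
        rw [h5, le_div_iff₀ hf0]
        have h6 : 0 ≤ (t * r i) ^ 2 * (2 * (t * r i) + 1) := by
          apply mul_nonneg (sq_nonneg _)
          linarith
        nlinarith [h6]
      have h7 : ∑ i ∈ S, h i * (t * r i - 2 * t ^ 2 * r i ^ 2) =
          t * ∑ i ∈ S, h i * r i - t * (t * (2 * ∑ i ∈ S, h i * r i ^ 2)) := by
        rw [Finset.mul_sum, Finset.mul_sum, Finset.mul_sum, Finset.mul_sum,
          ← Finset.sum_sub_distrib]
        apply Finset.sum_congr rfl
        intro i _
        ring
      rw [h7] at h3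
      have h8 : t * ∑ i ∈ S, h i * r i ≤ t * (t * (2 * ∑ i ∈ S, h i * r i ^ 2)) := by linarith
      exact le_of_mul_le_mul_left h8 ht
    have hle : ∑ i ∈ S, h i * r i ≤ 0 := by
      set B := 2 * ∑ i ∈ S, h i * r i ^ 2 with hB
      have hB0 : 0 ≤ B := by
        have : 0 ≤ ∑ i ∈ S, h i * r i ^ 2 :=
          Finset.sum_nonneg fun i hi => mul_nonneg (hpos i hi).le (sq_nonneg _)
        linarith
      by_contra hcon
      push Not at hcon
      set A := ∑ i ∈ S, h i * r i
      have h1 := key (min (1 / 2) (A / (2 * (B + 1)))) (by positivity) (min_le_left _ _)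
      have h2 : min (1 / 2) (A / (2 * (B + 1))) * B ≤ A / (2 * (B + 1)) * B :=
        mul_le_mul_of_nonneg_right (min_le_right _ _) hB0
      have h3 : A / (2 * (B + 1)) * B ≤ A / 2 := by
        rw [div_mul_eq_mul_div, div_le_div_iff₀ (by positivity) (by norm_num)]
        nlinarith
      linarith
    have e1 : ∑ i ∈ S, h i * r i = ∑ i ∈ S, |ys i| * |x i| - 1 := by
      have e2 : (1 : ℝ) = ∑ i ∈ S, h i := hh.2.symm
      rw [e2, ← Finset.sum_sub_distrib]
      apply Finset.sum_congr rfl
      intro i hi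
      rw [hysa, abs_of_nonneg (div_nonneg (hh.1 i) (hynn i))]
      simp only [hr]
      ring
    linarith


alias loz := loz_pr

end Pool.Agent.Lib_helper25.AD
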