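import Pool.Agent.Lib_helper25.AD.Base
import Pool.Agent.Lib_helper25.AD.Blk.SUP

/-!
# AD, block NS: the norm of Schlumprecht's space, basic facts
-/

set_option autoImplicit false

open Finset Filter Topology

namespace Pool.Agent.Lib_helper25.AD

theorem ns_suc_mono {l m : ℕ} (h : l ≤ m) {x : ℕ → E} (hx : Suc m x) : Suc l x :=
  fun i j hij hj => hx i j hij (lt_of_lt_of_le hj h)

theorem ns_bef_dis {u v : E} (h : Bef u v) : Dis u v := by
  rw [Dis, Finset.disjoint_left]
  intro a ha hb
  exact lt_irrefl a (h a ha a hb)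

theorem ns_sum_supp (l : ℕ) (x : ℕ → E) {i : ℕ} (hi : i ∈ (∑ k ∈ range l, x k).support) :
    ∃ k < l, i ∈ (x k).support := by
  by_contra hcon
  push Not at hcon
  rw [Finsupp.mem_support_iff, Finsupp.finset_sum_apply] at hi
  apply hi
  apply Finset.sum_eq_zero
  intro k hk
  have := hcon k (mem_range.1 hk)
  simpa using this

theorem ns_dis {l : ℕ} {x : ℕ → E} (hx : Suc (l + 1) x) : Dis (∑ k ∈ range l, x k) (x l) := by
  rw [Dis, Finset.disjoint_left]
  intro a ha hb
  obtain ⟨k, hk, hka⟩ := ns_sum_supp l x ha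
  exact lt_irrefl a (hx k l hk (Nat.lt_succ_self l) a hka a hb)

theorem ns_pr_sum (g : E) (x : ℕ → E) : ∀ l, Suc l x →
    pr g (∑ k ∈ range l, x k) = ∑ k ∈ range l, pr g (x k)
  | 0, _ => by simp [pr]
  | l + 1, hx => by
    rw [sum_range_succ, sum_range_succ, pr_add_dis g (ns_dis hx),
      ns_pr_sum g x l (ns_suc_mono (Nat.le_succ l) hx)]

theorem ns_fS_pos {l : ℕ} (hl : 1 ≤ l) : 0 < fS l := lt_of_lt_of_le one_pos (fS_ge_one hl)

/-- at most one member of a successive sequence is nonzero at `i` -/
theorem ns_sum_apply {l : ℕ} {x : ℕ → E} (hx : Suc l x) (i : ℕ) :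
    (∑ k ∈ range l, x k) i = 0 ∨ ∃ k < l, (∑ k ∈ range l, x k) i = x k i := by
  by_cases h : ∃ k < l, x k i ≠ 0
  · obtain ⟨k, hk, hki⟩ := h
    right
    refine ⟨k, hk, ?_⟩
    rw [Finsupp.finset_sum_apply, Finset.sum_eq_single k]
    · intro b hb hbk
      by_contra hbi
      have h1 : i ∈ (x k).support := by simpa using hki
      have h2 : i ∈ (x b).support := by simpa using hbi
      rcases lt_or_gt_of_ne hbk with h3 | h3
      · exact lt_irrefl i (hx b k h3 hk i h2 i h1)
      · exact lt_irrefl i (hx k b h3 (mem_range.1 hb) i h1 i h2)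
    · intro hk'
      exact absurd (mem_range.2 hk) hk'
  · left
    push Not at h
    rw [Finsupp.finset_sum_apply]
    exact Finset.sum_eq_zero fun k hk => h k (mem_range.1 hk)

/-- NS1 -/
theorem KK_coord_pr {g : E} (h : KK g) : ∀ i, 0 ≤ g i ∧ g i ≤ 1 := by
  induction h with
  | zero => intro i; simp
  | single j =>
    intro i
    rw [Finsupp.single_apply]
    split_ifs <;> norm_num
  | node l g hl hg hs ih =>
    intro i
    have h1 : 1 ≤ fS l := fS_ge_one (by omega)
    have h0 : 0 < fS l := by linarith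
    have hinv : (fS l)⁻¹ ≤ 1 := inv_le_one_of_one_le₀ h1
    have hinv0 : 0 ≤ (fS l)⁻¹ := inv_nonneg.2 h0.le
    rw [Finsupp.smul_apply, smul_eq_mul]
    rcases ns_sum_apply (x := g) hs i with h2 | ⟨k, hk, h2⟩
    · rw [h2]; simp
    · rw [h2]
      obtain ⟨h3, h4⟩ := ih k hk i
      exact ⟨mul_nonneg hinv0 h3, mul_le_one₀ hinv h3 h4⟩

/-- NS1 -/
theorem exists_NS_pr : ∃ n : Seminorm ℝ E, IsNS n := by
  obtain ⟨μ, h1, h2, h3⟩ := exists_sup {g | KK g} ⟨0, KK.zero⟩ (by
    intro i
    refine ⟨1, fun g hg => ?_⟩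
    obtain ⟨h1, h2⟩ := KK_coord_pr hg i
    rw [abs_of_nonneg h1]
    exact h2)
  exact ⟨μ, h1, fun g x hg => h2 g hg x, fun x b hb => h3 x b hb⟩

/-- NS2 -/
theorem KK_res_pr {g : E} (h : KK g) (A : Set ℕ) : KK (res A g) := by
  induction h with
  | zero =>
    rw [map_zero]
    exact KK.zero
  | single j =>
    by_cases hj : j ∈ A
    · have : res A (Finsupp.single j (1 : ℝ)) = Finsupp.single j 1 := by
        apply res_self
        intro i hi
        have := Finsupp.support_single_subset hi
        rw [Finset.mem_singleton] at this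
        rw [this]
        exact hj
      rw [this]
      exact KK.single j
    · have : res A (Finsupp.single j (1 : ℝ)) = 0 := by
        apply res_eq_zero
        intro i hi
        have := Finsupp.support_single_subset hi
        rw [Finset.mem_singleton] at this
        rw [this]
        exact hj
      rw [this]
      exact KK.zero
  | node l g hl hg hs ih =>
    rw [map_smul, map_sum]
    refine KK.node l (fun k => res A (g k)) hl ih ?_
    intro i j hij hj a ha b hb
    exact hs i j hij hj a (supp_res_subset _ _ ha) b (supp_res_subset _ _ hb)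

/-- NS2 -/
theorem ns_basic_pr {n : Seminorm ℝ E} (hn : IsNS n) (x : E) :
    (∀ i, |x i| ≤ n x) ∧ n x ≤ mass x := by
  constructor
  · intro i
    have h1 := hn.ge (Finsupp.single i 1) x (KK.single i)
    have h2 : pr (Finsupp.single i 1) x = |x i| := by
      rw [pr_eq_sum' (S := {i}) Finsupp.support_single_subset, Finset.sum_singleton,
        Finsupp.single_eq_same, abs_one, one_mul]
    rw [h2] at h1
    exact h1
  · apply hn.le
    intro g hg
    rw [pr, mass]
    apply Finset.sum_le_sum
    intro i _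
    obtain ⟨h1, h2⟩ := KK_coord_pr hg i
    rw [abs_of_nonneg h1]
    exact mul_le_of_le_one_left (abs_nonneg _) h2

/-- NS3 -/
theorem ns_lower_pr {n : Seminorm ℝ E} (hn : IsNS n) (l : ℕ) (x : ℕ → E) (hx : Suc l x) :
    ∑ k ∈ range l, n (x k) ≤ fS l * n (∑ k ∈ range l, x k) := by
  rcases Nat.lt_or_ge l 2 with hl | hl
  · have h1 : l = 0 ∨ l = 1 := by omega
    rcases h1 with rfl | rfl
    · simp
    · have h2 : fS 1 = 1 := by simp [fS]
      simp [h2]
  · have hf : 0 < fS l := ns_fS_pos (by omega)
    apply le_of_forall_pos_le_add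
    intro ε hε
    have hl0 : (0 : ℝ) < l := by
      have : 0 < l := by omega
      exact_mod_cast this
    have hεl : 0 < ε / l := div_pos hε hl0
    -- norming functionals
    have hg : ∀ k, ∃ g : E, KK g ∧ g.support ⊆ (x k).support ∧ n (x k) - ε / l < pr g (x k) := by
      intro k
      by_contra hcon
      push Not at hcon
      have h1 : n (x k) ≤ n (x k) - ε / l := by
        apply hn.le
        intro g hg
        have h2 := hcon (res ((x k).support : Set ℕ) g) (KK_res_pr hg _) (by
          intro i hi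
          have := (mem_supp_res.1 hi).2
          exact_mod_cast this)
        have h3 : pr (res ((x k).support : Set ℕ) g) (x k) = pr g (x k) := by
          rw [pr, pr]
          apply Finset.sum_congr rfl
          intro i hi
          rw [res_apply_mem (by exact_mod_cast hi)]
        rw [← h3]
        exact h2
      linarith
    choose g hgK hgs hgp using hg
    have hsuc : ∀ i j, i < j → j < l → Bef (g i) (g j) := fun i j hij hj a ha b hb =>
      hx i j hij hj a (hgs i ha) b (hgs j hb)
    have h1 := hn.ge _ (∑ k ∈ range l, x k) (KK.node l g hl (fun k _ => hgK k) hsuc)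
    rw [pr_comm, pr_smul, ns_pr_sum _ g l hsuc, abs_of_pos (inv_pos.2 hf)] at h1
    have h2 : ∑ k ∈ range l, (n (x k) - ε / l) ≤
        ∑ k ∈ range l, pr (∑ j ∈ range l, x j) (g k) := by
      apply Finset.sum_le_sum
      intro k hk
      rw [pr_comm, ns_pr_sum _ x l hx]
      refine le_trans (hgp k).le ?_
      exact Finset.single_le_sum (f := fun j => pr (g k) (x j)) (fun j _ => pr_nonneg _ _) hk
    rw [Finset.sum_sub_distrib, Finset.sum_const, card_range, nsmul_eq_mul,
      mul_div_cancel₀ _ hl0.ne'] at h2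
    have h3 : ∑ k ∈ range l, pr (∑ j ∈ range l, x j) (g k) ≤ fS l * n (∑ k ∈ range l, x k) := by
      rw [inv_mul_le_iff₀ hf] at h1
      exact h1
    linarith

alias KK_coord := KK_coord_pr

alias exists_NS := exists_NS_pr

alias KK_res := KK_res_pr

alias ns_basic := ns_basic_pr

alias ns_lower := ns_lower_pr

end Pool.Agent.Lib_helper25.AD
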