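import Pool.Agent.Lib_helper25.AD.Base
import Pool.Agent.Lib_helper25.AD.Blk.LOZ
import Pool.Agent.Lib_helper25.AD.Blk.NS

set_option autoImplicit false

open Finset Filter Topology

namespace Pool.Agent.Lib_helper25.AD

/-- ENT1 -/
theorem ent_eq_pr (n : Seminorm ℝ E) (h y ys : E) (hm : IsMx n h y ys) : Ent n h = hlog h y := by
  unfold Ent
  apply IsGreatest.csSup_eq
  refine ⟨⟨y, hm.cmp, rfl⟩, ?_⟩
  rintro e ⟨x, hx, rfl⟩
  exact hm.mx x hx

theorem ent_dfn {n : Seminorm ℝ E} (hn : IsNS n) : Dfn n := by
  intro x hx
  obtain ⟨i, hi⟩ := Finsupp.support_nonempty_iff.mpr hx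
  have h1 : 0 < |x i| := abs_pos.mpr (by simpa using hi)
  exact lt_of_lt_of_le h1 ((ns_basic hn x).1 i)

/-- competitors give lower bounds for the entropy -/
theorem ent_ge {n : Seminorm ℝ E} (hn : IsNS n) {h x : E} (hh : Prob h) (hx : Cmp n h x) :
    hlog h x ≤ Ent n h := by
  obtain ⟨y, ys, hm⟩ := loz n hn.lat (ent_dfn hn) h hh
  rw [ent_eq_pr n h y ys hm]
  exact hm.mx x hx

theorem ent_disj {N : ℕ} {h : ℕ → E} (hs : Suc N h) {i j : ℕ} (hi : i < N) (hj : j < N)
    (hij : i ≠ j) {t : ℕ} (ht : t ∈ (h i).support) : t ∉ (h j).support := by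
  intro htj
  rcases lt_or_gt_of_ne hij with h1 | h1
  · exact absurd (hs i j h1 hj t ht t htj) (lt_irrefl _)
  · exact absurd (hs j i h1 hi t htj t ht) (lt_irrefl _)

theorem av_apply (h : ℕ → E) (J : Finset ℕ) (t : ℕ) :
    av h J t = ((J.card : ℝ))⁻¹ * ∑ i ∈ J, h i t := by
  unfold av
  rw [Finsupp.smul_apply, Finsupp.finsetSum_apply, smul_eq_mul]

theorem ent_sum_at {N : ℕ} {h : ℕ → E} (hs : Suc N h) {i : ℕ} (hi : i < N) {t : ℕ}
    (ht : t ∈ (h i).support) (f : ℕ → ℕ → ℝ) (hf : ∀ j < N, t ∉ (h j).support → f j t = 0) :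
    ∑ j ∈ range N, f j t = f i t := by
  apply Finset.sum_eq_single_of_mem i (mem_range.mpr hi)
  intro j hj hji
  exact hf j (mem_range.mp hj) (ent_disj hs hi (mem_range.mp hj) (Ne.symm hji) ht)

theorem ent_supp {N : ℕ} (hN : 1 ≤ N) {h : ℕ → E} (hp : ∀ i < N, Prob (h i)) :
    (av h (range N)).support = (range N).biUnion fun i => (h i).support := by
  ext t
  rw [Finsupp.mem_support_iff, av_apply, Finset.mem_biUnion]
  have hN' : (0 : ℝ) < N := by exact_mod_cast hN
  rw [card_range]
  constructor
  · intro h1
    by_contra hcon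
    push Not at hcon
    apply h1
    have : ∑ i ∈ range N, h i t = 0 := Finset.sum_eq_zero fun i hi => by
      have := hcon i hi
      simpa using this
    rw [this, mul_zero]
  · rintro ⟨i, hi, ht⟩
    have h1 : 0 < ∑ j ∈ range N, h j t := by
      apply Finset.sum_pos'
      · intro j hj
        exact (hp j (mem_range.mp hj)).1 t
      · refine ⟨i, hi, lt_of_le_of_ne ((hp i (mem_range.mp hi)).1 t) (Ne.symm ?_)⟩
        simpa using ht
    positivity

/-- integration against the average -/
theorem ent_int {N : ℕ} (hN : 1 ≤ N) {h : ℕ → E} (hp : ∀ i < N, Prob (h i)) (hs : Suc N h)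
    (f : ℕ → ℝ) : ∑ t ∈ (av h (range N)).support, av h (range N) t * f t =
      (N : ℝ)⁻¹ * ∑ i ∈ range N, ∑ t ∈ (h i).support, h i t * f t := by
  rw [ent_supp hN hp, Finset.sum_biUnion]
  · rw [Finset.mul_sum]
    apply Finset.sum_congr rfl
    intro i hi
    rw [Finset.mul_sum]
    apply Finset.sum_congr rfl
    intro t ht
    rw [av_apply, card_range, ent_sum_at hs (mem_range.mp hi) ht (fun j t => h j t)
      (fun j _ hj => by simpa using hj)]
    ring
  · intro i hi j hj hij
    rw [Function.onFun, Finset.disjoint_left]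
    intro t ht
    exact ent_disj hs (mem_range.mp (by simpa using hi)) (mem_range.mp (by simpa using hj)) hij ht

theorem ent_av_prob {N : ℕ} (hN : 1 ≤ N) {h : ℕ → E} (hp : ∀ i < N, Prob (h i))
    (hs : Suc N h) : Prob (av h (range N)) := by
  have hN' : (0 : ℝ) < N := by exact_mod_cast hN
  constructor
  · intro t
    rw [av_apply]
    have : 0 ≤ ∑ i ∈ range N, h i t :=
      Finset.sum_nonneg fun i hi => (hp i (mem_range.mp hi)).1 t
    positivity
  · have := ent_int hN hp hs (fun _ => 1)
    simp only [mul_one] at this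
    rw [this, Finset.sum_congr rfl (fun i hi => (hp i (mem_range.mp hi)).2)]
    simp
    field_simp

/-- ENT2 (cites LOZ, ENT1, NS3) -/
theorem ent_gain_pr {n : Seminorm ℝ E} (hn : IsNS n) (N : ℕ) (hN : 1 ≤ N) (h : ℕ → E)
    (hp : ∀ i < N, Prob (h i)) (hs : Suc N h) :
    0 ≤ Ent n (av h (range N)) - ((N : ℝ))⁻¹ * ∑ i ∈ range N, Ent n (h i) + Real.log N ∧
      Ent n (av h (range N)) - ((N : ℝ))⁻¹ * ∑ i ∈ range N, Ent n (h i) + Real.log N ≤
        Real.log (fS N) := by
  have hN' : (0 : ℝ) < N := by exact_mod_cast hN
  have hdf := ent_dfn hn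
  have hH := ent_av_prob hN hp hs
  set H := av h (range N) with hHdef
  constructor
  · -- lower bound
    have hex : ∀ i, ∃ y : E, i < N → ∃ ys, IsMx n (h i) y ys := by
      intro i
      by_cases hi : i < N
      · obtain ⟨y, ys, hm⟩ := loz n hn.lat hdf (h i) (hp i hi)
        exact ⟨y, fun _ => ⟨ys, hm⟩⟩
      · exact ⟨0, fun h' => absurd h' hi⟩
    choose y hy using hex
    have hys : ∀ i < N, (y i).support = (h i).support := fun i hi => by
      obtain ⟨ys, hm⟩ := hy i hi
      exact hm.supp
    set x : E := (N : ℝ)⁻¹ • ∑ i ∈ range N, y i with hx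
    have hxa : ∀ t, x t = (N : ℝ)⁻¹ * ∑ i ∈ range N, y i t := fun t => by
      rw [hx, Finsupp.smul_apply, Finsupp.finsetSum_apply, smul_eq_mul]
    have hxi : ∀ i < N, ∀ t ∈ (h i).support, x t = (N : ℝ)⁻¹ * y i t := by
      intro i hi t ht
      rw [hxa, ent_sum_at hs hi ht (fun j t => y j t)]
      intro j hj htj
      rw [← hys j hj] at htj
      simpa using htj
    have hypos : ∀ i < N, ∀ t ∈ (h i).support, 0 < y i t := by
      intro i hi t ht
      obtain ⟨ys, hm⟩ := hy i hi
      exact hm.cmp.2 t ht
    have hcmp : Cmp n H x := by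
      constructor
      · rw [hx, map_smul_eq_mul, Real.norm_eq_abs, abs_of_pos (by positivity)]
        have h1 : n (∑ i ∈ range N, y i) ≤ ∑ i ∈ range N, n (y i) :=
          Finset.le_sum_of_subadditive n (map_zero n).le (map_add_le_add n) _ _
        have h2 : ∑ i ∈ range N, n (y i) ≤ ∑ i ∈ range N, (1 : ℝ) := by
          apply Finset.sum_le_sum
          intro i hi
          obtain ⟨ys, hm⟩ := hy i (mem_range.mp hi)
          exact hm.cmp.1
        rw [Finset.sum_const, card_range, nsmul_eq_mul, mul_one] at h2
        rw [inv_mul_le_iff₀ hN', mul_one]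
        exact h1.trans h2
      · intro t ht
        rw [hHdef, ent_supp hN hp, Finset.mem_biUnion] at ht
        obtain ⟨i, hi, ht⟩ := ht
        rw [hxi i (mem_range.mp hi) t ht]
        have := hypos i (mem_range.mp hi) t ht
        positivity
    have h1 := ent_ge hn hH hcmp
    have h2 : hlog H x = (N : ℝ)⁻¹ * ∑ i ∈ range N, Ent n (h i) - Real.log N := by
      unfold hlog
      rw [hHdef, ent_int hN hp hs (fun t => Real.log (x t))]
      have h3 : ∀ i ∈ range N, ∑ t ∈ (h i).support, h i t * Real.log (x t) =
          Ent n (h i) - Real.log N := by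
        intro i hi
        have hi' := mem_range.mp hi
        obtain ⟨ys, hm⟩ := hy i hi'
        rw [ent_eq_pr n (h i) (y i) ys hm]
        unfold hlog
        have h4 : Real.log N = ∑ t ∈ (h i).support, h i t * Real.log N := by
          rw [← Finset.sum_mul, (hp i hi').2, one_mul]
        rw [h4, ← Finset.sum_sub_distrib]
        apply Finset.sum_congr rfl
        intro t ht
        have := hypos i hi' t ht
        rw [hxi i hi' t ht, Real.log_mul (by positivity) this.ne', Real.log_inv]
        ring
      rw [Finset.sum_congr rfl h3, Finset.sum_sub_distrib, Finset.sum_const, card_range,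
        nsmul_eq_mul, mul_sub, ← mul_assoc, inv_mul_cancel₀ hN'.ne', one_mul]
    rw [h2] at h1
    linarith
  · -- upper bound
    obtain ⟨y, ys, hm⟩ := loz n hn.lat hdf H hH
    rw [ent_eq_pr n H y ys hm]
    have hypos : ∀ i < N, ∀ t ∈ (h i).support, 0 < y t := by
      intro i hi t ht
      apply hm.cmp.2 t
      rw [hHdef, ent_supp hN hp, Finset.mem_biUnion]
      exact ⟨i, mem_range.mpr hi, ht⟩
    set u : ℕ → E := fun i => res (h i).support y with hu
    have hsu : Suc N u := by
      intro i j hij hj a ha b hb
      have h1 := (mem_supp_res.mp ha).2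
      have h2 := (mem_supp_res.mp hb).2
      exact hs i j hij hj a (by simpa using h1) b (by simpa using h2)
    have hsum : ∑ i ∈ range N, u i = y := by
      ext t
      rw [Finsupp.finsetSum_apply]
      by_cases ht : t ∈ y.support
      · have ht' := ht
        rw [hm.supp, hHdef, ent_supp hN hp, Finset.mem_biUnion] at ht'
        obtain ⟨i, hi, hti⟩ := ht'
        rw [ent_sum_at hs (mem_range.mp hi) hti (fun j t => u j t)]
        · simp only [hu]
          exact res_apply_mem (by simpa using hti) y
        · intro j _ hj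
          simp only [hu]
          exact res_apply_not_mem (by simpa using hj) y
      · have h0 : y t = 0 := by simpa using ht
        rw [h0]
        apply Finset.sum_eq_zero
        intro j _
        simp only [hu]
        rw [res_apply]
        split_ifs
        · exact h0
        · rfl
    have hlow := ns_lower hn N u hsu
    rw [hsum] at hlow
    have hf1 : 0 < fS N := lt_of_lt_of_le one_pos (fS_ge_one hN)
    have hlow2 : ∑ k ∈ range N, n (u k) ≤ fS N :=
      hlow.trans (by
        have := hm.cmp.1
        nlinarith)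
    have hupos : ∀ i < N, 0 < n (u i) := by
      intro i hi
      apply hdf
      have hne : (h i).support.Nonempty := by
        rw [Finset.nonempty_iff_ne_empty]
        intro h0
        have := (hp i hi).2
        rw [h0] at this
        simp at this
      obtain ⟨t, ht⟩ := hne
      intro h0
      have h1 : u i t = 0 := by rw [h0]; rfl
      simp only [hu] at h1
      rw [res_apply_mem (by simpa using ht) y] at h1
      exact absurd h1 (hypos i hi t ht).ne'
    have hstep : ∀ i ∈ range N, ∑ t ∈ (h i).support, h i t * Real.log (y t) ≤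
        Ent n (h i) + Real.log (n (u i)) := by
      intro i hi
      have hi' := mem_range.mp hi
      have hpos := hupos i hi'
      have hc : Cmp n (h i) ((n (u i))⁻¹ • u i) := by
        constructor
        · rw [map_smul_eq_mul, Real.norm_eq_abs, abs_of_pos (by positivity),
            inv_mul_cancel₀ hpos.ne']
        · intro t ht
          rw [Finsupp.smul_apply, smul_eq_mul]
          simp only [hu]
          rw [res_apply_mem (by simpa using ht) y]
          have := hypos i hi' t ht
          simp only [hu] at hpos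
          positivity
      have h1 := ent_ge hn (hp i hi') hc
      have h2 : hlog (h i) ((n (u i))⁻¹ • u i) =
          ∑ t ∈ (h i).support, h i t * Real.log (y t) - Real.log (n (u i)) := by
        have h4 : Real.log (n (u i)) = ∑ t ∈ (h i).support, h i t * Real.log (n (u i)) := by
          rw [← Finset.sum_mul, (hp i hi').2, one_mul]
        unfold hlog
        rw [h4, ← Finset.sum_sub_distrib]
        apply Finset.sum_congr rfl
        intro t ht
        have h5 : u i t = y t := by
          simp only [hu]
          exact res_apply_mem (by simpa using ht) y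
        rw [Finsupp.smul_apply, smul_eq_mul, h5, Real.log_mul (by positivity)
          (hypos i hi' t ht).ne', Real.log_inv]
        ring
      rw [h2] at h1
      linarith
    have h1 : hlog H y ≤ (N : ℝ)⁻¹ * ∑ i ∈ range N, (Ent n (h i) + Real.log (n (u i))) := by
      unfold hlog
      rw [hHdef, ent_int hN hp hs (fun t => Real.log (y t))]
      exact mul_le_mul_of_nonneg_left (Finset.sum_le_sum hstep) (by positivity)
    rw [Finset.sum_add_distrib, mul_add] at h1
    have h2 : ∑ i ∈ range N, Real.log (n (u i)) ≤ N * (Real.log (fS N) - Real.log N) := by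
      have hc : 0 < fS N / N := by positivity
      have h3 : ∀ i ∈ range N, Real.log (n (u i)) ≤
          n (u i) / (fS N / N) - 1 + Real.log (fS N / N) := by
        intro i hi
        have hpos := hupos i (mem_range.mp hi)
        have h4 := Real.log_le_sub_one_of_pos (div_pos hpos hc)
        rw [Real.log_div hpos.ne' hc.ne'] at h4
        linarith
      refine (Finset.sum_le_sum h3).trans ?_
      rw [Finset.sum_add_distrib, Finset.sum_sub_distrib, ← Finset.sum_div, Finset.sum_const,
        Finset.sum_const, card_range, nsmul_eq_mul, nsmul_eq_mul, Real.log_div hf1.ne' hN'.ne']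
      have h5 : (∑ i ∈ range N, n (u i)) / (fS N / N) ≤ N := by
        rw [div_le_iff₀ hc]
        have : (N : ℝ) * (fS N / N) = fS N := by field_simp
        rw [this]
        exact hlow2
      linarith
    have h3 : (N : ℝ)⁻¹ * ∑ i ∈ range N, Real.log (n (u i)) ≤ Real.log (fS N) - Real.log N := by
      rw [inv_mul_le_iff₀ hN']
      exact h2
    linarith


alias ent_eq := ent_eq_pr

alias ent_gain := ent_gain_pr

end Pool.Agent.Lib_helper25.AD
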