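import Pool.Agent.Lib_helper25.AD.Base

/-!
# MP_a4bf89_an: block ENUM
-/

set_option autoImplicit false

open Finset Filter Topology

namespace Pool.Agent.Lib_helper25.AD

/-- ENUM -/
theorem exists_enum_pr :
    ∃ w : ℕ → E, ∀ x : E, (∀ i, ∃ q : ℚ, x i = (q : ℝ)) → ∃ n, w n = x := by
  obtain ⟨f, hf⟩ := exists_surjective_nat (ℕ →₀ ℚ)
  refine ⟨fun n => (f n).mapRange (fun q : ℚ => (q : ℝ)) (by simp), fun x hx => ?_⟩
  choose q hq using hx
  obtain ⟨n, hn⟩ := hf (Finsupp.onFinset x.support q (by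
    intro i hi
    rw [Finsupp.mem_support_iff, hq i]
    exact_mod_cast hi))
  refine ⟨n, ?_⟩
  ext i
  show (Finsupp.mapRange (fun q : ℚ => (q : ℝ)) _ (f n)) i = x i
  rw [Finsupp.mapRange_apply, hn, Finsupp.onFinset_apply, hq i]

alias exists_enum := exists_enum_pr

end Pool.Agent.Lib_helper25.AD
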