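import Pool.Agent.Lib_helper25.AD.Base

/-!
# AD, block FAS: the frozen form of asymptotic l_p gives the colouring form
-/

set_option autoImplicit false

open Finset Filter Topology

namespace Pool.Agent.Lib_helper25.AD

/-- increasing enumeration of a finite set -/
noncomputable def fas_en (J : Finset ℕ) (l : ℕ) : ℕ :=
  if h : l < J.card then J.orderEmbOfFin rfl ⟨l, h⟩ else 0

theorem fas_en_mem {J : Finset ℕ} {l : ℕ} (h : l < J.card) : fas_en J l ∈ J := by
  rw [fas_en, dif_pos h]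
  exact Finset.orderEmbOfFin_mem J rfl _

theorem fas_en_lt {J : Finset ℕ} {l l' : ℕ} (hl : l < l') (h : l' < J.card) :
    fas_en J l < fas_en J l' := by
  rw [fas_en, fas_en, dif_pos h, dif_pos (hl.trans h)]
  exact (J.orderEmbOfFin rfl).strictMono hl

theorem fas_sum {A : Type} [AddCommMonoid A] (J : Finset ℕ) (f : ℕ → A) :
    ∑ l ∈ range J.card, f (fas_en J l) = ∑ k ∈ J, f k := by
  have h1 : ∑ k ∈ J, f k =
      ∑ k ∈ Finset.map (J.orderEmbOfFin rfl).toEmbedding Finset.univ, f k := by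
    rw [Finset.map_orderEmbOfFin_univ]
  rw [h1, Finset.sum_map, Finset.sum_range]
  apply Finset.sum_congr rfl
  intro l _
  rw [fas_en, dif_pos l.2]
  rfl

/-- FAS -/
theorem frozen_aslp_pr (p : ℝ) (hp : 1 < p) (X : Type) [NormedAddCommGroup X] [NormedSpace ℝ X]
    (e : ℕ → X) (hinj : Function.Injective (Finsupp.linearCombination ℝ e : E →ₗ[ℝ] X))
    (K : ℝ) (hK0 : 0 < K)
    (hK : ∀ (n : ℕ) (q : ℕ → ℕ) (c : ℕ → ℕ → ℝ), Monotone q → n ≤ q 0 →
            (∀ j < n, ‖∑ i ∈ Finset.Ico (q j) (q (j + 1)), c j i • e i‖ = 1) →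
            ∀ a : ℕ → ℝ,
              K⁻¹ * (∑ j ∈ Finset.range n, |a j| ^ p) ^ (1 / p) ≤
                ‖∑ j ∈ Finset.range n,
                    a j • ∑ i ∈ Finset.Ico (q j) (q (j + 1)), c j i • e i‖ ∧
              ‖∑ j ∈ Finset.range n,
                    a j • ∑ i ∈ Finset.Ico (q j) (q (j + 1)), c j i • e i‖ ≤
                K * (∑ j ∈ Finset.range n, |a j| ^ p) ^ (1 / p)) :
    ∃ K' : ℝ, 1 ≤ K' ∧
      AsLp ((normSeminorm ℝ X).comp (Finsupp.linearCombination ℝ e : E →ₗ[ℝ] X)) p K' := by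
  classical
  refine ⟨max 1 (K ^ p), le_max_left _ _, ?_⟩
  intro r s x hs hsr hx
  set φ : E →ₗ[ℝ] X := Finsupp.linearCombination ℝ e with hφ
  set ν : Seminorm ℝ E := (normSeminorm ℝ X).comp φ with hν
  have hνx : ∀ y, ν y = ‖φ y‖ := fun y => rfl
  have hp0 : 0 < p := by linarith
  have hφ0 : ∀ y, y ≠ 0 → φ y ≠ 0 := fun y hy h => hy (hinj (by rw [h, map_zero]))
  have hν0 : ∀ y, y ≠ 0 → ν y ≠ 0 := fun y hy h => hφ0 y hy (norm_eq_zero.1 h)
  set J : Finset ℕ := (range r).filter fun k => cls s k x ≠ 0 with hJ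
  set n := J.card with hn
  have hnr : n ≤ r := by
    have := Finset.card_le_card (Finset.filter_subset (fun k => cls s k x ≠ 0) (range r))
    rw [card_range] at this
    exact this
  set j : ℕ → ℕ := fas_en J with hj
  have hjne : ∀ l < n, cls s (j l) x ≠ 0 := fun l hl => (Finset.mem_filter.1 (fas_en_mem hl)).2
  set T : ℕ → Set ℕ := fun l => {i | i ∈ x.support ∧ s i = j l} with hT
  have hTne : ∀ l < n, (T l).Nonempty := by
    intro l hl
    obtain ⟨i, hi⟩ := Finsupp.support_nonempty_iff.2 (hjne l hl)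
    exact ⟨i, mem_supp_cls.1 hi⟩
  set M : ℕ := x.support.sup id + 1 with hM
  have hMx : ∀ i ∈ x.support, i < M := fun i hi =>
    Nat.lt_succ_of_le (Finset.le_sup (f := id) hi)
  set q : ℕ → ℕ := fun l => if l < n then sInf (T l) else M with hq
  have hq1 : ∀ l < n, q l ∈ x.support ∧ s (q l) = j l := by
    intro l hl
    have h1 : q l = sInf (T l) := if_pos hl
    rw [h1]
    exact Nat.sInf_mem (hTne l hl)
  have hq2 : ∀ l, n ≤ l → q l = M := fun l hl => if_neg (Nat.not_lt.2 hl)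
  have hqle : ∀ l < n, ∀ i ∈ x.support, s i = j l → q l ≤ i := by
    intro l hl i hi hsi
    have h1 : q l = sInf (T l) := if_pos hl
    rw [h1]
    exact Nat.sInf_le ⟨hi, hsi⟩
  have hqlt : ∀ l < n, ∀ i ∈ x.support, s i = j l → i < q (l + 1) := by
    intro l hl i hi hsi
    rcases Nat.lt_or_ge (l + 1) n with h | h
    · by_contra hcon
      have h1 : s (q (l + 1)) ≤ s i := hs (Nat.le_of_not_lt hcon)
      rw [(hq1 _ h).2, hsi] at h1
      exact absurd (fas_en_lt (Nat.lt_succ_self l) h) (Nat.not_lt.2 h1)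
    · rw [hq2 _ h]
      exact hMx i hi
  have hqmono : Monotone q := by
    apply monotone_nat_of_le_succ
    intro l
    rcases Nat.lt_or_ge l n with h | h
    · exact (hqlt l h (q l) (hq1 l h).1 (hq1 l h).2).le
    · rw [hq2 l h, hq2 (l + 1) (by omega)]
  have hnq : n ≤ q 0 := by
    rcases Nat.eq_zero_or_pos n with h | h
    · rw [h]; exact Nat.zero_le _
    · exact hnr.trans (hx _ (hq1 0 h).1)
  set c : ℕ → ℕ → ℝ := fun l i => (ν (cls s (j l) x))⁻¹ * (cls s (j l) x) i with hc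
  have hsum : ∀ l < n, ∑ i ∈ Finset.Ico (q l) (q (l + 1)), c l i • e i =
      (ν (cls s (j l) x))⁻¹ • φ (cls s (j l) x) := by
    intro l hl
    have h1 : φ (cls s (j l) x) = ∑ i ∈ (cls s (j l) x).support, (cls s (j l) x) i • e i := by
      rw [hφ, Finsupp.linearCombination_apply]; rfl
    have hsub : (cls s (j l) x).support ⊆ Finset.Ico (q l) (q (l + 1)) := by
      intro i hi
      obtain ⟨hi1, hi2⟩ := mem_supp_cls.1 hi
      rw [Finset.mem_Ico]
      exact ⟨hqle l hl i hi1 hi2, hqlt l hl i hi1 hi2⟩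
    have h2 : ∑ i ∈ (cls s (j l) x).support, (cls s (j l) x) i • e i =
        ∑ i ∈ Finset.Ico (q l) (q (l + 1)), (cls s (j l) x) i • e i := by
      apply Finset.sum_subset hsub
      intro i _ hi
      have h0 : (cls s (j l) x) i = 0 := by simpa using hi
      rw [h0, zero_smul]
    rw [h1, h2, Finset.smul_sum]
    apply Finset.sum_congr rfl
    intro i _
    rw [smul_smul]
  have hone : ∀ l < n, ‖∑ i ∈ Finset.Ico (q l) (q (l + 1)), c l i • e i‖ = 1 := by
    intro l hl
    rw [hsum l hl, norm_smul, norm_inv, Real.norm_eq_abs, ← hνx,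
      abs_of_nonneg (apply_nonneg ν _)]
    exact inv_mul_cancel₀ (hν0 _ (hjne l hl))
  have key := hK n q c hqmono hnq hone fun l => ν (cls s (j l) x)
  have hvec : ∑ l ∈ range n, ν (cls s (j l) x) •
      ∑ i ∈ Finset.Ico (q l) (q (l + 1)), c l i • e i = φ x := by
    have h1 : ∀ l ∈ range n, ν (cls s (j l) x) •
        ∑ i ∈ Finset.Ico (q l) (q (l + 1)), c l i • e i = φ (cls s (j l) x) := by
      intro l hl
      have hl' := mem_range.1 hl
      rw [hsum l hl', smul_smul, mul_inv_cancel₀ (hν0 _ (hjne l hl')), one_smul]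
    rw [Finset.sum_congr rfl h1, fas_sum J fun k => φ (cls s k x)]
    have h2 : ∑ k ∈ J, φ (cls s k x) = ∑ k ∈ range r, φ (cls s k x) := by
      apply Finset.sum_subset (Finset.filter_subset _ _)
      intro k hk hkJ
      have h3 : cls s k x = 0 := by
        by_contra h
        exact hkJ (Finset.mem_filter.2 ⟨hk, h⟩)
      rw [h3, map_zero]
    rw [h2, ← map_sum, sum_cls fun i _ => hsr i]
  have hS : ∑ l ∈ range n, |ν (cls s (j l) x)| ^ p = ∑ k ∈ range r, ν (cls s k x) ^ p := by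
    have h1 : ∀ l ∈ range n, |ν (cls s (j l) x)| ^ p = ν (cls s (j l) x) ^ p := by
      intro l _
      rw [abs_of_nonneg (apply_nonneg ν _)]
    rw [Finset.sum_congr rfl h1, fas_sum J fun k => ν (cls s k x) ^ p]
    apply Finset.sum_subset (Finset.filter_subset _ _)
    intro k hk hkJ
    have h3 : cls s k x = 0 := by
      by_contra h
      exact hkJ (Finset.mem_filter.2 ⟨hk, h⟩)
    rw [h3, map_zero, Real.zero_rpow hp0.ne']
  rw [hvec, hS, ← hνx] at key
  obtain ⟨k1, k2⟩ := key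
  set S := ∑ k ∈ range r, ν (cls s k x) ^ p with hSdef
  have hS0 : 0 ≤ S := Finset.sum_nonneg fun k _ => Real.rpow_nonneg (apply_nonneg ν _) p
  have hνx0 : 0 ≤ ν x := apply_nonneg ν x
  have hSp : (S ^ (1 / p)) ^ p = S := by
    rw [← Real.rpow_mul hS0, one_div, inv_mul_cancel₀ hp0.ne', Real.rpow_one]
  have hS1 : 0 ≤ S ^ (1 / p) := Real.rpow_nonneg hS0 _
  have hνp : 0 ≤ ν x ^ p := Real.rpow_nonneg hνx0 p
  constructor
  · show S ≤ max 1 (K ^ p) * ν x ^ p
    have h1 : S ^ (1 / p) ≤ K * ν x := by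
      rw [inv_mul_le_iff₀ hK0] at k1
      exact k1
    have h2 : (S ^ (1 / p)) ^ p ≤ (K * ν x) ^ p := Real.rpow_le_rpow hS1 h1 hp0.le
    rw [hSp, Real.mul_rpow hK0.le hνx0] at h2
    exact h2.trans (mul_le_mul_of_nonneg_right (le_max_right _ _) hνp)
  · show ν x ^ p ≤ max 1 (K ^ p) * S
    have h2 : ν x ^ p ≤ (K * S ^ (1 / p)) ^ p := Real.rpow_le_rpow hνx0 k2 hp0.le
    rw [Real.mul_rpow hK0.le hS1, hSp] at h2
    exact h2.trans (mul_le_mul_of_nonneg_right (le_max_right _ _) hS0)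

alias frozen_aslp := frozen_aslp_pr

end Pool.Agent.Lib_helper25.AD
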