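import Pool.Agent.Lib_helper25.AD.Base

/-!
# MP_a4bf89_an: block FBD
-/

set_option autoImplicit false

open Finset Filter Topology

namespace Pool.Agent.Lib_helper25.AD

/-- FBD -/
theorem frozen_bd_pr (X : Type) [NormedAddCommGroup X] [NormedSpace ℝ X] (D : ℝ)
    (hD : ∀ N : Seminorm ℝ X,
          (∃ α β : ℝ, 0 < α ∧ 0 < β ∧ ∀ x : X, α * ‖x‖ ≤ N x ∧ N x ≤ β * ‖x‖) →
          ∀ Y : Submodule ℝ X, ¬ FiniteDimensional ℝ Y →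
            ∃ Z : Submodule ℝ X, Z ≤ Y ∧ ¬ FiniteDimensional ℝ Z ∧
              ∀ z ∈ Z, ∀ w ∈ Z, ‖z‖ = 1 → ‖w‖ = 1 → N z ≤ D * N w) :
    BD (normSeminorm ℝ X) D := by
  intro N hN Y hY
  obtain ⟨Z, hZY, hZ, h⟩ := hD N hN Y hY
  refine ⟨Z, hZY, hZ, fun z hz w hw => ?_⟩
  rw [coe_normSeminorm]
  by_cases hz0 : z = 0
  · subst hz0
    simp
  by_cases hw0 : w = 0
  · subst hw0
    simp
  have hz1 : 0 < ‖z‖ := norm_pos_iff.2 hz0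
  have hw1 : 0 < ‖w‖ := norm_pos_iff.2 hw0
  have h1 := h (‖z‖⁻¹ • z) (Z.smul_mem _ hz) (‖w‖⁻¹ • w) (Z.smul_mem _ hw)
    (by rw [norm_smul, norm_inv, norm_norm, inv_mul_cancel₀ hz1.ne'])
    (by rw [norm_smul, norm_inv, norm_norm, inv_mul_cancel₀ hw1.ne'])
  rw [map_smul_eq_mul, map_smul_eq_mul, norm_inv, norm_norm, norm_inv, norm_norm] at h1
  have h2 := mul_le_mul_of_nonneg_left h1 (mul_pos hz1 hw1).le
  have h3 : ‖z‖ * ‖w‖ * (‖z‖⁻¹ * N z) = N z * ‖w‖ := by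
    field_simp
  have h4 : ‖z‖ * ‖w‖ * (D * (‖w‖⁻¹ * N w)) = D * (N w * ‖z‖) := by
    field_simp
  rw [h3, h4] at h2
  exact h2

alias frozen_bd := frozen_bd_pr

end Pool.Agent.Lib_helper25.AD
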