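import Pool.Agent.Lib_helper25.AD.Base

/-!
# MP_a4bf89_an: block FINJ
-/

set_option autoImplicit false

open Finset Filter Topology

namespace Pool.Agent.Lib_helper25.AD

/-- FINJ -/
theorem frozen_inj_pr (X : Type) [NormedAddCommGroup X] [NormedSpace ℝ X] (e : ℕ → X)
    (hexp : ∀ x : X, ∃! a : ℕ → ℝ,
      Tendsto (fun n => ∑ i ∈ Finset.range n, a i • e i) atTop (𝓝 x)) :
    Function.Injective (Finsupp.linearCombination ℝ e : E →ₗ[ℝ] X) := by
  rw [injective_iff_map_eq_zero]
  intro a ha
  obtain ⟨b, hb, hu⟩ := hexp 0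
  have h1 : (⇑a : ℕ → ℝ) = b := by
    apply hu
    show Tendsto (fun n => ∑ i ∈ Finset.range n, a i • e i) atTop (𝓝 0)
    have hev : ∀ᶠ n in atTop, ∑ i ∈ Finset.range n, a i • e i = 0 := by
      filter_upwards [eventually_gt_atTop (a.support.sup id)] with n hn
      rw [← ha, Finsupp.linearCombination_apply, Finsupp.sum]
      symm
      apply Finset.sum_subset
      · intro i hi
        exact mem_range.2 ((Finset.le_sup (f := id) hi).trans_lt hn)
      · intro i _ hi
        rw [Finsupp.notMem_support_iff.1 hi, zero_smul]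
    exact tendsto_const_nhds.congr' (hev.mono fun n hn => hn.symm)
  have h2 : (0 : ℕ → ℝ) = b := by
    apply hu
    simp
  ext i
  exact congrFun (h1.trans h2.symm) i

alias frozen_inj := frozen_inj_pr

end Pool.Agent.Lib_helper25.AD
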