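import Pool.Agent.Lib_helper25.AD.Base

/-!
# MP_a4bf89_an: block LCI
-/

set_option autoImplicit false

open Finset Filter Topology

namespace Pool.Agent.Lib_helper25.AD

/-- LCI -/
theorem lc_injective_pr {z : ℕ → E} (hz : IsBlk z) : Function.Injective (lc z) := by
  rw [injective_iff_map_eq_zero]
  intro a ha
  ext i
  obtain ⟨t, ht⟩ := Finsupp.support_nonempty_iff.2 (hz.ne i)
  have h1 : (lc z a) t = 0 := by rw [ha]; rfl
  rw [lc_apply, Finsupp.finsetSum_apply] at h1
  have h2 : ∀ j ≠ i, z j t = 0 := by
    intro j hj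
    by_contra hne
    have hjt : t ∈ (z j).support := Finsupp.mem_support_iff.2 hne
    rcases lt_or_gt_of_ne hj with h | h
    · exact lt_irrefl _ (hz.bef h t hjt t ht)
    · exact lt_irrefl _ (hz.bef h t ht t hjt)
  have h3 : ∑ k ∈ a.support, (a k • z k) t = a i * z i t := by
    by_cases hi : i ∈ a.support
    · rw [Finset.sum_eq_single_of_mem i hi]
      · rfl
      · intro j _ hj
        rw [Finsupp.smul_apply, h2 j hj, smul_zero]
    · have h0 : a i = 0 := Finsupp.notMem_support_iff.1 hi
      rw [h0, zero_mul]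
      refine Finset.sum_eq_zero fun j hj => ?_
      have : j ≠ i := fun h => hi (h ▸ hj)
      rw [Finsupp.smul_apply, h2 j this, smul_zero]
  rw [h3] at h1
  rcases mul_eq_zero.1 h1 with h | h
  · exact h
  · exact absurd h (Finsupp.mem_support_iff.1 ht)

alias lc_injective := lc_injective_pr

end Pool.Agent.Lib_helper25.AD
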