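import Pool.Agent.Lib_helper25.AD.Base

/-!
# MP_a4bf89_an, blocks FUS, STAB
-/

set_option autoImplicit false

open Finset Filter Topology

namespace Pool.Agent.Lib_helper25.AD

/-- FUS (fusion) -/
theorem fusion_pr (y₀ : ℕ → E) (hy₀ : RBlk y₀) (P : ℕ → (ℕ → E) → Prop)
    (hher : ∀ k y z, RBlk y → RBlk z → LeStar z y → P k y → P k z)
    (hden : ∀ k y, RBlk y → Le y y₀ → ∃ z, RBlk z ∧ Le z y ∧ P k z) :
    ∃ z, RBlk z ∧ Le z y₀ ∧ ∀ k, P k z := by
  choose! g hg using hden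
  let Y : ℕ → ℕ → E := fun k => Nat.rec y₀ (fun k y => g k y) k
  have hYs : ∀ k, Y (k + 1) = g k (Y k) := fun k => rfl
  have hY : ∀ k, RBlk (Y k) ∧ Le (Y k) y₀ := by
    intro k
    induction k with
    | zero => exact ⟨hy₀, Le.refl y₀⟩
    | succ k ih =>
      have h1 := hg k (Y k) ih.1 ih.2
      rw [hYs]
      exact ⟨h1.1, h1.2.1.trans ih.2⟩
  have hYle : ∀ k, Le (Y (k + 1)) (Y k) := by
    intro k
    rw [hYs]
    exact (hg k (Y k) (hY k).1 (hY k).2).2.1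
  have hYP : ∀ k, P k (Y (k + 1)) := by
    intro k
    rw [hYs]
    exact (hg k (Y k) (hY k).1 (hY k).2).2.2
  have hYanti : ∀ k i, k ≤ i → Le (Y i) (Y k) := by
    intro k i hki
    induction i, hki using Nat.le_induction with
    | base => exact Le.refl _
    | succ i _ ih => exact (hYle i).trans ih
  let z : ℕ → E := fun k =>
    Nat.rec (Y 1 0) (fun k zk => Y (k + 2) (zk.support.sup id + 1)) k
  have hzs : ∀ k, z (k + 1) = Y (k + 2) ((z k).support.sup id + 1) := fun k => rfl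
  have hz : ∀ k, ∃ j, z k = Y (k + 1) j := by
    intro k
    cases k with
    | zero => exact ⟨0, rfl⟩
    | succ k => exact ⟨_, hzs k⟩
  have hzmem : ∀ k, z k ∈ bsp (Y (k + 1)) := by
    intro k
    obtain ⟨j, hj⟩ := hz k
    rw [hj]
    exact self_mem_bsp _ _
  have hzB : RBlk z := by
    refine ⟨⟨?_, ?_⟩, ?_⟩
    · intro k
      obtain ⟨j, hj⟩ := hz k
      rw [hj]
      exact (hY (k + 1)).1.toIsBlk.ne j
    · intro k a ha b hb
      rw [hzs] at hb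
      have hB := (hY (k + 2)).1.toIsBlk
      have h1 : a ≤ (z k).support.sup id := Finset.le_sup (f := id) ha
      have h2 := st_le hB hb
      have h3 := le_st hB ((z k).support.sup id + 1)
      omega
    · intro k j
      obtain ⟨i, hi⟩ := hz k
      rw [hi]
      exact (hY (k + 1)).1.rat i j
  refine ⟨z, hzB, fun i => bsp_le (hY (i + 1)).2 (hzmem i), fun k => ?_⟩
  refine hher k (Y (k + 1)) z (hY (k + 1)).1 hzB ⟨k, fun i hi => ?_⟩ (hYP k)
  exact bsp_le (hYanti (k + 1) (i + 1) (by omega)) (hzmem i)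

/-- STAB -/
theorem stabilise_pr (y₀ : ℕ → E) (hy₀ : RBlk y₀) (Q : ℝ → ℕ → (ℕ → E) → Prop)
    (hmono : ∀ a b k y, a ≤ b → Q a k y → Q b k y)
    (hher : ∀ a k y z, RBlk y → RBlk z → LeStar z y → Q a k y → Q a k z)
    (U U₁ : ℝ) (hU : 0 < U) (h₁ : ∀ k, Q U₁ k y₀)
    (hno : ¬ ∃ z, RBlk z ∧ Le z y₀ ∧ ∀ k, Q U k z) (ε : ℝ) (hε : 0 < ε) (hε1 : ε < 1) :
    ∃ a, U ≤ a ∧ ∃ k z, RBlk z ∧ Le z y₀ ∧ (∀ j, Q (a * (1 + ε)) j z) ∧
      ∀ w, RBlk w → Le w z → ¬ Q (a * (1 - ε)) k w := by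
  set A : Set ℝ := {b | ∃ z, RBlk z ∧ Le z y₀ ∧ ∀ k, Q b k z} with hA
  have hne : A.Nonempty := ⟨U₁, y₀, hy₀, Le.refl y₀, h₁⟩
  have hlb : ∀ b ∈ A, U ≤ b := by
    rintro b ⟨z, hz, hzl, hq⟩
    by_contra hlt
    push Not at hlt
    exact hno ⟨z, hz, hzl, fun k => hmono b U k z hlt.le (hq k)⟩
  have hbdd : BddBelow A := ⟨U, fun b hb => hlb b hb⟩
  have hUa : U ≤ sInf A := le_csInf hne hlb
  have ha : 0 < sInf A := hU.trans_le hUa
  refine ⟨sInf A, hUa, ?_⟩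
  obtain ⟨b, ⟨z₁, hz₁, hz₁l, hq⟩, hb⟩ :=
    exists_lt_of_csInf_lt hne (show sInf A < sInf A * (1 + ε) by nlinarith)
  by_contra hcon
  push Not at hcon
  have hfus := fusion_pr z₁ hz₁ (fun k y => Q (sInf A * (1 - ε)) k y)
    (fun k y z hy hz hzy hQ => hher _ k y z hy hz hzy hQ) (by
      intro k y hy hyl
      exact hcon k y hy (hyl.trans hz₁l) (fun j => hmono b _ j y hb.le
        (hher b j z₁ y hz₁ hy hyl.star (hq j))))
  obtain ⟨z, hz, hzl, hQ⟩ := hfus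
  have hmem : sInf A * (1 - ε) ∈ A := ⟨z, hz, hzl.trans hz₁l, hQ⟩
  have := csInf_le hbdd hmem
  nlinarith

alias fusion := fusion_pr

alias stabilise := stabilise_pr

end Pool.Agent.Lib_helper25.AD
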