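import Pool.Agent.Lib_helper25.AD.Base
import Pool.Agent.Lib_helper25.AD.Blk.SPAN
import Pool.Agent.Lib_helper25.AD.Blk.SPAN

/-!
# MP_a4bf89_an, block KM
-/

set_option autoImplicit false

open Finset Filter Topology

namespace Pool.Agent.Lib_helper25.AD

theorem km_star {F : Set (Finset ℕ)} {m M : ℕ} {y z : ℕ → E} (hy : RBlk y) (hz : RBlk z)
    (hzy : LeStar z y) (T : ℕ) :
    ∃ T', T ≤ T' ∧ ∀ c, Adm F m M z c → ∀ x ∈ bsp z, (∀ i ∈ x.support, T' ≤ i) →
      x ∈ bsp y ∧ ∃ c', Adm F m M y c' ∧ ∀ i ∈ x.support, c i = c' i := by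
  obtain ⟨n, hn⟩ := hzy
  have hz' := hz.toIsBlk
  have hLe : Le (tl n z) y := fun i => hn _ (by omega)
  have hT := tl_facts_pr hz n
  refine ⟨max T (st hz' n), le_max_left _ _, ?_⟩
  set T' := max T (st hz' n) with hT'
  intro c hc x hx hsup
  have hmem : x ∈ bsp y := by
    apply bsp_le hLe
    exact hT.2.2.2.2 x hx fun i hi => (le_max_right _ _).trans (hsup i hi)
  refine ⟨hmem, fun i => c (max i T'), ?_, ?_⟩
  · have hj : jump (fun i => c (max i T')) ⊆ jump c ∩ {i | T' < i} := by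
      rintro i ⟨h0, hi⟩
      by_cases hle : i ≤ T'
      · exfalso
        apply hi
        show c (max i T') = c (max (i - 1) T')
        rw [max_eq_right hle, max_eq_right (by omega)]
      · have hi' : c (max i T') ≠ c (max (i - 1) T') := hi
        rw [max_eq_left (by omega), max_eq_left (by omega)] at hi'
        exact ⟨⟨h0, hi'⟩, by simpa using hle⟩
    refine ⟨fun i => hc.1 _, ?_, ?_⟩
    · intro i hi
      obtain ⟨h1, h2⟩ := hj hi
      obtain ⟨j, hj'⟩ := (mem_starts hz').1 (hc.2.1 h1)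
      have h2' : T' < i := h2
      have h3 : st hz' n < st hz' j := by
        rw [← hj']
        exact lt_of_le_of_lt (le_max_right _ _) h2'
      have hnj : n < j := (st_strictMono hz').lt_iff_lt.1 h3
      apply starts_subset_pr hy.toIsBlk hT.1.toIsBlk hLe
      refine ⟨j - n, ?_⟩
      have e : tl n z (j - n) = z j := by
        unfold tl
        rw [Nat.sub_add_cancel hnj.le]
      rw [e, hj']
      exact ⟨st_mem hz' j, fun t ht => st_le hz' ht⟩
    · obtain ⟨S, h1, h2, h3⟩ := hc.2.2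
      exact ⟨S, h1, h2, fun b hb => h3 b (hj hb).1⟩
  · intro i hi
    show c i = c (max i T')
    rw [max_eq_left (hsup i hi)]

/-- LOWM -/
theorem lowK_star_pr {ν : Seminorm ℝ E} {p : ℝ} {F : Set (Finset ℕ)} {m M : ℕ} {L : ℝ}
    {y z : ℕ → E} (hy : RBlk y) (hz : RBlk z) (hzy : LeStar z y) (h : LowK ν p F m M L y) :
    LowK ν p F m M L z := by
  obtain ⟨T, hT⟩ := h
  obtain ⟨T', hTT, h'⟩ := km_star (F := F) (m := m) (M := M) hy hz hzy T
  refine ⟨T', fun c hc x hx hsup => ?_⟩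
  obtain ⟨hmem, c', hc', hcc⟩ := h' c hc x hx hsup
  have h1 := hT c' hc' x hmem fun i hi => hTT.trans (hsup i hi)
  unfold LowAt at h1 ⊢
  simpa only [cls_congr hcc] using h1

/-- UPPM -/
theorem uppK_star_pr {ν : Seminorm ℝ E} {p : ℝ} {F : Set (Finset ℕ)} {m M : ℕ} {U : ℝ}
    {y z : ℕ → E} (hy : RBlk y) (hz : RBlk z) (hzy : LeStar z y) (h : UppK ν p F m M U y) :
    UppK ν p F m M U z := by
  obtain ⟨T, hT⟩ := h
  obtain ⟨T', hTT, h'⟩ := km_star (F := F) (m := m) (M := M) hy hz hzy T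
  refine ⟨T', fun c hc x hx hsup => ?_⟩
  obtain ⟨hmem, c', hc', hcc⟩ := h' c hc x hx hsup
  have h1 := hT c' hc' x hmem fun i hi => hTT.trans (hsup i hi)
  unfold UppAt at h1 ⊢
  simpa only [cls_congr hcc] using h1

theorem km_cov {F F' : Set (Finset ℕ)} (hF : ∀ A ∈ F, ∃ B ∈ F', A ⊆ B) {M M' : ℕ}
    (hM : M ≤ M') {B : Set ℕ} (h : Cov F M B) : Cov F' M' B := by
  classical
  obtain ⟨S, h1, h2, h3⟩ := h
  choose! g hg using hF
  refine ⟨S.image g, card_image_le.trans (h1.trans hM), ?_, ?_⟩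
  · intro A hA
    obtain ⟨A', hA', rfl⟩ := mem_image.1 hA
    exact (hg A' (h2 A' hA')).1
  · intro b hb
    obtain ⟨A, hA, hbA⟩ := h3 b hb
    exact ⟨g A, mem_image_of_mem _ hA, (hg A (h2 A hA)).2 hbA⟩

theorem km_adm {F F' : Set (Finset ℕ)} (hF : ∀ A ∈ F, ∃ B ∈ F', A ⊆ B) {m m' M M' : ℕ}
    (hm : m ≤ m') (hM : M ≤ M') {y : ℕ → E} {c : ℕ → ℕ} (h : Adm F m M y c) :
    Adm F' m' M' y c :=
  ⟨fun i => (h.1 i).trans_le hm, h.2.1, km_cov hF hM h.2.2⟩

theorem km_pow_nonneg (ν : Seminorm ℝ E) (p : ℝ) (x : E) : 0 ≤ ν x ^ p :=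
  Real.rpow_nonneg (apply_nonneg ν x) p

/-- KMON (monotonicity in family, m, M, constants) -/
theorem lowK_mono_pr {ν : Seminorm ℝ E} {p : ℝ} (hp : 0 < p) {F F' : Set (Finset ℕ)}
    (hF : ∀ A ∈ F, ∃ B ∈ F', A ⊆ B) {m m' M M' : ℕ} (hm : m ≤ m') (hM : M ≤ M') {L L' : ℝ}
    (hL : L ≤ L') {y : ℕ → E} (h : LowK ν p F' m' M' L y) : LowK ν p F m M L' y := by
  obtain ⟨T, hT⟩ := h
  refine ⟨T, fun c hc x hx hsup => ?_⟩
  have h1 := hT c (km_adm hF hm hM hc) x hx hsup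
  unfold LowAt at h1 ⊢
  refine le_trans ?_ (h1.trans (mul_le_mul_of_nonneg_right hL (km_pow_nonneg ν p x)))
  exact sum_le_sum_of_subset_of_nonneg (range_subset_range.2 hm)
    fun k _ _ => km_pow_nonneg ν p _

/-- KMON (monotonicity in family, m, M, constants) -/
theorem uppK_mono_pr {ν : Seminorm ℝ E} {p : ℝ} (hp : 0 < p) {F F' : Set (Finset ℕ)}
    (hF : ∀ A ∈ F, ∃ B ∈ F', A ⊆ B) {m m' M M' : ℕ} (hm : m ≤ m') (hM : M ≤ M') {U U' : ℝ}
    (hU : U ≤ U') {y : ℕ → E} (h : UppK ν p F' m' M' U y) : UppK ν p F m M U' y := by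
  obtain ⟨T, hT⟩ := h
  refine ⟨T, fun c hc x hx hsup => ?_⟩
  have h1 := hT c (km_adm hF hm hM hc) x hx hsup
  unfold UppAt at h1 ⊢
  have h2 : ∑ k ∈ range m', ν (cls c k x) ^ p = ∑ k ∈ range m, ν (cls c k x) ^ p := by
    symm
    apply sum_subset (range_subset_range.2 hm)
    intro k _ hk
    have hk' : m ≤ k := by simpa using hk
    have h3 : cls c k x = 0 := by
      rw [cls]
      apply res_eq_zero
      intro i _ hi
      have hi' : c i = k := hi
      have := hc.1 i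
      omega
    rw [h3, map_zero, Real.zero_rpow hp.ne']
  rw [h2] at h1
  refine h1.trans (mul_le_mul_of_nonneg_right hU ?_)
  exact sum_nonneg fun k _ => km_pow_nonneg ν p _

alias lowK_star := lowK_star_pr

alias uppK_star := uppK_star_pr

alias lowK_mono := lowK_mono_pr

alias uppK_mono := uppK_mono_pr

end Pool.Agent.Lib_helper25.AD
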