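import Pool.Agent.Lib_helper25.AD.Base

/-! Block SPARSE. -/

set_option autoImplicit false

open Finset

namespace Pool.Agent.Lib_helper25.AD

/-- the subsequence -/
def SPARSE_phi (W : ℕ → ℕ) : ℕ → ℕ
  | 0 => 0
  | i + 1 => max (SPARSE_phi W i + 1) (W (SPARSE_phi W i))

theorem SPARSE_phi_lt (W : ℕ → ℕ) (i : ℕ) : SPARSE_phi W i < SPARSE_phi W (i + 1) :=
  lt_of_lt_of_le (Nat.lt_succ_self _) (le_max_left _ _)

theorem exists_sparse_pr {ν : Seminorm ℝ E} {p L U : ℝ} (hp : 1 < p) (G : ℕ → Set (Finset ℕ))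
    (y : ℕ → E) (hy : RBlk y) (hl : ∀ t, Low ν p (G t) L y) (hu : ∀ t, Upp ν p (G t) U y) :
    ∃ z, ∃ hz : RBlk z, Le z y ∧
      ∀ i m M, m ≤ st hz.toIsBlk i → M ≤ st hz.toIsBlk i →
        ∀ c, Adm (G (st hz.toIsBlk i)) m M y c →
          ∀ x ∈ bsp y, (∀ j ∈ x.support, st hz.toIsBlk (i + 1) ≤ j) →
            LowAt ν p L m c x ∧ UppAt ν p U m c x := by
  have hl' : ∀ t m M, ∃ T : ℕ, ∀ c, Adm (G t) m M y c → ∀ x ∈ bsp y,
      (∀ i ∈ x.support, T ≤ i) → LowAt ν p L m c x := fun t m M => hl t m M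
  have hu' : ∀ t m M, ∃ T : ℕ, ∀ c, Adm (G t) m M y c → ∀ x ∈ bsp y,
      (∀ i ∈ x.support, T ≤ i) → UppAt ν p U m c x := fun t m M => hu t m M
  choose TL hTL using hl'
  choose TU hTU using hu'
  let W : ℕ → ℕ := fun j => ∑ m ∈ range (st hy.toIsBlk j + 1), ∑ M ∈ range (st hy.toIsBlk j + 1),
    (TL (st hy.toIsBlk j) m M + TU (st hy.toIsBlk j) m M)
  have hWge : ∀ j m M, m ≤ st hy.toIsBlk j → M ≤ st hy.toIsBlk j →
      TL (st hy.toIsBlk j) m M + TU (st hy.toIsBlk j) m M ≤ W j := by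
    intro j m M hm hM
    have h1 : TL (st hy.toIsBlk j) m M + TU (st hy.toIsBlk j) m M ≤
        ∑ M ∈ range (st hy.toIsBlk j + 1), (TL (st hy.toIsBlk j) m M + TU (st hy.toIsBlk j) m M) :=
      Finset.single_le_sum (f := fun M => TL (st hy.toIsBlk j) m M + TU (st hy.toIsBlk j) m M)
        (fun _ _ => Nat.zero_le _) (mem_range.2 (by omega))
    refine h1.trans ?_
    exact Finset.single_le_sum (f := fun m => ∑ M ∈ range (st hy.toIsBlk j + 1),
      (TL (st hy.toIsBlk j) m M + TU (st hy.toIsBlk j) m M))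
        (fun _ _ => Nat.zero_le _) (mem_range.2 (by omega))
  have hz : RBlk (fun i => y (SPARSE_phi W i)) :=
    { ne := fun i => hy.ne _
      lt := fun i => hy.toIsBlk.bef (SPARSE_phi_lt W i)
      rat := fun i j => hy.rat _ j }
  refine ⟨fun i => y (SPARSE_phi W i), hz, fun i => self_mem_bsp y _, ?_⟩
  intro i m M hm hM c hc x hx hsupp
  have e1 : ∀ i, st hz.toIsBlk i = st hy.toIsBlk (SPARSE_phi W i) := fun i => rfl
  rw [e1] at hm hM hc
  have h1 : W (SPARSE_phi W i) ≤ SPARSE_phi W (i + 1) := le_max_right _ _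
  have h2 : SPARSE_phi W (i + 1) ≤ st hz.toIsBlk (i + 1) := by
    rw [e1]; exact le_st hy.toIsBlk _
  have h3 := hWge _ m M hm hM
  constructor
  · exact hTL _ m M c hc x hx fun j hj => by
      have := hsupp j hj
      omega
  · exact hTU _ m M c hc x hx fun j hj => by
      have := hsupp j hj
      omega

alias exists_sparse := exists_sparse_pr

end Pool.Agent.Lib_helper25.AD
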