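import Pool.Agent.Lib_helper25.AD.Base

set_option autoImplicit false

open Finset Filter Topology

namespace Pool.Agent.Lib_helper25.AD

theorem JOINT_decomp {m a b k l : ℕ} (hb : b < m) (hl : l < m) :
    a * m + b = k * m + l ↔ a = k ∧ b = l := by
  constructor
  · intro h
    have hm : 0 < m := by omega
    have h1 : (a * m + b) / m = a := by
      rw [mul_comm, Nat.mul_add_div hm, Nat.div_eq_of_lt hb, add_zero]
    have h2 : (k * m + l) / m = k := by
      rw [mul_comm, Nat.mul_add_div hm, Nat.div_eq_of_lt hl, add_zero]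
    have h3 : a = k := by rw [← h1, ← h2, h]
    subst h3
    exact ⟨rfl, by omega⟩
  · rintro ⟨rfl, rfl⟩; rfl

theorem JOINT_sum (m : ℕ) (g : ℕ → ℝ) (n : ℕ) :
    ∑ j ∈ range (n * m), g j = ∑ k ∈ range n, ∑ l ∈ range m, g (k * m + l) := by
  induction n with
  | zero => simp
  | succ n ih => rw [Nat.succ_mul, sum_range_add, ih, sum_range_succ]

theorem joint_col_pr {F : Set (Finset ℕ)} {m M : ℕ} {y z : ℕ → E} (hzy : starts z ⊆ starts y)
    (c : ℕ → ℕ) (hc : Adm F m M z c) (d : ℕ → ℕ → ℕ) (hd : ∀ k < m, Adm F m M y (d k)) :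
    Adm F (m * m) (M + m * M) y (fun i => c i * m + d (c i) i) ∧
      (∀ k l x, l < m → cls (fun i => c i * m + d (c i) i) (k * m + l) x =
        cls (d k) l (cls c k x)) ∧
      ∀ (f : E → ℝ) (x : E),
        ∑ j ∈ range (m * m), f (cls (fun i => c i * m + d (c i) i) j x) =
          ∑ k ∈ range m, ∑ l ∈ range m, f (cls (d k) l (cls c k x)) := by
  classical
  obtain ⟨hc1, hc2, S0, hS0, hS0F, hS0c⟩ := hc
  have hdd : ∀ i, d (c i) i < m := fun i => (hd (c i) (hc1 i)).1 i
  have key : ∀ k l x, l < m → cls (fun i => c i * m + d (c i) i) (k * m + l) x =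
        cls (d k) l (cls c k x) := by
    intro k l x hl
    ext i
    rw [cls_apply, cls_apply, cls_apply]
    have := JOINT_decomp (a := c i) (k := k) (hdd i) hl
    by_cases h : c i * m + d (c i) i = k * m + l
    · obtain ⟨h1, h2⟩ := this.1 h
      rw [if_pos h]
      rw [h1] at h2
      rw [if_pos h2, if_pos h1]
    · rw [if_neg h]
      by_cases h1 : c i = k
      · have h2 : d k i ≠ l := by
          intro h2
          exact h (this.2 ⟨h1, by rw [h1]; exact h2⟩)
        rw [if_neg h2]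
      · rw [if_neg h1]; simp
  refine ⟨⟨?_, ?_, ?_⟩, key, ?_⟩
  · intro i
    have h1 := hc1 i
    have h2 := hdd i
    calc c i * m + d (c i) i < c i * m + m := by omega
      _ = (c i + 1) * m := by ring
      _ ≤ m * m := Nat.mul_le_mul_right _ h1
  · rintro i ⟨hi0, hi⟩
    by_cases h : c i = c (i - 1)
    · refine (hd (c i) (hc1 i)).2.1 ⟨hi0, ?_⟩
      intro h2
      apply hi
      simp only
      rw [← h, h2]
    · exact hzy (hc2 ⟨hi0, h⟩)
  · have hd3 : ∀ k, ∃ S : Finset (Finset ℕ), S.card ≤ M ∧ (∀ A ∈ S, A ∈ F) ∧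
        (k < m → ∀ b ∈ jump (d k), ∃ A ∈ S, b ∈ A) := by
      intro k
      by_cases hk : k < m
      · obtain ⟨_, _, S, h1, h2, h3⟩ := hd k hk
        exact ⟨S, h1, h2, fun _ => h3⟩
      · exact ⟨∅, by simp, by simp, fun h => absurd h hk⟩
    choose S hS1 hS2 hS3 using hd3
    refine ⟨S0 ∪ (range m).biUnion S, ?_, ?_, ?_⟩
    · refine (card_union_le _ _).trans (Nat.add_le_add hS0 ?_)
      refine card_biUnion_le.trans ?_
      calc ∑ k ∈ range m, (S k).card ≤ ∑ _k ∈ range m, M := sum_le_sum fun k _ => hS1 k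
        _ = m * M := by simp
    · intro A hA
      rcases mem_union.1 hA with h | h
      · exact hS0F A h
      · obtain ⟨k, _, hk⟩ := mem_biUnion.1 h
        exact hS2 k A hk
    · rintro i ⟨hi0, hi⟩
      by_cases h : c i = c (i - 1)
      · have : i ∈ jump (d (c i)) := by
          refine ⟨hi0, ?_⟩
          intro h2
          apply hi
          simp only
          rw [← h, h2]
        obtain ⟨A, hA, hiA⟩ := hS3 (c i) (hc1 i) i this
        exact ⟨A, mem_union_right _ (mem_biUnion.2 ⟨c i, mem_range.2 (hc1 i), hA⟩), hiA⟩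
      · obtain ⟨A, hA, hiA⟩ := hS0c i ⟨hi0, h⟩
        exact ⟨A, mem_union_left _ hA, hiA⟩
  · intro f x
    rw [JOINT_sum m (fun j => f (cls (fun i => c i * m + d (c i) i) j x)) m]
    refine sum_congr rfl fun k _ => sum_congr rfl fun l hl => ?_
    rw [key k l x (mem_range.1 hl)]

alias joint_col := joint_col_pr

end Pool.Agent.Lib_helper25.AD
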