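import Pool.Agent.Lib_helper25.AD.Base
import Pool.Agent.Lib_helper25.AD.Blk.JOINT
import Pool.Agent.Lib_helper25.AD.Blk.SPAN

set_option autoImplicit false
set_option linter.unusedVariables false

open Finset Filter Topology
open scoped Pointwise

namespace Pool.Agent.Lib_helper25.AD

/-- the `p`-sum of a colouring -/
noncomputable def sqlP (ν : Seminorm ℝ E) (p : ℝ) (m : ℕ) (c : ℕ → ℕ) (x : E) : ℝ :=
  ∑ k ∈ range m, ν (cls c k x) ^ p

noncomputable def sqlS (ν : Seminorm ℝ E) (p : ℝ) (F : Set (Finset ℕ)) (m M : ℕ) (z : ℕ → E)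
    (x : E) : ℝ := sSup {v | ∃ c, Adm F m M z c ∧ v = sqlP ν p m c x}

noncomputable def sqlN (ν : Seminorm ℝ E) (p : ℝ) (F : Set (Finset ℕ)) (m M : ℕ) (z : ℕ → E)
    (x : E) : ℝ := (sqlS ν p F m M z x) ^ (1 / p)

section
variable {ν : Seminorm ℝ E} {p : ℝ} {F : Set (Finset ℕ)} {m M : ℕ} {z : ℕ → E}

theorem sqlP_nonneg (c : ℕ → ℕ) (x : E) : 0 ≤ sqlP ν p m c x :=
  Finset.sum_nonneg fun _ _ => Real.rpow_nonneg (apply_nonneg ν _) p

theorem sqlS_nonneg (x : E) : 0 ≤ sqlS ν p F m M z x := by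
  apply Real.sSup_nonneg
  rintro v ⟨c, _, rfl⟩
  exact sqlP_nonneg c x

theorem sqlN_nonneg (x : E) : 0 ≤ sqlN ν p F m M z x := Real.rpow_nonneg (sqlS_nonneg x) _

theorem sql_le_S {x : E} {B : ℝ} (hB : ∀ c, Adm F m M z c → sqlP ν p m c x ≤ B) {c : ℕ → ℕ}
    (hc : Adm F m M z c) : sqlP ν p m c x ≤ sqlS ν p F m M z x := by
  apply le_csSup
  · refine ⟨B, ?_⟩
    rintro v ⟨c, hc, rfl⟩
    exact hB c hc
  · exact ⟨c, hc, rfl⟩

theorem sqlS_le {x : E} {B : ℝ} (hB0 : 0 ≤ B) (hB : ∀ c, Adm F m M z c → sqlP ν p m c x ≤ B) :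
    sqlS ν p F m M z x ≤ B := by
  apply Real.sSup_le _ hB0
  rintro v ⟨c, hc, rfl⟩
  exact hB c hc

theorem sql_adm0 (hm : 0 < m) : Adm F m M z (fun _ => 0) := by
  refine ⟨fun _ => hm, ?_, ∅, Nat.zero_le _, ?_, ?_⟩
  · rintro u ⟨_, h⟩; exact absurd rfl h
  · intro A hA; exact absurd hA (Finset.notMem_empty A)
  · rintro u ⟨_, h⟩; exact absurd rfl h

theorem sql_pp {v : ℝ} (hv : 0 ≤ v) (hp : 0 < p) : (v ^ p) ^ (1 / p) = v := by
  rw [← Real.rpow_mul hv, mul_one_div_cancel hp.ne', Real.rpow_one]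

theorem sql_pp' {v : ℝ} (hv : 0 ≤ v) (hp : 0 < p) : (v ^ (1 / p)) ^ p = v := by
  rw [← Real.rpow_mul hv, one_div_mul_cancel hp.ne', Real.rpow_one]

theorem sqlN_pow (hp : 0 < p) (x : E) :
    sqlN ν p F m M z x ^ p = sqlS ν p F m M z x := sql_pp' (sqlS_nonneg x) hp

theorem sqlP_const (hp : 0 < p) (hm : 0 < m) (x : E) :
    sqlP ν p m (fun _ => 0) x = ν x ^ p := by
  unfold sqlP
  rw [Finset.sum_eq_single 0]
  · rw [show cls (fun _ => 0) 0 x = x from res_self (fun i _ => rfl)]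
  · intro k _ hk
    rw [show cls (fun _ => 0) k x = 0 from res_eq_zero (fun i _ h => hk h.symm), map_zero,
      Real.zero_rpow hp.ne']
  · intro h; exact absurd (mem_range.mpr hm) h

theorem sqlP_add (hp : 1 < p) (c : ℕ → ℕ) (x y : E) :
    (sqlP ν p m c (x + y)) ^ (1 / p) ≤ (sqlP ν p m c x) ^ (1 / p) + (sqlP ν p m c y) ^ (1 / p) := by
  have h := Real.Lp_add_le_of_nonneg (s := range m) (f := fun k => ν (cls c k x))
    (g := fun k => ν (cls c k y)) (p := p) hp.le (fun k _ => apply_nonneg ν _)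
    (fun k _ => apply_nonneg ν _)
  refine le_trans ?_ h
  apply Real.rpow_le_rpow (sqlP_nonneg c _) _ (by positivity)
  unfold sqlP
  apply Finset.sum_le_sum
  intro k _
  apply Real.rpow_le_rpow (apply_nonneg ν _) _ (by linarith)
  rw [map_add]
  exact map_add_le_add ν _ _

theorem sqlP_smul (hp : 0 < p) (c : ℕ → ℕ) (t : ℝ) (x : E) :
    sqlP ν p m c (t • x) = |t| ^ p * sqlP ν p m c x := by
  unfold sqlP
  rw [Finset.mul_sum]
  apply Finset.sum_congr rfl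
  intro k _
  rw [map_smul, map_smul_eq_mul, Real.norm_eq_abs, Real.mul_rpow (abs_nonneg _) (apply_nonneg ν _)]

theorem sqlS_smul (hp : 0 < p) (t : ℝ) (x : E) :
    sqlS ν p F m M z (t • x) = |t| ^ p * sqlS ν p F m M z x := by
  have h0 : 0 ≤ |t| ^ p := Real.rpow_nonneg (abs_nonneg _) _
  have h1 : {v | ∃ c, Adm F m M z c ∧ v = sqlP ν p m c (t • x)} =
      (|t| ^ p) • {v | ∃ c, Adm F m M z c ∧ v = sqlP ν p m c x} := by
    ext v
    rw [Set.mem_smul_set]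
    constructor
    · rintro ⟨c, hc, rfl⟩
      exact ⟨sqlP ν p m c x, ⟨c, hc, rfl⟩, (sqlP_smul hp c t x).symm⟩
    · rintro ⟨_, ⟨c, hc, rfl⟩, rfl⟩
      exact ⟨c, hc, (sqlP_smul hp c t x).symm⟩
  unfold sqlS
  rw [h1, Real.sSup_smul_of_nonneg h0]
  rfl

theorem sqlN_smul (hp : 0 < p) (t : ℝ) (x : E) :
    sqlN ν p F m M z (t • x) = |t| * sqlN ν p F m M z x := by
  unfold sqlN
  rw [sqlS_smul hp, Real.mul_rpow (Real.rpow_nonneg (abs_nonneg _) _) (sqlS_nonneg x),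
    sql_pp (abs_nonneg t) hp]

theorem sqlN_add (hp : 1 < p) {x y : E} {B B' : ℝ}
    (hB : ∀ c, Adm F m M z c → sqlP ν p m c x ≤ B)
    (hB' : ∀ c, Adm F m M z c → sqlP ν p m c y ≤ B') :
    sqlN ν p F m M z (x + y) ≤ sqlN ν p F m M z x + sqlN ν p F m M z y := by
  have hp0 : 0 < p := by linarith
  have hn0 : 0 ≤ sqlN ν p F m M z x + sqlN ν p F m M z y :=
    add_nonneg (sqlN_nonneg x) (sqlN_nonneg y)
  have h : sqlS ν p F m M z (x + y) ≤ (sqlN ν p F m M z x + sqlN ν p F m M z y) ^ p := by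
    apply sqlS_le (Real.rpow_nonneg hn0 _)
    intro c hc
    have h1 := sqlP_add (ν := ν) (m := m) hp c x y
    have h2 : (sqlP ν p m c x) ^ (1 / p) ≤ sqlN ν p F m M z x :=
      Real.rpow_le_rpow (sqlP_nonneg c x) (sql_le_S hB hc) (by positivity)
    have h3 : (sqlP ν p m c y) ^ (1 / p) ≤ sqlN ν p F m M z y :=
      Real.rpow_le_rpow (sqlP_nonneg c y) (sql_le_S hB' hc) (by positivity)
    rw [← sql_pp' (sqlP_nonneg (ν := ν) (m := m) (p := p) c (x + y)) hp0]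
    exact Real.rpow_le_rpow (Real.rpow_nonneg (sqlP_nonneg c _) _) (by linarith) hp0.le
  calc sqlN ν p F m M z (x + y)
      ≤ ((sqlN ν p F m M z x + sqlN ν p F m M z y) ^ p) ^ (1 / p) :=
        Real.rpow_le_rpow (sqlS_nonneg _) h (by positivity)
    _ = _ := sql_pp hn0 hp0

end

theorem squaring_low_core_pr {ν : Seminorm ℝ E} (hν : Dfn ν) {p D : ℝ} (hp : 1 < p) (hD : 1 ≤ D)
    (hBD : BDFQ ν D) (F : Set (Finset ℕ)) (m M : ℕ) (a ε : ℝ) (ha : 1 ≤ a) (hε : 0 < ε)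
    (hε1 : ε < 1) (z : ℕ → E) (hz : RBlk z) (h1 : LowK ν p F m M (a * (1 + ε)) z)
    (h2 : LowK ν p F (m * m) (M + m * M) (a * (1 + ε)) z)
    (h3 : ∀ w, RBlk w → Le w z → ¬ LowK ν p F m M (a * (1 - ε)) w) :
    a * (1 - ε) ^ 3 ≤ D ^ p * (1 + ε) := by
  have hp0 : 0 < p := by linarith
  have hm : 0 < m := by
    rcases Nat.eq_zero_or_pos m with hm | hm
    · exfalso
      apply h3 z hz (Le.refl z)
      refine ⟨0, fun c hc => ?_⟩
      have := hc.1 0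
      omega
    · exact hm
  obtain ⟨T1, hT1⟩ := h1
  obtain ⟨T2, hT2⟩ := h2
  set n := max T1 T2 with hn
  obtain ⟨hwR, hwz, hwst, hwsupp, -⟩ := tl_facts hz n
  have hn1 : ∀ x ∈ bsp (tl n z), ∀ i ∈ x.support, T1 ≤ i ∧ T2 ≤ i := by
    intro x hx i hi
    have h4 := hwsupp x hx i hi
    have h5 := le_st hz.toIsBlk n
    exact ⟨(le_max_left _ _).trans (h5.trans h4), (le_max_right _ _).trans (h5.trans h4)⟩
  have hAa : 0 ≤ a * (1 + ε) := by positivity
  -- bound of the p-sums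
  have hbd : ∀ x ∈ bsp (tl n z), ∀ c, Adm F m M z c →
      sqlP ν p m c x ≤ a * (1 + ε) * ν x ^ p := by
    intro x hx c hc
    exact hT1 c hc x (bsp_le hwz hx) (fun i hi => (hn1 x hx i hi).1)
  set N : E → ℝ := sqlN ν p F m M z with hN
  have hEq : EqOn ν (bsp (tl n z)) N := by
    refine ⟨?_, ?_, 1, (a * (1 + ε)) ^ (1 / p), one_pos, Real.rpow_pos_of_pos (by positivity) _, ?_⟩
    · intro x hx y hy
      exact sqlN_add hp (hbd x hx) (hbd y hy)
    · intro t x _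
      exact sqlN_smul hp0 t x
    · intro x hx
      constructor
      · rw [one_mul]
        have h4 := sql_le_S (hbd x hx) (sql_adm0 hm)
        rw [sqlP_const hp0 hm] at h4
        calc ν x = (ν x ^ p) ^ (1 / p) := (sql_pp (apply_nonneg ν x) hp0).symm
          _ ≤ N x := Real.rpow_le_rpow (Real.rpow_nonneg (apply_nonneg ν x) _) h4 (by positivity)
      · have h4 : sqlS ν p F m M z x ≤ a * (1 + ε) * ν x ^ p :=
          sqlS_le (mul_nonneg hAa (Real.rpow_nonneg (apply_nonneg ν x) _)) (hbd x hx)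
        calc N x ≤ (a * (1 + ε) * ν x ^ p) ^ (1 / p) :=
              Real.rpow_le_rpow (sqlS_nonneg x) h4 (by positivity)
          _ = (a * (1 + ε)) ^ (1 / p) * ν x := by
              rw [Real.mul_rpow hAa (Real.rpow_nonneg (apply_nonneg ν x) _),
                sql_pp (apply_nonneg ν x) hp0]
  obtain ⟨z3, hz3, hz3w, hQ⟩ := hBD (tl n z) hwR N hEq
  have hz3z : Le z3 z := hz3w.trans hwz
  have hno := h3 z3 hz3 hz3z
  unfold LowK at hno
  push Not at hno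
  obtain ⟨c, hc3, x, hx3, -, hxlow⟩ := hno 0
  unfold LowAt at hxlow
  push Not at hxlow
  have hxw : x ∈ bsp (tl n z) := bsp_le hz3w hx3
  have hst3 : starts z3 ⊆ starts z := starts_subset hz.toIsBlk hz3.toIsBlk hz3z
  have hcz : Adm F m M z c := ⟨hc3.1, hc3.2.1.trans hst3, hc3.2.2⟩
  have hx0 : x ≠ 0 := by
    intro h0
    rw [h0] at hxlow
    have : ∑ k ∈ range m, ν (cls c k 0) ^ p = 0 := by
      apply Finset.sum_eq_zero; intro k _
      rw [map_zero, map_zero, Real.zero_rpow hp0.ne']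
    rw [this, map_zero, Real.zero_rpow hp0.ne', mul_zero] at hxlow
    exact lt_irrefl _ hxlow
  have hνx : 0 < ν x := hν x hx0
  have hνxp : 0 < ν x ^ p := Real.rpow_pos_of_pos hνx _
  set xk : ℕ → E := fun k => cls c k x with hxk
  have hxk3 : ∀ k, xk k ∈ bsp z3 := fun k => cls_mem hz3.toIsBlk hc3.2.1 hx3 k
  -- N(x)^p
  have hNx : a * (1 - ε) * ν x ^ p ≤ N x ^ p := by
    rw [hN, sqlN_pow hp0]
    exact hxlow.le.trans (sql_le_S (hbd x hxw) hcz)
  -- N(x_k)^p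
  have hNk : ∀ k, a * (1 - ε) * ν (xk k) ^ p ≤ D ^ p * N (xk k) ^ p := by
    intro k
    have h4 := hQ x hx3 (xk k) (hxk3 k)
    have hN0 : 0 ≤ N x := sqlN_nonneg x
    have hNk0 : 0 ≤ N (xk k) := sqlN_nonneg _
    have h5 : (N x * ν (xk k)) ^ p ≤ (D * (N (xk k) * ν x)) ^ p :=
      Real.rpow_le_rpow (mul_nonneg hN0 (apply_nonneg ν _)) h4 hp0.le
    rw [Real.mul_rpow hN0 (apply_nonneg ν _), Real.mul_rpow (by linarith)
      (mul_nonneg hNk0 hνx.le), Real.mul_rpow hNk0 hνx.le] at h5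
    have h6 : a * (1 - ε) * ν x ^ p * ν (xk k) ^ p ≤ N x ^ p * ν (xk k) ^ p :=
      mul_le_mul_of_nonneg_right hNx (Real.rpow_nonneg (apply_nonneg ν _) _)
    have h7 : ν x ^ p * (a * (1 - ε) * ν (xk k) ^ p) ≤ ν x ^ p * (D ^ p * N (xk k) ^ p) := by
      nlinarith
    exact le_of_mul_le_mul_left h7 hνxp
  -- near optimal colourings
  have hd : ∀ k, ∃ d, Adm F m M z d ∧ (1 - ε) * N (xk k) ^ p ≤ sqlP ν p m d (xk k) := by
    intro k
    rcases (sqlN_nonneg (ν := ν) (p := p) (F := F) (m := m) (M := M) (z := z)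
      (xk k)).eq_or_lt with h0 | h0
    · refine ⟨fun _ => 0, sql_adm0 hm, ?_⟩
      have : N (xk k) = 0 := h0.symm
      rw [this, Real.zero_rpow hp0.ne', mul_zero]
      exact sqlP_nonneg _ _
    · have h4 : 0 < N (xk k) ^ p := Real.rpow_pos_of_pos h0 _
      have h5 : (1 - ε) * N (xk k) ^ p < sqlS ν p F m M z (xk k) := by
        rw [← sqlN_pow hp0]
        have : (1 - ε) * N (xk k) ^ p < 1 * N (xk k) ^ p :=
          mul_lt_mul_of_pos_right (by linarith) h4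
        rw [one_mul] at this
        exact this
      obtain ⟨v, ⟨d, hd, rfl⟩, hv⟩ := exists_lt_of_lt_csSup
        (⟨_, _, sql_adm0 hm, rfl⟩ : {v | ∃ c, Adm F m M z c ∧
          v = sqlP ν p m c (xk k)}.Nonempty) h5
      exact ⟨d, hd, hv.le⟩
  choose d hdA hdv using hd
  obtain ⟨hJA, -, hJs⟩ := joint_col (Set.Subset.refl (starts z)) c hcz d (fun k _ => hdA k)
  have h8 := hT2 _ hJA x (bsp_le hz3z hx3) (fun i hi => (hn1 x hxw i hi).2)
  unfold LowAt at h8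
  rw [hJs (fun v => ν v ^ p) x] at h8
  have h9 : (1 - ε) * ∑ k ∈ range m, N (xk k) ^ p ≤
      ∑ k ∈ range m, ∑ l ∈ range m, ν (cls (d k) l (cls c k x)) ^ p := by
    rw [Finset.mul_sum]
    exact Finset.sum_le_sum fun k _ => hdv k
  have h10 : a * (1 - ε) * ∑ k ∈ range m, ν (xk k) ^ p ≤
      D ^ p * ∑ k ∈ range m, N (xk k) ^ p := by
    rw [Finset.mul_sum, Finset.mul_sum]
    exact Finset.sum_le_sum fun k _ => hNk k
  have hDp : 0 < D ^ p := Real.rpow_pos_of_pos (by linarith) _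
  set A : ℝ := ∑ k ∈ range m, N (xk k) ^ p with hA
  set B : ℝ := ∑ k ∈ range m, ν (xk k) ^ p with hB
  have hBx : a * (1 - ε) * ν x ^ p < B := hxlow
  have h11 : (1 - ε) * A ≤ a * (1 + ε) * ν x ^ p := h9.trans h8
  -- D^p a (1+ε) ν^p ≥ D^p (1-ε) A ≥ (1-ε) a (1-ε) B ≥ (1-ε)^2 a a (1-ε) ν^p
  have h12 : D ^ p * ((1 - ε) * A) ≤ D ^ p * (a * (1 + ε) * ν x ^ p) :=
    mul_le_mul_of_nonneg_left h11 hDp.le
  have h13 : (1 - ε) * (a * (1 - ε) * B) ≤ (1 - ε) * (D ^ p * A) :=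
    mul_le_mul_of_nonneg_left h10 (by linarith)
  have h14 : (1 - ε) * (a * (1 - ε)) * (a * (1 - ε) * ν x ^ p) ≤ (1 - ε) * (a * (1 - ε)) * B :=
    mul_le_mul_of_nonneg_left hBx.le (mul_nonneg (by linarith) (mul_nonneg (by linarith)
      (by linarith)))
  have h15 : (a * ν x ^ p) * (a * (1 - ε) ^ 3) ≤ (a * ν x ^ p) * (D ^ p * (1 + ε)) := by
    calc (a * ν x ^ p) * (a * (1 - ε) ^ 3)
        = (1 - ε) * (a * (1 - ε)) * (a * (1 - ε) * ν x ^ p) := by ring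
      _ ≤ (1 - ε) * (a * (1 - ε)) * B := h14
      _ = (1 - ε) * (a * (1 - ε) * B) := by ring
      _ ≤ (1 - ε) * (D ^ p * A) := h13
      _ = D ^ p * ((1 - ε) * A) := by ring
      _ ≤ D ^ p * (a * (1 + ε) * ν x ^ p) := h12
      _ = (a * ν x ^ p) * (D ^ p * (1 + ε)) := by ring
  exact le_of_mul_le_mul_left h15 (mul_pos (by linarith) hνxp)

alias squaring_low_core := squaring_low_core_pr

end Pool.Agent.Lib_helper25.AD
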