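import Pool.Agent.Lib_helper25.AD.Base
import Pool.Agent.Lib_helper25.AD.Blk.HB
import Pool.Agent.Lib_helper25.AD.Blk.JOINT
import Pool.Agent.Lib_helper25.AD.Blk.SPAN

/-!
# Block SQU: squaring, upper estimates
-/

set_option autoImplicit false

open Finset Filter Topology

namespace Pool.Agent.Lib_helper25.AD

section

variable (ν : Seminorm ℝ E) (p : ℝ) (F : Set (Finset ℕ)) (m M : ℕ) (z : ℕ → E)
  (V : Submodule ℝ E)

/-- the `p`-th power of the `l_p` norm of the pieces -/
noncomputable def squ_S (c : ℕ → ℕ) (y : E) : ℝ := ∑ l ∈ range m, ν (cls c l y) ^ p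

theorem squ_S_nonneg (c : ℕ → ℕ) (y : E) : 0 ≤ squ_S ν p m c y :=
  Finset.sum_nonneg fun _ _ => Real.rpow_nonneg (apply_nonneg ν _) _

theorem squ_scale (c : ℕ → ℕ) (t : ℝ) (y : E) :
    squ_S ν p m c (t • y) = |t| ^ p * squ_S ν p m c y := by
  rw [squ_S, squ_S, Finset.mul_sum]
  refine Finset.sum_congr rfl fun l _ => ?_
  rw [map_smul, map_smul_eq_mul, Real.norm_eq_abs,
    Real.mul_rpow (abs_nonneg _) (apply_nonneg ν _)]

/-- the functionals -/
def squ_P : Set (E →ₗ[ℝ] ℝ) :=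
  {g | ∀ y ∈ V, ∀ c, Adm F m M z c → |g y| ^ p ≤ squ_S ν p m c y}

/-- the new norm -/
noncomputable def squ_N (x : E) : ℝ := sSup {r | ∃ g ∈ squ_P ν p F m M z V, r = |g x|}

theorem squ_zero_mem (hp : 1 < p) : (0 : E →ₗ[ℝ] ℝ) ∈ squ_P ν p F m M z V := by
  intro y _ c _
  rw [LinearMap.zero_apply, abs_zero, Real.zero_rpow (by linarith)]
  exact squ_S_nonneg ν p m c y

theorem squ_adm0 (hm : 0 < m) : Adm F m M z (fun _ => 0) := by
  have hj : jump (fun _ : ℕ => 0) = ∅ := by
    ext i; simp [jump]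
  refine ⟨fun _ => hm, ?_, ?_⟩
  · rw [hj]; exact Set.empty_subset _
  · rw [hj]
    exact ⟨∅, by simp, by simp, by simp⟩

theorem squ_S0 (hp : 1 < p) (hm : 0 < m) (y : E) : squ_S ν p m (fun _ => 0) y = ν y ^ p := by
  rw [squ_S, Finset.sum_eq_single 0]
  · have : cls (fun _ => 0) 0 y = y := by
      ext i; rw [cls_apply, if_pos rfl]
    rw [this]
  · intro l _ hl
    have : cls (fun _ => 0) l y = 0 := by
      ext i; rw [cls_apply, if_neg (Ne.symm hl)]; rfl
    rw [this, map_zero, Real.zero_rpow (by linarith)]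
  · intro h
    exact absurd (Finset.mem_range.2 hm) h

variable {ν p F m M z V}

theorem squ_le_of_rpow (hp : 1 < p) {x y : ℝ} (hy : 0 ≤ y) (h : x ^ p ≤ y ^ p) (hx : 0 ≤ x) :
    x ≤ y := (Real.rpow_le_rpow_iff hx hy (by linarith)).1 h

theorem squ_le_nu (hp : 1 < p) (hm : 0 < m) {g : E →ₗ[ℝ] ℝ} (hg : g ∈ squ_P ν p F m M z V)
    {x : E} (hx : x ∈ V) : |g x| ≤ ν x := by
  have h := hg x hx _ (squ_adm0 F m M z hm)
  rw [squ_S0 ν p m hp hm] at h
  exact squ_le_of_rpow hp (apply_nonneg ν x) h (abs_nonneg _)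

theorem squ_N_le (hp : 1 < p) {x : E} {b : ℝ} (h : ∀ g ∈ squ_P ν p F m M z V, |g x| ≤ b) :
    squ_N ν p F m M z V x ≤ b := by
  refine csSup_le ⟨_, 0, squ_zero_mem ν p F m M z V hp, rfl⟩ ?_
  rintro r ⟨g, hg, rfl⟩
  exact h g hg

theorem squ_le_N (hp : 1 < p) (hm : 0 < m) {g : E →ₗ[ℝ] ℝ} (hg : g ∈ squ_P ν p F m M z V)
    {x : E} (hx : x ∈ V) : |g x| ≤ squ_N ν p F m M z V x := by
  refine le_csSup ⟨ν x, ?_⟩ ⟨g, hg, rfl⟩
  rintro r ⟨g', hg', rfl⟩
  exact squ_le_nu hp hm hg' hx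

theorem squ_N_nonneg (hp : 1 < p) (hm : 0 < m) {x : E} (hx : x ∈ V) :
    0 ≤ squ_N ν p F m M z V x := by
  have h := squ_le_N hp hm (squ_zero_mem ν p F m M z V hp) hx
  rw [LinearMap.zero_apply, abs_zero] at h
  exact h

theorem squ_smul_le (hp : 1 < p) (hm : 0 < m) {x : E} (hx : x ∈ V) (t : ℝ) :
    squ_N ν p F m M z V (t • x) ≤ |t| * squ_N ν p F m M z V x := by
  refine squ_N_le hp fun g hg => ?_
  rw [map_smul, smul_eq_mul, abs_mul]
  exact mul_le_mul_of_nonneg_left (squ_le_N hp hm hg hx) (abs_nonneg _)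

theorem squ_eqOn (hp : 1 < p) (hm : 0 < m) {U : ℝ} (hU : 0 < U)
    (h1 : ∀ y ∈ V, ∀ c, Adm F m M z c → ν y ^ p ≤ U * squ_S ν p m c y) :
    EqOn ν V (squ_N ν p F m M z V) := by
  refine ⟨?_, ?_, (U ^ (1 / p))⁻¹, 1, by positivity, one_pos, ?_⟩
  · intro x hx y hy
    refine squ_N_le hp fun g hg => ?_
    rw [map_add]
    exact (abs_add_le _ _).trans (add_le_add (squ_le_N hp hm hg hx) (squ_le_N hp hm hg hy))
  · intro t x hx
    refine le_antisymm (squ_smul_le hp hm hx t) ?_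
    by_cases ht : t = 0
    · subst ht
      rw [abs_zero, zero_mul, zero_smul]
      exact squ_N_nonneg hp hm V.zero_mem
    · have h := squ_smul_le (ν := ν) (F := F) (M := M) (z := z) hp hm (V.smul_mem t hx) t⁻¹
      rw [smul_smul, inv_mul_cancel₀ ht, one_smul, abs_inv] at h
      have hpos : 0 < |t| := abs_pos.2 ht
      rw [inv_mul_eq_div, le_div_iff₀ hpos] at h
      linarith
  · intro x hx
    constructor
    · obtain ⟨f, hf, hfle⟩ := hahn ν x
      set κ : ℝ := (U ^ (1 / p))⁻¹ with hκ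
      have hκ0 : 0 < κ := by rw [hκ]; positivity
      have hκp : κ ^ p = U⁻¹ := by
        rw [hκ, Real.inv_rpow (by positivity), ← Real.rpow_mul hU.le,
          one_div_mul_cancel (by linarith), Real.rpow_one]
      have hg : κ • f ∈ squ_P ν p F m M z V := by
        intro y hy c hc
        rw [LinearMap.smul_apply, smul_eq_mul, abs_mul, abs_of_pos hκ0,
          Real.mul_rpow hκ0.le (abs_nonneg _), hκp, inv_mul_le_iff₀ hU]
        refine le_trans ?_ (h1 y hy c hc)
        exact Real.rpow_le_rpow (abs_nonneg _) (hfle y) (by linarith)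
      have h := squ_le_N hp hm hg hx
      rw [LinearMap.smul_apply, smul_eq_mul, hf, abs_of_nonneg
        (mul_nonneg hκ0.le (apply_nonneg ν x))] at h
      exact h
    · rw [one_mul]
      exact squ_N_le hp fun g hg => squ_le_nu hp hm hg hx

/-- the set of values in the definition of `C_k` -/
def squ_Ck (ν : Seminorm ℝ E) (p : ℝ) (F : Set (Finset ℕ)) (m M : ℕ) (z : ℕ → E)
    (V : Submodule ℝ E) (f : E →ₗ[ℝ] ℝ) (c : ℕ → ℕ) (k : ℕ) : Set ℝ :=
  {r | ∃ y ∈ V, ∃ d, Adm F m M z d ∧ squ_S ν p m d y ≤ 1 ∧ r = |f (cls c k y)|}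

theorem squ_Ck_zero (hp : 1 < p) (hm : 0 < m) (f : E →ₗ[ℝ] ℝ) (c : ℕ → ℕ) (k : ℕ) :
    (0 : ℝ) ∈ squ_Ck ν p F m M z V f c k := by
  refine ⟨0, V.zero_mem, _, squ_adm0 F m M z hm, ?_, ?_⟩
  · rw [squ_S0 ν p m hp hm, map_zero, Real.zero_rpow (by linarith)]
    exact zero_le_one
  · rw [map_zero, map_zero, abs_zero]

theorem squ_Ck_bdd (hp : 1 < p) {f : E →ₗ[ℝ] ℝ} (hf : ∀ y, |f y| ≤ ν y) {c : ℕ → ℕ} {k : ℕ}
    (hk : k < m) {U L : ℝ} (hU : 0 < U) (hL : 0 < L)
    (h1 : ∀ y ∈ V, ∀ c, Adm F m M z c → ν y ^ p ≤ U * squ_S ν p m c y)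
    (hlow : ∀ y ∈ V, squ_S ν p m c y ≤ L * ν y ^ p) :
    ∀ r ∈ squ_Ck ν p F m M z V f c k, r ≤ (L * U) ^ (1 / p) := by
  rintro r ⟨y, hy, d, hd, hS, rfl⟩
  have h2 : ν (cls c k y) ^ p ≤ squ_S ν p m c y :=
    Finset.single_le_sum (f := fun l => ν (cls c l y) ^ p)
      (fun _ _ => Real.rpow_nonneg (apply_nonneg ν _) _) (Finset.mem_range.2 hk)
  have h3 : ν (cls c k y) ^ p ≤ L * U := by
    calc ν (cls c k y) ^ p ≤ L * ν y ^ p := h2.trans (hlow y hy)
      _ ≤ L * (U * squ_S ν p m d y) := mul_le_mul_of_nonneg_left (h1 y hy d hd) hL.le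
      _ ≤ L * (U * 1) := by gcongr
      _ = L * U := by ring
  refine (hf _).trans ?_
  refine squ_le_of_rpow hp (by positivity) ?_ (apply_nonneg ν _)
  rw [← Real.rpow_mul (by positivity), one_div_mul_cancel (by linarith), Real.rpow_one]
  exact h3

/-- values of `f` on a piece -/
theorem squ_piece (hν : Dfn ν) (hp : 1 < p) (hm : 0 < m) {f : E →ₗ[ℝ] ℝ} {c : ℕ → ℕ} {k : ℕ}
    {U C : ℝ} (hU : 0 < U) (hC0 : 0 ≤ C)
    (h1 : ∀ y ∈ V, ∀ c, Adm F m M z c → ν y ^ p ≤ U * squ_S ν p m c y)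
    (hC : ∀ r ∈ squ_Ck ν p F m M z V f c k, r ≤ C) {x : E} (hx : cls c k x ∈ V) :
    |f (cls c k x)| ≤ C * squ_N ν p F m M z V (cls c k x) := by
  -- the key inequality
  have key : ∀ y ∈ V, ∀ d, Adm F m M z d → |f (cls c k y)| ≤ C * squ_S ν p m d y ^ (1 / p) := by
    intro y hy d hd
    set s := squ_S ν p m d y with hs
    have hs0 : 0 ≤ s := squ_S_nonneg ν p m d y
    by_cases hsz : s = 0
    · have h2 := h1 y hy d hd
      rw [← hs, hsz, mul_zero] at h2
      have h3 : y = 0 := by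
        by_contra hne
        have := Real.rpow_pos_of_pos (hν y hne) p
        linarith
      rw [h3, map_zero, map_zero, abs_zero]
      positivity
    · have hspos : 0 < s := lt_of_le_of_ne hs0 (Ne.symm hsz)
      have hr : 0 < s ^ (1 / p) := by positivity
      have h4 := hC _ ⟨(s ^ (1 / p))⁻¹ • y, V.smul_mem _ hy, d, hd, ?_, rfl⟩
      · rw [map_smul, map_smul, smul_eq_mul, abs_mul, abs_of_pos (inv_pos.2 hr),
          inv_mul_le_iff₀ hr] at h4
        linarith
      · rw [squ_scale, ← hs, abs_of_pos (inv_pos.2 hr), Real.inv_rpow hr.le,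
          ← Real.rpow_mul hs0, one_div_mul_cancel (by linarith), Real.rpow_one,
          inv_mul_cancel₀ hsz]
  have hidem : cls c k (cls c k x) = cls c k x := by
    ext i
    rw [cls_apply, cls_apply]
    split_ifs <;> rfl
  rcases hC0.eq_or_lt with hC1 | hC1
  · have h5 := key _ hx _ (squ_adm0 F m M z hm)
    rw [hidem, ← hC1, zero_mul] at h5
    rw [← hC1, zero_mul]
    exact h5
  · have hg : C⁻¹ • (f ∘ₗ cls c k) ∈ squ_P ν p F m M z V := by
      intro y hy d hd
      rw [LinearMap.smul_apply, LinearMap.comp_apply, smul_eq_mul, abs_mul,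
        abs_of_pos (inv_pos.2 hC1)]
      have h6 : C⁻¹ * |f (cls c k y)| ≤ squ_S ν p m d y ^ (1 / p) := by
        rw [inv_mul_le_iff₀ hC1]
        exact key y hy d hd
      calc (C⁻¹ * |f (cls c k y)|) ^ p ≤ (squ_S ν p m d y ^ (1 / p)) ^ p :=
            Real.rpow_le_rpow (by positivity) h6 (by linarith)
        _ = squ_S ν p m d y := by
            rw [← Real.rpow_mul (squ_S_nonneg ν p m d y), one_div_mul_cancel (by linarith),
              Real.rpow_one]
    have h7 := squ_le_N hp hm hg hx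
    rw [LinearMap.smul_apply, LinearMap.comp_apply, hidem, smul_eq_mul, abs_mul,
      abs_of_pos (inv_pos.2 hC1), inv_mul_le_iff₀ hC1] at h7
    exact h7

end

theorem squ_cls_cls_self (c : ℕ → ℕ) (k : ℕ) (x : E) : cls c k (cls c k x) = cls c k x := by
  ext i
  rw [cls_apply, cls_apply]
  split_ifs <;> rfl

theorem squ_cls_cls_ne {c : ℕ → ℕ} {k k' : ℕ} (h : k ≠ k') (x : E) :
    cls c k (cls c k' x) = 0 := by
  ext i
  rw [cls_apply, cls_apply]
  by_cases h1 : c i = k
  · rw [if_pos h1, if_neg (by rw [h1]; exact h)]; rfl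
  · rw [if_neg h1]; rfl

theorem squ_cls_comm (c d : ℕ → ℕ) (k l : ℕ) (x : E) :
    cls c k (cls d l x) = cls d l (cls c k x) := by
  ext i
  simp only [cls_apply]
  split_ifs <;> rfl

/-- SQU (squaring, upper; cites HB, JOINT, SPAN1-3) -/
theorem squaring_upp_core_pr {ν : Seminorm ℝ E} (hν : Dfn ν) {p D : ℝ} (hp : 1 < p) (hD : 1 ≤ D)
    (hBD : BDFQ ν D) (F : Set (Finset ℕ)) (m M : ℕ) (L a ε : ℝ) (hL : 1 ≤ L) (ha : 1 ≤ a)
    (hε : 0 < ε) (hε1 : ε < 1) (z : ℕ → E) (hz : RBlk z) (hl : LowK ν p F m M L z)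
    (h1 : UppK ν p F m M (a * (1 + ε)) z)
    (h2 : UppK ν p F (m * m) (M + m * M) (a * (1 + ε)) z)
    (h3 : ∀ w, RBlk w → Le w z → ¬ UppK ν p F m M (a * (1 - ε)) w) :
    a * (1 - ε) ^ 2 * (1 - ε) ^ p ≤ D ^ p * L * (1 + ε) := by
  obtain ⟨T1, hT1⟩ := hl
  obtain ⟨T2, hT2⟩ := h1
  obtain ⟨T3, hT3⟩ := h2
  have hp0 : 0 < p := by linarith
  have ha0 : 0 < a := by linarith
  have hL0 : 0 < L := by linarith
  have hD0 : 0 < D := by linarith
  set U : ℝ := a * (1 + ε) with hU
  have hU0 : 0 < U := by rw [hU]; positivity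
  set W : ℝ := a * (1 - ε) with hW
  have hW0 : 0 < W := by rw [hW]; exact mul_pos ha0 (by linarith)
  set n : ℕ := max T1 (max T2 T3) with hn
  set w : ℕ → E := tl n z with hw
  obtain ⟨hwR, hwz, hws, hwsup, -⟩ := tl_facts hz n
  set V : Submodule ℝ E := bsp w with hV
  have hVz : V ≤ bsp z := bsp_le hwz
  have hsup : ∀ x ∈ V, ∀ i ∈ x.support, n ≤ i := fun x hx i hi =>
    (le_st hz.toIsBlk n).trans (hwsup x hx i hi)
  -- the hypotheses on V
  have hUV : ∀ y ∈ V, ∀ c, Adm F m M z c → ν y ^ p ≤ U * squ_S ν p m c y := fun y hy c hc =>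
    hT2 c hc y (hVz hy) fun i hi => by
      have := hsup y hy i hi
      have h4 : T2 ≤ n := by rw [hn]; omega
      omega
  -- an admissible colouring exists
  have hm : 0 < m := by
    have h4 := h3 z hz (Le.refl z)
    rw [UppK] at h4
    push Not at h4
    obtain ⟨c, hc, -⟩ := h4 0
    exact lt_of_le_of_lt (Nat.zero_le _) (hc.1 0)
  -- bounded distortion
  obtain ⟨z3, hz3, hz3w, hq⟩ := hBD w hwR (squ_N ν p F m M z V) (squ_eqOn hp hm hU0 hUV)
  have hz3V : bsp z3 ≤ V := bsp_le hz3w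
  have hz3z : Le z3 z := hz3w.trans hwz
  have hst3 : starts z3 ⊆ starts z := starts_subset hz.toIsBlk hz3.toIsBlk hz3z
  have hst3w : starts z3 ⊆ starts w := starts_subset hwR.toIsBlk hz3.toIsBlk hz3w
  have h4 := h3 z3 hz3 hz3z
  rw [UppK] at h4
  push Not at h4
  obtain ⟨c, hc, x, hx, -, hxU⟩ := h4 0
  rw [UppAt, not_le] at hxU
  change W * squ_S ν p m c x < ν x ^ p at hxU
  have hcz : Adm F m M z c := ⟨hc.1, hc.2.1.trans hst3, hc.2.2⟩
  have hcw : jump c ⊆ starts w := hc.2.1.trans hst3w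
  -- the pieces
  have hu : ∀ k, cls c k x ∈ bsp z3 := fun k => cls_mem hz3.toIsBlk hc.2.1 hx k
  have hsum : ∑ k ∈ range m, cls c k x = x := sum_cls fun i _ => hc.1 i
  set Sp : ℝ := squ_S ν p m c x with hSp
  have hSp0 : 0 ≤ Sp := squ_S_nonneg ν p m c x
  have hνx : 0 < ν x ^ p := lt_of_le_of_lt (by positivity) hxU
  have hνx0 : 0 < ν x := by
    rcases (apply_nonneg ν x).eq_or_lt with h | h
    · rw [← h, Real.zero_rpow hp0.ne'] at hνx
      exact absurd hνx (lt_irrefl _)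
    · exact h
  have hSppos : 0 < Sp := by
    rcases hSp0.eq_or_lt with h | h
    · exfalso
      have h5 := hUV x (hz3V hx) c hcz
      rw [← hSp, ← h, mul_zero] at h5
      linarith
    · exact h
  set S : ℝ := Sp ^ (1 / p) with hS
  have hS0 : 0 < S := by rw [hS]; positivity
  have hSpow : S ^ p = Sp := by
    rw [hS, ← Real.rpow_mul hSp0, one_div_mul_cancel hp0.ne', Real.rpow_one]
  set A : ℝ := W ^ (1 / p) with hA
  have hA0 : 0 < A := by rw [hA]; positivity
  have hApow : A ^ p = W := by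
    rw [hA, ← Real.rpow_mul hW0.le, one_div_mul_cancel hp0.ne', Real.rpow_one]
  have hAS : A * S ≤ ν x := by
    refine squ_le_of_rpow hp hνx0.le ?_ (by positivity)
    rw [Real.mul_rpow hA0.le hS0.le, hApow, hSpow]
    exact hxU.le
  have hNx : squ_N ν p F m M z V x ≤ S := by
    refine squ_N_le hp fun g hg => ?_
    refine squ_le_of_rpow hp hS0.le ?_ (abs_nonneg _)
    rw [hSpow]
    exact hg x (hz3V hx) c hcz
  -- norms of the pieces
  have hNu : ∀ k, squ_N ν p F m M z V (cls c k x) * A ≤ D * ν (cls c k x) := by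
    intro k
    have h5 := hq (cls c k x) (hu k) x hx
    have h6 : squ_N ν p F m M z V x * ν (cls c k x) ≤ S * ν (cls c k x) :=
      mul_le_mul_of_nonneg_right hNx (apply_nonneg ν _)
    have h7 : squ_N ν p F m M z V (cls c k x) * (A * S) ≤
        squ_N ν p F m M z V (cls c k x) * ν x :=
      mul_le_mul_of_nonneg_left hAS (squ_N_nonneg hp hm (hz3V (hu k)))
    have h8 : (squ_N ν p F m M z V (cls c k x) * A) * S ≤ (D * ν (cls c k x)) * S := by
      have h9 := mul_le_mul_of_nonneg_left h6 hD0.le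
      linarith
    exact le_of_mul_le_mul_right h8 hS0
  -- the norming functional
  obtain ⟨f, hfx, hf⟩ := hahn ν x
  have hlowV : ∀ y ∈ V, squ_S ν p m c y ≤ L * ν y ^ p := fun y hy =>
    hT1 c hcz y (hVz hy) fun i hi => by
      have := hsup y hy i hi
      have h5 : T1 ≤ n := by rw [hn]; omega
      omega
  set C : ℕ → ℝ := fun k => sSup (squ_Ck ν p F m M z V f c k) with hC
  have hCb : ∀ k < m, ∀ r ∈ squ_Ck ν p F m M z V f c k, r ≤ C k := fun k hk r hr =>
    le_csSup ⟨_, squ_Ck_bdd hp hf hk hU0 hL0 hUV hlowV⟩ hr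
  have hC0 : ∀ k < m, 0 ≤ C k := fun k hk => hCb k hk 0 (squ_Ck_zero hp hm f c k)
  have hfu : ∀ k < m, |f (cls c k x)| ≤ C k * squ_N ν p F m M z V (cls c k x) := fun k hk =>
    squ_piece hν hp hm hU0 (hC0 k hk) hUV (hCb k hk) (hz3V (hu k))
  -- near optimal vectors
  have hopt : ∀ k, ∃ (y : E) (d : ℕ → ℕ), k < m → y ∈ V ∧ Adm F m M z d ∧ squ_S ν p m d y ≤ 1 ∧
      (1 - ε) * C k ≤ |f (cls c k y)| := by
    intro k
    by_cases hk : k < m
    · rcases (hC0 k hk).eq_or_lt with h | h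
      · obtain ⟨y, hy, d, hd, hS1, h0⟩ := squ_Ck_zero (ν := ν) (F := F) (M := M) (z := z) (V := V)
          hp hm f c k
        refine ⟨y, d, fun _ => ⟨hy, hd, hS1, ?_⟩⟩
        rw [← h, mul_zero]; exact abs_nonneg _
      · have hlt : (1 - ε) * C k < C k := by nlinarith
        obtain ⟨r, ⟨y, hy, d, hd, hS1, rfl⟩, hr⟩ := exists_lt_of_lt_csSup
          ⟨_, squ_Ck_zero (ν := ν) (F := F) (M := M) (z := z) (V := V) hp hm f c k⟩ hlt
        exact ⟨y, d, fun _ => ⟨hy, hd, hS1, hr.le⟩⟩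
    · exact ⟨0, fun _ => 0, fun h => absurd h hk⟩
  choose y d hyd using hopt
  set b : ℕ → ℝ := fun k => ν (cls c k x) / S with hb
  have hb0 : ∀ k, 0 ≤ b k := fun k => div_nonneg (apply_nonneg ν _) hS0.le
  have hbsum : ∑ k ∈ range m, b k ^ p = 1 := by
    have h5 : ∀ k, b k ^ p = ν (cls c k x) ^ p / Sp := by
      intro k
      rw [hb, Real.div_rpow (apply_nonneg ν _) hS0.le, hSpow]
    simp only [h5]
    rw [← Finset.sum_div]
    exact div_self hSppos.ne'
  set sg : ℕ → ℝ := fun k => if 0 ≤ f (cls c k (y k)) then 1 else -1 with hsg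
  have hsgabs : ∀ k, |sg k| = 1 := by
    intro k
    rw [hsg]
    simp only
    split_ifs <;> simp
  have hsgf : ∀ k, sg k * f (cls c k (y k)) = |f (cls c k (y k))| := by
    intro k
    rw [hsg]
    simp only
    split_ifs with h
    · rw [one_mul, abs_of_nonneg h]
    · rw [abs_of_neg (not_le.1 h)]; ring
  set X : E := ∑ k ∈ range m, (sg k * b k) • cls c k (y k) with hX
  have hXV : X ∈ V := by
    refine V.sum_mem fun k hk => V.smul_mem _ ?_
    exact cls_mem hwR.toIsBlk hcw (hyd k (Finset.mem_range.1 hk)).1 k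
  have hfX : (1 - ε) * ∑ k ∈ range m, b k * C k ≤ ν X := by
    have h5 : f X = ∑ k ∈ range m, b k * |f (cls c k (y k))| := by
      rw [hX, map_sum]
      refine Finset.sum_congr rfl fun k _ => ?_
      rw [map_smul, smul_eq_mul, ← hsgf k]; ring
    calc (1 - ε) * ∑ k ∈ range m, b k * C k = ∑ k ∈ range m, b k * ((1 - ε) * C k) := by
          rw [Finset.mul_sum]
          refine Finset.sum_congr rfl fun k _ => by ring
      _ ≤ ∑ k ∈ range m, b k * |f (cls c k (y k))| := by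
          refine Finset.sum_le_sum fun k hk => ?_
          exact mul_le_mul_of_nonneg_left (hyd k (Finset.mem_range.1 hk)).2.2.2 (hb0 k)
      _ = f X := h5.symm
      _ ≤ |f X| := le_abs_self _
      _ ≤ ν X := hf X
  have hclsX : ∀ k < m, cls c k X = (sg k * b k) • cls c k (y k) := by
    intro k hk
    rw [hX, map_sum, Finset.sum_eq_single k]
    · rw [map_smul, squ_cls_cls_self]
    · intro k' _ hne
      rw [map_smul, squ_cls_cls_ne (Ne.symm hne), smul_zero]
    · intro h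
      exact absurd (Finset.mem_range.2 hk) h
  -- the joint colouring
  obtain ⟨hJ1, -, hJ3⟩ := joint_col (F := F) (m := m) (M := M) (y := z) (z := z3) hst3 c hc d
    (fun k hk => (hyd k hk).2.1)
  have hXU := hT3 _ hJ1 X (hVz hXV) fun i hi => by
      have := hsup X hXV i hi
      have h5 : T3 ≤ n := by rw [hn]; omega
      omega
  rw [UppAt] at hXU
  have hJ := hJ3 (fun v => ν v ^ p) X
  rw [hJ] at hXU
  have hXp : ν X ^ p ≤ U * L := by
    refine hXU.trans (mul_le_mul_of_nonneg_left ?_ hU0.le)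
    calc ∑ k ∈ range m, ∑ l ∈ range m, ν (cls (d k) l (cls c k X)) ^ p
        ≤ ∑ k ∈ range m, b k ^ p * L := by
          refine Finset.sum_le_sum fun k hk => ?_
          have hk' := Finset.mem_range.1 hk
          obtain ⟨hyV, hdA, hS1, -⟩ := hyd k hk'
          have h6 : ∀ l, ν (cls (d k) l (cls c k X)) ^ p =
              b k ^ p * ν (cls c k (cls (d k) l (y k))) ^ p := by
            intro l
            rw [hclsX k hk', map_smul, map_smul_eq_mul, Real.norm_eq_abs, abs_mul, hsgabs,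
              one_mul, abs_of_nonneg (hb0 k), Real.mul_rpow (hb0 k) (apply_nonneg ν _),
              squ_cls_comm]
          simp only [h6]
          rw [← Finset.mul_sum]
          refine mul_le_mul_of_nonneg_left ?_ (Real.rpow_nonneg (hb0 k) p)
          calc ∑ l ∈ range m, ν (cls c k (cls (d k) l (y k))) ^ p
              ≤ ∑ l ∈ range m, L * ν (cls (d k) l (y k)) ^ p := by
                refine Finset.sum_le_sum fun l _ => ?_
                have h7 := hT1 c hcz (cls (d k) l (y k))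
                  (cls_mem hz.toIsBlk hdA.2.1 (hVz hyV) l) (fun i hi => by
                    have := hsup (y k) hyV i (supp_cls_subset _ _ _ hi)
                    have h5 : T1 ≤ n := by rw [hn]; omega
                    omega)
                rw [LowAt] at h7
                exact (Finset.single_le_sum (f := fun l' => ν (cls c l' (cls (d k) l (y k))) ^ p)
                  (fun _ _ => Real.rpow_nonneg (apply_nonneg ν _) _) hk).trans h7
            _ = L * squ_S ν p m (d k) (y k) := by rw [squ_S, Finset.mul_sum]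
            _ ≤ L * 1 := mul_le_mul_of_nonneg_left hS1 hL0.le
            _ = L := mul_one L
      _ = L := by rw [← Finset.sum_mul, hbsum, one_mul]
  -- combine
  have hmain : ν x * A ≤ D * (S * ∑ k ∈ range m, b k * C k) := by
    have h5 : ν x = ∑ k ∈ range m, f (cls c k x) := by
      rw [← map_sum, hsum, hfx]
    have h6 : ν x ≤ ∑ k ∈ range m, C k * squ_N ν p F m M z V (cls c k x) := by
      rw [h5]
      exact Finset.sum_le_sum fun k hk =>
        (le_abs_self _).trans (hfu k (Finset.mem_range.1 hk))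
    calc ν x * A ≤ (∑ k ∈ range m, C k * squ_N ν p F m M z V (cls c k x)) * A :=
          mul_le_mul_of_nonneg_right h6 hA0.le
      _ = ∑ k ∈ range m, C k * (squ_N ν p F m M z V (cls c k x) * A) := by
          rw [Finset.sum_mul]
          refine Finset.sum_congr rfl fun k _ => by ring
      _ ≤ ∑ k ∈ range m, C k * (D * ν (cls c k x)) := by
          refine Finset.sum_le_sum fun k hk => ?_
          exact mul_le_mul_of_nonneg_left (hNu k) (hC0 k (Finset.mem_range.1 hk))
      _ = D * (S * ∑ k ∈ range m, b k * C k) := by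
          rw [Finset.mul_sum, Finset.mul_sum]
          refine Finset.sum_congr rfl fun k _ => ?_
          have h7 : ν (cls c k x) = S * b k := by
            rw [hb]; field_simp
          rw [h7]; ring
  have hε' : 0 < 1 - ε := by linarith
  have hfin : (1 - ε) * A * A ≤ D * ν X := by
    -- ν x * A * (1 - ε) ≤ D * S * ν X and A * S ≤ ν x
    have h5 : ν x * A * (1 - ε) ≤ D * S * ν X := by
      calc ν x * A * (1 - ε) ≤ D * (S * ∑ k ∈ range m, b k * C k) * (1 - ε) :=
            mul_le_mul_of_nonneg_right hmain hε'.le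
        _ = D * S * ((1 - ε) * ∑ k ∈ range m, b k * C k) := by ring
        _ ≤ D * S * ν X := mul_le_mul_of_nonneg_left hfX (by positivity)
    have h6 : (A * S) * (A * (1 - ε)) ≤ ν x * (A * (1 - ε)) :=
      mul_le_mul_of_nonneg_right hAS (by positivity)
    have h7 : ((1 - ε) * A * A) * S ≤ (D * ν X) * S := by
      calc ((1 - ε) * A * A) * S = (A * S) * (A * (1 - ε)) := by ring
        _ ≤ ν x * (A * (1 - ε)) := h6
        _ = ν x * A * (1 - ε) := by ring
        _ ≤ D * S * ν X := h5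
        _ = (D * ν X) * S := by ring
    exact le_of_mul_le_mul_right h7 hS0
  have hpow : ((1 - ε) * A * A) ^ p ≤ (D * ν X) ^ p :=
    Real.rpow_le_rpow (by positivity) hfin hp0.le
  rw [Real.mul_rpow (by positivity) hA0.le, Real.mul_rpow hε'.le hA0.le, hApow,
    Real.mul_rpow hD0.le (apply_nonneg ν X)] at hpow
  have hDp : 0 < D ^ p := Real.rpow_pos_of_pos hD0 p
  have h8 : (1 - ε) ^ p * W * W ≤ D ^ p * (U * L) :=
    hpow.trans (mul_le_mul_of_nonneg_left hXp hDp.le)
  have h9 : a * (a * (1 - ε) ^ 2 * (1 - ε) ^ p) ≤ a * (D ^ p * L * (1 + ε)) := by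
    calc a * (a * (1 - ε) ^ 2 * (1 - ε) ^ p) = (1 - ε) ^ p * W * W := by rw [hW]; ring
      _ ≤ D ^ p * (U * L) := h8
      _ = a * (D ^ p * L * (1 + ε)) := by rw [hU]; ring
  exact le_of_mul_le_mul_left h9 ha0

alias squaring_upp_core := squaring_upp_core_pr

end Pool.Agent.Lib_helper25.AD
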