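import Pool.Agent.Lib_helper25.AD.Base
import Pool.Agent.Lib_helper25.AD.Blk.FUS
import Pool.Agent.Lib_helper25.AD.Blk.KM
import Pool.Agent.Lib_helper25.AD.Blk.SQL
import Pool.Agent.Lib_helper25.AD.Blk.SQU

/-!
# Blocks SQLF and SQUF (helper85)
-/

set_option autoImplicit false

open Finset

namespace Pool.Agent.Lib_helper25.AD

theorem SQLF_num (a b : ℝ) (hb : 1 ≤ b) (hab : b < a) (q : ℝ) (hq : 0 < q) :
    ∃ ε : ℝ, 0 < ε ∧ ε < 1 ∧ b * (1 + ε) < a * (1 - q * ε) := by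
  have ha : 0 < a := by linarith
  refine ⟨(a - b) / (2 * ((q + 1) * a)), by apply div_pos <;> [linarith; positivity], ?_, ?_⟩
  · rw [div_lt_one (by positivity)]
    nlinarith [mul_pos hq ha]
  · set e : ℝ := (a - b) / (2 * ((q + 1) * a)) with he
    have he0 : 0 < e := by rw [he]; apply div_pos <;> [linarith; positivity]
    have h1 : e * (2 * ((q + 1) * a)) = a - b := by
      rw [he]; field_simp
    have h2 : b * e ≤ a * e := mul_le_mul_of_nonneg_right hab.le he0.le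
    have h3 : a - b = 2 * (a * e) + 2 * (q * (a * e)) := by rw [← h1]; ring
    have h4 : 0 < a * e := by positivity
    have h5 : 0 < q * (a * e) := by positivity
    nlinarith

theorem SQLF_family (F : Set (Finset ℕ)) : ∀ A ∈ F, ∃ B ∈ F, A ⊆ B :=
  fun A hA => ⟨A, hA, Finset.Subset.refl A⟩

/-- SQLF (cites STAB, SQL) -/
theorem squaring_low_pr {ν : Seminorm ℝ E} (hν : Dfn ν) {p D : ℝ} (hp : 1 < p) (hD : 1 ≤ D)
    (hBD : BDFQ ν D) (F : Set (Finset ℕ)) (y : ℕ → E) (hy : RBlk y) (L₁ L : ℝ)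
    (hL : D ^ p < L) (h : Low ν p F L₁ y) : ∃ z, RBlk z ∧ Le z y ∧ Low ν p F L z := by
  by_contra hcon
  have hp0 : 0 < p := by linarith
  have hDp : 1 ≤ D ^ p := Real.one_le_rpow hD hp0.le
  obtain ⟨ε, hε0, hε1, hε2⟩ := SQLF_num L (D ^ p) hDp hL 3 (by norm_num)
  obtain ⟨a, ha, k, z, hz, hzy, h1, h2⟩ := stabilise y hy
    (fun a k z => LowK ν p F (Nat.unpair k).1 (Nat.unpair k).2 a z)
    (fun a b k z hab h => lowK_mono hp0 (SQLF_family F) le_rfl le_rfl hab h)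
    (fun a k y z hy hz hzy h => lowK_star hy hz hzy h) L L₁ (by linarith)
    (fun k => h _ _)
    (by
      rintro ⟨z, hz, hzy, hk⟩
      refine hcon ⟨z, hz, hzy, fun m M => ?_⟩
      have := hk (Nat.pair m M)
      simpa using this) ε hε0 hε1
  have h3 : LowK ν p F ((Nat.unpair k).1 * (Nat.unpair k).1)
      ((Nat.unpair k).2 + (Nat.unpair k).1 * (Nat.unpair k).2) (a * (1 + ε)) z := by
    have := h1 (Nat.pair ((Nat.unpair k).1 * (Nat.unpair k).1)
      ((Nat.unpair k).2 + (Nat.unpair k).1 * (Nat.unpair k).2))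
    simpa using this
  have h4 := squaring_low_core hν hp hD hBD F _ _ a ε (by linarith) hε0 hε1 z hz (h1 k) h3 h2
  have h5 : 1 - 3 * ε ≤ (1 - ε) ^ 3 := by
    have := one_add_mul_le_pow (a := -ε) (by linarith) 3
    have h6 : (1 + -ε) ^ 3 = (1 - ε) ^ 3 := by ring
    push_cast at this
    linarith
  have h6 : 0 ≤ (1 - ε) ^ 3 := pow_nonneg (by linarith) 3
  have h7 : L * (1 - 3 * ε) ≤ a * (1 - ε) ^ 3 := by
    calc L * (1 - 3 * ε) ≤ L * (1 - ε) ^ 3 := mul_le_mul_of_nonneg_left h5 (by linarith)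
      _ ≤ a * (1 - ε) ^ 3 := mul_le_mul_of_nonneg_right ha h6
  linarith

/-- SQUF (cites STAB, SQU) -/
theorem squaring_upp_pr {ν : Seminorm ℝ E} (hν : Dfn ν) {p D : ℝ} (hp : 1 < p) (hD : 1 ≤ D)
    (hBD : BDFQ ν D) (F : Set (Finset ℕ)) (y : ℕ → E) (hy : RBlk y) (L U₁ U : ℝ) (hL : 1 ≤ L)
    (hU : D ^ p * L < U) (hl : Low ν p F L y) (h : Upp ν p F U₁ y) :
    ∃ z, RBlk z ∧ Le z y ∧ Upp ν p F U z := by
  by_contra hcon
  have hp0 : 0 < p := by linarith
  have hDp : 1 ≤ D ^ p := Real.one_le_rpow hD hp0.le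
  have hDL : 1 ≤ D ^ p * L := one_le_mul_of_one_le_of_one_le hDp hL
  obtain ⟨ε, hε0, hε1, hε2⟩ := SQLF_num U (D ^ p * L) hDL hU (p + 2) (by linarith)
  obtain ⟨a, ha, k, z, hz, hzy, h1, h2⟩ := stabilise y hy
    (fun a k z => UppK ν p F (Nat.unpair k).1 (Nat.unpair k).2 a z)
    (fun a b k z hab h => uppK_mono hp0 (SQLF_family F) le_rfl le_rfl hab h)
    (fun a k y z hy hz hzy h => uppK_star hy hz hzy h) U U₁ (by linarith)
    (fun k => h _ _)
    (by
      rintro ⟨z, hz, hzy, hk⟩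
      refine hcon ⟨z, hz, hzy, fun m M => ?_⟩
      have := hk (Nat.pair m M)
      simpa using this) ε hε0 hε1
  have h3 : UppK ν p F ((Nat.unpair k).1 * (Nat.unpair k).1)
      ((Nat.unpair k).2 + (Nat.unpair k).1 * (Nat.unpair k).2) (a * (1 + ε)) z := by
    have := h1 (Nat.pair ((Nat.unpair k).1 * (Nat.unpair k).1)
      ((Nat.unpair k).2 + (Nat.unpair k).1 * (Nat.unpair k).2))
    simpa using this
  have hlz : LowK ν p F (Nat.unpair k).1 (Nat.unpair k).2 L z :=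
    lowK_star hy hz hzy.star (hl _ _)
  have h4 := squaring_upp_core hν hp hD hBD F _ _ L a ε hL (by linarith) hε0 hε1 z hz hlz
    (h1 k) h3 h2
  have h5 : 1 - (p + 2) * ε ≤ (1 - ε) ^ 2 * (1 - ε) ^ p := by
    have h8 : (1 - ε) ^ 2 * (1 - ε) ^ p = (1 - ε) ^ (p + 2) := by
      rw [Real.rpow_add (by linarith), mul_comm]
      congr 1
      exact (Real.rpow_natCast _ 2).symm
    have := one_add_mul_self_le_rpow_one_add (s := -ε) (by linarith) (p := p + 2) (by linarith)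
    rw [h8]
    have h9 : (1 + -ε) = 1 - ε := by ring
    rw [h9] at this
    linarith
  have h6 : 0 ≤ (1 - ε) ^ 2 * (1 - ε) ^ p :=
    mul_nonneg (pow_nonneg (by linarith) 2) (Real.rpow_nonneg (by linarith) _)
  have h7 : U * (1 - (p + 2) * ε) ≤ a * ((1 - ε) ^ 2 * (1 - ε) ^ p) := by
    calc U * (1 - (p + 2) * ε) ≤ U * ((1 - ε) ^ 2 * (1 - ε) ^ p) :=
          mul_le_mul_of_nonneg_left h5 (by linarith)
      _ ≤ a * ((1 - ε) ^ 2 * (1 - ε) ^ p) := mul_le_mul_of_nonneg_right ha h6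
  have h8 : a * (1 - ε) ^ 2 * (1 - ε) ^ p = a * ((1 - ε) ^ 2 * (1 - ε) ^ p) := by ring
  rw [h8] at h4
  linarith

alias squaring_low := squaring_low_pr

alias squaring_upp := squaring_upp_pr

end Pool.Agent.Lib_helper25.AD
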