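import Pool.Agent.Lib_helper25.AD.Base
import Pool.Agent.Lib_helper25.AD.Blk.APR
import Pool.Agent.Lib_helper25.AD.Blk.FUS
import Pool.Agent.Lib_helper25.AD.Blk.KM
import Pool.Agent.Lib_helper25.AD.Blk.SPARSE
import Pool.Agent.Lib_helper25.AD.Blk.SQLF

set_option autoImplicit false

open Finset

namespace Pool.Agent.Lib_helper25.AD

theorem goods_star {z y : ℕ → E} (h : Le z y) : LeStar z y := h.star

theorem goods_low_star {ν : Seminorm ℝ E} {p : ℝ} {F : Set (Finset ℕ)} {L : ℝ} {y z : ℕ → E}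
    (hy : RBlk y) (hz : RBlk z) (hzy : LeStar z y) (h : Low ν p F L y) : Low ν p F L z :=
  fun m M => lowK_star hy hz hzy (h m M)

theorem goods_upp_star {ν : Seminorm ℝ E} {p : ℝ} {F : Set (Finset ℕ)} {L : ℝ} {y z : ℕ → E}
    (hy : RBlk y) (hz : RBlk z) (hzy : LeStar z y) (h : Upp ν p F L y) : Upp ν p F L z :=
  fun m M => uppK_star hy hz hzy (h m M)

/-- the increasing unions -/
def goodsU (H₀ : Set (Finset ℕ)) (H : ℕ → Set (Finset ℕ)) : ℕ → Set (Finset ℕ)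
  | 0 => H 0 ∪ H₀
  | (t + 1) => H (t + 1) ∪ goodsU H₀ H t

theorem goodsU_claim {ν : Seminorm ℝ E} {p L U : ℝ} {H₀ : Set (Finset ℕ)}
    {H : ℕ → Set (Finset ℕ)} (h₀ : Claim ν p L U H₀) (hH : ∀ t, Good ν p L U (H t)) (t : ℕ) :
    Claim ν p L U (goodsU H₀ H t) := by
  induction t with
  | zero => exact hH 0 _ h₀
  | succ t ih => exact hH (t + 1) _ ih

theorem goodsU_mono (H₀ : Set (Finset ℕ)) (H : ℕ → Set (Finset ℕ)) {s t : ℕ} (h : s ≤ t) :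
    goodsU H₀ H s ⊆ goodsU H₀ H t := by
  induction t with
  | zero =>
    have : s = 0 := by omega
    subst this; exact subset_rfl
  | succ t ih =>
    rcases Nat.lt_or_ge s (t + 1) with h1 | h1
    · exact (ih (by omega)).trans (Set.subset_union_right)
    · have : s = t + 1 := by omega
      subst this; exact subset_rfl

theorem goodsU_base (H₀ : Set (Finset ℕ)) (H : ℕ → Set (Finset ℕ)) (t : ℕ) :
    H₀ ⊆ goodsU H₀ H t := by
  have h0 : H₀ ⊆ goodsU H₀ H 0 := Set.subset_union_right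
  exact h0.trans (goodsU_mono H₀ H (Nat.zero_le t))

theorem goodsU_self (H₀ : Set (Finset ℕ)) (H : ℕ → Set (Finset ℕ)) (t : ℕ) :
    H t ⊆ goodsU H₀ H t := by
  cases t with
  | zero => exact Set.subset_union_left
  | succ t => exact Set.subset_union_left

/-- GOODS -/
theorem good_step_pr {ν : Seminorm ℝ E} (hν : Dfn ν) {p K D L U : ℝ} (hp : 1 < p) (hK : 1 ≤ K)
    (hD : 1 ≤ D) (hL : D ^ p < L) (hU : D ^ p * L < U) (hAs : AsLp ν p K) (hBD : BDFQ ν D)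
    (H : ℕ → Set (Finset ℕ)) (F : Set (Finset ℕ)) (hH : ∀ t, Good ν p L U (H t))
    (hF : ∀ A ∈ F, ∀ t ∈ A, (∀ u ∈ A, t ≤ u) → ∃ B ∈ H t, A.erase t ⊆ B) :
    Good ν p L U F := by
  intro H₀ hH₀ y hy
  have hp0 : 0 < p := by linarith
  have hDp : 1 ≤ D ^ p := Real.one_le_rpow hD hp0.le
  have hL1 : 1 ≤ L := by linarith
  have hU1 : 1 ≤ U := by nlinarith
  set G := goodsU H₀ H with hGdef
  have hcl : ∀ t, Claim ν p L U (G t) := goodsU_claim hH₀ hH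
  -- fusion
  obtain ⟨y₁, hy₁, hy₁y, h₁⟩ := fusion y hy
    (fun t z => Low ν p (G t) L z ∧ Upp ν p (G t) U z)
    (fun t a b ha hb hba h => ⟨goods_low_star ha hb hba h.1, goods_upp_star ha hb hba h.2⟩)
    (fun t a ha _ => by
      obtain ⟨z, hz, hza, h1, h2⟩ := hcl t a ha
      exact ⟨z, hz, hza, h1, h2⟩)
  obtain ⟨z₁, hz₁, hz₁y, hsp⟩ := exists_sparse hp G y₁ hy₁ (fun t => (h₁ t).1) (fun t => (h₁ t).2)
  have hF' : ∀ A ∈ F ∪ H₀, ∀ t ∈ A, (∀ u ∈ A, t ≤ u) → ∃ B ∈ G t, A.erase t ⊆ B := by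
    intro A hA t ht hm
    rcases hA with hA | hA
    · obtain ⟨B, hB, hAB⟩ := hF A hA t ht hm
      exact ⟨B, goodsU_self H₀ H t hB, hAB⟩
    · exact ⟨A, goodsU_base H₀ H t hA, Finset.erase_subset _ _⟩
  obtain ⟨hlow, hupp⟩ := apriori_core hp hK hL1 hU1 hAs G
    (fun s t hst A hA => ⟨A, goodsU_mono H₀ H hst hA, subset_rfl⟩) (F ∪ H₀) hF' y₁ hy₁ z₁ hz₁
    hz₁y hsp
  obtain ⟨z₂, hz₂, hz₂z₁, hlow₂⟩ := squaring_low hν hp hD hBD (F ∪ H₀) z₁ hz₁ _ L hL hlow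
  have hupp₂ := goods_upp_star hz₁ hz₂ hz₂z₁.star hupp
  obtain ⟨z₃, hz₃, hz₃z₂, hupp₃⟩ := squaring_upp hν hp hD hBD (F ∪ H₀) z₂ hz₂ L _ U hL1 hU hlow₂
    hupp₂
  exact ⟨z₃, hz₃, (hz₃z₂.trans hz₂z₁).trans (hz₁y.trans hy₁y),
    goods_low_star hz₂ hz₃ hz₃z₂.star hlow₂, hupp₃⟩

alias good_step := good_step_pr

end Pool.Agent.Lib_helper25.AD
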