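import Pool.Agent.Lib_helper25.AD.Base

/-!
# AD, block REACH: the families of a well founded tree
-/

set_option autoImplicit false

open Finset Filter Topology

namespace Pool.Agent.Lib_helper25.AD

/-- REACH -/
theorem reach_pr (Tr : List E → Prop) (w : ℕ → E) (hpre : ∀ l a, Tr (l ++ [a]) → Tr l)
    (hwf : ¬ ∃ b : ℕ → ℕ, ∀ n, Tr ((List.range n).map fun i => w (b i)))
    (G : Set (Finset ℕ) → Prop) (hG0 : G {∅}) (hGu : ∀ F F', G F → G F' → G (F ∪ F'))
    (hGs : ∀ (H : ℕ → Set (Finset ℕ)) (F : Set (Finset ℕ)), (∀ t, G (H t)) →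
      (∀ A ∈ F, ∀ t ∈ A, (∀ u ∈ A, t ≤ u) → ∃ B ∈ H t, A.erase t ⊆ B) → G F) :
    ∃ F, G F ∧ ∀ z : ℕ → ℕ, ∀ π : ℕ → ℕ, StrictMono π →
      ∃ l : List ℕ, l.Pairwise (· < ·) ∧ (l.map π).toFinset ∈ F ∧
        ¬ Tr (l.map fun i => w (z i)) := by
  classical
  set P : List ℕ → Prop := fun s => ∃ F, G F ∧ ∀ z π : ℕ → ℕ, StrictMono π → ∀ T0 : ℕ,
    ∃ l : List ℕ, l.Pairwise (· < ·) ∧ (∀ i ∈ l, T0 ≤ i) ∧ (l.map π).toFinset ∈ F ∧
      ¬ Tr ((s ++ l.map z).map w) with hP
  have h1 : ∀ s, ¬ Tr (s.map w) → P s := by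
    intro s hs
    refine ⟨{∅}, hG0, fun z π _ T0 => ⟨[], List.Pairwise.nil, ?_, ?_, ?_⟩⟩
    · intro i hi
      exact absurd hi (by simp)
    · simp
    · simpa using hs
  have h2 : ∀ s, (∀ k, P (s ++ [k])) → P s := by
    intro s hs
    choose F hF hFz using hs
    -- finite unions
    have hU : ∀ t, G {A | ∃ k, k ≤ t ∧ A ∈ F k} := by
      intro t
      induction t with
      | zero =>
        have : {A | ∃ k, k ≤ 0 ∧ A ∈ F k} = F 0 := by
          ext A
          simp
        rw [this]
        exact hF 0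
      | succ t ih =>
        have : {A | ∃ k, k ≤ t + 1 ∧ A ∈ F k} = {A | ∃ k, k ≤ t ∧ A ∈ F k} ∪ F (t + 1) := by
          ext A
          simp only [Set.mem_setOf_eq, Set.mem_union]
          constructor
          · rintro ⟨k, hk, hA⟩
            rcases Nat.lt_or_ge k (t + 1) with h | h
            · exact Or.inl ⟨k, by omega, hA⟩
            · have : k = t + 1 := by omega
              subst this
              exact Or.inr hA
          · rintro (⟨k, hk, hA⟩ | hA)
            · exact ⟨k, by omega, hA⟩
            · exact ⟨t + 1, le_rfl, hA⟩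
        rw [this]
        exact hGu _ _ ih (hF (t + 1))
    set HH : Set (Finset ℕ) := {A | A = ∅ ∨ ∃ t ∈ A, (∀ u ∈ A, t ≤ u) ∧ ∃ k, k ≤ t ∧ A ∈ F k}
      with hHH
    have hGH : G HH := by
      refine hGs (fun t => {A | ∃ k, k ≤ t ∧ A ∈ F k}) HH hU ?_
      rintro A hA t htA htm
      rcases hA with hA | ⟨t', ht'A, ht'm, k, hk, hAk⟩
      · subst hA
        exact absurd htA (by simp)
      · have htt : t = t' := le_antisymm (htm t' ht'A) (ht'm t htA)
        subst htt
        exact ⟨A, ⟨k, hk, hAk⟩, Finset.erase_subset _ _⟩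
    refine ⟨{A | ∃ t ∈ A, (∀ u ∈ A, t ≤ u) ∧ A.erase t ∈ HH}, ?_, ?_⟩
    · refine hGs (fun _ => HH) _ (fun _ => hGH) ?_
      rintro A ⟨t', ht'A, ht'm, hA⟩ t htA htm
      have htt : t = t' := le_antisymm (htm t' ht'A) (ht'm t htA)
      subst htt
      exact ⟨A.erase t, hA, Finset.Subset.refl _⟩
    · intro z π hπ T0
      obtain ⟨l, hl1, hl2, hl3, hl4⟩ := hFz (z T0) z π hπ (max (T0 + 1) (z T0))
      have hlT : ∀ i ∈ l, T0 < i := fun i hi => by
        have := hl2 i hi
        have h3 := le_max_left (T0 + 1) (z T0)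
        omega
      have hlz : ∀ i ∈ l, z T0 ≤ i := fun i hi => le_trans (le_max_right _ _) (hl2 i hi)
      refine ⟨T0 :: l, List.pairwise_cons.2 ⟨hlT, hl1⟩, ?_, ?_, ?_⟩
      · intro i hi
        rcases List.mem_cons.1 hi with h | h
        · exact h.ge
        · exact (hlT i h).le
      · have hmem : ∀ u, u ∈ (l.map π).toFinset ↔ ∃ i ∈ l, π i = u := by
          intro u
          simp
        have hnot : π T0 ∉ (l.map π).toFinset := by
          rw [hmem]
          rintro ⟨i, hi, h⟩
          exact absurd h (hπ (hlT i hi)).ne'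
        have hins : ((T0 :: l).map π).toFinset = insert (π T0) (l.map π).toFinset := by
          simp
        refine ⟨π T0, ?_, ?_, ?_⟩
        · rw [hins]
          exact Finset.mem_insert_self _ _
        · intro u hu
          rw [hins, Finset.mem_insert] at hu
          rcases hu with h | h
          · exact h.ge
          · obtain ⟨i, hi, h⟩ := (hmem u).1 h
            rw [← h]
            exact (hπ (hlT i hi)).le
        · rw [hins, Finset.erase_insert hnot]
          rcases (l.map π).toFinset.eq_empty_or_nonempty with he | hne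
          · left
            exact he
          · right
            refine ⟨(l.map π).toFinset.min' hne, Finset.min'_mem _ _,
              fun u hu => Finset.min'_le _ _ hu, z T0, ?_, hl3⟩
            obtain ⟨i, hi, h⟩ := (hmem _).1 (Finset.min'_mem _ hne)
            rw [← h]
            exact le_trans (hlz i hi) hπ.le_apply
      · have : s ++ (T0 :: l).map z = s ++ [z T0] ++ l.map z := by simp
        rw [this]
        exact hl4
  have h3 : P [] := by
    by_contra hcon
    have hstep : ∀ s, ¬ P s → ∃ k, ¬ P (s ++ [k]) := fun s hs => by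
      by_contra h
      push Not at h
      exact hs (h2 s h)
    choose! f hf using hstep
    let S : ℕ → List ℕ := fun n => Nat.rec [] (fun _ s => s ++ [f s]) n
    have hS0 : S 0 = [] := rfl
    have hS1 : ∀ n, S (n + 1) = S n ++ [f (S n)] := fun n => rfl
    have hSP : ∀ n, ¬ P (S n) := by
      intro n
      induction n with
      | zero => exact hcon
      | succ n ih =>
        rw [hS1]
        exact hf _ ih
    have hSb : ∀ n, S n = (List.range n).map fun i => f (S i) := by
      intro n
      induction n with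
      | zero => rfl
      | succ n ih =>
        rw [hS1, List.range_succ, List.map_append, ← ih]
        rfl
    apply hwf
    refine ⟨fun n => f (S n), fun n => ?_⟩
    by_contra h4
    apply hSP n
    apply h1
    rw [hSb, List.map_map]
    exact h4
  obtain ⟨F, hF, hFz⟩ := h3
  refine ⟨F, hF, fun z π hπ => ?_⟩
  obtain ⟨l, hl1, _, hl3, hl4⟩ := hFz z π hπ 0
  refine ⟨l, hl1, hl3, ?_⟩
  rw [List.nil_append, List.map_map] at hl4
  exact hl4

alias reach := reach_pr

end Pool.Agent.Lib_helper25.AD
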