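import Pool.Agent.Lib_helper25.AD.Base

/-!
# MP_a4bf89_an: block HIT
-/

set_option autoImplicit false

open Finset

namespace Pool.Agent.Lib_helper25.AD

theorem HIT_had_apply (g x : E) (t : ℕ) : had g x t = |g t| * |x t| := by
  rw [had, Finsupp.zipWith_apply]

theorem HIT_had_supp (g x : E) {t : ℕ} (ht : t ∈ (had g x).support) :
    t ∈ g.support ∧ t ∈ x.support := by
  rw [Finsupp.mem_support_iff, HIT_had_apply] at ht
  rw [Finsupp.mem_support_iff, Finsupp.mem_support_iff]
  constructor
  · intro h; apply ht; rw [h]; simp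
  · intro h; apply ht; rw [h]; simp

theorem HIT_disj {w : ℕ → E} (hw : IsBlk w) {i j t : ℕ} (hi : t ∈ (w i).support)
    (hj : t ∈ (w j).support) : i = j := by
  rcases lt_trichotomy i j with h | h | h
  · exact absurd (hw.bef h t hi t hj) (lt_irrefl t)
  · exact h
  · exact absurd (hw.bef h t hj t hi) (lt_irrefl t)

/-- HIT -/
theorem hit_pr (μ μd : Seminorm ℝ E) (hμ : Lat μ) (hdf : Dfn μ) (hd : IsDual μ μd) (p : ℝ)
    (hp : 1 < p) (M : Set E)
    (hM : ∀ h : ℕ → E, (∀ i, Prob (h i)) → (∀ i, Bef (h i) (h (i + 1))) →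
      ∃ (I : Finset ℕ) (β : ℕ → ℝ), TwoAdm I ∧ (∀ i ∈ I, 0 ≤ β i) ∧ ∑ i ∈ I, β i = 1 ∧
        ∑ i ∈ I, β i • h i ∈ M)
    (z : ℕ → E) (hz : IsBlk z) :
    ∃ w g I β v vs, IsTV μ μd p w g I β v vs ∧ v ∈ bsp z ∧ had vs v ∈ M := by
  classical
  have hp0 : 0 < p := by linarith
  have hpos : ∀ i, 0 < μ (z i) := fun i => hdf _ (hz.ne i)
  let w : ℕ → E := fun i => (μ (z i))⁻¹ • z i
  have hwsupp : ∀ i, (w i).support = (z i).support := fun i =>
    Finsupp.support_smul_eq (inv_ne_zero (hpos i).ne')
  have hw : IsBlk w := by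
    constructor
    · intro i
      exact smul_ne_zero (inv_ne_zero (hpos i).ne') (hz.ne i)
    · intro i
      intro a ha b hb
      rw [hwsupp] at ha hb
      exact hz.lt i a ha b hb
  have hnw : ∀ i, μ (w i) = 1 := by
    intro i
    show μ ((μ (z i))⁻¹ • z i) = 1
    rw [map_smul_eq_mul, Real.norm_eq_abs, abs_of_pos (inv_pos.2 (hpos i)),
      inv_mul_cancel₀ (hpos i).ne']
  have hatt := fun i => hd.att (w i)
  choose g hg1 hg2 hg3 using hatt
  have hpg : ∀ i, pr (g i) (w i) = 1 := fun i => by rw [hg2 i, hnw i]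
  obtain ⟨I, β, hadm, hβ0, hβ1, hmem⟩ := hM (fun i => had (g i) (w i)) (by
    intro i
    constructor
    · intro t
      rw [HIT_had_apply]
      positivity
    · rw [← hpg i, pr]
      rw [Finset.sum_subset (s₁ := (had (g i) (w i)).support) (s₂ := (w i).support)]
      · exact Finset.sum_congr rfl fun t _ => HIT_had_apply _ _ _
      · intro t ht
        exact (HIT_had_supp _ _ ht).2
      · intro t _ ht
        simpa using ht) (by
    intro i a ha b hb
    exact hw.lt i a (HIT_had_supp _ _ ha).2 b (HIT_had_supp _ _ hb).2)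
  refine ⟨w, g, I, β, ∑ i ∈ I, (β i ^ (1 / p)) • w i, ∑ i ∈ I, (β i ^ (1 - 1 / p)) • g i,
    ⟨hw, hnw, hg1, hpg, hg3, hadm, hβ0, hβ1, rfl, rfl⟩, ?_, ?_⟩
  · apply Submodule.sum_mem
    intro i _
    apply Submodule.smul_mem
    exact Submodule.smul_mem _ _ (self_mem_bsp z i)
  · have heq : had (∑ i ∈ I, (β i ^ (1 - 1 / p)) • g i) (∑ i ∈ I, (β i ^ (1 / p)) • w i) =
        ∑ i ∈ I, β i • had (g i) (w i) := by
      ext t
      rw [HIT_had_apply, Finsupp.finsetSum_apply, Finsupp.finsetSum_apply,
        Finsupp.finsetSum_apply]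
      simp only [Finsupp.smul_apply, smul_eq_mul]
      by_cases ht : ∃ i ∈ I, t ∈ (w i).support
      · obtain ⟨i, hi, hti⟩ := ht
        have hz0 : ∀ j, j ≠ i → (w j) t = 0 := by
          intro j hji
          by_contra hne
          exact hji (HIT_disj hw (Finsupp.mem_support_iff.2 hne) hti)
        have hg0 : ∀ j, j ≠ i → (g j) t = 0 := by
          intro j hji
          by_contra hne
          exact hji (HIT_disj hw (hg3 j (Finsupp.mem_support_iff.2 hne)) hti)
        rw [Finset.sum_eq_single i (fun j _ hji => by rw [hg0 j hji, mul_zero])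
            (fun h => absurd hi h),
          Finset.sum_eq_single i (fun j _ hji => by rw [hz0 j hji, mul_zero])
            (fun h => absurd hi h),
          Finset.sum_eq_single i (fun j _ hji => by
            rw [HIT_had_apply, hz0 j hji, abs_zero, mul_zero, mul_zero])
            (fun h => absurd hi h), HIT_had_apply]
        have h1 : 0 ≤ β i ^ (1 - 1 / p) := Real.rpow_nonneg (hβ0 i hi) _
        have h2 : 0 ≤ β i ^ (1 / p) := Real.rpow_nonneg (hβ0 i hi) _
        rw [abs_mul, abs_mul, abs_of_nonneg h1, abs_of_nonneg h2]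
        have h3 : β i ^ (1 - 1 / p) * β i ^ (1 / p) = β i := by
          rcases (hβ0 i hi).eq_or_lt with h0 | h0
          · rw [← h0, Real.zero_rpow (by positivity : (1 / p : ℝ) ≠ 0), mul_zero]
          · rw [← Real.rpow_add h0]
            simp
        calc β i ^ (1 - 1 / p) * |(g i) t| * (β i ^ (1 / p) * |(w i) t|)
            = (β i ^ (1 - 1 / p) * β i ^ (1 / p)) * (|(g i) t| * |(w i) t|) := by ring
          _ = β i * (|(g i) t| * |(w i) t|) := by rw [h3]
      · have hz0 : ∀ j ∈ I, (w j) t = 0 := by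
          intro j hj
          by_contra hne
          exact ht ⟨j, hj, Finsupp.mem_support_iff.2 hne⟩
        rw [Finset.sum_eq_zero (s := I) (f := fun i => β i ^ (1 / p) * (w i) t)
            (fun j hj => by rw [hz0 j hj, mul_zero]),
          Finset.sum_eq_zero (s := I) (f := fun i => β i * (had (g i) (w i)) t)
            (fun j hj => by rw [HIT_had_apply, hz0 j hj, abs_zero, mul_zero, mul_zero])]
        simp
    rw [heq]
    exact hmem

alias hit := hit_pr

end Pool.Agent.Lib_helper25.AD
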