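import Pool.Agent.Lib_helper25.AD.Base
import Pool.Agent.Lib_helper25.AD.Blk.HIT

/-!
# AD, block TREE1: subsequences of a good sequence are in the tree
-/

set_option autoImplicit false

open Finset Filter Topology

namespace Pool.Agent.Lib_helper25.AD

theorem tree1_le_getElem {l : List ℕ} (hl : l.Pairwise (· < ·)) :
    ∀ (j : ℕ) (hj : j < l.length), j ≤ l[j]
  | 0, _ => Nat.zero_le _
  | j + 1, hj => by
    have h1 := tree1_le_getElem hl j (by omega)
    have h2 := List.pairwise_iff_getElem.1 hl j (j + 1) (by omega) hj (Nat.lt_succ_self j)
    omega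

/-- TREE1 -/
theorem tree_of_low_pr {ν : Seminorm ℝ E} {p C : ℝ} (hp : 1 < p) (F : Set (Finset ℕ))
    (z : ℕ → E) (hz : RBlk z) (hl : Low ν p F C z) (hu : Upp ν p F C z) (T₀ : ℕ) :
    ∃ φ : ℕ → ℕ, StrictMono φ ∧ ∃ π : ℕ → ℕ, StrictMono π ∧
      ∀ l : List ℕ, l.Pairwise (· < ·) → (l.map π).toFinset ∈ F →
        TreeP ν p C T₀ (l.map fun i => z (φ i)) := by
  classical
  choose Tl hTl using fun m => hl m 1
  choose Tu hTu using fun m => hu m 1
  set B : ℕ → ℕ := fun n => ∑ m ∈ range (n + 1), (Tl m + Tu m) with hB
  have hBmono : Monotone B := by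
    intro a b hab
    apply Finset.sum_le_sum_of_subset
    exact Finset.range_mono (Nat.succ_le_succ hab)
  have hBle : ∀ m n, m ≤ n → Tl m ≤ B n ∧ Tu m ≤ B n := by
    intro m n hmn
    have h1 : Tl m + Tu m ≤ B n :=
      Finset.single_le_sum (f := fun m => Tl m + Tu m) (fun _ _ => Nat.zero_le _)
        (Finset.mem_range.2 (Nat.lt_succ_of_le hmn))
    constructor <;> omega
  set φ : ℕ → ℕ := fun i => B (i + T₀) + i with hφ
  have hφm : StrictMono φ := by
    intro a b hab
    have h1 : B (a + T₀) ≤ B (b + T₀) := hBmono (by omega)
    show B (a + T₀) + a < B (b + T₀) + b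
    omega
  have hπm : StrictMono fun i => st hz.toIsBlk (φ i) := (st_strictMono hz.toIsBlk).comp hφm
  refine ⟨φ, hφm, fun i => st hz.toIsBlk (φ i), hπm, ?_⟩
  intro l hlp hlF
  set π : ℕ → ℕ := fun i => st hz.toIsBlk (φ i) with hπ
  set n := l.length with hn
  have hlt : ∀ i j (hi : i < l.length) (hj : j < l.length), i < j → l[i] < l[j] :=
    fun i j hi hj hij => List.pairwise_iff_getElem.1 hlp i j hi hj hij
  refine ⟨?_, ?_, ?_⟩
  · intro v hv
    obtain ⟨i, _, rfl⟩ := List.mem_map.1 hv
    exact hz.ne _
  · rw [List.pairwise_map]
    exact hlp.imp fun hab => hz.toIsBlk.bef (hφm hab)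
  · intro m c a hc ha
    have hlen : (l.map fun i => z (φ i)).length = n := by simp [hn]
    set z' : ℕ → E := fun i => (l.map fun i => z (φ i)).getD i 0 with hz'
    have hz'1 : ∀ j (hj : j < l.length), z' j = z (φ l[j]) := by
      intro j hj
      show (l.map fun i => z (φ i)).getD j 0 = _
      rw [List.getD_eq_getElem _ _ (by simpa using hj), List.getElem_map]
    have ha1 : ∀ j ∈ a.support, j < l.length ∧ m ≤ j + T₀ := by
      intro j hj
      have := ha j hj
      rw [hlen] at this
      exact this
    set x : E := lc z' a with hx
    -- `x` is in the span of `z`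
    have hxz : x ∈ bsp z := by
      rw [hx, lc_apply]
      apply Submodule.sum_mem
      intro j hj
      rw [hz'1 j (ha1 j hj).1]
      exact Submodule.smul_mem _ _ (self_mem_bsp z _)
    -- its support
    have hxs : ∀ t ∈ x.support, ∃ j, ∃ hj : j < l.length, m ≤ j + T₀ ∧
        t ∈ (z (φ l[j])).support := by
      intro t ht
      by_contra hcon
      push Not at hcon
      rw [hx, lc_apply, Finsupp.mem_support_iff, Finsupp.finset_sum_apply] at ht
      apply ht
      apply Finset.sum_eq_zero
      intro j hj
      obtain ⟨h1, h2⟩ := ha1 j hj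
      have h3 := hcon j h1 h2
      rw [hz'1 j h1, Finsupp.smul_apply, smul_eq_mul]
      have h4 : (z (φ l[j])) t = 0 := by simpa using h3
      rw [h4, mul_zero]
    have hxT : ∀ t ∈ x.support, Tl m ≤ t ∧ Tu m ≤ t := by
      intro t ht
      obtain ⟨j, hj, hmj, htj⟩ := hxs t ht
      have h1 : st hz.toIsBlk (φ l[j]) ≤ t := st_le hz.toIsBlk htj
      have h2 : φ l[j] ≤ st hz.toIsBlk (φ l[j]) := le_st hz.toIsBlk _
      have h3 : j ≤ l[j] := tree1_le_getElem hlp j hj
      obtain ⟨h4, h5⟩ := hBle m (l[j] + T₀) (by omega)
      have h6 : B (l[j] + T₀) ≤ φ l[j] := Nat.le_add_right _ _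
      constructor <;> omega
    -- the colouring of the coordinates
    set J : ℕ → ℕ := fun t => ((range n).filter fun j => π (l.getD j 0) ≤ t).card - 1 with hJ
    set d : ℕ → ℕ := fun t => c (J t) with hd
    have hgetD : ∀ j (hj : j < l.length), l.getD j 0 = l[j] := fun j hj =>
      List.getD_eq_getElem _ _ hj
    have hJj : ∀ j (hj : j < l.length), ∀ t ∈ (z (φ l[j])).support, J t = j := by
      intro j hj t ht
      have h1 : ((range n).filter fun i => π (l.getD i 0) ≤ t) = range (j + 1) := by
        ext i
        rw [Finset.mem_filter, Finset.mem_range, Finset.mem_range]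
        constructor
        · rintro ⟨hi, hit⟩
          by_contra hcon
          have hij : j < i := by omega
          rw [hgetD i hi] at hit
          have h2 : π l[i] ∈ (z (φ l[i])).support := st_mem hz.toIsBlk _
          have h3 := hz.toIsBlk.bef (hφm (hlt j i hj hi hij)) t ht _ h2
          omega
        · intro hi
          have hin : i < l.length := by omega
          refine ⟨hin, ?_⟩
          rw [hgetD i hin]
          have h2 : π l[j] ≤ t := st_le hz.toIsBlk ht
          rcases Nat.lt_or_ge i j with h | h
          · exact ((hπm (hlt i j hin hj h)).le).trans h2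
          · have : i = j := by omega
            subst this
            exact h2
      show ((range n).filter fun j => π (l.getD j 0) ≤ t).card - 1 = j
      rw [h1, Finset.card_range]
      omega
    have hjump : ∀ t ∈ jump d, ∃ j, ∃ hj : j < l.length, t = π l[j] := by
      intro t ht
      obtain ⟨ht0, htne⟩ := ht
      have h1 : ((range n).filter fun j => π (l.getD j 0) ≤ t) ≠
          (range n).filter fun j => π (l.getD j 0) ≤ t - 1 := by
        intro hcon
        apply htne
        show c (((range n).filter fun j => π (l.getD j 0) ≤ t).card - 1) =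
          c (((range n).filter fun j => π (l.getD j 0) ≤ t - 1).card - 1)
        rw [hcon]
      have h2 : ∃ j ∈ range n, π (l.getD j 0) ≤ t ∧ ¬ π (l.getD j 0) ≤ t - 1 := by
        by_contra hcon
        push Not at hcon
        apply h1
        apply Finset.filter_congr
        intro j hj
        constructor
        · intro h
          exact hcon j hj h
        · intro h
          omega
      obtain ⟨j, hj, h3, h4⟩ := h2
      have hj' : j < l.length := Finset.mem_range.1 hj
      refine ⟨j, hj', ?_⟩
      rw [hgetD j hj'] at h3 h4
      omega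
    have hadm : Adm F m 1 z d := by
      refine ⟨fun i => hc _, ?_, ?_⟩
      · intro t ht
        obtain ⟨j, hj, rfl⟩ := hjump t ht
        exact (mem_starts hz.toIsBlk).2 ⟨_, rfl⟩
      · refine ⟨{(l.map π).toFinset}, by simp, ?_, ?_⟩
        · intro A hA
          rw [Finset.mem_singleton] at hA
          rw [hA]
          exact hlF
        · intro t ht
          obtain ⟨j, hj, rfl⟩ := hjump t ht
          refine ⟨_, Finset.mem_singleton_self _, ?_⟩
          rw [List.mem_toFinset, List.mem_map]
          exact ⟨l[j], List.getElem_mem hj, rfl⟩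
    have hcls : ∀ k, cls d k x = lc z' (cls c k a) := by
      intro k
      rw [hx, lc_apply, map_sum, lc_apply]
      have h1 : ∀ j ∈ a.support, cls d k (a j • z' j) = (cls c k a) j • z' j := by
        intro j hj
        obtain ⟨hjl, _⟩ := ha1 j hj
        rw [map_smul, cls_apply]
        by_cases hk : c j = k
        · rw [if_pos hk]
          congr 1
          ext t
          rw [cls_apply]
          by_cases ht : t ∈ (z' j).support
          · rw [hz'1 j hjl] at ht
            have h2 := hJj j hjl t ht
            have h3 : d t = k := by
              show c (J t) = k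
              rw [h2, hk]
            rw [if_pos h3]
          · have h0 : z' j t = 0 := by simpa using ht
            rw [h0]
            simp
        · rw [if_neg hk, zero_smul]
          have h4 : cls d k (z' j) = 0 := by
            ext t
            rw [cls_apply]
            by_cases ht : t ∈ (z' j).support
            · rw [hz'1 j hjl] at ht
              have h2 := hJj j hjl t ht
              have h3 : d t ≠ k := by
                show c (J t) ≠ k
                rw [h2]
                exact hk
              rw [if_neg h3]
              rfl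
            · have h0 : z' j t = 0 := by simpa using ht
              rw [h0]
              simp
          rw [h4, smul_zero]
      rw [Finset.sum_congr rfl h1]
      symm
      apply Finset.sum_subset (supp_cls_subset c k a)
      intro j _ hj
      have h0 : (cls c k a) j = 0 := by simpa using hj
      rw [h0, zero_smul]
    have hlow := hTl m d hadm x hxz fun i hi => (hxT i hi).1
    have hupp := hTu m d hadm x hxz fun i hi => (hxT i hi).2
    unfold LowAt at hlow
    unfold UppAt at hupp
    simp only [hcls] at hlow hupp
    exact ⟨hlow, hupp⟩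

alias tree_of_low := tree_of_low_pr

end Pool.Agent.Lib_helper25.AD
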