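import Pool.Agent.Lib_helper25.AD.Base

/-!
# MP_a4bf89_an, block TREE23
-/

set_option autoImplicit false

open Finset Filter Topology

namespace Pool.Agent.Lib_helper25.AD

theorem tree23_lc {f g : ℕ → E} {x : E} (h : ∀ i ∈ x.support, f i = g i) {x' : E}
    (hx : x'.support ⊆ x.support) : lc f x' = lc g x' := by
  rw [lc_apply, lc_apply]
  exact Finset.sum_congr rfl fun i hi => by rw [h i (hx hi)]

theorem tree23_congr {ν : Seminorm ℝ E} {p C : ℝ} {m : ℕ} {c : ℕ → ℕ} {f g : ℕ → E} {x : E}
    (h : ∀ i ∈ x.support, f i = g i)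
    (hL : LowAt (ν.comp (lc f)) p C m c x ∧ UppAt (ν.comp (lc f)) p C m c x) :
    LowAt (ν.comp (lc g)) p C m c x ∧ UppAt (ν.comp (lc g)) p C m c x := by
  unfold LowAt UppAt at hL ⊢
  simp only [Seminorm.comp_apply] at hL ⊢
  have h1 : lc f x = lc g x := tree23_lc h (Finset.Subset.refl _)
  have h2 : ∀ k, lc f (cls c k x) = lc g (cls c k x) := fun k =>
    tree23_lc h (supp_cls_subset c k x)
  simpa only [h1, h2] using hL

/-- TREE2 -/
theorem tree_prefix_pr {ν : Seminorm ℝ E} {p C : ℝ} {T₀ : ℕ} (l : List E) (a : E)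
    (h : TreeP ν p C T₀ (l ++ [a])) : TreeP ν p C T₀ l := by
  refine ⟨fun v hv => h.1 v (List.mem_append_left _ hv),
    (List.pairwise_append.1 h.2.1).1, ?_⟩
  intro m c x hc hx
  refine tree23_congr (f := fun i => (l ++ [a]).getD i 0) ?_ (h.2.2 m c x hc ?_)
  · intro i hi
    have hi' := (hx i hi).1
    show (l ++ [a]).getD i 0 = l.getD i 0
    exact List.getD_append _ _ _ _ hi'
  · intro i hi
    have hi' := (hx i hi).1
    refine ⟨?_, (hx i hi).2⟩
    rw [List.length_append]
    omega

/-- TREE3 -/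
theorem tree_branch_pr {ν : Seminorm ℝ E} {p C : ℝ} {T₀ : ℕ} (b : ℕ → E)
    (h : ∀ n, TreeP ν p C T₀ ((List.range n).map b)) :
    IsBlk b ∧ SA (ν.comp (lc b)) p C T₀ := by
  refine ⟨⟨?_, ?_⟩, ?_⟩
  · intro i
    exact (h (i + 1)).1 (b i) (List.mem_map.2 ⟨i, List.mem_range.2 (Nat.lt_succ_self i), rfl⟩)
  · intro i
    have h1 := List.pairwise_map.1 (h (i + 2)).2.1
    have h2 := List.pairwise_iff_getElem.1 h1 i (i + 1) (by simp) (by simp) (Nat.lt_succ_self i)
    simpa using h2
  · intro m c x hc hx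
    set n := x.support.sup id + 1 with hn
    have hlt : ∀ i ∈ x.support, i < n := by
      intro i hi
      have : i ≤ x.support.sup id := Finset.le_sup (f := id) hi
      omega
    refine tree23_congr (f := fun i => ((List.range n).map b).getD i 0) ?_
      ((h n).2.2 m c x hc ?_)
    · intro i hi
      have hi' := hlt i hi
      show ((List.range n).map b).getD i 0 = b i
      rw [List.getD_eq_getElem _ _ (by simpa using hi')]
      simp
    · intro i hi
      exact ⟨by simpa using hlt i hi, hx i hi⟩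

alias tree_prefix := tree_prefix_pr

alias tree_branch := tree_branch_pr

end Pool.Agent.Lib_helper25.AD
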