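import Pool.Agent.Lib_helper25.AD.Base
import Pool.Agent.Lib_helper25.AD.Blk.ENUM
import Pool.Agent.Lib_helper25.AD.Blk.GOODS
import Pool.Agent.Lib_helper25.AD.Blk.KM
import Pool.Agent.Lib_helper25.AD.Blk.REACH
import Pool.Agent.Lib_helper25.AD.Blk.TREE1
import Pool.Agent.Lib_helper25.AD.Blk.TREE23

set_option autoImplicit false

open Finset

namespace Pool.Agent.Lib_helper25.AD

theorem parti_adm_nil {H : Set (Finset ℕ)} {m M : ℕ} {y : ℕ → E} {c : ℕ → ℕ}
    (h : Adm ({∅} ∪ H) m M y c) : Adm H m M y c := by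
  classical
  obtain ⟨h1, h2, S, hS, hSF, hSc⟩ := h
  refine ⟨h1, h2, S.filter (fun A => A ≠ ∅), (Finset.card_filter_le _ _).trans hS, ?_, ?_⟩
  · intro A hA
    rw [Finset.mem_filter] at hA
    rcases hSF A hA.1 with h | h
    · exact absurd h hA.2
    · exact h
  · intro b hb
    obtain ⟨A, hA, hbA⟩ := hSc b hb
    refine ⟨A, Finset.mem_filter.2 ⟨hA, ?_⟩, hbA⟩
    rintro rfl
    simp at hbA

theorem parti_good_nil {ν : Seminorm ℝ E} {p L U : ℝ} : Good ν p L U {∅} := by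
  intro H hH y hy
  obtain ⟨z, hz, hzy, hl, hu⟩ := hH y hy
  refine ⟨z, hz, hzy, fun m M => ?_, fun m M => ?_⟩
  · obtain ⟨T, hT⟩ := hl m M
    exact ⟨T, fun c hc => hT c (parti_adm_nil hc)⟩
  · obtain ⟨T, hT⟩ := hu m M
    exact ⟨T, fun c hc => hT c (parti_adm_nil hc)⟩

theorem parti_const {c : ℕ → ℕ} (h : jump c ⊆ ∅) (i : ℕ) : c i = c 0 := by
  induction i with
  | zero => rfl
  | succ i ih =>
    by_contra hne
    have : i + 1 ∈ jump c := ⟨Nat.succ_pos i, by simpa [ih] using hne⟩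
    exact h this

theorem parti_claim_empty {ν : Seminorm ℝ E} {p L U : ℝ} (hp : 0 < p) (hL : 1 ≤ L)
    (hU : 1 ≤ U) : Claim ν p L U ∅ := by
  have key : ∀ (m : ℕ) (c : ℕ → ℕ), (∀ i, c i < m) → Cov ∅ m (jump c) ∨ True →
      jump c ⊆ ∅ → ∀ x : E, ∑ k ∈ range m, ν (cls c k x) ^ p = ν x ^ p := by
    intro m c hc _ hj x
    have hcst := parti_const hj
    rw [Finset.sum_eq_single_of_mem (c 0) (mem_range.2 (hc 0))]
    · congr 2
      ext i
      rw [cls_apply, if_pos (hcst i)]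
    · intro k _ hk
      have : cls c k x = 0 := by
        ext i
        rw [cls_apply, if_neg]
        · rfl
        · rw [hcst i]; exact fun h => hk h.symm
      rw [this, map_zero, Real.zero_rpow hp.ne']
  have hempty : ∀ (M : ℕ) (B : Set ℕ), Cov ∅ M B → B ⊆ ∅ := by
    rintro M B ⟨S, _, hS, hc⟩ b hb
    obtain ⟨A, hA, _⟩ := hc b hb
    exact (hS A hA).elim
  intro y hy
  refine ⟨y, hy, Le.refl y, fun m M => ⟨0, fun c hc x _ _ => ?_⟩, fun m M => ⟨0, fun c hc x _ _ => ?_⟩⟩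
  · rw [LowAt, key m c hc.1 (Or.inr trivial) (hempty _ _ hc.2.2)]
    have : 0 ≤ ν x ^ p := Real.rpow_nonneg (apply_nonneg ν x) p
    nlinarith
  · rw [UppAt, key m c hc.1 (Or.inr trivial) (hempty _ _ hc.2.2)]
    have : 0 ≤ ν x ^ p := Real.rpow_nonneg (apply_nonneg ν x) p
    nlinarith

theorem parti_single : RBlk (fun i => (Finsupp.single i (1 : ℝ) : E)) := by
  refine ⟨⟨fun i => ?_, fun i => ?_⟩, fun i j => ?_⟩
  · simp
  · intro a ha b hb
    rw [Finsupp.support_single_ne_zero _ one_ne_zero, Finset.mem_singleton] at ha hb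
    omega
  · by_cases h : i = j
    · exact ⟨1, by simp [h]⟩
    · exact ⟨0, by simp [h]⟩

/-- PARTI -/
theorem partI_pr (ν : Seminorm ℝ E) (hν : Dfn ν) (p K D : ℝ) (hp : 1 < p) (hK : 1 ≤ K)
    (hD : 1 ≤ D) (hAs : AsLp ν p K) (hBD : BDFQ ν D) :
    ∃ C, 1 ≤ C ∧ ∀ T₀, ∃ z, IsBlk z ∧ SA (ν.comp (lc z)) p C T₀ := by
  have hp0 : 0 < p := by linarith
  have hDp : 1 ≤ D ^ p := Real.one_le_rpow hD hp0.le
  set L : ℝ := D ^ p + 1 with hLdef
  set U : ℝ := D ^ p * L + 1 with hUdef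
  have hL1 : 1 ≤ L := by linarith
  have hU1 : 1 ≤ U := by nlinarith
  refine ⟨max L U, le_max_of_le_left hL1, fun T₀ => ?_⟩
  set C := max L U with hC
  obtain ⟨w, hw⟩ := exists_enum
  by_cases hb : ∃ b : ℕ → ℕ, ∀ n, TreeP ν p C T₀ ((List.range n).map fun i => w (b i))
  · obtain ⟨b, hb⟩ := hb
    obtain ⟨h1, h2⟩ := tree_branch (fun i => w (b i)) hb
    exact ⟨_, h1, h2⟩
  · exfalso
    obtain ⟨F, hF, hreach⟩ := reach (TreeP ν p C T₀) w (fun l a h => tree_prefix l a h) hb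
      (fun F => Good ν p L U F) parti_good_nil
      (fun F F' h h' H hH => by
        have := h _ (h' H hH)
        rwa [← Set.union_assoc] at this)
      (fun H F hH hF => good_step hν hp hK hD (by linarith) (by linarith) hAs hBD H F hH hF)
    have hcl := hF ∅ (parti_claim_empty hp0 hL1 hU1)
    rw [Set.union_empty] at hcl
    obtain ⟨z, hz, -, hl, hu⟩ := hcl _ parti_single
    have hl' : Low ν p F C z := fun m M =>
      lowK_mono hp0 (fun A hA => ⟨A, hA, subset_rfl⟩) le_rfl le_rfl (le_max_left _ _) (hl m M)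
    have hu' : Upp ν p F C z := fun m M =>
      uppK_mono hp0 (fun A hA => ⟨A, hA, subset_rfl⟩) le_rfl le_rfl (le_max_right _ _) (hu m M)
    obtain ⟨φ, hφ, π, hπ, htree⟩ := tree_of_low hp F z hz hl' hu' T₀
    have hcode : ∀ i, ∃ n, w n = z (φ i) := fun i => hw _ fun j => hz.rat (φ i) j
    choose code hcode using hcode
    obtain ⟨l, hl1, hl2, hl3⟩ := hreach code π hπ
    apply hl3
    have := htree l hl1 hl2
    have he : (l.map fun i => w (code i)) = l.map fun i => z (φ i) := by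
      apply List.map_congr_left
      intro i _
      exact hcode i
    rw [he]
    exact this

alias partI := partI_pr

end Pool.Agent.Lib_helper25.AD
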