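import Pool.Agent.Lib_helper25.AD.Base
import Pool.Agent.Lib_helper25.AD.Blk.HB
import Pool.Agent.Lib_helper25.AD.Blk.HB
import Pool.Agent.Lib_helper25.AD.Blk.SUP

/-! MP_a4bf89_an, block LREN: lattice renorming -/

set_option autoImplicit false

open Finset

namespace Pool.Agent.Lib_helper25.AD

theorem LREN_cls {ν : Seminorm ℝ E} {p C : ℝ} (hp : 1 < p) (hC : 1 ≤ C) {T₀ : ℕ}
    (hT : 2 ≤ T₀) (h : SA ν p C T₀) (c : ℕ → ℕ) (hc : ∀ i, c i < 2) (x : E) (k : ℕ)
    (hk : k < 2) : ν (cls c k x) ≤ C * ν x := by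
  have h1 := (h 2 c x hc (fun i _ => by omega)).1
  unfold LowAt at h1
  have hx : 0 ≤ ν x := apply_nonneg _ _
  have h2 : ν (cls c k x) ^ p ≤ ∑ j ∈ range 2, ν (cls c j x) ^ p :=
    Finset.single_le_sum (f := fun j => ν (cls c j x) ^ p)
      (fun j _ => Real.rpow_nonneg (apply_nonneg _ _) _) (mem_range.mpr hk)
  have h3 : C ≤ C ^ p := by
    calc C = C ^ (1 : ℝ) := (Real.rpow_one C).symm
      _ ≤ C ^ p := Real.rpow_le_rpow_of_exponent_le hC hp.le
  have h4 : ν (cls c k x) ^ p ≤ (C * ν x) ^ p := by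
    rw [Real.mul_rpow (by linarith) hx]
    exact (h2.trans h1).trans (mul_le_mul_of_nonneg_right h3 (Real.rpow_nonneg hx _))
  exact (Real.rpow_le_rpow_iff (apply_nonneg _ _) (mul_nonneg (by linarith) hx) (by linarith)).mp h4

theorem lattice_renorm_pr (ν : Seminorm ℝ E) (p C : ℝ) (hp : 1 < p) (hC : 1 ≤ C) (T₀ : ℕ)
    (hT : 2 ≤ T₀) (h : SA ν p C T₀) :
    ∃ μ : Seminorm ℝ E, Lat μ ∧ (∀ x, ν x ≤ μ x) ∧ (∀ x, μ x ≤ 2 * C * ν x) := by
  classical
  set G : Set E := {g | ∃ f : E →ₗ[ℝ] ℝ, (∀ y, |f y| ≤ ν y) ∧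
    ∀ i, |g i| ≤ |f (Finsupp.single i 1)|} with hG
  obtain ⟨μ, hμ1, hμ2, hμ3⟩ := exists_sup G
    ⟨0, 0, fun y => by rw [LinearMap.zero_apply, abs_zero]; exact apply_nonneg _ _,
      fun i => by rw [Finsupp.zero_apply, LinearMap.zero_apply]⟩
    (fun i => ⟨ν (Finsupp.single i 1), fun g hg => by
      obtain ⟨f, hf1, hf2⟩ := hg
      exact (hf2 i).trans (hf1 _)⟩)
  refine ⟨μ, hμ1, fun x => ?_, fun x => ?_⟩
  · obtain ⟨f, hf1, hf2⟩ := hahn ν x
    let g : E := Finsupp.onFinset x.support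
      (fun i => if i ∈ x.support then f (Finsupp.single i 1) else 0) (fun i hi => by
        by_contra hn
        exact hi (if_neg hn))
    have hg : ∀ i, g i = if i ∈ x.support then f (Finsupp.single i 1) else 0 := fun i => by
      show (Finsupp.onFinset _ _ _) i = _
      rw [Finsupp.onFinset_apply]
    have hgG : g ∈ G := by
      refine ⟨f, hf2, fun i => ?_⟩
      rw [hg]
      split_ifs
      · exact le_rfl
      · rw [abs_zero]; exact abs_nonneg _
    refine le_trans ?_ (hμ2 g hgG x)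
    rw [← hf1, HB_lin f x (Finset.Subset.refl _), pr]
    refine Finset.sum_le_sum fun i hi => ?_
    rw [hg, if_pos hi, mul_comm, ← abs_mul]
    exact le_abs_self _
  · refine hμ3 x _ fun g hg => ?_
    obtain ⟨f, hf1, hf2⟩ := hg
    set c : ℕ → ℕ := fun i => if 0 ≤ x i * f (Finsupp.single i 1) then 0 else 1 with hc
    have hc2 : ∀ i, c i < 2 := fun i => by
      rw [hc]
      beta_reduce
      split_ifs <;> omega
    have hsum : f (cls c 0 x) - f (cls c 1 x) = ∑ i ∈ x.support,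
        |f (Finsupp.single i 1)| * |x i| := by
      rw [HB_lin f (cls c 0 x) (supp_cls_subset c 0 x), HB_lin f (cls c 1 x)
        (supp_cls_subset c 1 x), ← Finset.sum_sub_distrib]
      refine Finset.sum_congr rfl fun i _ => ?_
      rw [cls_apply, cls_apply, ← abs_mul]
      by_cases h0 : 0 ≤ x i * f (Finsupp.single i 1)
      · have e : c i = 0 := by rw [hc]; exact if_pos h0
        rw [if_pos e, if_neg (by rw [e]; norm_num), zero_mul, sub_zero, mul_comm (f _),
          abs_of_nonneg h0]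
      · have e : c i = 1 := by rw [hc]; exact if_neg h0
        rw [if_neg (by rw [e]; norm_num), if_pos e, zero_mul, zero_sub, mul_comm (f _),
          abs_of_neg (not_le.mp h0)]
    have h0 := LREN_cls hp hC hT h c hc2 x 0 (by norm_num)
    have h1 := LREN_cls hp hC hT h c hc2 x 1 (by norm_num)
    have h2 := (le_abs_self _).trans (hf1 (cls c 0 x))
    have h3 := (neg_le_abs _).trans (hf1 (cls c 1 x))
    calc pr g x = ∑ i ∈ x.support, |g i| * |x i| := rfl
      _ ≤ ∑ i ∈ x.support, |f (Finsupp.single i 1)| * |x i| :=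
          Finset.sum_le_sum fun i _ => mul_le_mul_of_nonneg_right (hf2 i) (abs_nonneg _)
      _ = f (cls c 0 x) - f (cls c 1 x) := hsum.symm
      _ ≤ C * ν x + C * ν x := by linarith
      _ = 2 * C * ν x := by ring

alias lattice_renorm := lattice_renorm_pr

end Pool.Agent.Lib_helper25.AD
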