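import Pool.Agent.Lib_helper25.AD.Base

set_option autoImplicit false

open Finset Filter Topology

namespace Pool.Agent.Lib_helper25.AD

/-- many large colour classes force a large vector -/
theorem PT1_many (μ : Seminorm ℝ E) (hμ : Lat μ) (m₀ : ℕ) (hm : 1 ≤ m₀)
    (h : ∀ (x : E) (c : ℕ → ℕ), (∀ i, c i < m₀) → (∀ k < m₀, 1 ≤ μ (cls c k x)) → 2 ≤ μ x)
    (c : ℕ → ℕ) (a : ℝ) (ha : 0 < a) (j : ℕ) :
    ∀ (x : E) (S : Finset ℕ), m₀ ^ j ≤ S.card → (∀ k ∈ S, a ≤ μ (cls c k x)) →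
      2 ^ j * a ≤ μ x := by
  classical
  induction j with
  | zero =>
    intro x S hS hS'
    rw [pow_zero] at hS
    obtain ⟨k, hk⟩ := Finset.card_pos.1 (by omega : 0 < S.card)
    rw [pow_zero, one_mul]
    exact (hS' k hk).trans (hμ.cls_le c k x)
  | succ j ih =>
    intro x S hS hS'
    have hcard : Fintype.card (Fin m₀ × Fin (m₀ ^ j)) ≤ Fintype.card S := by
      rw [Fintype.card_prod, Fintype.card_fin, Fintype.card_fin, Fintype.card_coe]
      rw [pow_succ, mul_comm] at hS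
      exact hS
    obtain ⟨e⟩ := Function.Embedding.nonempty_of_card_le hcard
    -- the label of a colour
    set lab : ℕ → ℕ := fun k =>
      if hk : ∃ q : Fin m₀ × Fin (m₀ ^ j), (e q : ℕ) = k then (Classical.choose hk).1 else 0
      with hlab
    have hlab1 : ∀ k, lab k < m₀ := by
      intro k
      rw [hlab]
      simp only
      split_ifs with hk
      · exact (Classical.choose hk).1.2
      · omega
    have hlab2 : ∀ q, lab (e q) = q.1 := by
      intro q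
      have hk : ∃ q' : Fin m₀ × Fin (m₀ ^ j), (e q' : ℕ) = (e q : ℕ) := ⟨q, rfl⟩
      rw [hlab]
      simp only [dif_pos hk]
      have h1 := Classical.choose_spec hk
      have h2 : Classical.choose hk = q := e.injective (Subtype.ext h1)
      rw [h2]
    have hpos : (0 : ℝ) < 2 ^ j * a := by positivity
    have hgrp : ∀ l < m₀, 2 ^ j * a ≤ μ (cls (fun i => lab (c i)) l x) := by
      intro l hl
      refine ih _ ((univ : Finset (Fin (m₀ ^ j))).image fun q => ((e (⟨l, hl⟩, q) : S) : ℕ))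
        ?_ ?_
      · rw [card_image_of_injective, card_univ, Fintype.card_fin]
        intro q q' hqq
        have h1 := e.injective (Subtype.ext hqq)
        exact (Prod.mk.inj h1).2
      · intro k hk
        obtain ⟨q, _, rfl⟩ := mem_image.1 hk
        have h3 : cls c (e (⟨l, hl⟩, q)) (cls (fun i => lab (c i)) l x) =
            cls c (e (⟨l, hl⟩, q)) x := by
          ext i
          rw [cls_apply, cls_apply, cls_apply]
          by_cases hi : c i = (e (⟨l, hl⟩, q) : ℕ)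
          · rw [if_pos hi, if_pos hi, hi, hlab2, if_pos rfl]
          · rw [if_neg hi, if_neg hi]
        rw [h3]
        exact hS' _ (e _).2
    have h5 := h ((2 ^ j * a)⁻¹ • x) (fun i => lab (c i)) (fun i => hlab1 (c i)) (by
      intro k hk
      rw [map_smul, map_smul_eq_mul, Real.norm_eq_abs, abs_of_pos (inv_pos.2 hpos),
        inv_mul_eq_div, le_div_iff₀ hpos, one_mul]
      exact hgrp k hk)
    rw [map_smul_eq_mul, Real.norm_eq_abs, abs_of_pos (inv_pos.2 hpos), inv_mul_eq_div,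
      le_div_iff₀ hpos] at h5
    rw [pow_succ]
    linarith

theorem PT1_geom (q : ℝ) (hq0 : 0 ≤ q) (hq : q ≤ 1 / 2) (I : ℕ) :
    ∑ i ∈ range I, q ^ i ≤ 2 := by
  have h1 : ∑ i ∈ range I, q ^ i ≤ ∑ i ∈ range I, (1 / 2 : ℝ) ^ i :=
    sum_le_sum fun i _ => pow_le_pow_left₀ hq0 hq i
  exact h1.trans (sum_geometric_two_le I)

theorem power_bound_pr (μ : Seminorm ℝ E) (hμ : Lat μ) (m₀ s : ℕ) (hm : 1 ≤ m₀) (hs1 : 1 ≤ s)
    (hs : 2 * m₀ ≤ 2 ^ s)
    (h : ∀ (x : E) (c : ℕ → ℕ), (∀ i, c i < m₀) → (∀ k < m₀, 1 ≤ μ (cls c k x)) → 2 ≤ μ x)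
    (n : ℕ) (c : ℕ → ℕ) (x : E) :
    ∑ k ∈ range n, μ (cls c k x) ^ s ≤ 2 * (m₀ : ℝ) ^ 2 * μ x ^ s := by
  classical
  have hm0 : (0 : ℝ) < m₀ := by exact_mod_cast hm
  set M := μ x with hM
  have hM0 : 0 ≤ M := apply_nonneg μ x
  have hle : ∀ k, μ (cls c k x) ≤ M := fun k => hμ.cls_le c k x
  have hnn : ∀ k, 0 ≤ μ (cls c k x) := fun k => apply_nonneg μ _
  rcases hM0.eq_or_lt with h0 | hMpos
  · have h1 : ∀ k, μ (cls c k x) = 0 := fun k => le_antisymm (by rw [h0]; exact hle k) (hnn k)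
    simp only [h1, zero_pow (by omega : s ≠ 0), sum_const_zero]
    positivity
  -- the level of a colour
  have hlev : ∀ k, ∃ i : ℕ, 0 < μ (cls c k x) →
      M * (1 / 2) ^ (i + 1) < μ (cls c k x) ∧ μ (cls c k x) ≤ M * (1 / 2) ^ i := by
    intro k
    by_cases hk : 0 < μ (cls c k x)
    · obtain ⟨i, hi1, hi2⟩ := exists_nat_pow_near_of_lt_one (x := μ (cls c k x) / M)
        (y := (1 / 2 : ℝ)) (div_pos hk hMpos) ((div_le_one hMpos).2 (hle k)) (by norm_num)
        (by norm_num)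
      refine ⟨i, fun _ => ⟨?_, ?_⟩⟩
      · rw [lt_div_iff₀ hMpos] at hi1; linarith
      · rw [div_le_iff₀ hMpos] at hi2; linarith
    · exact ⟨0, fun h => absurd h hk⟩
  choose ι hι using hlev
  set P := (range n).filter fun k => 0 < μ (cls c k x) with hP
  have hsum1 : ∑ k ∈ range n, μ (cls c k x) ^ s = ∑ k ∈ P, μ (cls c k x) ^ s := by
    rw [hP, sum_filter]
    refine sum_congr rfl fun k _ => ?_
    split_ifs with hk
    · rfl
    · rw [le_antisymm (not_lt.1 hk) (hnn k), zero_pow (by omega)]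
  obtain ⟨I, hI⟩ : ∃ I : ℕ, ∀ k ∈ P, ι k < I := by
    refine ⟨P.sup ι + 1, fun k hk => ?_⟩
    exact Nat.lt_succ_of_le (le_sup (f := ι) hk)
  have hsum2 : ∑ k ∈ P, μ (cls c k x) ^ s =
      ∑ i ∈ range I, ∑ k ∈ P with ι k = i, μ (cls c k x) ^ s := by
    rw [sum_fiberwise_of_maps_to]
    exact fun k hk => mem_range.2 (hI k hk)
  have hcount : ∀ i, (P.filter fun k => ι k = i).card < m₀ ^ (i + 2) := by
    intro i
    by_contra hcon
    push Not at hcon
    have ha : 0 < M * (1 / 2 : ℝ) ^ (i + 1) := by positivity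
    have h1 := PT1_many μ hμ m₀ hm h c (M * (1 / 2) ^ (i + 1)) ha (i + 2) x _ hcon (by
      intro k hk
      obtain ⟨hk1, hk2⟩ := mem_filter.1 hk
      obtain ⟨_, hk3⟩ := mem_filter.1 hk1
      have := (hι k hk3).1
      rw [hk2] at this
      exact this.le)
    have h2 : (2 : ℝ) ^ (i + 2) * (M * (1 / 2) ^ (i + 1)) = 2 * M := by
      have h3 : (2 : ℝ) ^ (i + 1) * (1 / 2) ^ (i + 1) = 1 := by
        rw [← mul_pow]; norm_num
      calc (2 : ℝ) ^ (i + 2) * (M * (1 / 2) ^ (i + 1))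
          = 2 * M * (2 ^ (i + 1) * (1 / 2) ^ (i + 1)) := by ring
        _ = 2 * M := by rw [h3, mul_one]
    rw [h2, ← hM] at h1
    linarith
  have hq0 : (0 : ℝ) ≤ m₀ * (1 / 2) ^ s := by positivity
  have hq : (m₀ : ℝ) * (1 / 2) ^ s ≤ 1 / 2 := by
    have h1 : (2 : ℝ) * m₀ ≤ 2 ^ s := by exact_mod_cast hs
    have h2 : (2 : ℝ) ^ s * (1 / 2) ^ s = 1 := by rw [← mul_pow]; norm_num
    have h3 : (0 : ℝ) < (1 / 2) ^ s := by positivity
    nlinarith
  have hfib : ∀ i, ∑ k ∈ P with ι k = i, μ (cls c k x) ^ s ≤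
      (m₀ : ℝ) ^ 2 * M ^ s * ((m₀ : ℝ) * (1 / 2) ^ s) ^ i := by
    intro i
    calc ∑ k ∈ P with ι k = i, μ (cls c k x) ^ s
        ≤ ∑ _k ∈ P with ι _k = i, (M * (1 / 2) ^ i) ^ s := by
          refine sum_le_sum fun k hk => ?_
          obtain ⟨hk1, hk2⟩ := mem_filter.1 hk
          obtain ⟨_, hk3⟩ := mem_filter.1 hk1
          have := (hι k hk3).2
          rw [hk2] at this
          exact pow_le_pow_left₀ (hnn k) this s
      _ = ((P.filter fun k => ι k = i).card : ℝ) * (M * (1 / 2) ^ i) ^ s := by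
          rw [sum_const, nsmul_eq_mul]
      _ ≤ ((m₀ ^ (i + 2) : ℕ) : ℝ) * (M * (1 / 2) ^ i) ^ s := by
          refine mul_le_mul_of_nonneg_right ?_ (by positivity)
          exact_mod_cast (hcount i).le
      _ = (m₀ : ℝ) ^ 2 * M ^ s * ((m₀ : ℝ) * (1 / 2) ^ s) ^ i := by
          push_cast
          rw [mul_pow, mul_pow, ← pow_mul, ← pow_mul, pow_add, mul_comm i s]
          ring
  rw [hsum1, hsum2]
  calc ∑ i ∈ range I, ∑ k ∈ P with ι k = i, μ (cls c k x) ^ s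
      ≤ ∑ i ∈ range I, (m₀ : ℝ) ^ 2 * M ^ s * ((m₀ : ℝ) * (1 / 2) ^ s) ^ i :=
        sum_le_sum fun i _ => hfib i
    _ = (m₀ : ℝ) ^ 2 * M ^ s * ∑ i ∈ range I, ((m₀ : ℝ) * (1 / 2) ^ s) ^ i := by
        rw [← mul_sum]
    _ ≤ (m₀ : ℝ) ^ 2 * M ^ s * 2 :=
        mul_le_mul_of_nonneg_left (PT1_geom _ hq0 hq I) (by positivity)
    _ = 2 * (m₀ : ℝ) ^ 2 * M ^ s := by ring

alias power_bound := power_bound_pr

end Pool.Agent.Lib_helper25.AD
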