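import Pool.Agent.Lib_helper25.AD.Base
import Pool.Agent.Lib_helper25.AD.Blk.PT1

set_option autoImplicit false

open Finset Filter Topology

namespace Pool.Agent.Lib_helper25.AD

/-- the `l_s` sum of the colour classes -/
noncomputable def PT2_S (μ : Seminorm ℝ E) (s : ℕ) (nc : ℕ × (ℕ → ℕ)) (x : E) : ℝ :=
  (∑ k ∈ range nc.1, μ (cls nc.2 k x) ^ (s : ℝ)) ^ (1 / (s : ℝ))

theorem PT2_sum_nonneg (μ : Seminorm ℝ E) (s : ℕ) (nc : ℕ × (ℕ → ℕ)) (x : E) :
    0 ≤ ∑ k ∈ range nc.1, μ (cls nc.2 k x) ^ (s : ℝ) :=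
  sum_nonneg fun _ _ => Real.rpow_nonneg (apply_nonneg μ _) _

theorem PT2_S_nonneg (μ : Seminorm ℝ E) (s : ℕ) (nc : ℕ × (ℕ → ℕ)) (x : E) :
    0 ≤ PT2_S μ s nc x := Real.rpow_nonneg (PT2_sum_nonneg μ s nc x) _

theorem PT2_S_pow (μ : Seminorm ℝ E) {s : ℕ} (hs1 : 1 ≤ s) (nc : ℕ × (ℕ → ℕ)) (x : E) :
    PT2_S μ s nc x ^ s = ∑ k ∈ range nc.1, μ (cls nc.2 k x) ^ s := by
  have hs0 : (s : ℝ) ≠ 0 := by positivity
  rw [PT2_S, ← Real.rpow_natCast, ← Real.rpow_mul (PT2_sum_nonneg μ s nc x),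
    one_div_mul_cancel hs0, Real.rpow_one]
  exact sum_congr rfl fun k _ => Real.rpow_natCast _ _

theorem PT2_S_le_of_pow (μ : Seminorm ℝ E) {s : ℕ} (hs1 : 1 ≤ s) {nc : ℕ × (ℕ → ℕ)} {x : E}
    {B : ℝ} (hB : 0 ≤ B) (h : ∑ k ∈ range nc.1, μ (cls nc.2 k x) ^ s ≤ B ^ s) :
    PT2_S μ s nc x ≤ B := by
  rw [← PT2_S_pow μ hs1] at h
  exact le_of_pow_le_pow_left₀ (by omega) hB h

theorem PT2_iSup_rpow {ι : Type} [Nonempty ι] {f : ι → ℝ} {r C : ℝ} (hr : 0 < r)
    (h0 : ∀ i, 0 ≤ f i) (hC : 0 ≤ C) (h : ∀ i, f i ^ r ≤ C) : (⨆ i, f i) ^ r ≤ C := by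
  have h1 : ∀ i, f i ≤ C ^ (1 / r) := by
    intro i
    calc f i = (f i ^ r) ^ (1 / r) := by
          rw [← Real.rpow_mul (h0 i), mul_one_div_cancel hr.ne', Real.rpow_one]
      _ ≤ C ^ (1 / r) := Real.rpow_le_rpow (Real.rpow_nonneg (h0 i) _) (h i) (by positivity)
  have h2 : (⨆ i, f i) ≤ C ^ (1 / r) := ciSup_le h1
  have h3 : 0 ≤ ⨆ i, f i := Real.iSup_nonneg h0
  calc (⨆ i, f i) ^ r ≤ (C ^ (1 / r)) ^ r := Real.rpow_le_rpow h3 h2 hr.le
    _ = C := by rw [← Real.rpow_mul hC, one_div_mul_cancel hr.ne', Real.rpow_one]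

theorem PT2_S_add (μ : Seminorm ℝ E) {s : ℕ} (hs1 : 1 ≤ s) (nc : ℕ × (ℕ → ℕ)) (x y : E) :
    PT2_S μ s nc (x + y) ≤ PT2_S μ s nc x + PT2_S μ s nc y := by
  have hs1' : (1 : ℝ) ≤ s := by exact_mod_cast hs1
  have hs0 : (0 : ℝ) < s := by linarith
  have h1 := Real.Lp_add_le_of_nonneg (range nc.1) (f := fun k => μ (cls nc.2 k x))
    (g := fun k => μ (cls nc.2 k y)) hs1' (fun k _ => apply_nonneg μ _)
    (fun k _ => apply_nonneg μ _)
  refine le_trans ?_ h1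
  refine Real.rpow_le_rpow (PT2_sum_nonneg μ s nc _) (sum_le_sum fun k _ => ?_) (by positivity)
  refine Real.rpow_le_rpow (apply_nonneg μ _) ?_ hs0.le
  rw [map_add]
  exact map_add_le_add μ _ _

theorem PT2_S_smul (μ : Seminorm ℝ E) {s : ℕ} (hs1 : 1 ≤ s) (nc : ℕ × (ℕ → ℕ)) (t : ℝ) (x : E) :
    PT2_S μ s nc (t • x) = |t| * PT2_S μ s nc x := by
  have hs0 : (s : ℝ) ≠ 0 := by positivity
  have h1 : ∑ k ∈ range nc.1, μ (cls nc.2 k (t • x)) ^ (s : ℝ) =
      |t| ^ (s : ℝ) * ∑ k ∈ range nc.1, μ (cls nc.2 k x) ^ (s : ℝ) := by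
    rw [mul_sum]
    refine sum_congr rfl fun k _ => ?_
    rw [map_smul, map_smul_eq_mul, Real.norm_eq_abs,
      Real.mul_rpow (abs_nonneg t) (apply_nonneg μ _)]
  rw [PT2_S, h1, Real.mul_rpow (Real.rpow_nonneg (abs_nonneg t) _) (PT2_sum_nonneg μ s nc x),
    ← Real.rpow_mul (abs_nonneg t), mul_one_div_cancel hs0, Real.rpow_one, PT2_S]

/-- combining two colourings of disjoint vectors -/
theorem PT2_combine (μ : Seminorm ℝ E) (s : ℕ) (n m : ℕ) (c d : ℕ → ℕ) {x y : E}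
    (hxy : Dis x y) : ∃ e : ℕ → ℕ,
      ∑ k ∈ range (n + m), μ (cls e k (x + y)) ^ s =
        ∑ k ∈ range n, μ (cls c k x) ^ s + ∑ k ∈ range m, μ (cls d k y) ^ s := by
  classical
  have hdis : ∀ i, i ∈ x.support → i ∉ y.support := fun i hi hi' =>
    (Finset.disjoint_left.1 hxy) hi hi'
  obtain ⟨e, he1, he2, he3⟩ : ∃ e : ℕ → ℕ, (∀ i, i ∈ x.support → (c i < n → e i = c i) ∧
      (n ≤ c i → e i = n + m)) ∧ (∀ i, i ∈ y.support → (d i < m → e i = n + d i) ∧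
      (m ≤ d i → e i = n + m)) ∧ (∀ i, i ∉ x.support → i ∉ y.support → e i = n + m) := by
    refine ⟨fun i => if i ∈ x.support ∧ c i < n then c i else
      if i ∈ y.support ∧ d i < m then n + d i else n + m, ?_, ?_, ?_⟩
    · intro i hx
      refine ⟨fun hc => ?_, fun hc => ?_⟩
      · exact if_pos ⟨hx, hc⟩
      · have h1 : ¬ (i ∈ x.support ∧ c i < n) := fun h => by omega
        have h2 : ¬ (i ∈ y.support ∧ d i < m) := fun h => hdis i hx h.1
        simp only [if_neg h1, if_neg h2]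
    · intro i hy
      have h1 : ¬ (i ∈ x.support ∧ c i < n) := fun h => hdis i h.1 hy
      refine ⟨fun hd => ?_, fun hd => ?_⟩
      · have h2 : i ∈ y.support ∧ d i < m := ⟨hy, hd⟩
        simp only [if_neg h1, if_pos h2]
      · have h2 : ¬ (i ∈ y.support ∧ d i < m) := fun h => by omega
        simp only [if_neg h1, if_neg h2]
    · intro i hx hy
      have h1 : ¬ (i ∈ x.support ∧ c i < n) := fun h => hx h.1
      have h2 : ¬ (i ∈ y.support ∧ d i < m) := fun h => hy h.1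
      simp only [if_neg h1, if_neg h2]
  refine ⟨e, ?_⟩
  rw [sum_range_add]
  congr 1
  · refine sum_congr rfl fun k hk => ?_
    rw [mem_range] at hk
    congr 2
    ext i
    rw [cls_apply, cls_apply, Finsupp.add_apply]
    by_cases hx : i ∈ x.support
    · have hy : y i = 0 := by simpa using hdis i hx
      rcases lt_or_ge (c i) n with hc | hc
      · rw [(he1 i hx).1 hc, hy, add_zero]
      · rw [(he1 i hx).2 hc, if_neg (by omega), if_neg (by omega)]
    · have hx0 : x i = 0 := by simpa using hx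
      have hne : e i ≠ k := by
        by_cases hy : i ∈ y.support
        · rcases lt_or_ge (d i) m with hd | hd
          · rw [(he2 i hy).1 hd]; omega
          · rw [(he2 i hy).2 hd]; omega
        · rw [he3 i hx hy]; omega
      rw [if_neg hne, hx0]; simp
  · refine sum_congr rfl fun k hk => ?_
    rw [mem_range] at hk
    congr 2
    ext i
    rw [cls_apply, cls_apply, Finsupp.add_apply]
    by_cases hy : i ∈ y.support
    · have hx : i ∉ x.support := fun hx => hdis i hx hy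
      have hx0 : x i = 0 := by simpa using hx
      rw [hx0, zero_add]
      rcases lt_or_ge (d i) m with hd | hd
      · rw [(he2 i hy).1 hd]
        by_cases hk' : d i = k
        · rw [if_pos (by omega), if_pos hk']
        · rw [if_neg (by omega), if_neg hk']
      · rw [(he2 i hy).2 hd, if_neg (by omega), if_neg (by omega)]
    · have hy0 : y i = 0 := by simpa using hy
      have hne : e i ≠ n + k := by
        by_cases hx : i ∈ x.support
        · rcases lt_or_ge (c i) n with hc | hc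
          · rw [(he1 i hx).1 hc]; omega
          · rw [(he1 i hx).2 hc]; omega
        · rw [he3 i hx hy]; omega
      rw [if_neg hne, hy0]; simp

theorem power_type_pr (μ : Seminorm ℝ E) (hμ : Lat μ) (m₀ s : ℕ) (hm : 1 ≤ m₀) (hs1 : 1 ≤ s)
    (hs : 2 * m₀ ≤ 2 ^ s)
    (h : ∀ (x : E) (c : ℕ → ℕ), (∀ i, c i < m₀) → (∀ k < m₀, 1 ≤ μ (cls c k x)) → 2 ≤ μ x) :
    ∃ μ' : Seminorm ℝ E, Lat μ' ∧ (∀ x, μ x ≤ μ' x) ∧ (∀ x, μ' x ≤ 2 * (m₀ : ℝ) ^ 2 * μ x) ∧
      LS μ' s ∧ ∀ r : ℝ, 1 ≤ r → r ≤ s → UR μ r → UR μ' r := by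
  classical
  have hs1' : (1 : ℝ) ≤ s := by exact_mod_cast hs1
  have hs0 : (0 : ℝ) < s := by linarith
  have hm0 : (1 : ℝ) ≤ m₀ := by exact_mod_cast hm
  have hA1 : (1 : ℝ) ≤ 2 * (m₀ : ℝ) ^ 2 := by nlinarith
  -- the upper bound for each colouring
  have hup : ∀ nc x, PT2_S μ s nc x ≤ 2 * (m₀ : ℝ) ^ 2 * μ x := by
    intro nc x
    refine PT2_S_le_of_pow μ hs1 (mul_nonneg (by linarith) (apply_nonneg μ x)) ?_
    refine (power_bound μ hμ m₀ s hm hs1 hs h nc.1 nc.2 x).trans ?_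
    rw [mul_pow]
    refine mul_le_mul_of_nonneg_right ?_ (pow_nonneg (apply_nonneg μ x) s)
    calc 2 * (m₀ : ℝ) ^ 2 = (2 * (m₀ : ℝ) ^ 2) ^ 1 := (pow_one _).symm
      _ ≤ (2 * (m₀ : ℝ) ^ 2) ^ s := pow_le_pow_right₀ hA1 hs1
  have hbdd : ∀ x, BddAbove (Set.range fun nc => PT2_S μ s nc x) := fun x =>
    ⟨2 * (m₀ : ℝ) ^ 2 * μ x, by rintro _ ⟨nc, rfl⟩; exact hup nc x⟩
  have hle : ∀ nc x, PT2_S μ s nc x ≤ ⨆ nc, PT2_S μ s nc x := fun nc x => le_ciSup (hbdd x) nc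
  let μ' : Seminorm ℝ E := Seminorm.of (fun x => ⨆ nc, PT2_S μ s nc x)
    (fun x y => ciSup_le fun nc => (PT2_S_add μ hs1 nc x y).trans (add_le_add (hle nc x) (hle nc y)))
    (fun t x => by
      rw [Real.norm_eq_abs, Real.mul_iSup_of_nonneg (abs_nonneg t)]
      congr 1
      ext nc
      exact PT2_S_smul μ hs1 nc t x)
  have hμ' : ∀ x, μ' x = ⨆ nc, PT2_S μ s nc x := fun x => rfl
  have hle' : ∀ nc x, PT2_S μ s nc x ≤ μ' x := hle
  refine ⟨μ', ?_, ?_, ?_, ?_, ?_⟩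
  · -- lattice
    intro x y hxy
    rw [hμ' x]
    refine ciSup_le fun nc => le_trans ?_ (hle' nc y)
    refine Real.rpow_le_rpow (PT2_sum_nonneg μ s nc _) (sum_le_sum fun k _ => ?_) (by positivity)
    refine Real.rpow_le_rpow (apply_nonneg μ _) (hμ _ _ fun i => ?_) hs0.le
    rw [cls_apply, cls_apply]
    split_ifs
    · exact hxy i
    · simp
  · -- lower bound
    intro x
    refine le_trans ?_ (hle' (1, fun _ => 0) x)
    have h1 : cls (fun _ => 0) 0 x = x := by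
      ext i
      rw [cls_apply, if_pos rfl]
    rw [PT2_S]
    simp only [sum_range_one, h1]
    rw [← Real.rpow_mul (apply_nonneg μ x), mul_one_div_cancel hs0.ne', Real.rpow_one]
  · intro x
    rw [hμ' x]
    exact ciSup_le fun nc => hup nc x
  · -- lower s-estimate
    intro x y hxy
    have h1 : ∀ nc md : ℕ × (ℕ → ℕ), PT2_S μ s nc x ^ s + PT2_S μ s md y ^ s ≤
        μ' (x + y) ^ s := by
      rintro ⟨n, c⟩ ⟨m, d⟩
      obtain ⟨e, he⟩ := PT2_combine μ s n m c d hxy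
      rw [PT2_S_pow μ hs1, PT2_S_pow μ hs1]
      simp only
      rw [← he]
      have h2 := PT2_S_pow μ hs1 (n + m, e) (x + y)
      simp only at h2
      rw [← h2]
      exact pow_le_pow_left₀ (PT2_S_nonneg μ s _ _) (hle' _ _) s
    have h2 : ∀ md : ℕ × (ℕ → ℕ), μ' x ^ s + PT2_S μ s md y ^ s ≤ μ' (x + y) ^ s := by
      intro md
      have h3 : μ' x ^ (s : ℝ) ≤ μ' (x + y) ^ s - PT2_S μ s md y ^ s := by
        rw [hμ' x]
        refine PT2_iSup_rpow hs0 (fun nc => PT2_S_nonneg μ s nc x) ?_ (fun nc => ?_)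
        · have := h1 (0, fun _ => 0) md
          have h4 : 0 ≤ PT2_S μ s (0, fun _ => 0) x ^ s := pow_nonneg (PT2_S_nonneg μ s _ _) _
          linarith
        · rw [Real.rpow_natCast]
          linarith [h1 nc md]
      rw [Real.rpow_natCast] at h3
      linarith
    have h3 : μ' y ^ (s : ℝ) ≤ μ' (x + y) ^ s - μ' x ^ s := by
      rw [hμ' y]
      refine PT2_iSup_rpow hs0 (fun nc => PT2_S_nonneg μ s nc y) ?_ (fun nc => ?_)
      · have := h2 (0, fun _ => 0)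
        have h4 : 0 ≤ PT2_S μ s (0, fun _ => 0) y ^ s := pow_nonneg (PT2_S_nonneg μ s _ _) _
        linarith
      · rw [Real.rpow_natCast]
        linarith [h2 nc]
    rw [Real.rpow_natCast] at h3
    linarith
  · -- upper r-estimate
    intro r hr1 hrs hUR x y hxy
    have hr0 : 0 < r := by linarith
    have hq1 : 1 ≤ (s : ℝ) / r := by rwa [le_div_iff₀ hr0, one_mul]
    have hC : 0 ≤ μ' x ^ r + μ' y ^ r :=
      add_nonneg (Real.rpow_nonneg (apply_nonneg μ' x) _) (Real.rpow_nonneg (apply_nonneg μ' y) _)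
    -- the r-th power of S as an l_q norm, q = s / r
    have hSr : ∀ nc z, PT2_S μ s nc z ^ r =
        (∑ k ∈ range nc.1, (μ (cls nc.2 k z) ^ r) ^ ((s : ℝ) / r)) ^ (1 / ((s : ℝ) / r)) := by
      intro nc z
      have h1 : ∑ k ∈ range nc.1, (μ (cls nc.2 k z) ^ r) ^ ((s : ℝ) / r) =
          ∑ k ∈ range nc.1, μ (cls nc.2 k z) ^ (s : ℝ) := by
        refine sum_congr rfl fun k _ => ?_
        rw [← Real.rpow_mul (apply_nonneg μ _), mul_div_cancel₀ _ hr0.ne']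
      rw [h1, PT2_S, ← Real.rpow_mul (PT2_sum_nonneg μ s nc z)]
      congr 1
      field_simp
    rw [hμ' (x + y)]
    refine PT2_iSup_rpow hr0 (fun nc => PT2_S_nonneg μ s nc _) hC (fun nc => ?_)
    have h1 : ∀ k, μ (cls nc.2 k (x + y)) ^ r ≤
        μ (cls nc.2 k x) ^ r + μ (cls nc.2 k y) ^ r := by
      intro k
      rw [map_add]
      refine hUR _ _ ?_
      rw [Dis, Finset.disjoint_left]
      intro i hi hi'
      exact (Finset.disjoint_left.1 hxy) (supp_cls_subset _ _ _ hi) (supp_cls_subset _ _ _ hi')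
    calc PT2_S μ s nc (x + y) ^ r
        = (∑ k ∈ range nc.1, (μ (cls nc.2 k (x + y)) ^ r) ^ ((s : ℝ) / r)) ^
            (1 / ((s : ℝ) / r)) := hSr nc _
      _ ≤ (∑ k ∈ range nc.1, (μ (cls nc.2 k x) ^ r + μ (cls nc.2 k y) ^ r) ^ ((s : ℝ) / r)) ^
            (1 / ((s : ℝ) / r)) := by
          refine Real.rpow_le_rpow (sum_nonneg fun k _ => Real.rpow_nonneg
            (Real.rpow_nonneg (apply_nonneg μ _) _) _) (sum_le_sum fun k _ => ?_) (by positivity)
          exact Real.rpow_le_rpow (Real.rpow_nonneg (apply_nonneg μ _) _) (h1 k) (by positivity)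
      _ ≤ (∑ k ∈ range nc.1, (μ (cls nc.2 k x) ^ r) ^ ((s : ℝ) / r)) ^ (1 / ((s : ℝ) / r)) +
            (∑ k ∈ range nc.1, (μ (cls nc.2 k y) ^ r) ^ ((s : ℝ) / r)) ^ (1 / ((s : ℝ) / r)) :=
          Real.Lp_add_le_of_nonneg (range nc.1) hq1
            (fun k _ => Real.rpow_nonneg (apply_nonneg μ _) _)
            (fun k _ => Real.rpow_nonneg (apply_nonneg μ _) _)
      _ = PT2_S μ s nc x ^ r + PT2_S μ s nc y ^ r := by rw [← hSr, ← hSr]
      _ ≤ μ' x ^ r + μ' y ^ r :=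
          add_le_add (Real.rpow_le_rpow (PT2_S_nonneg μ s _ _) (hle' _ _) hr0.le)
            (Real.rpow_le_rpow (PT2_S_nonneg μ s _ _) (hle' _ _) hr0.le)

alias power_type := power_type_pr

end Pool.Agent.Lib_helper25.AD
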