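import Pool.Agent.Lib_helper25.AD.Base
import Pool.Agent.Lib_helper25.AD.Blk.DPT
import Pool.Agent.Lib_helper25.AD.Blk.DUAL
import Pool.Agent.Lib_helper25.AD.Blk.DUR
import Pool.Agent.Lib_helper25.AD.Blk.LREN
import Pool.Agent.Lib_helper25.AD.Blk.PT2

set_option autoImplicit false

open Finset

namespace Pool.Agent.Lib_helper25.AD

theorem renorm_m1 (p C : ℝ) (hp : 1 < p) (hC : 1 ≤ C) :
    ∃ m₁ : ℕ, 1 ≤ m₁ ∧ 8 * C * (C * m₁) ^ (1 / p) ≤ m₁ := by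
  have hp0 : 0 < p := by linarith
  have he : 0 < 1 - 1 / p := by
    have : 1 / p < 1 := by rw [div_lt_one hp0]; exact hp
    linarith
  have ht := (tendsto_rpow_atTop he).comp (tendsto_natCast_atTop_atTop (R := ℝ))
  obtain ⟨m, hm⟩ := (Filter.tendsto_atTop.1 ht (8 * C ^ 2)).exists_forall_of_atTop
  refine ⟨max m 1, le_max_right _ _, ?_⟩
  have h1 := hm (max m 1) (le_max_left _ _)
  simp only [Function.comp_apply] at h1
  set M : ℝ := ((max m 1 : ℕ) : ℝ) with hM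
  have hM1 : 1 ≤ M := by rw [hM]; exact_mod_cast le_max_right m 1
  have hM0 : 0 < M := by linarith
  have h2 : (C * M) ^ (1 / p) ≤ C * M ^ (1 / p) := by
    rw [Real.mul_rpow (by linarith) hM0.le]
    refine mul_le_mul_of_nonneg_right ?_ (Real.rpow_nonneg hM0.le _)
    calc C ^ (1 / p) ≤ C ^ (1 : ℝ) := by
          apply Real.rpow_le_rpow_of_exponent_le hC
          rw [div_le_one hp0]; linarith
      _ = C := Real.rpow_one C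
  have h3 : M ^ (1 - 1 / p) * M ^ (1 / p) = M := by
    rw [← Real.rpow_add hM0]
    have : 1 - 1 / p + 1 / p = 1 := by ring
    rw [this, Real.rpow_one]
  have h4 : 0 ≤ M ^ (1 / p) := Real.rpow_nonneg hM0.le _
  calc 8 * C * (C * M) ^ (1 / p) ≤ 8 * C * (C * M ^ (1 / p)) := by
        exact mul_le_mul_of_nonneg_left h2 (by linarith)
    _ = (8 * C ^ 2) * M ^ (1 / p) := by ring
    _ ≤ M ^ (1 - 1 / p) * M ^ (1 / p) := mul_le_mul_of_nonneg_right h1 h4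
    _ = M := h3

/-- RENORM -/
theorem renorm_pr (p C : ℝ) (hp : 1 < p) (hC : 1 ≤ C) :
    ∃ (T₀ s t : ℕ) (A : ℝ), 1 ≤ A ∧ p ≤ s ∧ 2 ≤ t ∧ p / (p - 1) ≤ t ∧
      ∀ ν : Seminorm ℝ E, Dfn ν → SA ν p C T₀ →
        ∃ μ μd : Seminorm ℝ E, Lat μ ∧ Lat μd ∧ Dfn μ ∧ IsDual μ μd ∧
          (∀ x, ν x ≤ A * μ x ∧ μ x ≤ A * ν x) ∧ LS μ s ∧
          UR μ ((t : ℝ) / ((t : ℝ) - 1)) := by
  have hp0 : 0 < p := by linarith
  have hC0 : 0 < C := by linarith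
  obtain ⟨m₁, hm₁, hm₁'⟩ := renorm_m1 p C hp hC
  obtain ⟨t, ht2, htq, htm⟩ : ∃ t : ℕ, 2 ≤ t ∧ p / (p - 1) ≤ t ∧ 2 * m₁ ≤ 2 ^ t := by
    refine ⟨2 + ⌈p / (p - 1)⌉₊ + 2 * m₁, by omega, ?_, ?_⟩
    · push_cast
      have := Nat.le_ceil (p / (p - 1))
      have h0 : (0 : ℝ) ≤ m₁ := Nat.cast_nonneg _
      linarith
    · have := (Nat.lt_two_pow_self (n := 2 + ⌈p / (p - 1)⌉₊ + 2 * m₁)).le
      omega
  set B₁ : ℝ := 2 * (m₁ : ℝ) ^ 2 with hB₁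
  have hm₁r : (1 : ℝ) ≤ m₁ := by exact_mod_cast hm₁
  have hB₁1 : 1 ≤ B₁ := by rw [hB₁]; nlinarith
  obtain ⟨m₀, hm₀, hm₀'⟩ : ∃ m₀ : ℕ, 1 ≤ m₀ ∧ C * (2 * B₁) ^ p * (2 * C) ^ p ≤ m₀ := by
    refine ⟨⌈C * (2 * B₁) ^ p * (2 * C) ^ p⌉₊ + 1, by omega, ?_⟩
    push_cast
    have := Nat.le_ceil (C * (2 * B₁) ^ p * (2 * C) ^ p)
    linarith
  obtain ⟨s, hsp, hs2, hsm⟩ : ∃ s : ℕ, p ≤ s ∧ 2 ≤ s ∧ 2 * m₀ ≤ 2 ^ s := by
    refine ⟨2 + ⌈p⌉₊ + 2 * m₀, ?_, by omega, ?_⟩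
    · push_cast
      have := Nat.le_ceil p
      have h0 : (0 : ℝ) ≤ m₀ := Nat.cast_nonneg _
      linarith
    · have := (Nat.lt_two_pow_self (n := 2 + ⌈p⌉₊ + 2 * m₀)).le
      omega
  set B₀ : ℝ := 2 * (m₀ : ℝ) ^ 2 with hB₀
  have hm₀r : (1 : ℝ) ≤ m₀ := by exact_mod_cast hm₀
  have hB₀1 : 1 ≤ B₀ := by rw [hB₀]; nlinarith
  refine ⟨2 + m₀ + m₁, s, t, B₁ + 2 * C * B₀, by nlinarith, hsp, ht2, htq, ?_⟩
  intro ν hν hSA
  -- lattice norm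
  obtain ⟨ν₁, hL₁, hν₁, hν₁'⟩ := lattice_renorm ν p C hp hC _ (by omega) hSA
  have hd₁ : Dfn ν₁ := fun x hx => lt_of_lt_of_le (hν x hx) (hν₁ x)
  obtain ⟨μ₁, hLμ₁, hdμ₁, hD₁⟩ := exists_dual ν₁ hL₁ hd₁
  -- upper estimate for m₁ colours
  have hup : ∀ (x : E) (c : ℕ → ℕ), (∀ i, c i < m₁) → (∀ k < m₁, ν₁ (cls c k x) ≤ 1) →
      4 * ν₁ x ≤ m₁ := by
    intro x c hc hk
    have h1 := (hSA m₁ c x hc (fun i _ => by omega)).2
    rw [UppAt] at h1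
    have h2 : ∑ k ∈ range m₁, ν (cls c k x) ^ p ≤ m₁ := by
      calc ∑ k ∈ range m₁, ν (cls c k x) ^ p ≤ ∑ k ∈ range m₁, (1 : ℝ) := by
            apply Finset.sum_le_sum
            intro k hk'
            apply Real.rpow_le_one (apply_nonneg ν _) _ hp0.le
            exact (hν₁ _).trans (hk k (mem_range.1 hk'))
        _ = m₁ := by simp
    have h3 : ν x ^ p ≤ C * m₁ := h1.trans (mul_le_mul_of_nonneg_left h2 hC0.le)
    have h4 : ν x ≤ (C * m₁) ^ (1 / p) := by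
      have := Real.rpow_le_rpow (Real.rpow_nonneg (apply_nonneg ν x) p) h3
        (by positivity : (0 : ℝ) ≤ 1 / p)
      rwa [← Real.rpow_mul (apply_nonneg ν x), mul_one_div_cancel hp0.ne', Real.rpow_one] at this
    calc 4 * ν₁ x ≤ 4 * (2 * C * ν x) := by linarith [hν₁' x]
      _ = 8 * C * ν x := by ring
      _ ≤ 8 * C * (C * m₁) ^ (1 / p) := mul_le_mul_of_nonneg_left h4 (by linarith)
      _ ≤ m₁ := hm₁'
  obtain ⟨μ₂, hLμ₂, hμ₁₂, hμ₂₁, hLS₂, -⟩ := power_type μ₁ hLμ₁ m₁ t hm₁ (by omega) htm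
    (fun g c hc hg => dual_pt ν₁ μ₁ hL₁ hD₁ m₁ hm₁ hup g c hc hg)
  have hdμ₂ : Dfn μ₂ := fun x hx => lt_of_lt_of_le (hdμ₁ x hx) (hμ₁₂ x)
  obtain ⟨ν₂, hLν₂, hdν₂, hD₂⟩ := exists_dual μ₂ hLμ₂ hdμ₂
  have hUR₂ : UR ν₂ ((t : ℝ) / ((t : ℝ) - 1)) := dual_UR μ₂ ν₂ hLμ₂ hD₂ t ht2 hLS₂
  have h21 : ∀ x, ν₂ x ≤ ν₁ x := by
    intro x
    apply hD₂.sup x _ (apply_nonneg ν₁ x)
    intro g hg
    rw [pr_comm]
    calc pr g x ≤ μ₁ g * ν₁ x := hD₁.le g x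
      _ ≤ 1 * ν₁ x := mul_le_mul_of_nonneg_right ((hμ₁₂ g).trans hg) (apply_nonneg ν₁ x)
      _ = ν₁ x := one_mul _
  have h12 : ∀ x, ν₁ x ≤ B₁ * ν₂ x := by
    intro x
    obtain ⟨g, hg1, hg2, -⟩ := hD₁.att x
    rw [← hg2, pr_comm]
    calc pr x g ≤ ν₂ x * μ₂ g := hD₂.le x g
      _ ≤ ν₂ x * B₁ := by
          apply mul_le_mul_of_nonneg_left _ (apply_nonneg ν₂ x)
          calc μ₂ g ≤ B₁ * μ₁ g := hμ₂₁ g
            _ ≤ B₁ * 1 := mul_le_mul_of_nonneg_left hg1 (by linarith)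
            _ = B₁ := mul_one _
      _ = B₁ * ν₂ x := mul_comm _ _
  -- lower estimate for m₀ colours
  have hlo : ∀ (x : E) (c : ℕ → ℕ), (∀ i, c i < m₀) → (∀ k < m₀, 1 ≤ ν₂ (cls c k x)) →
      2 ≤ ν₂ x := by
    intro x c hc hk
    have h1 := (hSA m₀ c x hc (fun i _ => by omega)).1
    rw [LowAt] at h1
    have h2 : (m₀ : ℝ) * (1 / (2 * C)) ^ p ≤ ∑ k ∈ range m₀, ν (cls c k x) ^ p := by
      calc (m₀ : ℝ) * (1 / (2 * C)) ^ p = ∑ k ∈ range m₀, (1 / (2 * C)) ^ p := by simp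
        _ ≤ _ := by
          apply Finset.sum_le_sum
          intro k hk'
          apply Real.rpow_le_rpow (by positivity) _ hp0.le
          rw [div_le_iff₀ (by positivity)]
          calc (1 : ℝ) ≤ ν₂ (cls c k x) := hk k (mem_range.1 hk')
            _ ≤ ν₁ (cls c k x) := h21 _
            _ ≤ 2 * C * ν (cls c k x) := hν₁' _
            _ = ν (cls c k x) * (2 * C) := mul_comm _ _
    by_contra hlt
    push Not at hlt
    have h3 : ν x ≤ B₁ * ν₂ x := (hν₁ x).trans (h12 x)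
    have h4 : ν x < 2 * B₁ := by nlinarith
    have h5 : ν x ^ p < (2 * B₁) ^ p := Real.rpow_lt_rpow (apply_nonneg ν x) h4 hp0
    have h6 : (m₀ : ℝ) * (1 / (2 * C)) ^ p < C * (2 * B₁) ^ p :=
      lt_of_le_of_lt (h2.trans h1) (mul_lt_mul_of_pos_left h5 hC0)
    have h7 : (1 / (2 * C)) ^ p * (2 * C) ^ p = 1 := by
      rw [← Real.mul_rpow (by positivity) (by positivity)]
      rw [one_div, inv_mul_cancel₀ (by positivity), Real.one_rpow]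
    have h8 : 0 < (2 * C) ^ p := Real.rpow_pos_of_pos (by positivity) p
    have h9 := mul_lt_mul_of_pos_right h6 h8
    rw [mul_assoc, h7, mul_one] at h9
    linarith
  obtain ⟨μ, hLμ, hμ1, hμ2, hLSμ, hURμ⟩ := power_type ν₂ hLν₂ m₀ s hm₀ (by omega) hsm hlo
  have hdμ : Dfn μ := fun x hx => lt_of_lt_of_le (hdν₂ x hx) (hμ1 x)
  obtain ⟨μd, hLμd, -, hDμ⟩ := exists_dual μ hLμ hdμ
  have htr : (2 : ℝ) ≤ t := by exact_mod_cast ht2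
  have hr1 : 1 ≤ (t : ℝ) / ((t : ℝ) - 1) := by
    rw [le_div_iff₀ (by linarith)]; linarith
  have hr2 : (t : ℝ) / ((t : ℝ) - 1) ≤ s := by
    have : (2 : ℝ) ≤ s := by exact_mod_cast hs2
    rw [div_le_iff₀ (by linarith)]
    nlinarith
  refine ⟨μ, μd, hLμ, hLμd, hdμ, hDμ, ?_, hLSμ, hURμ _ hr1 hr2 hUR₂⟩
  intro x
  have hnn : 0 ≤ ν x := apply_nonneg ν x
  have hμn : 0 ≤ μ x := apply_nonneg μ x
  have hν₂n : 0 ≤ ν₂ x := apply_nonneg ν₂ x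
  constructor
  · calc ν x ≤ ν₁ x := hν₁ x
      _ ≤ B₁ * ν₂ x := h12 x
      _ ≤ B₁ * μ x := mul_le_mul_of_nonneg_left (hμ1 x) (by linarith)
      _ ≤ (B₁ + 2 * C * B₀) * μ x := by
        apply mul_le_mul_of_nonneg_right _ hμn
        have : 0 ≤ 2 * C * B₀ := by positivity
        linarith
  · calc μ x ≤ B₀ * ν₂ x := hμ2 x
      _ ≤ B₀ * ν₁ x := mul_le_mul_of_nonneg_left (h21 x) (by linarith)
      _ ≤ B₀ * (2 * C * ν x) := mul_le_mul_of_nonneg_left (hν₁' x) (by linarith)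
      _ = 2 * C * B₀ * ν x := by ring
      _ ≤ (B₁ + 2 * C * B₀) * ν x := by
        apply mul_le_mul_of_nonneg_right _ hnn
        linarith

alias renorm := renorm_pr

end Pool.Agent.Lib_helper25.AD
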