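import Pool.Agent.Lib_helper25.AD.Base

set_option autoImplicit false

open Finset Filter Topology

namespace Pool.Agent.Lib_helper25.AD

theorem NUM1_log2 {u : ℝ} (hu : 1 ≤ u) : Real.logb 2 u ≤ (3 / 2) * (u - 1) := by
  have h1 : Real.log u ≤ u - 1 := Real.log_le_sub_one_of_pos (by linarith)
  have h2 : (0.6931471803 : ℝ) < Real.log 2 := Real.log_two_gt_d9
  have h3 : 0 ≤ Real.log u := Real.log_nonneg hu
  rw [Real.logb, div_le_iff₀ (by linarith)]
  nlinarith

theorem num1_pr (l s : ℕ) (hl : 1 ≤ l) (hs : (2 : ℝ) ^ 19 * l ≤ s) (a : ℕ → ℕ)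
    (ha : ∑ k ∈ range l, a k ≤ s) :
    ∑ k ∈ range l, GS (a k) ≤ (3 / 2) * s / (1 + Real.logb 2 ((s : ℝ) / l)) := by
  have hl0 : (0 : ℝ) < l := by exact_mod_cast hl
  set m : ℝ := (s : ℝ) / l with hm
  have hm19 : (2 : ℝ) ^ 19 ≤ m := by rw [hm, le_div_iff₀ hl0]; exact hs
  have hm0 : 0 < m := lt_of_lt_of_le (by positivity) hm19
  have hlm : (l : ℝ) * m = s := by rw [hm]; field_simp
  set F : ℝ := 1 + Real.logb 2 m with hF
  have hF20 : 20 ≤ F := by
    have : (19 : ℝ) ≤ Real.logb 2 m := by
      rw [Real.le_logb_iff_rpow_le (by norm_num) hm0]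
      exact_mod_cast hm19
    rw [hF]; linarith
  have hF4 : 0 < F - 4 := by linarith
  have hy : 1 + Real.logb 2 (m / 16) = F - 4 := by
    have h16 : Real.logb 2 16 = 4 := by
      rw [show (16 : ℝ) = 2 ^ (4 : ℝ) by norm_num]
      exact Real.logb_rpow (by norm_num) (by norm_num)
    rw [Real.logb_div hm0.ne' (by norm_num), h16, hF]; ring
  have hm16 : 1 ≤ m / 16 := by
    rw [le_div_iff₀ (by norm_num)]
    refine le_trans ?_ hm19
    norm_num
  have key : ∀ n : ℕ, GS n ≤ ((n : ℝ) + (3 / 2) * (m / 16)) / (F - 4) := by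
    intro n
    rw [GS, fS]
    rcases Nat.eq_zero_or_pos n with h0 | hn
    · subst h0
      simp only [Nat.cast_zero, zero_div, zero_add]
      positivity
    · have hn1 : (1 : ℝ) ≤ n := by exact_mod_cast hn
      have hfn : 0 ≤ Real.logb 2 (n : ℝ) := Real.logb_nonneg (by norm_num) hn1
      rcases le_or_gt (m / 16) (n : ℝ) with h | h
      · have h1 : F - 4 ≤ 1 + Real.logb 2 (n : ℝ) := by
          rw [← hy]
          have := Real.logb_le_logb_of_le (b := 2) (by norm_num) (by linarith) h
          linarith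
        calc (n : ℝ) / (1 + Real.logb 2 (n : ℝ)) ≤ (n : ℝ) / (F - 4) :=
              div_le_div_of_nonneg_left (by linarith) hF4 h1
          _ ≤ _ := by
              apply div_le_div_of_nonneg_right _ hF4.le
              linarith
      · have h1 : Real.logb 2 (m / 16 / n) ≤ (3 / 2) * (m / 16 / n - 1) := by
          apply NUM1_log2
          rw [le_div_iff₀ (by linarith)]
          linarith
        have h2 : Real.logb 2 (m / 16 / n) = Real.logb 2 (m / 16) - Real.logb 2 n := by
          rw [Real.logb_div (by linarith) (by linarith)]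
        have h3 : (n : ℝ) * (m / 16 / n) = m / 16 := by field_simp
        have h4 : (n : ℝ) * (F - 4) ≤ (3 / 2) * (m / 16) * (1 + Real.logb 2 (n : ℝ)) := by
          have h5 : F - 4 ≤ 1 + Real.logb 2 (n : ℝ) + (3 / 2) * (m / 16 / n - 1) := by
            rw [← hy]; linarith
          calc (n : ℝ) * (F - 4)
              ≤ (n : ℝ) * (1 + Real.logb 2 (n : ℝ) + (3 / 2) * (m / 16 / n - 1)) :=
                mul_le_mul_of_nonneg_left h5 (by linarith)
            _ = n * (1 + Real.logb 2 (n : ℝ)) + (3 / 2) * (n * (m / 16 / n) - n) := by ring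
            _ = n * (1 + Real.logb 2 (n : ℝ)) + (3 / 2) * (m / 16 - n) := by rw [h3]
            _ ≤ n * (1 + Real.logb 2 (n : ℝ)) +
                (3 / 2) * (m / 16 - n) * (1 + Real.logb 2 (n : ℝ)) := by
                have : 0 ≤ (3 / 2) * (m / 16 - n) := by linarith
                nlinarith
            _ ≤ (3 / 2) * (m / 16) * (1 + Real.logb 2 (n : ℝ)) := by nlinarith
        rw [div_le_div_iff₀ (by linarith) hF4]
        nlinarith
  have hsum : ∑ k ∈ range l, GS (a k) ≤
      ((s : ℝ) + (3 / 2) * (s / 16)) / (F - 4) := by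
    calc ∑ k ∈ range l, GS (a k)
        ≤ ∑ k ∈ range l, (((a k : ℕ) : ℝ) + (3 / 2) * (m / 16)) / (F - 4) :=
          sum_le_sum fun k _ => key (a k)
      _ = ((∑ k ∈ range l, ((a k : ℕ) : ℝ)) + (3 / 2) * (l * m / 16)) / (F - 4) := by
          rw [← sum_div, sum_add_distrib, sum_const, card_range, nsmul_eq_mul]
          congr 2
          ring
      _ ≤ _ := by
          apply div_le_div_of_nonneg_right _ hF4.le
          have h1 : ∑ k ∈ range l, ((a k : ℕ) : ℝ) ≤ s := by
            rw [← Nat.cast_sum]; exact_mod_cast ha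
          rw [hlm]
          linarith
  refine hsum.trans ?_
  rw [div_le_div_iff₀ hF4 (by linarith)]
  have hs0 : (0 : ℝ) ≤ s := Nat.cast_nonneg s
  nlinarith

alias num1 := num1_pr

end Pool.Agent.Lib_helper25.AD
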