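import Pool.Agent.Lib_helper25.AD.Base
import Pool.Agent.Lib_helper25.AD.Blk.NS
import Pool.Agent.Lib_helper25.AD.Blk.CUT
import Pool.Agent.Lib_helper25.AD.Blk.NUM1

/-!
# AD, block PAIR: a functional of small type on a vector of large type
-/

set_option autoImplicit false

open Finset Filter Topology

namespace Pool.Agent.Lib_helper25.AD

theorem pair_n_sum (n : Seminorm ℝ E) (y : ℕ → E) (S : Finset ℕ) :
    n (∑ i ∈ S, y i) ≤ ∑ i ∈ S, n (y i) := by
  classical
  induction S using Finset.induction_on with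
  | empty => simp
  | insert a S ha ih =>
    rw [Finset.sum_insert ha, Finset.sum_insert ha]
    exact (map_add_le_add n _ _).trans (by linarith)

theorem pair_avg {n : Seminorm ℝ E} {N : ℕ} {x : E} (h : IsAvg n N x) : n x ≤ 1 := by
  obtain ⟨hN, y, hy, _, rfl⟩ := h
  have hN0 : (0 : ℝ) < N := by exact_mod_cast hN
  rw [map_smul_eq_mul, Real.norm_eq_abs, abs_of_pos (inv_pos.2 hN0), inv_mul_le_iff₀ hN0, mul_one]
  refine (pair_n_sum n y _).trans ?_
  refine (Finset.sum_le_sum (g := fun _ => (1 : ℝ)) fun i hi => hy i (mem_range.1 hi)).trans ?_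
  simp

theorem pair_pr_sum (g : E) {r : ℕ} {x : ℕ → E} (hx : Suc r x) (S : Finset ℕ)
    (hS : S ⊆ range r) : pr g (∑ j ∈ S, x j) = ∑ j ∈ S, pr g (x j) := by
  classical
  induction S using Finset.induction_on with
  | empty => simp [pr]
  | insert a S ha ih =>
    have h1 : S ⊆ range r := (Finset.subset_insert _ _).trans hS
    have har : a < r := mem_range.1 (hS (Finset.mem_insert_self _ _))
    rw [Finset.sum_insert ha, Finset.sum_insert ha, ← ih h1]
    apply pr_add_dis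
    rw [Dis, Finset.disjoint_left]
    intro t ht ht'
    have h2 : ∃ b ∈ S, t ∈ (x b).support := by
      by_contra hcon
      push Not at hcon
      rw [Finsupp.mem_support_iff, Finsupp.finset_sum_apply] at ht'
      apply ht'
      apply Finset.sum_eq_zero
      intro b hb
      simpa using hcon b hb
    obtain ⟨b, hb, htb⟩ := h2
    have hbr : b < r := mem_range.1 (h1 hb)
    have hab : a ≠ b := fun h => ha (h ▸ hb)
    rcases lt_or_gt_of_ne hab with h | h
    · exact lt_irrefl t (hx a b h hbr t ht t htb)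
    · exact lt_irrefl t (hx b a h har t htb t ht)

theorem pair_pr_zero {g x : E} (h : Dis g x) : pr g x = 0 := by
  rw [pr]
  apply Finset.sum_eq_zero
  intro i hi
  have h1 : i ∉ g.support := fun h2 => (Finset.disjoint_left.1 h) h2 hi
  have h0 : g i = 0 := by simpa using h1
  simp [h0]

theorem pair_log {x : ℝ} (hx : 1 ≤ x) : 1 + Real.logb 2 x ≤ 4 * Real.sqrt x := by
  have h1 : Real.log x ≤ x ^ ((1 : ℝ) / 2) / (1 / 2) :=
    Real.log_le_rpow_div (by linarith) (by norm_num)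
  rw [← Real.sqrt_eq_rpow] at h1
  have h2 : (0.69 : ℝ) < Real.log 2 := by
    have := Real.log_two_gt_d9
    linarith
  have h3 : 1 ≤ Real.sqrt x := Real.one_le_sqrt.mpr hx
  rw [Real.logb]
  have h4 : Real.log x / Real.log 2 ≤ 3 * Real.sqrt x := by
    rw [div_le_iff₀ (by linarith)]
    nlinarith
  linarith

theorem pair_GS_half {r s : ℕ} (hr : 1 ≤ r) (h : r ^ 2 ≤ s) :
    (3 / 2) * (s : ℝ) / (1 + Real.logb 2 ((s : ℝ) / r)) ≤ 3 * GS s := by
  have hr0 : (0 : ℝ) < r := by exact_mod_cast hr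
  have hr1 : (1 : ℝ) ≤ r := by exact_mod_cast hr
  have hsr : ((r : ℝ)) ^ 2 ≤ s := by exact_mod_cast h
  have hs1 : (1 : ℝ) ≤ s := by nlinarith
  have hs0 : (0 : ℝ) < s := by linarith
  have h1 : Real.logb 2 ((s : ℝ) / r) = Real.logb 2 s - Real.logb 2 r :=
    Real.logb_div hs0.ne' hr0.ne'
  have h2 : 2 * Real.logb 2 r ≤ Real.logb 2 s := by
    have h3 : Real.logb 2 ((r : ℝ) ^ 2) ≤ Real.logb 2 s :=
      Real.logb_le_logb_of_le (by norm_num) (by positivity) hsr
    rw [Real.logb_pow] at h3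
    push_cast at h3
    exact h3
  have h0 : 0 ≤ Real.logb 2 s := Real.logb_nonneg (by norm_num) hs1
  have h4 : (1 + Real.logb 2 s) / 2 ≤ 1 + Real.logb 2 ((s : ℝ) / r) := by
    rw [h1]
    linarith
  have h5 : 0 < (1 + Real.logb 2 (s : ℝ)) / 2 := by linarith
  calc (3 / 2) * (s : ℝ) / (1 + Real.logb 2 ((s : ℝ) / r))
      ≤ (3 / 2) * (s : ℝ) / ((1 + Real.logb 2 s) / 2) :=
        div_le_div_of_nonneg_left (by positivity) h5 h4
    _ = 3 * GS s := by
        rw [GS, fS]
        field_simp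

/-- PAIR -/
theorem pair_small_pr (C₀ : ℝ) (hC₀ : 1 ≤ C₀) (r : ℕ) (hr : 1 ≤ r) : ∃ R : ℕ, ∀ r', R ≤ r' →
    ∀ (n : Seminorm ℝ E), IsNS n → ∀ (x : ℕ → E) (N : ℕ → ℕ), RIS n r' x N →
      (∀ I ⊆ range r', n (∑ j ∈ I, x j) ≤ C₀ * GS I.card) →
      ∀ g : ℕ → E, Suc r g → (∀ i < r, DB n (g i)) →
        pr (∑ i ∈ range r, g i) (∑ j ∈ range r', x j) ≤ 4 * C₀ * GS r' := by
  classical
  refine ⟨max (2 ^ 19 * r) (16 * r ^ 4), ?_⟩
  intro r' hR n hn x N hris hI g hg hdb
  have hR1 : 2 ^ 19 * r ≤ r' := le_trans (le_max_left _ _) hR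
  have hR2 : 16 * r ^ 4 ≤ r' := le_trans (le_max_right _ _) hR
  have hr0 : (0 : ℝ) < r := by exact_mod_cast hr
  have hr1 : (1 : ℝ) ≤ r := by exact_mod_cast hr
  have hR1' : (2 : ℝ) ^ 19 * r ≤ r' := by exact_mod_cast hR1
  have hR2' : (16 : ℝ) * (r : ℝ) ^ 4 ≤ r' := by exact_mod_cast hR2
  have hrr : r ^ 2 ≤ r' := by
    have h1 : r ^ 2 ≤ r ^ 4 := Nat.pow_le_pow_right hr (by norm_num)
    omega
  have hr'1 : (1 : ℝ) ≤ r' := by
    have : (1 : ℝ) ≤ (r : ℝ) ^ 4 := one_le_pow₀ hr1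
    linarith
  set Cc := (range r').filter (fun j => ∃ k k', k < k' ∧ k' < r ∧ ¬ Dis (g k) (x j) ∧
      ¬ Dis (g k') (x j)) with hCc
  have hcut : Cc.card ≤ r - 1 := cut r r' g x hg hris.suc
  -- expand
  have h1 : pr (∑ i ∈ range r, g i) (∑ j ∈ range r', x j) =
      ∑ i ∈ range r, ∑ j ∈ range r', pr (g i) (x j) := by
    rw [pr_comm, ns_pr_sum _ g r hg]
    apply Finset.sum_congr rfl
    intro i _
    rw [pr_comm, ns_pr_sum _ x r' hris.suc]
  set Ii : ℕ → Finset ℕ := fun i => (range r').filter fun j => j ∉ Cc ∧ ¬ Dis (g i) (x j)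
    with hIi
  have hIsub : ∀ i, Ii i ⊆ range r' := fun i => Finset.filter_subset _ _
  -- for fixed `i`
  have h2 : ∀ i, ∑ j ∈ range r', pr (g i) (x j) =
      ∑ j ∈ Cc, pr (g i) (x j) + ∑ j ∈ Ii i, pr (g i) (x j) := by
    intro i
    have h3 : ∑ j ∈ range r', pr (g i) (x j) =
        ∑ j ∈ (range r').filter (fun j => j ∈ Cc), pr (g i) (x j) +
          ∑ j ∈ (range r').filter (fun j => ¬ j ∈ Cc), pr (g i) (x j) :=
      (Finset.sum_filter_add_sum_filter_not _ _ _).symm
    have h4 : (range r').filter (fun j => j ∈ Cc) = Cc := by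
      ext j
      rw [Finset.mem_filter]
      constructor
      · exact fun h => h.2
      · exact fun h => ⟨(Finset.mem_filter.1 h).1, h⟩
    rw [h3, h4]
    congr 1
    symm
    apply Finset.sum_subset
    · intro j hj
      rw [Finset.mem_filter] at hj ⊢
      exact ⟨hj.1, hj.2.1⟩
    · intro j hj hj'
      rw [Finset.mem_filter] at hj hj'
      apply pair_pr_zero
      by_contra hcon
      exact hj' ⟨hj.1, hj.2, hcon⟩
  -- cut part
  have h5 : ∑ i ∈ range r, ∑ j ∈ Cc, pr (g i) (x j) ≤ (r : ℝ) ^ 2 := by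
    have h6 : ∀ i ∈ range r, ∑ j ∈ Cc, pr (g i) (x j) ≤ r := by
      intro i hi
      have h7 : ∑ j ∈ Cc, pr (g i) (x j) ≤ ∑ j ∈ Cc, (1 : ℝ) := by
        apply Finset.sum_le_sum
        intro j hj
        exact (hdb i (mem_range.1 hi) (x j)).trans
          (pair_avg (hris.avg j (mem_range.1 (Finset.mem_filter.1 hj).1)))
      refine h7.trans ?_
      rw [Finset.sum_const, nsmul_eq_mul, mul_one]
      have : Cc.card ≤ r := by omega
      exact_mod_cast this
    refine (Finset.sum_le_sum h6).trans ?_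
    rw [Finset.sum_const, card_range, nsmul_eq_mul]
    nlinarith
  -- uncut part
  have h8 : ∀ i ∈ range r, ∑ j ∈ Ii i, pr (g i) (x j) ≤ C₀ * GS (Ii i).card := by
    intro i hi
    rw [← pair_pr_sum (g i) hris.suc (Ii i) (hIsub i)]
    exact (hdb i (mem_range.1 hi) _).trans (hI _ (hIsub i))
  have h9 : ∑ i ∈ range r, (Ii i).card ≤ r' := by
    rw [← Finset.card_biUnion]
    · have h10 : (range r).biUnion Ii ⊆ range r' := by
        intro j hj
        obtain ⟨i, _, hji⟩ := Finset.mem_biUnion.1 hj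
        exact hIsub i hji
      have := Finset.card_le_card h10
      rw [card_range] at this
      exact this
    · intro i hi i' hi' hne
      rw [Function.onFun, Finset.disjoint_left]
      intro j hj hj'
      rw [Finset.mem_filter] at hj hj'
      apply hj.2.1
      rw [hCc, Finset.mem_filter]
      refine ⟨hj.1, ?_⟩
      rcases lt_or_gt_of_ne hne with h | h
      · exact ⟨i, i', h, mem_range.1 (by simpa using hi'), hj.2.2, hj'.2.2⟩
      · exact ⟨i', i, h, mem_range.1 (by simpa using hi), hj'.2.2, hj.2.2⟩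
  have h11 : ∑ i ∈ range r, GS (Ii i).card ≤ 3 * GS r' :=
    (num1 r r' hr hR1' (fun i => (Ii i).card) h9).trans (pair_GS_half hr hrr)
  -- the remainder is small
  have h12 : (r : ℝ) ^ 2 ≤ GS r' := by
    have hf : 0 < fS r' := lt_of_lt_of_le one_pos (fS_ge_one (by exact_mod_cast hr'1))
    rw [GS, le_div_iff₀ hf]
    have h13 : fS r' ≤ 4 * Real.sqrt r' := pair_log hr'1
    have h14 : 4 * (r : ℝ) ^ 2 ≤ Real.sqrt r' := by
      apply Real.le_sqrt_of_sq_le
      nlinarith
    have h15 : Real.sqrt r' * Real.sqrt r' = r' := Real.mul_self_sqrt (by linarith)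
    have h16 : 0 ≤ Real.sqrt r' := Real.sqrt_nonneg _
    calc (r : ℝ) ^ 2 * fS r' ≤ (r : ℝ) ^ 2 * (4 * Real.sqrt r') :=
          mul_le_mul_of_nonneg_left h13 (by positivity)
      _ = (4 * (r : ℝ) ^ 2) * Real.sqrt r' := by ring
      _ ≤ Real.sqrt r' * Real.sqrt r' := mul_le_mul_of_nonneg_right h14 h16
      _ = r' := h15
  have hGS0 : 0 ≤ GS r' := le_trans (by positivity) h12
  rw [h1, Finset.sum_congr rfl fun i _ => h2 i, Finset.sum_add_distrib]
  have h17 : ∑ i ∈ range r, ∑ j ∈ Ii i, pr (g i) (x j) ≤ C₀ * (3 * GS r') := by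
    refine (Finset.sum_le_sum h8).trans ?_
    rw [← Finset.mul_sum]
    exact mul_le_mul_of_nonneg_left h11 (by linarith)
  nlinarith

alias pair_small := pair_small_pr

end Pool.Agent.Lib_helper25.AD
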