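import Pool.Agent.Lib_helper25.AD.Base
import Pool.Agent.Lib_helper25.AD.Blk.NUM1

set_option autoImplicit false

open Finset Filter Topology

namespace Pool.Agent.Lib_helper25.AD

theorem NUM2_log2 {u : ℝ} (hu : 1 ≤ u) : Real.logb 2 u ≤ (3 / 2) * (u - 1) := by
  have h1 : Real.log u ≤ u - 1 := Real.log_le_sub_one_of_pos (by linarith)
  have h2 : (0.6931471803 : ℝ) < Real.log 2 := Real.log_two_gt_d9
  have h3 : 0 ≤ Real.log u := Real.log_nonneg hu
  rw [Real.logb, div_le_iff₀ (by linarith)]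
  nlinarith

theorem num2_pr (l s : ℕ) (hl : 2 ≤ l) (hls : l ^ 2 ≤ s) (hs : 2 ^ 40 ≤ s) (a : ℕ → ℕ)
    (ha : ∑ k ∈ range l, a k ≤ s) (C : ℝ) (hC : 6 ≤ C) :
    C * ∑ k ∈ range l, GS (a k) + 2 * l ≤ C * fS l * GS s := by
  have hl2 : (2 : ℝ) ≤ l := by exact_mod_cast hl
  have hl0 : (0 : ℝ) < l := by linarith
  have hls' : (l : ℝ) ^ 2 ≤ s := by exact_mod_cast hls
  have hs' : (2 : ℝ) ^ 40 ≤ s := by exact_mod_cast hs
  have hs0 : (0 : ℝ) < s := lt_of_lt_of_le (by positivity) hs'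
  set m : ℝ := (s : ℝ) / l with hm
  have hlm : (l : ℝ) * m = s := by rw [hm]; field_simp
  have hm0 : 0 < m := div_pos hs0 hl0
  have hm20 : (2 : ℝ) ^ 20 ≤ m := by
    by_contra hcon
    push Not at hcon
    have h1 : (l : ℝ) ≤ m := by rw [hm, le_div_iff₀ hl0]; nlinarith
    have h2 : (s : ℝ) < 2 ^ 20 * 2 ^ 20 := by
      calc (s : ℝ) = l * m := hlm.symm
        _ ≤ m * m := mul_le_mul_of_nonneg_right h1 hm0.le
        _ < 2 ^ 20 * 2 ^ 20 := by nlinarith
    norm_num at h2 hs'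
    linarith
  have h19 : (2 : ℝ) ^ 19 * l ≤ s := by
    rw [← hlm]
    have : (2 : ℝ) ^ 19 ≤ 2 ^ 20 := by norm_num
    nlinarith
  have hnum := num1 l s (by omega) h19 a ha
  rw [← hm] at hnum
  set A : ℝ := Real.logb 2 (l : ℝ) with hA
  set b : ℝ := Real.logb 2 m with hb
  have hA1 : 1 ≤ A := by
    rw [hA, Real.le_logb_iff_rpow_le (by norm_num) hl0]
    simpa using hl2
  have hb20 : 20 ≤ b := by
    rw [hb, Real.le_logb_iff_rpow_le (by norm_num) hm0]
    exact_mod_cast hm20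
  have hfs : fS s = 1 + A + b := by
    rw [fS, ← hlm, Real.logb_mul hl0.ne' hm0.ne']; ring
  have hfl : fS l = 1 + A := by rw [fS]
  -- the size of b
  have hbm : 1 + b ≤ (6 / 5) * m := by
    have h1 : Real.logb 2 (m / 2 ^ 20) ≤ (3 / 2) * (m / 2 ^ 20 - 1) := by
      apply NUM2_log2
      rw [le_div_iff₀ (by positivity)]
      linarith
    have h2 : Real.logb 2 (m / 2 ^ 20) = b - 20 := by
      rw [Real.logb_div hm0.ne' (by positivity)]
      have : Real.logb 2 ((2 : ℝ) ^ 20) = 20 := by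
        rw [Real.logb_pow]
        simp
      rw [this]
    rw [h2] at h1
    have h3 : (2 : ℝ) ^ 20 = 1048576 := by norm_num
    rw [h3] at h1 hm20
    linarith
  have hGS : GS s = s / (1 + A + b) := by rw [GS, hfs]
  rw [hfl, hGS]
  have hC0 : 0 ≤ C := by linarith
  have h5 : 2 * (l : ℝ) ≤ (2 / 5) * C * s / (1 + b) := by
    rw [le_div_iff₀ (by linarith)]
    have h6 : 2 * (l : ℝ) * (1 + b) ≤ 2 * l * ((6 / 5) * m) :=
      mul_le_mul_of_nonneg_left hbm (by linarith)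
    have h7 : 2 * (l : ℝ) * ((6 / 5) * m) = (12 / 5) * s := by rw [← hlm]; ring
    nlinarith
  have h8 : (19 / 10) * C * s / (1 + b) ≤ C * (1 + A) * (s / (1 + A + b)) := by
    rw [← mul_div_assoc, div_le_div_iff₀ (by linarith) (by linarith)]
    have h9 : (19 / 10) * (1 + A + b) ≤ (1 + A) * (1 + b) := by nlinarith
    have h10 : 0 ≤ C * s := mul_nonneg hC0 hs0.le
    nlinarith
  have h11 : C * ∑ k ∈ range l, GS (a k) ≤ (3 / 2) * C * s / (1 + b) := by
    calc C * ∑ k ∈ range l, GS (a k) ≤ C * ((3 / 2) * s / (1 + b)) :=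
          mul_le_mul_of_nonneg_left hnum hC0
      _ = _ := by ring
  have h12 : (3 / 2) * C * s / (1 + b) + (2 / 5) * C * s / (1 + b) =
      (19 / 10) * C * s / (1 + b) := by ring
  linarith

alias num2 := num2_pr

end Pool.Agent.Lib_helper25.AD
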