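import Pool.Agent.Lib_helper25.AD.Base
import Pool.Agent.Lib_helper25.AD.Blk.AVG
import Pool.Agent.Lib_helper25.AD.Blk.NS

/-! Block RIS1. -/

set_option autoImplicit false

open Finset

namespace Pool.Agent.Lib_helper25.AD

theorem RIS1_pr_zero (g : E) : pr g 0 = 0 := by simp [pr]

theorem RIS1_pr_sum (g : E) (I : Finset ℕ) (x : ℕ → E) :
    pr g (∑ j ∈ I, x j) ≤ ∑ j ∈ I, pr g (x j) := by
  classical
  induction I using Finset.induction_on with
  | empty => simp [RIS1_pr_zero]
  | insert a s ha ih =>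
    rw [Finset.sum_insert ha, Finset.sum_insert ha]
    exact (pr_add_le _ _ _).trans (by linarith)

theorem RIS1_coord {l : ℕ} {g : ℕ → E} (hg : ∀ k < l, KK (g k)) (hs : Suc l g) (i : ℕ) :
    ∑ k ∈ range l, |g k i| ≤ 1 := by
  classical
  by_cases h : ∃ k < l, g k i ≠ 0
  · obtain ⟨k, hk, hki⟩ := h
    rw [Finset.sum_eq_single k]
    · obtain ⟨h1, h2⟩ := KK_coord (hg k hk) i
      rw [abs_of_nonneg h1]
      exact h2
    · intro k' hk' hne
      rw [mem_range] at hk'
      by_contra hne0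
      have h3 : g k' i ≠ 0 := fun h0 => hne0 (by rw [h0, abs_zero])
      rcases lt_or_gt_of_ne hne with hlt | hlt
      · exact lt_irrefl _ (hs k' k hlt hk i (by simpa using h3) i (by simpa using hki))
      · exact lt_irrefl _ (hs k k' hlt hk' i (by simpa using hki) i (by simpa using h3))
    · intro hk'
      exact absurd (mem_range.2 hk) hk'
  · push Not at h
    rw [Finset.sum_eq_zero]
    · exact zero_le_one
    · intro k hk
      rw [h k (mem_range.1 hk), abs_zero]

theorem RIS1_mass {l : ℕ} {g : ℕ → E} (hg : ∀ k < l, KK (g k)) (hs : Suc l g) (x : E) :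
    ∑ k ∈ range l, pr (g k) x ≤ mass x := by
  unfold pr mass
  rw [Finset.sum_comm]
  refine Finset.sum_le_sum fun i _ => ?_
  rw [← Finset.sum_mul]
  calc (∑ k ∈ range l, |g k i|) * |x i| ≤ 1 * |x i| :=
        mul_le_mul_of_nonneg_right (RIS1_coord hg hs i) (abs_nonneg _)
    _ = _ := one_mul _

theorem RIS1_node {n : Seminorm ℝ E} (hn : IsNS n) {l : ℕ} (hl : 2 ≤ l) {g : ℕ → E}
    (hg : ∀ k < l, KK (g k)) (hs : Suc l g) (x : E) :
    ∑ k ∈ range l, pr (g k) x ≤ fS l * n x := by
  have hf : 1 ≤ fS l := fS_ge_one (by omega)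
  have hf0 : 0 < fS l := by linarith
  have h1 : KK ((fS l)⁻¹ • ∑ k ∈ range l, g k) := KK.node l g hl hg fun i j hij hj => hs i j hij hj
  have h2 := hn.ge _ x h1
  have h3 : pr ((fS l)⁻¹ • ∑ k ∈ range l, g k) x = (fS l)⁻¹ * ∑ k ∈ range l, pr (g k) x := by
    unfold pr
    rw [Finset.sum_comm, Finset.mul_sum]
    refine Finset.sum_congr rfl fun i _ => ?_
    rw [Finsupp.smul_apply, Finsupp.finsetSum_apply, smul_eq_mul, abs_mul,
      abs_of_pos (inv_pos.2 hf0), ← Finset.sum_mul, mul_assoc]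
    congr 2
    rw [abs_of_nonneg (Finset.sum_nonneg fun k hk => (KK_coord (hg k (mem_range.1 hk)) i).1)]
    exact Finset.sum_congr rfl fun k hk => (abs_of_nonneg (KK_coord (hg k (mem_range.1 hk)) i).1).symm
  rw [h3] at h2
  rwa [inv_mul_le_iff₀ hf0] at h2

theorem RIS1_sum_le (n : Seminorm ℝ E) (y : ℕ → E) (N : ℕ) :
    n (∑ i ∈ range N, y i) ≤ ∑ i ∈ range N, n (y i) := by
  induction N with
  | zero => simp
  | succ N ih =>
    rw [Finset.sum_range_succ, Finset.sum_range_succ]
    exact (map_add_le_add n _ _).trans (by linarith)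

theorem RIS1_avg {n : Seminorm ℝ E} {N : ℕ} {x : E} (h : IsAvg n N x) : n x ≤ 1 := by
  obtain ⟨hN, y, hy, _, rfl⟩ := h
  have hN0 : (0 : ℝ) < N := by exact_mod_cast hN
  rw [map_smul_eq_mul, Real.norm_of_nonneg (inv_nonneg.2 hN0.le), inv_mul_le_iff₀ hN0, mul_one]
  calc n (∑ i ∈ range N, y i) ≤ ∑ i ∈ range N, n (y i) := RIS1_sum_le n y N
    _ ≤ ∑ i ∈ range N, (1 : ℝ) := Finset.sum_le_sum fun i hi => hy i (mem_range.1 hi)
    _ = N := by simp

theorem RIS1_fS_mono {a b : ℕ} (ha : 1 ≤ a) (h : a ≤ b) : fS a ≤ fS b := by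
  unfold fS
  have : Real.logb 2 a ≤ Real.logb 2 b :=
    Real.logb_le_logb_of_le (by norm_num) (by exact_mod_cast ha) (by exact_mod_cast h)
  linarith

theorem RIS1_fS_sq (l : ℕ) (hl : 1 ≤ l) : fS (l ^ 2) ≤ 2 * fS l := by
  unfold fS
  have : Real.logb 2 ((l ^ 2 : ℕ) : ℝ) = 2 * Real.logb 2 l := by
    push_cast
    rw [Real.logb_pow]
    norm_num
  rw [this]
  linarith

theorem ris_direct_pr {n : Seminorm ℝ E} (hn : IsNS n) {r : ℕ} {x : ℕ → E} {N : ℕ → ℕ}
    (h : RIS n r x N) (l : ℕ) (hl : 2 ≤ l) (g : ℕ → E) (hg : ∀ k < l, KK (g k))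
    (hs : Suc l g) (I : Finset ℕ) (hI : I ⊆ range r) :
    ∑ k ∈ range l, pr (g k) (∑ j ∈ I, x j) ≤ 2 * fS l + 2 * I.card := by
  classical
  set S : ℕ → ℝ := fun j => ∑ k ∈ range l, pr (g k) (x j) with hS
  have hfl : 1 ≤ fS l := fS_ge_one (by omega)
  have h1 : ∑ k ∈ range l, pr (g k) (∑ j ∈ I, x j) ≤ ∑ j ∈ I, S j := by
    rw [hS, Finset.sum_comm]
    exact Finset.sum_le_sum fun k _ => RIS1_pr_sum _ _ _
  refine h1.trans ?_
  have hbig : ∀ j ∈ I, l ^ 2 ≤ N j → S j ≤ 2 := by
    intro j hj hN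
    have h2 := avg_bound hn (N j) l (x j) (h.avg j (mem_range.1 (hI hj))) g hg hs
    have h3 : (l : ℝ) ^ 2 / N j ≤ 1 := by
      have h4 : (0 : ℝ) < N j := by
        have : 0 < l ^ 2 := by positivity
        exact_mod_cast lt_of_lt_of_le this hN
      rw [div_le_one h4]
      exact_mod_cast hN
    have h5 : S j ≤ 1 + (l : ℝ) ^ 2 / N j := h2
    linarith
  rw [← Finset.sum_filter_add_sum_filter_not I (fun j => N j < l ^ 2)]
  have h2 : ∑ j ∈ I.filter (fun j => ¬ N j < l ^ 2), S j ≤ 2 * I.card := by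
    calc ∑ j ∈ I.filter (fun j => ¬ N j < l ^ 2), S j
        ≤ ∑ j ∈ I.filter (fun j => ¬ N j < l ^ 2), (2 : ℝ) :=
          Finset.sum_le_sum fun j hj => hbig j (mem_filter.1 hj).1 (not_lt.1 (mem_filter.1 hj).2)
      _ = 2 * (I.filter (fun j => ¬ N j < l ^ 2)).card := by
          rw [Finset.sum_const, nsmul_eq_mul, mul_comm]
      _ ≤ 2 * I.card := by
          have : ((I.filter (fun j => ¬ N j < l ^ 2)).card : ℝ) ≤ I.card := by
            exact_mod_cast Finset.card_filter_le _ _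
          linarith
  have h3 : ∑ j ∈ I.filter (fun j => N j < l ^ 2), S j ≤ 2 * fS l := by
    rcases (I.filter (fun j => N j < l ^ 2)).eq_empty_or_nonempty with he | hne
    · rw [he, Finset.sum_empty]; linarith
    · set I' := I.filter (fun j => N j < l ^ 2) with hI'
      set J := I'.max' hne with hJ
      have hJmem : J ∈ I' := Finset.max'_mem _ _
      have hJI : J ∈ I := (mem_filter.1 hJmem).1
      have hJN : N J < l ^ 2 := (mem_filter.1 hJmem).2
      have hJr : J < r := mem_range.1 (hI hJI)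
      rw [← Finset.add_sum_erase _ _ hJmem]
      have h4 : S J ≤ fS l := by
        have h5 := RIS1_node hn hl hg hs (x J)
        have h6 := RIS1_avg (h.avg J hJr)
        have h7 : fS l * n (x J) ≤ fS l * 1 := mul_le_mul_of_nonneg_left h6 (by linarith)
        have h8 : S J ≤ fS l * n (x J) := h5
        linarith
      have h5 : ∑ j ∈ I'.erase J, S j ≤ fS l := by
        have h6 : ∑ j ∈ I'.erase J, S j ≤ ∑ j ∈ range J, mass (x j) := by
          calc ∑ j ∈ I'.erase J, S j ≤ ∑ j ∈ I'.erase J, mass (x j) :=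
                Finset.sum_le_sum fun j _ => RIS1_mass hg hs (x j)
            _ ≤ ∑ j ∈ range J, mass (x j) := by
                refine Finset.sum_le_sum_of_subset_of_nonneg (fun j hj => ?_)
                  (fun j _ _ => Finset.sum_nonneg fun _ _ => abs_nonneg _)
                rw [mem_erase] at hj
                rw [mem_range]
                exact lt_of_le_of_ne (Finset.le_max' _ _ hj.2) hj.1
        rcases Nat.eq_zero_or_pos J with hJ0 | hJ0
        · have h7 : ∑ j ∈ range J, mass (x j) = 0 := by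
            rw [hJ0, Finset.range_zero, Finset.sum_empty]
          linarith
        · have h7 := h.gr (J - 1) (by omega)
          rw [Nat.sub_add_cancel hJ0] at h7
          have h8 : fS (N J) ≤ 2 * fS l :=
            (RIS1_fS_mono (h.avg J hJr).1 hJN.le).trans (RIS1_fS_sq l (by omega))
          linarith
      linarith
  linarith

alias ris_direct := ris_direct_pr

end Pool.Agent.Lib_helper25.AD
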