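import Pool.Agent.Lib_helper25.AD.Base
import Pool.Agent.Lib_helper25.AD.Blk.AVG
import Pool.Agent.Lib_helper25.AD.Blk.CUT
import Pool.Agent.Lib_helper25.AD.Blk.NUM2
import Pool.Agent.Lib_helper25.AD.Blk.RIS1

/-!
# MP_a4bf89_an: block RIS2
-/

set_option autoImplicit false

open Finset Filter Topology

namespace Pool.Agent.Lib_helper25.AD

theorem ris2_pr_zero_left (x : E) : pr 0 x = 0 := by
  simp [pr]

theorem ris2_pr_zero_right (g : E) : pr g 0 = 0 := by
  simp [pr]

theorem ris2_pr_sum_le {ι : Type*} (g : E) (S : Finset ι) (x : ι → E) :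
    pr g (∑ j ∈ S, x j) ≤ ∑ j ∈ S, pr g (x j) := by
  classical
  induction S using Finset.induction_on with
  | empty => simp [ris2_pr_zero_right]
  | insert a S ha ih =>
    rw [Finset.sum_insert ha, Finset.sum_insert ha]
    exact le_trans (pr_add_le _ _ _) (by linarith)

theorem ris2_pr_sum_le_left {ι : Type*} (x : E) (S : Finset ι) (g : ι → E) :
    pr (∑ j ∈ S, g j) x ≤ ∑ j ∈ S, pr (g j) x := by
  rw [pr_comm]
  refine le_trans (ris2_pr_sum_le _ _ _) (le_of_eq ?_)
  exact Finset.sum_congr rfl fun i _ => pr_comm _ _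

theorem ris2_pr_dis {g x : E} (h : Dis g x) : pr g x = 0 := by
  rw [pr]
  apply Finset.sum_eq_zero
  intro i hi
  have : g i = 0 := by
    by_contra hne
    exact (Finset.disjoint_left.1 h) (by simpa using hne) hi
  simp [this]

theorem ris2_avg_le {n : Seminorm ℝ E} {N : ℕ} {x : E} (h : IsAvg n N x) : n x ≤ 1 := by
  obtain ⟨hN, y, hy, -, rfl⟩ := h
  have hN' : (0 : ℝ) < N := by exact_mod_cast hN
  rw [map_smul_eq_mul, Real.norm_eq_abs, abs_of_pos (inv_pos.2 hN')]
  have h1 : n (∑ i ∈ range N, y i) ≤ ∑ i ∈ range N, n (y i) := by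
    clear hy
    induction (range N) using Finset.induction_on with
    | empty => simp
    | insert a S ha ih =>
      rw [Finset.sum_insert ha, Finset.sum_insert ha]
      exact le_trans (map_add_le_add n _ _) (by linarith)
  have h2 : ∑ i ∈ range N, n (y i) ≤ N := by
    calc ∑ i ∈ range N, n (y i) ≤ ∑ i ∈ range N, (1 : ℝ) :=
          Finset.sum_le_sum fun i hi => hy i (mem_range.1 hi)
      _ = N := by simp
  calc (N : ℝ)⁻¹ * n (∑ i ∈ range N, y i) ≤ (N : ℝ)⁻¹ * N :=
        mul_le_mul_of_nonneg_left (le_trans h1 h2) (inv_pos.2 hN').le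
    _ = 1 := inv_mul_cancel₀ hN'.ne'

theorem ris2_fS_pos {s : ℕ} (hs : 1 ≤ s) : 0 < fS s := lt_of_lt_of_le one_pos (fS_ge_one hs)

theorem ris2_fS_le_self {s : ℕ} (hs : 1 ≤ s) : fS s ≤ s := by
  rw [fS]
  have hs' : (0 : ℝ) < s := by exact_mod_cast hs
  have h1 : (s : ℝ) ≤ (2 : ℝ) ^ (((s : ℝ)) - 1) := by
    have h2 : s ≤ 2 ^ (s - 1) := by
      have := (Nat.lt_two_pow_self (n := s - 1))
      omega
    have h3 : ((s : ℝ)) - 1 = ((s - 1 : ℕ) : ℝ) := by
      rw [Nat.cast_sub hs]; simp
    rw [h3, Real.rpow_natCast]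
    exact_mod_cast h2
  have h4 : Real.logb 2 s ≤ (s : ℝ) - 1 := by
    rw [Real.logb_le_iff_le_rpow (by norm_num) hs']
    exact h1
  linarith

theorem ris2_GS_one {s : ℕ} (hs : 1 ≤ s) : 1 ≤ GS s := by
  rw [GS, le_div_iff₀ (ris2_fS_pos hs), one_mul]
  exact ris2_fS_le_self hs

theorem ris2_GS_mul {s : ℕ} (hs : 1 ≤ s) : fS s * GS s = s := by
  rw [GS]
  field_simp [(ris2_fS_pos hs).ne']

theorem ris2_fS_small {s : ℕ} (hs : 1 ≤ s) (h : s < 2 ^ 40) : fS s ≤ 41 := by
  rw [fS]
  have hs' : (0 : ℝ) < s := by exact_mod_cast hs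
  have h4 : Real.logb 2 s ≤ 40 := by
    rw [Real.logb_le_iff_le_rpow (by norm_num) hs']
    have h5 : ((2 : ℝ) ^ (40 : ℝ)) = ((2 ^ 40 : ℕ) : ℝ) := by
      have : ((40 : ℝ)) = ((40 : ℕ) : ℝ) := by norm_num
      rw [this, Real.rpow_natCast]
      norm_num
    rw [h5]
    exact_mod_cast h.le
  linarith

theorem ris2_fS_sq {s l : ℕ} (hs : 1 ≤ s) (h : s ≤ l ^ 2) : fS s ≤ 2 * fS l := by
  rw [fS, fS]
  have hs' : (0 : ℝ) < s := by exact_mod_cast hs
  have hl : 1 ≤ l := by
    rcases Nat.eq_zero_or_pos l with h0 | h0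
    · subst h0; simp at h; omega
    · exact h0
  have hl' : (0 : ℝ) < l := by exact_mod_cast hl
  have h1 : Real.logb 2 s ≤ Real.logb 2 ((l : ℝ) ^ 2) :=
    Real.logb_le_logb_of_le (by norm_num) hs' (by exact_mod_cast h)
  have h2 : Real.logb 2 ((l : ℝ) ^ 2) = 2 * Real.logb 2 l := by
    rw [Real.logb_pow]; norm_num
  have h3 : 0 ≤ Real.logb 2 (l : ℝ) := Real.logb_nonneg (by norm_num) (by exact_mod_cast hl)
  linarith

open Classical in
theorem ris2_core {n : Seminorm ℝ E} (hn : IsNS n) {r : ℕ} {x : ℕ → E} {N : ℕ → ℕ}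
    (hR : RIS n r x N) {g : E} (hg : KK g) :
    ∀ I : Finset ℕ, I ⊆ range r → pr g (∑ j ∈ I, x j) ≤ 41 * GS I.card := by
  induction hg with
  | zero =>
    intro I _
    rw [ris2_pr_zero_left]
    rcases Nat.eq_zero_or_pos I.card with h0 | h0
    · rw [h0, GS]; simp
    · have := ris2_GS_one h0; linarith
  | single i =>
    intro I hI
    rcases Nat.eq_zero_or_pos I.card with h0 | h0
    · rw [Finset.card_eq_zero] at h0
      subst h0
      simp [GS, ris2_pr_zero_right]
    -- the coordinate `i` meets at most one `x j`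
    have h1 : pr (Finsupp.single i 1) (∑ j ∈ I, x j) ≤
        ∑ j ∈ I, pr (Finsupp.single i 1) (x j) := ris2_pr_sum_le _ _ _
    have h2 : ∑ j ∈ I, pr (Finsupp.single i 1) (x j) ≤ 1 := by
      by_cases hex : ∃ j ∈ I, i ∈ (x j).support
      · obtain ⟨j, hj, hij⟩ := hex
        have h3 : ∑ j' ∈ I, pr (Finsupp.single i 1) (x j') = pr (Finsupp.single i 1) (x j) := by
          apply Finset.sum_eq_single_of_mem j hj
          intro b hb hbj
          apply ris2_pr_dis
          rw [Dis, Finset.disjoint_left]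
          intro a ha hb'
          have hai : a = i := by
            have := Finsupp.support_single_subset ha
            simpa using this
          subst hai
          rcases lt_or_gt_of_ne hbj with hlt | hgt
          · exact absurd (hR.suc b j hlt (mem_range.1 (hI hj)) a hb' a hij) (lt_irrefl _)
          · exact absurd (hR.suc j b hgt (mem_range.1 (hI hb)) a hij a hb') (lt_irrefl _)
        rw [h3]
        exact le_trans (hn.ge _ _ (KK.single i))
          (ris2_avg_le (hR.avg j (mem_range.1 (hI hj))))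
      · push_neg at hex
        have h3 : ∑ j' ∈ I, pr (Finsupp.single i 1) (x j') = 0 := by
          apply Finset.sum_eq_zero
          intro b hb
          apply ris2_pr_dis
          rw [Dis, Finset.disjoint_left]
          intro a ha hb'
          have hai : a = i := by
            have := Finsupp.support_single_subset ha
            simpa using this
          subst hai
          exact hex b hb hb'
        rw [h3]; norm_num
    have := ris2_GS_one h0
    linarith
  | node l g hl hg hs ih =>
    intro I hI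
    rcases Nat.eq_zero_or_pos I.card with h0 | h0
    · rw [Finset.card_eq_zero] at h0
      subst h0
      simp [GS, ris2_pr_zero_right]
    have hGS := ris2_GS_one h0
    have hKK : KK ((fS l)⁻¹ • ∑ k ∈ range l, g k) := KK.node l g hl hg hs
    rcases lt_or_ge I.card (2 ^ 40) with hsm | hbig
    · -- small index sets
      calc pr ((fS l)⁻¹ • ∑ k ∈ range l, g k) (∑ j ∈ I, x j)
          ≤ ∑ j ∈ I, pr ((fS l)⁻¹ • ∑ k ∈ range l, g k) (x j) := ris2_pr_sum_le _ _ _
        _ ≤ ∑ j ∈ I, (1 : ℝ) := Finset.sum_le_sum fun j hj =>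
            le_trans (hn.ge _ _ hKK) (ris2_avg_le (hR.avg j (mem_range.1 (hI hj))))
        _ = I.card := by simp
        _ = fS I.card * GS I.card := (ris2_GS_mul h0).symm
        _ ≤ 41 * GS I.card :=
            mul_le_mul_of_nonneg_right (ris2_fS_small h0 hsm) (by linarith)
    · have hfl : 0 < fS l := ris2_fS_pos (by omega)
      have hfl1 : 1 ≤ fS l := fS_ge_one (by omega)
      have hpr : pr ((fS l)⁻¹ • ∑ k ∈ range l, g k) (∑ j ∈ I, x j) ≤
          (fS l)⁻¹ * ∑ k ∈ range l, pr (g k) (∑ j ∈ I, x j) := by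
        rw [pr_comm, pr_smul, abs_of_pos (inv_pos.2 hfl), pr_comm]
        exact mul_le_mul_of_nonneg_left (ris2_pr_sum_le_left _ _ _) (inv_pos.2 hfl).le
      have hsuc : Suc l g := hs
      rcases lt_or_ge I.card (l ^ 2) with hls | hls
      · -- direct estimate
        have hdir := ris_direct hn hR l hl g hg hsuc I hI
        have hf2 := ris2_fS_sq h0 hls.le
        have hmul := ris2_GS_mul h0
        refine le_trans hpr ?_
        rw [inv_mul_le_iff₀ hfl]
        refine le_trans hdir ?_
        have h5 : fS I.card * GS I.card ≤ 2 * fS l * GS I.card :=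
          mul_le_mul_of_nonneg_right hf2 (by linarith)
        have h6 : fS l * 1 ≤ fS l * GS I.card := mul_le_mul_of_nonneg_left hGS hfl.le
        nlinarith
      · -- splitting
        set Ic := I.filter (fun j => ∃ k k', k < k' ∧ k' < l ∧ ¬ Dis (g k) (x j) ∧
          ¬ Dis (g k') (x j)) with hIc
        have hIcI : Ic ⊆ I := Finset.filter_subset _ _
        have hcut := cut l r g x hsuc hR.suc
        have hIcc : Ic.card ≤ l - 1 := by
          refine le_trans (Finset.card_le_card ?_) hcut
          intro j hj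
          rw [hIc, Finset.mem_filter] at hj
          exact Finset.mem_filter.2 ⟨hI hj.1, hj.2⟩
        have hsr : I.card ≤ r := by
          have := Finset.card_le_card hI
          simpa using this
        -- cut part
        have hA : ∑ k ∈ range l, pr (g k) (∑ j ∈ Ic, x j) ≤ 2 * l := by
          calc ∑ k ∈ range l, pr (g k) (∑ j ∈ Ic, x j)
              ≤ ∑ k ∈ range l, ∑ j ∈ Ic, pr (g k) (x j) :=
                Finset.sum_le_sum fun k _ => ris2_pr_sum_le _ _ _
            _ = ∑ j ∈ Ic, ∑ k ∈ range l, pr (g k) (x j) := Finset.sum_comm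
            _ ≤ ∑ j ∈ Ic, (2 : ℝ) := by
                apply Finset.sum_le_sum
                intro j hj
                have hjr := mem_range.1 (hI (hIcI hj))
                have h7 := avg_bound hn (N j) l (x j) (hR.avg j hjr) g hg hsuc
                have h8 : l ^ 2 ≤ N j := le_trans hls (le_trans hsr (hR.big j hjr))
                have hN1 : 1 ≤ N j := (hR.avg j hjr).1
                have h9 : (l : ℝ) ^ 2 / N j ≤ 1 := by
                  rw [div_le_one (by exact_mod_cast hN1)]
                  exact_mod_cast h8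
                linarith
            _ = Ic.card * 2 := by simp
            _ ≤ l * 2 := by
                have : (Ic.card : ℝ) ≤ l := by exact_mod_cast (by omega : Ic.card ≤ l)
                linarith
            _ = 2 * l := by ring
        -- uncut part
        set J : ℕ → Finset ℕ := fun k => (I \ Ic).filter (fun j => ¬ Dis (g k) (x j)) with hJ
        have hJI : ∀ k, J k ⊆ I := fun k => (Finset.filter_subset _ _).trans Finset.sdiff_subset
        have hB : ∀ k, pr (g k) (∑ j ∈ I \ Ic, x j) ≤ pr (g k) (∑ j ∈ J k, x j) := by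
          intro k
          have hsplit : ∑ j ∈ I \ Ic, x j = ∑ j ∈ J k, x j +
              ∑ j ∈ (I \ Ic).filter (fun j => ¬ ¬ Dis (g k) (x j)), x j :=
            (Finset.sum_filter_add_sum_filter_not _ _ _).symm
          rw [hsplit]
          refine le_trans (pr_add_le _ _ _) ?_
          have hz : pr (g k) (∑ j ∈ (I \ Ic).filter (fun j => ¬ ¬ Dis (g k) (x j)), x j) ≤ 0 := by
            refine le_trans (ris2_pr_sum_le _ _ _) (le_of_eq ?_)
            apply Finset.sum_eq_zero
            intro j hj
            have := (Finset.mem_filter.1 hj).2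
            exact ris2_pr_dis (not_not.1 this)
          linarith
        have hdisj : ∀ k ∈ range l, ∀ k' ∈ range l, k ≠ k' → Disjoint (J k) (J k') := by
          intro k hk k' hk' hne
          rw [Finset.disjoint_left]
          intro j hj hj'
          have h1 := Finset.mem_filter.1 hj
          have h2 := Finset.mem_filter.1 hj'
          have h3 := Finset.mem_sdiff.1 h1.1
          apply h3.2
          rw [hIc]
          refine Finset.mem_filter.2 ⟨h3.1, ?_⟩
          rcases lt_or_gt_of_ne hne with hlt | hgt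
          · exact ⟨k, k', hlt, mem_range.1 hk', h1.2, h2.2⟩
          · exact ⟨k', k, hgt, mem_range.1 hk, h2.2, h1.2⟩
        have hcard : ∑ k ∈ range l, (J k).card ≤ I.card := by
          rw [← Finset.card_biUnion (fun k hk k' hk' hne => hdisj k hk k' hk' hne)]
          exact Finset.card_le_card (Finset.biUnion_subset.2 fun k _ => hJI k)
        have hnum := num2 l I.card hl hls hbig (fun k => (J k).card) hcard 41 (by norm_num)
        have hsum : ∑ k ∈ range l, pr (g k) (∑ j ∈ I, x j) ≤
            41 * ∑ k ∈ range l, GS (J k).card + 2 * l := by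
          calc ∑ k ∈ range l, pr (g k) (∑ j ∈ I, x j)
              ≤ ∑ k ∈ range l, (pr (g k) (∑ j ∈ I \ Ic, x j) + pr (g k) (∑ j ∈ Ic, x j)) := by
                apply Finset.sum_le_sum
                intro k _
                rw [← Finset.sum_sdiff hIcI]
                exact pr_add_le _ _ _
            _ = ∑ k ∈ range l, pr (g k) (∑ j ∈ I \ Ic, x j) +
                ∑ k ∈ range l, pr (g k) (∑ j ∈ Ic, x j) := Finset.sum_add_distrib
            _ ≤ ∑ k ∈ range l, 41 * GS (J k).card + 2 * l := by
                refine add_le_add (Finset.sum_le_sum fun k hk => ?_) hA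
                exact le_trans (hB k)
                  (ih k (mem_range.1 hk) (J k) ((hJI k).trans hI))
            _ = 41 * ∑ k ∈ range l, GS (J k).card + 2 * l := by rw [Finset.mul_sum]
        refine le_trans hpr ?_
        rw [inv_mul_le_iff₀ hfl]
        calc ∑ k ∈ range l, pr (g k) (∑ j ∈ I, x j)
            ≤ 41 * ∑ k ∈ range l, GS (J k).card + 2 * l := hsum
          _ ≤ 41 * fS l * GS I.card := hnum
          _ = fS l * (41 * GS I.card) := by ring

/-- RIS2 -/
theorem ris_main_pr : ∃ C₀ : ℝ, 1 ≤ C₀ ∧ ∀ (n : Seminorm ℝ E), IsNS n → ∀ (r : ℕ) (x : ℕ → E)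
    (N : ℕ → ℕ), RIS n r x N → ∀ I ⊆ range r, n (∑ j ∈ I, x j) ≤ C₀ * GS I.card := by
  refine ⟨41, by norm_num, ?_⟩
  intro n hn r x N hR I hI
  exact hn.le _ _ fun g hg => ris2_core hn hR hg I hI

alias ris_main := ris_main_pr

end Pool.Agent.Lib_helper25.AD
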