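import Pool.Agent.Lib_helper25.AD.Base
import Pool.Agent.Lib_helper25.AD.Blk.NS

/-!
# MP_a4bf89_an: block SING
-/

set_option autoImplicit false

open Finset Filter Topology

namespace Pool.Agent.Lib_helper25.AD

theorem SING_had_apply (g x : E) (t : ℕ) : had g x t = |g t| * |x t| := by
  rw [had, Finsupp.zipWith_apply]

theorem SING_mass_eq {h : E} {S : Finset ℕ} (hS : h.support ⊆ S) :
    mass h = ∑ i ∈ S, |h i| := by
  rw [mass]
  apply Finset.sum_subset hS
  intro i _ hi
  have h0 : h i = 0 := by simpa using hi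
  simp [h0]

theorem SING_pr_sum_left (y : E) (g : ℕ → E) (I : Finset ℕ) :
    pr (∑ i ∈ I, g i) y ≤ ∑ i ∈ I, pr (g i) y := by
  classical
  induction I using Finset.induction_on with
  | empty => simp [pr]
  | insert a s ha ih =>
    rw [Finset.sum_insert ha, Finset.sum_insert ha, pr_comm]
    refine (pr_add_le y (g a) _).trans ?_
    rw [pr_comm y (g a), pr_comm y (∑ i ∈ s, g i)]
    linarith

theorem SING_pr_res (g y : E) (S : Set ℕ) (hS : ∀ t ∈ g.support, t ∈ S) :
    pr g y = pr g (res S y) := by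
  classical
  rw [pr_eq_sum' (g := g) (x := y) (Finset.Subset.refl _),
    pr_eq_sum' (g := g) (x := res S y) (Finset.Subset.refl _)]
  exact Finset.sum_congr rfl fun t ht => by rw [res_apply_mem (hS t ht)]

/-- the pairing of a sum of `l` successive functionals of the dual ball -/
theorem SING_up {n : Seminorm ℝ E} (hn : IsNS n) (l : ℕ) (hl : 1 ≤ l) (g : ℕ → E)
    (hs : Suc l g) (hg : ∀ k < l, DB n (g k)) (X : E) :
    pr (∑ k ∈ range l, g k) X ≤ fS l * n X := by
  classical
  have h1 : pr (∑ k ∈ range l, g k) X ≤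
      ∑ k ∈ range l, n (res {t | t ∈ (g k).support} X) := by
    refine (SING_pr_sum_left X g (range l)).trans (Finset.sum_le_sum fun k hk => ?_)
    rw [SING_pr_res (g k) X {t | t ∈ (g k).support} fun t ht => ht]
    exact hg k (mem_range.1 hk) _
  have h2 : ∑ k ∈ range l, n (res {t | t ∈ (g k).support} X) ≤
      fS l * n (∑ k ∈ range l, res {t | t ∈ (g k).support} X) := by
    apply ns_lower hn l (fun k => res {t | t ∈ (g k).support} X)
    intro i j hij hj a ha b hb
    exact hs i j hij hj a (mem_supp_res.1 ha).2 b (mem_supp_res.1 hb).2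
  have h3 : n (∑ k ∈ range l, res {t | t ∈ (g k).support} X) ≤ n X := by
    apply hn.lat
    intro t
    rw [Finsupp.finsetSum_apply]
    by_cases ht : ∃ k ∈ range l, t ∈ (g k).support
    · obtain ⟨k, hk, htk⟩ := ht
      rw [Finset.sum_eq_single k]
      · exact abs_res_le _ _ _
      · intro j hj hjk
        apply res_apply_not_mem
        intro htj
        rcases lt_or_gt_of_ne hjk with h | h
        · exact absurd (hs j k h (mem_range.1 hk) t htj t htk) (lt_irrefl t)
        · exact absurd (hs k j h (mem_range.1 hj) t htk t htj) (lt_irrefl t)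
      · intro h
        exact absurd hk h
    · rw [Finset.sum_eq_zero]
      · simp
      · intro i hi
        apply res_apply_not_mem
        intro hti
        exact ht ⟨i, hi, hti⟩
  have h4 : 0 ≤ fS l := by linarith [fS_ge_one hl]
  exact h1.trans (h2.trans (mul_le_mul_of_nonneg_left h3 h4))

/-- mass of a restriction compared with a nonnegative function -/
theorem SING_part (h G : E) (r : ℝ) (hr : 0 < r) (η : ℝ)
    (hclose : mass (G - r • h) ≤ η * r) (A : Set ℕ) :
    mass (res A h) ≤ η + r⁻¹ * mass (res A G) := by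
  classical
  have hS : ∀ F : E, F.support ⊆ h.support ∪ G.support ∪ F.support := fun F =>
    subset_union_right
  set S : Finset ℕ := h.support ∪ G.support with hSdef
  have e1 : mass (res A h) = ∑ i ∈ S, |res A h i| :=
    SING_mass_eq ((supp_res_subset A h).trans subset_union_left)
  have e2 : mass (res A G) = ∑ i ∈ S, |res A G i| :=
    SING_mass_eq ((supp_res_subset A G).trans subset_union_right)
  have e3 : mass (G - r • h) = ∑ i ∈ S, |(G - r • h) i| := by
    apply SING_mass_eq
    intro i hi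
    rw [Finsupp.mem_support_iff] at hi
    by_contra hne
    rw [hSdef, Finset.mem_union, not_or] at hne
    have h1 : h i = 0 := by simpa using hne.1
    have h2 : G i = 0 := by simpa using hne.2
    apply hi
    simp [h1, h2]
  have h4 : ∑ i ∈ S, |res A h i| ≤ ∑ i ∈ S, (r⁻¹ * |(G - r • h) i| + r⁻¹ * |res A G i|) := by
    apply Finset.sum_le_sum
    intro i _
    rw [res_apply, res_apply]
    split_ifs with hi
    · have h5 : r * |h i| ≤ |(G - r • h) i| + |G i| := by
        have h6 : (G - r • h) i = G i - r * h i := by simp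
        rw [h6]
        have h7 : |r * h i| = r * |h i| := by rw [abs_mul, abs_of_pos hr]
        rw [← h7]
        have h8 : r * h i = G i - (G i - r * h i) := by ring
        calc |r * h i| = |G i - (G i - r * h i)| := by rw [← h8]
          _ ≤ |G i| + |G i - r * h i| := abs_sub _ _
          _ = _ := by ring
      rw [← mul_add, inv_mul_eq_div, le_div_iff₀ hr]
      linarith
    · rw [abs_zero]
      positivity
  rw [Finset.sum_add_distrib, ← Finset.mul_sum, ← Finset.mul_sum, ← e1, ← e2, ← e3] at h4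
  have h9 : r⁻¹ * mass (G - r • h) ≤ η := by
    rw [inv_mul_eq_div, div_le_iff₀ hr]
    exact hclose
  linarith

/-- SING (cites NS3) -/
theorem sing_pr {n : Seminorm ℝ E} (hn : IsNS n) (r r' : ℕ) (hr : 1 ≤ r) (hr' : 1 ≤ r')
    (η C₀ : ℝ) (hC₀ : 1 ≤ C₀) (x xs x' xs' : ℕ → E) (N N' : ℕ → ℕ) (h h' : E)
    (hx : IsTyp n r η x xs N h) (hx' : IsTyp n r' η x' xs' N' h')
    (h1 : n (∑ j ∈ range r, x j) ≤ C₀ * GS r)
    (h2 : pr (∑ i ∈ range r, xs i) (∑ j ∈ range r', x' j) ≤ 4 * C₀ * GS r') :
    ∃ A : Set ℕ, mass (res A h) ≤ η + 2 * C₀ / Real.sqrt (fS r) ∧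
      mass (res Aᶜ h') ≤ η + 2 * C₀ / Real.sqrt (fS r) := by
  classical
  set X : E := ∑ j ∈ range r, x j with hX
  set XS : E := ∑ j ∈ range r, xs j with hXS
  set X' : E := ∑ j ∈ range r', x' j with hX'
  set XS' : E := ∑ j ∈ range r', xs' j with hXS'
  have hr0 : (0 : ℝ) < r := by exact_mod_cast hr
  have hr0' : (0 : ℝ) < r' := by exact_mod_cast hr'
  have hf : 1 ≤ fS r := fS_ge_one hr
  have hf' : 1 ≤ fS r' := fS_ge_one hr'
  set S : Finset ℕ := X.support ∪ X'.support with hS
  -- the four pointwise products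
  let a : ℕ → ℝ := fun i => |XS i| * |X' i|
  let b : ℕ → ℝ := fun i => |XS' i| * |X i|
  have ha0 : ∀ i, 0 ≤ a i := fun i => by positivity
  have hb0 : ∀ i, 0 ≤ b i := fun i => by positivity
  have hsa : ∑ i ∈ S, a i ≤ 4 * C₀ * GS r' := by
    rw [← pr_eq_sum (g := XS) (x := X') (S := S) subset_union_right]
    exact h2
  have hsb : ∑ i ∈ S, b i ≤ fS r' * (C₀ * GS r) := by
    rw [← pr_eq_sum (g := XS') (x := X) (S := S) subset_union_left]
    refine (SING_up hn r' hr' xs' hx'.sucs hx'.db X).trans ?_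
    exact mul_le_mul_of_nonneg_left h1 (by linarith)
  -- Cauchy-Schwarz
  have hcs : ∑ i ∈ S, Real.sqrt (a i) * Real.sqrt (b i) ≤
      Real.sqrt (∑ i ∈ S, a i) * Real.sqrt (∑ i ∈ S, b i) :=
    Real.sum_sqrt_mul_sqrt_le S ha0 hb0
  have hprod : Real.sqrt (∑ i ∈ S, a i) * Real.sqrt (∑ i ∈ S, b i) ≤
      Real.sqrt (r * r') * (2 * C₀ / Real.sqrt (fS r)) := by
    rw [← Real.sqrt_mul (Finset.sum_nonneg fun i _ => ha0 i)]
    have h5 : (∑ i ∈ S, a i) * (∑ i ∈ S, b i) ≤ (4 * C₀ * GS r') * (fS r' * (C₀ * GS r)) :=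
      mul_le_mul hsa hsb (Finset.sum_nonneg fun i _ => hb0 i)
        ((Finset.sum_nonneg fun i _ => ha0 i).trans hsa)
    have h6 : (4 * C₀ * GS r') * (fS r' * (C₀ * GS r)) =
        (r * r') * (2 * C₀ / Real.sqrt (fS r)) ^ 2 := by
      rw [div_pow, Real.sq_sqrt (by linarith : (0 : ℝ) ≤ fS r), GS, GS]
      have h7 : fS r ≠ 0 := by linarith
      have h8 : fS r' ≠ 0 := by linarith
      field_simp
      ring
    rw [h6] at h5
    have h9 : 0 ≤ 2 * C₀ / Real.sqrt (fS r) := by positivity
    calc Real.sqrt ((∑ i ∈ S, a i) * (∑ i ∈ S, b i)) ≤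
        Real.sqrt ((r * r') * (2 * C₀ / Real.sqrt (fS r)) ^ 2) := Real.sqrt_le_sqrt h5
      _ = Real.sqrt (r * r') * (2 * C₀ / Real.sqrt (fS r)) := by
          rw [Real.sqrt_mul (by positivity), Real.sqrt_sq h9]
  -- the sets
  let u : ℕ → ℝ := fun i => (r : ℝ)⁻¹ * (|XS i| * |X i|)
  let u' : ℕ → ℝ := fun i => (r' : ℝ)⁻¹ * (|XS' i| * |X' i|)
  have hu0 : ∀ i, 0 ≤ u i := fun i => by positivity
  have hu0' : ∀ i, 0 ≤ u' i := fun i => by positivity
  have hmin : ∀ i, Real.sqrt (u i * u' i) =
      (Real.sqrt (r * r'))⁻¹ * (Real.sqrt (a i) * Real.sqrt (b i)) := by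
    intro i
    rw [← Real.sqrt_mul (ha0 i), ← Real.sqrt_inv, ← Real.sqrt_mul (by positivity)]
    congr 1
    show (r : ℝ)⁻¹ * (|XS i| * |X i|) * ((r' : ℝ)⁻¹ * (|XS' i| * |X' i|)) =
      ((r : ℝ) * r')⁻¹ * (|XS i| * |X' i| * (|XS' i| * |X i|))
    rw [mul_inv]
    ring
  have hsum : ∑ i ∈ S, Real.sqrt (u i * u' i) ≤ 2 * C₀ / Real.sqrt (fS r) := by
    simp only [hmin]
    rw [← Finset.mul_sum]
    have h10 : 0 < Real.sqrt (r * r') := Real.sqrt_pos.2 (by positivity)
    rw [inv_mul_le_iff₀ h10]
    exact hcs.trans hprod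
  refine ⟨{i | u i < u' i}, ?_, ?_⟩
  · have h11 := SING_part h (had XS X) r hr0 η hx.close {i | u i < u' i}
    have h12 : (r : ℝ)⁻¹ * mass (res {i | u i < u' i} (had XS X)) ≤
        ∑ i ∈ S, Real.sqrt (u i * u' i) := by
      rw [SING_mass_eq (h := res {i | u i < u' i} (had XS X)) (S := S), Finset.mul_sum]
      · apply Finset.sum_le_sum
        intro i _
        rw [res_apply]
        split_ifs with hi
        · rw [SING_had_apply, abs_of_nonneg (by positivity)]
          show u i ≤ _
          apply Real.le_sqrt_of_sq_le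
          rw [sq]
          exact mul_le_mul_of_nonneg_left (le_of_lt hi) (hu0 i)
        · rw [abs_zero, mul_zero]
          exact Real.sqrt_nonneg _
      · intro i hi
        have h13 := (mem_supp_res.1 hi).1
        rw [Finsupp.mem_support_iff, SING_had_apply] at h13
        rw [hS, Finset.mem_union, Finsupp.mem_support_iff]
        left
        intro h14
        apply h13
        rw [h14]
        simp
    linarith
  · have h11 := SING_part h' (had XS' X') r' hr0' η hx'.close {i | u i < u' i}ᶜ
    have h12 : (r' : ℝ)⁻¹ * mass (res {i | u i < u' i}ᶜ (had XS' X')) ≤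
        ∑ i ∈ S, Real.sqrt (u i * u' i) := by
      rw [SING_mass_eq (h := res {i | u i < u' i}ᶜ (had XS' X')) (S := S), Finset.mul_sum]
      · apply Finset.sum_le_sum
        intro i _
        rw [res_apply]
        split_ifs with hi
        · rw [SING_had_apply, abs_of_nonneg (by positivity)]
          show u' i ≤ _
          apply Real.le_sqrt_of_sq_le
          rw [sq]
          have h15 : u' i ≤ u i := not_lt.1 hi
          exact mul_le_mul_of_nonneg_right h15 (hu0' i)
        · rw [abs_zero, mul_zero]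
          exact Real.sqrt_nonneg _
      · intro i hi
        have h13 := (mem_supp_res.1 hi).1
        rw [Finsupp.mem_support_iff, SING_had_apply] at h13
        rw [hS, Finset.mem_union, Finsupp.mem_support_iff, Finsupp.mem_support_iff]
        right
        intro h14
        apply h13
        rw [h14]
        simp
    linarith

alias sing := sing_pr

end Pool.Agent.Lib_helper25.AD
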