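import Pool.Agent.Lib_helper25.AD.Base
import Pool.Agent.Lib_helper25.AD.Blk.ENT
import Pool.Agent.Lib_helper25.AD.Blk.LOZ
import Pool.Agent.Lib_helper25.AD.Blk.NS

set_option autoImplicit false

open Finset Filter Topology

namespace Pool.Agent.Lib_helper25.AD

theorem gain_dfn {n : Seminorm ℝ E} (hn : IsNS n) : Dfn n := by
  intro x hx
  obtain ⟨i, hi⟩ := Finsupp.support_nonempty_iff.mpr hx
  have h1 : 0 < |x i| := abs_pos.mpr (by simpa using hi)
  exact lt_of_lt_of_le h1 ((ns_basic hn x).1 i)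

theorem gain_disj {N : ℕ} {h : ℕ → E} (hs : Suc N h) {i j : ℕ} (hi : i < N) (hj : j < N)
    (hij : i ≠ j) {t : ℕ} (ht : t ∈ (h i).support) : t ∉ (h j).support := by
  intro htj
  rcases lt_or_gt_of_ne hij with h1 | h1
  · exact absurd (hs i j h1 hj t ht t htj) (lt_irrefl _)
  · exact absurd (hs j i h1 hi t htj t ht) (lt_irrefl _)

theorem gain_av_apply (h : ℕ → E) (J : Finset ℕ) (t : ℕ) :
    av h J t = ((J.card : ℝ))⁻¹ * ∑ i ∈ J, h i t := by
  unfold av
  rw [Finsupp.smul_apply, Finsupp.finsetSum_apply, smul_eq_mul]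

theorem gain_sum_at {N : ℕ} {h : ℕ → E} (hs : Suc N h) {i : ℕ} (hi : i < N) {t : ℕ}
    (ht : t ∈ (h i).support) (f : ℕ → ℕ → ℝ) (hf : ∀ j < N, t ∉ (h j).support → f j t = 0) :
    ∑ j ∈ range N, f j t = f i t := by
  apply Finset.sum_eq_single_of_mem i (mem_range.mpr hi)
  intro j hj hji
  exact hf j (mem_range.mp hj) (gain_disj hs hi (mem_range.mp hj) (Ne.symm hji) ht)

theorem gain_supp {N : ℕ} (hN : 1 ≤ N) {h : ℕ → E} (hp : ∀ i < N, Prob (h i)) :
    (av h (range N)).support = (range N).biUnion fun i => (h i).support := by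
  ext t
  rw [Finsupp.mem_support_iff, gain_av_apply, Finset.mem_biUnion]
  have hN' : (0 : ℝ) < N := by exact_mod_cast hN
  rw [card_range]
  constructor
  · intro h1
    by_contra hcon
    push Not at hcon
    apply h1
    have : ∑ i ∈ range N, h i t = 0 := Finset.sum_eq_zero fun i hi => by
      have := hcon i hi
      simpa using this
    rw [this, mul_zero]
  · rintro ⟨i, hi, ht⟩
    have h1 : 0 < ∑ j ∈ range N, h j t := by
      apply Finset.sum_pos'
      · intro j hj
        exact (hp j (mem_range.mp hj)).1 t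
      · refine ⟨i, hi, lt_of_le_of_ne ((hp i (mem_range.mp hi)).1 t) (Ne.symm ?_)⟩
        simpa using ht
    positivity

/-- integration against the average -/
theorem gain_int {N : ℕ} (hN : 1 ≤ N) {h : ℕ → E} (hp : ∀ i < N, Prob (h i)) (hs : Suc N h)
    (f : ℕ → ℝ) : ∑ t ∈ (av h (range N)).support, av h (range N) t * f t =
      (N : ℝ)⁻¹ * ∑ i ∈ range N, ∑ t ∈ (h i).support, h i t * f t := by
  rw [gain_supp hN hp, Finset.sum_biUnion]
  · rw [Finset.mul_sum]
    apply Finset.sum_congr rfl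
    intro i hi
    rw [Finset.mul_sum]
    apply Finset.sum_congr rfl
    intro t ht
    rw [gain_av_apply, card_range, gain_sum_at hs (mem_range.mp hi) ht (fun j t => h j t)
      (fun j _ hj => by simpa using hj)]
    ring
  · intro i hi j hj hij
    rw [Function.onFun, Finset.disjoint_left]
    intro t ht
    exact gain_disj hs (mem_range.mp (by simpa using hi)) (mem_range.mp (by simpa using hj)) hij ht

theorem gain_av_prob {N : ℕ} (hN : 1 ≤ N) {h : ℕ → E} (hp : ∀ i < N, Prob (h i))
    (hs : Suc N h) : Prob (av h (range N)) := by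
  have hN' : (0 : ℝ) < N := by exact_mod_cast hN
  constructor
  · intro t
    rw [gain_av_apply]
    have : 0 ≤ ∑ i ∈ range N, h i t :=
      Finset.sum_nonneg fun i hi => (hp i (mem_range.mp hi)).1 t
    positivity
  · have := gain_int hN hp hs (fun _ => 1)
    simp only [mul_one] at this
    rw [this, Finset.sum_congr rfl (fun i hi => (hp i (mem_range.mp hi)).2)]
    simp
    field_simp

/-- the entropy inequality behind the construction -/
theorem gain_core (S : Finset ℕ) (H ρ : ℕ → ℝ) (δ : ℝ) (hδ : 0 ≤ δ) (hH : ∀ t ∈ S, 0 ≤ H t)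
    (hρ : ∀ t ∈ S, 0 < ρ t) (h1 : ∑ t ∈ S, H t = 1) (h2 : ∑ t ∈ S, H t * ρ t ≤ 1)
    (h3 : -δ ≤ ∑ t ∈ S, H t * Real.log (ρ t)) :
    ∑ t ∈ S, H t * |ρ t - 1| ≤ 2 * √δ := by
  have hA : ∑ t ∈ S, H t * (√(ρ t) - 1) ^ 2 ≤ δ := by
    have h4 : ∀ t ∈ S, H t * (√(ρ t) - 1) ^ 2 ≤ H t * ρ t - H t - H t * Real.log (ρ t) := by
      intro t ht
      have hr := hρ t ht
      have hs := Real.sqrt_pos.mpr hr
      have hsq := Real.sq_sqrt hr.le
      have hl : Real.log (ρ t) ≤ 2 * (√(ρ t) - 1) := by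
        have h5 := Real.log_le_sub_one_of_pos hs
        have h6 : Real.log (ρ t) = 2 * Real.log (√(ρ t)) := by
          conv_lhs => rw [← hsq]
          rw [Real.log_pow]
          push_cast
          ring
        rw [h6]
        linarith
      have h7 : (√(ρ t) - 1) ^ 2 ≤ ρ t - 1 - Real.log (ρ t) := by nlinarith
      calc H t * (√(ρ t) - 1) ^ 2 ≤ H t * (ρ t - 1 - Real.log (ρ t)) :=
            mul_le_mul_of_nonneg_left h7 (hH t ht)
        _ = _ := by ring
    refine (Finset.sum_le_sum h4).trans ?_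
    rw [Finset.sum_sub_distrib, Finset.sum_sub_distrib, h1]
    linarith
  have hB : ∑ t ∈ S, H t * (√(ρ t) + 1) ^ 2 ≤ 4 := by
    have h4 : ∀ t ∈ S, H t * (√(ρ t) + 1) ^ 2 ≤ 2 * (H t * ρ t) + 2 * H t := by
      intro t ht
      have hr := hρ t ht
      have hsq := Real.sq_sqrt hr.le
      have h7 : (√(ρ t) + 1) ^ 2 ≤ 2 * ρ t + 2 := by nlinarith [sq_nonneg (√(ρ t) - 1)]
      calc H t * (√(ρ t) + 1) ^ 2 ≤ H t * (2 * ρ t + 2) :=
            mul_le_mul_of_nonneg_left h7 (hH t ht)
        _ = _ := by ring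
    refine (Finset.sum_le_sum h4).trans ?_
    rw [Finset.sum_add_distrib, ← Finset.mul_sum, ← Finset.mul_sum, h1]
    linarith
  -- Cauchy-Schwarz
  have hCS := Finset.sum_mul_sq_le_sq_mul_sq S (fun t => √(H t) * |√(ρ t) - 1|)
    (fun t => √(H t) * (√(ρ t) + 1))
  have e1 : ∑ t ∈ S, √(H t) * |√(ρ t) - 1| * (√(H t) * (√(ρ t) + 1)) =
      ∑ t ∈ S, H t * |ρ t - 1| := by
    apply Finset.sum_congr rfl
    intro t ht
    have hr := hρ t ht
    have hsq := Real.sq_sqrt hr.le
    have hs := Real.sqrt_nonneg (ρ t)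
    have hh := Real.mul_self_sqrt (hH t ht)
    have h5 : |ρ t - 1| = |√(ρ t) - 1| * (√(ρ t) + 1) := by
      have : ρ t - 1 = (√(ρ t) - 1) * (√(ρ t) + 1) := by nlinarith
      rw [this, abs_mul, abs_of_nonneg (by linarith : 0 ≤ √(ρ t) + 1)]
    rw [h5]
    calc _ = (√(H t) * √(H t)) * (|√(ρ t) - 1| * (√(ρ t) + 1)) := by ring
      _ = _ := by rw [hh]
  have e2 : ∑ t ∈ S, (√(H t) * |√(ρ t) - 1|) ^ 2 = ∑ t ∈ S, H t * (√(ρ t) - 1) ^ 2 := by
    apply Finset.sum_congr rfl
    intro t ht
    rw [mul_pow, Real.sq_sqrt (hH t ht), sq_abs]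
  have e3 : ∑ t ∈ S, (√(H t) * (√(ρ t) + 1)) ^ 2 = ∑ t ∈ S, H t * (√(ρ t) + 1) ^ 2 := by
    apply Finset.sum_congr rfl
    intro t ht
    rw [mul_pow, Real.sq_sqrt (hH t ht)]
  rw [e1, e2, e3] at hCS
  have hB0 : 0 ≤ ∑ t ∈ S, H t * (√(ρ t) + 1) ^ 2 :=
    Finset.sum_nonneg fun t ht => mul_nonneg (hH t ht) (sq_nonneg _)
  have h9 : (∑ t ∈ S, H t * |ρ t - 1|) ^ 2 ≤ (2 * √δ) ^ 2 := by
    rw [mul_pow, Real.sq_sqrt hδ]
    calc _ ≤ _ := hCS
      _ ≤ δ * 4 := mul_le_mul hA hB hB0 hδ
      _ = _ := by ring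
  exact abs_le_of_sq_le_sq' h9 (by positivity) |>.2

/-- GAIN (cites LOZ, ENT1) -/
theorem pair_of_gain_pr {n : Seminorm ℝ E} (hn : IsNS n) (N : ℕ) (hN : 1 ≤ N) (h : ℕ → E)
    (hp : ∀ i < N, Prob (h i)) (hs : Suc N h) (δ : ℝ) (hδ : 0 ≤ δ)
    (hg : Ent n (av h (range N)) - ((N : ℝ))⁻¹ * ∑ i ∈ range N, Ent n (h i) + Real.log N ≤ δ) :
    ∃ x xs : E, IsAvg n N x ∧ DB n xs ∧ (∀ i, 0 ≤ x i) ∧ (∀ i, 0 ≤ xs i) ∧
      x.support ⊆ (av h (range N)).support ∧ xs.support ⊆ (av h (range N)).support ∧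
      mass (had xs x - av h (range N)) ≤ 2 * Real.sqrt δ := by
  have hN' : (0 : ℝ) < N := by exact_mod_cast hN
  have hdf := gain_dfn hn
  have hH := gain_av_prob hN hp hs
  set H := av h (range N) with hHdef
  have hHs : H.support = (range N).biUnion fun i => (h i).support := gain_supp hN hp
  have hex : ∀ i, ∃ y : E, (i < N → ∃ ys, IsMx n (h i) y ys) ∧ (¬ i < N → y = 0) := by
    intro i
    by_cases hi : i < N
    · obtain ⟨y, ys, hm⟩ := loz n hn.lat hdf (h i) (hp i hi)
      exact ⟨y, fun _ => ⟨ys, hm⟩, fun h' => absurd hi h'⟩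
    · exact ⟨0, fun h' => absurd h' hi, fun _ => rfl⟩
  choose y hy hy0 using hex
  have hys : ∀ i < N, (y i).support = (h i).support := fun i hi => by
    obtain ⟨ys, hm⟩ := hy i hi
    exact hm.supp
  have hynn : ∀ i < N, ∀ t, 0 ≤ y i t := fun i hi => by
    obtain ⟨ys, hm⟩ := hy i hi
    exact hm.nn
  have hypos : ∀ i < N, ∀ t ∈ (h i).support, 0 < y i t := by
    intro i hi t ht
    obtain ⟨ys, hm⟩ := hy i hi
    exact hm.cmp.2 t ht
  set x : E := (N : ℝ)⁻¹ • ∑ i ∈ range N, y i with hx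
  have hxa : ∀ t, x t = (N : ℝ)⁻¹ * ∑ i ∈ range N, y i t := fun t => by
    rw [hx, Finsupp.smul_apply, Finsupp.finsetSum_apply, smul_eq_mul]
  have hxi : ∀ i < N, ∀ t ∈ (h i).support, x t = (N : ℝ)⁻¹ * y i t := by
    intro i hi t ht
    rw [hxa, gain_sum_at hs hi ht (fun j t => y j t)]
    intro j hj htj
    rw [← hys j hj] at htj
    simpa using htj
  have hxnn : ∀ t, 0 ≤ x t := by
    intro t
    rw [hxa]
    have : 0 ≤ ∑ i ∈ range N, y i t :=
      Finset.sum_nonneg fun i hi => hynn i (mem_range.mp hi) t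
    positivity
  have hxpos : ∀ t ∈ H.support, 0 < x t := by
    intro t ht
    rw [hHs, Finset.mem_biUnion] at ht
    obtain ⟨i, hi, ht⟩ := ht
    rw [hxi i (mem_range.mp hi) t ht]
    have := hypos i (mem_range.mp hi) t ht
    positivity
  have hxsupp : x.support ⊆ H.support := by
    intro t ht
    by_contra hcon
    rw [hHs, Finset.mem_biUnion] at hcon
    push Not at hcon
    have : x t = 0 := by
      rw [hxa]
      have : ∑ i ∈ range N, y i t = 0 := Finset.sum_eq_zero fun i hi => by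
        have h1 := hcon i hi
        rw [← hys i (mem_range.mp hi)] at h1
        simpa using h1
      rw [this, mul_zero]
    rw [Finsupp.mem_support_iff] at ht
    exact ht this
  have hsy : Suc N y := by
    intro i j hij hj a ha b hb
    rw [hys i (hij.trans hj)] at ha
    rw [hys j hj] at hb
    exact hs i j hij hj a ha b hb
  have hnx : n x ≤ 1 := by
    rw [hx, map_smul_eq_mul, Real.norm_eq_abs, abs_of_pos (by positivity)]
    have h1 : n (∑ i ∈ range N, y i) ≤ ∑ i ∈ range N, n (y i) :=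
      Finset.le_sum_of_subadditive n (map_zero n).le (map_add_le_add n) _ _
    have h2 : ∑ i ∈ range N, n (y i) ≤ ∑ i ∈ range N, (1 : ℝ) := by
      apply Finset.sum_le_sum
      intro i hi
      obtain ⟨ys, hm⟩ := hy i (mem_range.mp hi)
      exact hm.cmp.1
    rw [Finset.sum_const, card_range, nsmul_eq_mul, mul_one] at h2
    rw [inv_mul_le_iff₀ hN', mul_one]
    exact h1.trans h2
  obtain ⟨Y, ys, hm⟩ := loz n hn.lat hdf H hH
  have hYpos : ∀ t ∈ H.support, 0 < Y t := hm.cmp.2
  have hysv : ∀ t ∈ H.support, ys t = H t / Y t := by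
    intro t ht
    have := hm.mul t
    have h1 := (hYpos t ht).ne'
    rw [← this]
    field_simp
  refine ⟨x, ys, ⟨hN, y, fun i hi => ?_, hsy, hx⟩, hm.db, hxnn, hm.nns, hxsupp, ?_, ?_⟩
  · obtain ⟨ys', hm'⟩ := hy i hi
    exact hm'.cmp.1
  · rw [hm.supps]
  · -- the estimate
    set ρ : ℕ → ℝ := fun t => x t / Y t with hρ
    have hρpos : ∀ t ∈ H.support, 0 < ρ t := fun t ht => div_pos (hxpos t ht) (hYpos t ht)
    have e1 : mass (had ys x - H) ≤ ∑ t ∈ H.support, H t * |ρ t - 1| := by
      unfold mass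
      have hsub : (had ys x - H).support ⊆ H.support := by
        intro t ht
        by_contra hcon
        have h0 : H t = 0 := by simpa using hcon
        have h1 : x t = 0 := by
          by_contra hne
          exact hcon (hxsupp (by simpa using hne))
        rw [Finsupp.mem_support_iff] at ht
        apply ht
        rw [Finsupp.sub_apply, h0, sub_zero]
        unfold had
        rw [Finsupp.zipWith_apply, h1]
        simp
      refine (Finset.sum_le_sum_of_subset_of_nonneg hsub fun t _ _ => abs_nonneg _).trans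
        (le_of_eq ?_)
      apply Finset.sum_congr rfl
      intro t ht
      rw [Finsupp.sub_apply]
      unfold had
      rw [Finsupp.zipWith_apply, abs_of_nonneg (hm.nns t), abs_of_nonneg (hxnn t), hysv t ht]
      have h1 : H t / Y t * x t - H t = H t * (ρ t - 1) := by
        simp only [hρ]
        have := (hYpos t ht).ne'
        field_simp
      rw [h1, abs_mul, abs_of_nonneg (hH.1 t)]
    refine e1.trans ?_
    apply gain_core H.support H ρ δ hδ (fun t _ => hH.1 t) hρpos hH.2
    · -- the pairing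
      have h1 := (hm.db x).trans hnx
      rw [pr_eq_sum' (S := H.support) (by rw [hm.supps])] at h1
      refine le_trans (le_of_eq ?_) h1
      apply Finset.sum_congr rfl
      intro t ht
      rw [abs_of_nonneg (hm.nns t), abs_of_nonneg (hxnn t), hysv t ht]
      simp only [hρ]
      ring
    · -- logarithms
      have h1 : ∑ t ∈ H.support, H t * Real.log (ρ t) = hlog H x - hlog H Y := by
        unfold hlog
        rw [← Finset.sum_sub_distrib]
        apply Finset.sum_congr rfl
        intro t ht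
        simp only [hρ]
        rw [Real.log_div (hxpos t ht).ne' (hYpos t ht).ne']
        ring
      have h2 : hlog H x = (N : ℝ)⁻¹ * ∑ i ∈ range N, Ent n (h i) - Real.log N := by
        unfold hlog
        rw [hHdef, gain_int hN hp hs (fun t => Real.log (x t))]
        have h3 : ∀ i ∈ range N, ∑ t ∈ (h i).support, h i t * Real.log (x t) =
            Ent n (h i) - Real.log N := by
          intro i hi
          have hi' := mem_range.mp hi
          obtain ⟨ys', hm'⟩ := hy i hi'
          rw [ent_eq n (h i) (y i) ys' hm']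
          unfold hlog
          have h4 : Real.log N = ∑ t ∈ (h i).support, h i t * Real.log N := by
            rw [← Finset.sum_mul, (hp i hi').2, one_mul]
          rw [h4, ← Finset.sum_sub_distrib]
          apply Finset.sum_congr rfl
          intro t ht
          have := hypos i hi' t ht
          rw [hxi i hi' t ht, Real.log_mul (by positivity) this.ne', Real.log_inv]
          ring
        rw [Finset.sum_congr rfl h3, Finset.sum_sub_distrib, Finset.sum_const, card_range,
          nsmul_eq_mul, mul_sub, ← mul_assoc, inv_mul_cancel₀ hN'.ne', one_mul]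
      rw [h1, h2, ← ent_eq n H Y ys hm]
      linarith


alias pair_of_gain := pair_of_gain_pr

end Pool.Agent.Lib_helper25.AD
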