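import Pool.Agent.Lib_helper25.AD.Base
import Pool.Agent.Lib_helper25.AD.Blk.ENT

set_option autoImplicit false

open Finset Filter Topology

namespace Pool.Agent.Lib_helper25.AD

theorem treee_ne {h : E} (hp : Prob h) : h ≠ 0 := by
  rintro rfl
  have := hp.2
  simp at this

theorem treee_blk {h : ℕ → E} (hp : ∀ i, Prob (h i)) (hs : ∀ i, Bef (h i) (h (i + 1))) :
    IsBlk h := ⟨fun i => treee_ne (hp i), hs⟩

theorem treee_sum (f : ℕ → ℝ) (N M : ℕ) :
    ∑ c ∈ range (M * N), f c = ∑ b ∈ range M, ∑ i ∈ range N, f (b * N + i) := by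
  induction M with
  | zero => simp
  | succ M ih => rw [Nat.succ_mul, Finset.sum_range_add, ih, Finset.sum_range_succ]

theorem treee_av_single (h : ℕ → E) (b : ℕ) : av h (Ico b (b + 1)) = h b := by
  unfold av
  rw [Nat.card_Ico, Finset.sum_Ico_succ_top le_rfl]
  simp

theorem treee_T (N : ℕ) (hN : 2 ≤ N) (δ : ℝ) (hδ : 0 < δ) :
    ∃ T : ℕ, Real.log (fS (N ^ T)) < T * δ := by
  have hN' : (1 : ℝ) < N := by exact_mod_cast hN
  set c : ℝ := Real.logb 2 N with hc
  have hc0 : 0 ≤ c := Real.logb_nonneg (by norm_num) hN'.le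
  obtain ⟨T, hT⟩ := exists_nat_gt (max 1 (4 * (1 + c) / δ ^ 2))
  have hT1 : (1 : ℝ) < T := (le_max_left _ _).trans_lt hT
  have hT2 : 4 * (1 + c) / δ ^ 2 < T := (le_max_right _ _).trans_lt hT
  refine ⟨T, ?_⟩
  have e : fS (N ^ T) = 1 + T * c := by
    unfold fS
    push_cast
    rw [Real.logb_pow, hc]
  rw [e]
  have h1 : (1 : ℝ) + T * c ≤ (1 + c) * T := by nlinarith
  have h0 : 0 < 1 + T * c := by positivity
  have h2 : Real.log (1 + T * c) < 2 * √(1 + T * c) := by
    have h3 := Real.log_le_sub_one_of_pos (Real.sqrt_pos.mpr h0)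
    have h4 : Real.log (1 + T * c) = 2 * Real.log (√(1 + T * c)) := by
      conv_lhs => rw [← Real.sq_sqrt h0.le]
      rw [Real.log_pow]
      push_cast
      ring
    rw [h4]
    linarith
  refine h2.trans_le ?_
  have h5 : √(1 + T * c) ≤ √((1 + c) * T) := Real.sqrt_le_sqrt h1
  have h6 : 2 * √((1 + c) * T) ≤ T * δ := by
    have h7 : 4 * ((1 + c) * T) ≤ (T * δ) ^ 2 := by
      rw [div_lt_iff₀ (by positivity)] at hT2
      nlinarith
    have h8 : (2 * √((1 + c) * T)) ^ 2 ≤ (T * δ) ^ 2 := by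
      rw [mul_pow, Real.sq_sqrt (by positivity)]
      linarith
    exact (abs_le_of_sq_le_sq' h8 (by positivity)).2
  linarith

/-- TREEE (entropy tree; cites ENT2) -/
theorem ent_tree_pr (N : ℕ) (hN : 2 ≤ N) (δ : ℝ) (hδ : 0 < δ) : ∃ R : ℕ, ∀ (n : Seminorm ℝ E),
    IsNS n → ∀ h : ℕ → E, (∀ i, Prob (h i)) → (∀ i, Bef (h i) (h (i + 1))) →
      ∃ (q i₀ : ℕ), 1 ≤ q ∧ i₀ + N * q ≤ R ∧
        Ent n (av h (Ico i₀ (i₀ + N * q))) -
            ((N : ℝ))⁻¹ * ∑ i ∈ range N, Ent n (av h (Ico (i₀ + i * q) (i₀ + (i + 1) * q))) +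
            Real.log N ≤ δ := by
  obtain ⟨T, hT⟩ := treee_T N hN δ hδ
  refine ⟨N ^ T, fun n hn h hp hs => ?_⟩
  by_contra hcon
  push Not at hcon
  have hN0 : 0 < N := by omega
  have hN' : (0 : ℝ) < N := by exact_mod_cast hN0
  set B : ℕ → ℕ → ℝ := fun k b => Ent n (av h (Ico (b * N ^ k) ((b + 1) * N ^ k))) with hB
  set S : ℕ → ℝ := fun k => ∑ b ∈ range (N ^ (T - k)), B k b with hS
  have hstep : ∀ k < T, (N : ℝ) ^ k * S k + (N : ℝ) ^ T * (δ - Real.log N) ≤
      (N : ℝ) ^ (k + 1) * S (k + 1) := by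
    intro k hk
    have e1 : T - k = (T - (k + 1)) + 1 := by omega
    have e2 : S k = ∑ b ∈ range (N ^ (T - (k + 1))), ∑ i ∈ range N, B k (b * N + i) := by
      simp only [hS]
      rw [e1, pow_succ, treee_sum]
    have h1 : ∀ b ∈ range (N ^ (T - (k + 1))),
        (N : ℝ)⁻¹ * ∑ i ∈ range N, B k (b * N + i) + (δ - Real.log N) ≤ B (k + 1) b := by
      intro b hb
      have hb' := mem_range.mp hb
      have hq : 1 ≤ N ^ k := Nat.one_le_pow _ _ hN0
      have hle : b * N ^ (k + 1) + N * N ^ k ≤ N ^ T := by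
        calc b * N ^ (k + 1) + N * N ^ k = (b + 1) * N ^ (k + 1) := by ring
          _ ≤ N ^ (T - (k + 1)) * N ^ (k + 1) := Nat.mul_le_mul_right _ hb'
          _ = N ^ T := by rw [← pow_add]; congr 1; omega
      have h2 := hcon (N ^ k) (b * N ^ (k + 1)) hq hle
      have e3 : b * N ^ (k + 1) + N * N ^ k = (b + 1) * N ^ (k + 1) := by ring
      rw [e3] at h2
      have e4 : ∀ i ∈ range N, Ent n (av h (Ico (b * N ^ (k + 1) + i * N ^ k)
          (b * N ^ (k + 1) + (i + 1) * N ^ k))) = B k (b * N + i) := by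
        intro i _
        simp only [hB]
        have e5 : b * N ^ (k + 1) + i * N ^ k = (b * N + i) * N ^ k := by ring
        have e6 : b * N ^ (k + 1) + (i + 1) * N ^ k = (b * N + i + 1) * N ^ k := by ring
        rw [e5, e6]
      rw [Finset.sum_congr rfl e4] at h2
      have e7 : Ent n (av h (Ico (b * N ^ (k + 1)) ((b + 1) * N ^ (k + 1)))) = B (k + 1) b := rfl
      rw [e7] at h2
      linarith
    have h3 := Finset.sum_le_sum h1
    rw [Finset.sum_add_distrib, ← Finset.mul_sum, ← e2, Finset.sum_const, card_range,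
      nsmul_eq_mul] at h3
    have e8 : ∑ b ∈ range (N ^ (T - (k + 1))), B (k + 1) b = S (k + 1) := rfl
    rw [e8] at h3
    have h4 := mul_le_mul_of_nonneg_left h3 (by positivity : (0 : ℝ) ≤ (N : ℝ) ^ (k + 1))
    have e9 : (N : ℝ) ^ (k + 1) * ((N : ℝ)⁻¹ * S k + ((N ^ (T - (k + 1)) : ℕ) : ℝ) *
        (δ - Real.log N)) = (N : ℝ) ^ k * S k + (N : ℝ) ^ T * (δ - Real.log N) := by
      have e10 : (N : ℝ) ^ T = (N : ℝ) ^ (k + 1) * (N : ℝ) ^ (T - (k + 1)) := by
        rw [← pow_add]; congr 1; omega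
      rw [e10]
      push_cast
      field_simp
      ring
    rw [e9] at h4
    exact h4
  have hind : ∀ k ≤ T, S 0 + k * ((N : ℝ) ^ T * (δ - Real.log N)) ≤ (N : ℝ) ^ k * S k := by
    intro k
    induction k with
    | zero => intro _; simp
    | succ k ih =>
      intro hk
      have h1 := ih (by omega)
      have h2 := hstep k (by omega)
      push_cast
      linarith
  have h1 := hind T le_rfl
  have hblk := treee_blk hp hs
  have hR : 1 ≤ N ^ T := Nat.one_le_pow _ _ hN0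
  have hg := (ent_gain hn (N ^ T) hR h (fun i _ => hp i) (fun i j hij _ => hblk.bef hij)).2
  have hS0 : S 0 = ∑ i ∈ range (N ^ T), Ent n (h i) := by
    simp only [hS, hB]
    rw [Nat.sub_zero]
    apply Finset.sum_congr rfl
    intro b _
    rw [pow_zero, mul_one, mul_one, treee_av_single]
  have hST : S T = Ent n (av h (range (N ^ T))) := by
    simp only [hS, hB]
    rw [Nat.sub_self, pow_zero, Finset.sum_range_one, Nat.zero_mul, Nat.zero_add, Nat.one_mul,
      Finset.range_eq_Ico]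
  rw [hS0, hST] at h1
  have hNT : (0 : ℝ) < (N : ℝ) ^ T := by positivity
  have hlog : Real.log ((N ^ T : ℕ) : ℝ) = T * Real.log N := by
    push_cast
    rw [Real.log_pow]
  rw [hlog] at hg
  push_cast at hg
  have h2 : ((N : ℝ) ^ T)⁻¹ * (∑ i ∈ range (N ^ T), Ent n (h i)) + T * (δ - Real.log N) ≤
      Ent n (av h (range (N ^ T))) := by
    rw [← sub_nonneg]
    have h3 : 0 ≤ ((N : ℝ) ^ T)⁻¹ * ((N : ℝ) ^ T * Ent n (av h (range (N ^ T))) -
        (∑ i ∈ range (N ^ T), Ent n (h i) + T * ((N : ℝ) ^ T * (δ - Real.log N)))) :=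
      mul_nonneg (by positivity) (by linarith)
    refine h3.trans (le_of_eq ?_)
    field_simp
  linarith


alias ent_tree := ent_tree_pr

end Pool.Agent.Lib_helper25.AD
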