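import Pool.Agent.Lib_helper25.AD.Base
import Pool.Agent.Lib_helper25.AD.Blk.GAIN
import Pool.Agent.Lib_helper25.AD.Blk.TREEE

/-! # AD block TYPE -/

set_option autoImplicit false

open Finset

namespace Pool.Agent.Lib_helper25.AD

/-- total sum -/
noncomputable def type_tot : E →ₗ[ℝ] ℝ := Finsupp.linearCombination ℝ (fun _ => (1 : ℝ))

theorem type_tot_eq (h : E) : type_tot h = ∑ i ∈ h.support, h i := by
  rw [type_tot, Finsupp.linearCombination_apply, Finsupp.sum]
  exact Finset.sum_congr rfl fun i _ => by simp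

theorem type_mass_eq {x : E} {S : Finset ℕ} (h : x.support ⊆ S) : mass x = ∑ i ∈ S, |x i| := by
  rw [mass]
  apply Finset.sum_subset h
  intro i _ hi
  have h0 : x i = 0 := by simpa using hi
  simp [h0]

theorem type_mass_add (x y : E) : mass (x + y) ≤ mass x + mass y := by
  classical
  rw [type_mass_eq (x := x + y) (S := x.support ∪ y.support) Finsupp.support_add,
    type_mass_eq (x := x) (S := x.support ∪ y.support) subset_union_left,
    type_mass_eq (x := y) (S := x.support ∪ y.support) subset_union_right,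
    ← Finset.sum_add_distrib]
  exact Finset.sum_le_sum fun i _ => by simpa using abs_add_le (x i) (y i)

theorem type_mass_zero : mass (0 : E) = 0 := by simp [mass]

theorem type_mass_sum (S : Finset ℕ) (f : ℕ → E) :
    mass (∑ j ∈ S, f j) ≤ ∑ j ∈ S, mass (f j) := by
  classical
  induction S using Finset.induction_on with
  | empty => simp [type_mass_zero]
  | insert a S ha ih =>
    rw [Finset.sum_insert ha, Finset.sum_insert ha]
    exact (type_mass_add _ _).trans (add_le_add le_rfl ih)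

theorem type_prob_iff {h : E} : Prob h ↔ (∀ i, 0 ≤ h i) ∧ type_tot h = 1 := by
  rw [type_tot_eq]; rfl

theorem type_prob_av {h : ℕ → E} {J : Finset ℕ} (hJ : J.Nonempty) (hp : ∀ i ∈ J, Prob (h i)) :
    Prob (av h J) := by
  rw [type_prob_iff]
  have hc : (0 : ℝ) < J.card := by exact_mod_cast hJ.card_pos
  constructor
  · intro i
    rw [av, Finsupp.smul_apply, Finsupp.finset_sum_apply, smul_eq_mul]
    apply mul_nonneg (by positivity)
    exact Finset.sum_nonneg fun j hj => (hp j hj).1 i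
  · rw [av, map_smul, map_sum, smul_eq_mul,
      Finset.sum_congr rfl (fun j hj => (type_prob_iff.1 (hp j hj)).2), Finset.sum_const,
      nsmul_eq_mul, mul_one]
    exact inv_mul_cancel₀ hc.ne'

theorem type_supp_av {h : ℕ → E} {J : Finset ℕ} {a : ℕ} (ha : a ∈ (av h J).support) :
    ∃ i ∈ J, a ∈ (h i).support := by
  by_contra hcon
  push Not at hcon
  rw [Finsupp.mem_support_iff, av, Finsupp.smul_apply, Finsupp.finset_sum_apply] at ha
  apply ha
  rw [Finset.sum_eq_zero fun j hj => by simpa using hcon j hj, smul_zero]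

theorem type_av_shift (h : ℕ → E) (s : ℕ) (J : Finset ℕ) :
    av (fun i => h (i + s)) J = av h (J.map (addRightEmbedding s)) := by
  rw [av, av, Finset.card_map, Finset.sum_map]
  rfl

theorem type_sum_blocks (f : ℕ → E) (a q : ℕ) (N : ℕ) :
    ∑ i ∈ range N, ∑ j ∈ Ico (a + i * q) (a + (i + 1) * q), f j =
      ∑ j ∈ Ico a (a + N * q), f j := by
  induction N with
  | zero => simp
  | succ N ih =>
    rw [Finset.sum_range_succ, ih]
    exact Finset.sum_Ico_consecutive f (by omega) (by nlinarith)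

theorem type_av_blocks (h : ℕ → E) (a q N : ℕ) (hq : 1 ≤ q) (hN : 1 ≤ N) :
    av (fun i => av h (Ico (a + i * q) (a + (i + 1) * q))) (range N) =
      av h (Ico a (a + N * q)) := by
  have hcard : ∀ i, (Ico (a + i * q) (a + (i + 1) * q)).card = q := by
    intro i
    rw [Nat.card_Ico]
    have : a + (i + 1) * q = (a + i * q) + q := by ring
    omega
  have hq0 : (q : ℝ) ≠ 0 := by positivity
  have hN0 : (N : ℝ) ≠ 0 := by positivity
  unfold av
  simp only [hcard, Finset.card_range, Nat.card_Ico, Nat.add_sub_cancel_left]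
  rw [← Finset.smul_sum, type_sum_blocks, smul_smul]
  congr 1
  push_cast
  rw [mul_inv]

/-- one pair -/
theorem type_step {n : Seminorm ℝ E} (hn : IsNS n) (η : ℝ) (hη : 0 < η) (h : ℕ → E)
    (hp : ∀ i, Prob (h i)) (hs : ∀ i, Bef (h i) (h (i + 1))) (hb : IsBlk h) (N₀ : ℕ) (K : ℝ)
    (s₀ : ℕ) : ∃ (N : ℕ) (J : Finset ℕ) (x xs : E), N₀ ≤ N ∧ K ≤ fS N ∧ J.Nonempty ∧
      (∀ i ∈ J, s₀ ≤ i ∧ J.card ≤ i) ∧ IsAvg n N x ∧ DB n xs ∧ (∀ i, 0 ≤ x i) ∧
      (∀ i, 0 ≤ xs i) ∧ (∀ a ∈ x.support, ∃ i ∈ J, a ∈ (h i).support) ∧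
      (∀ a ∈ xs.support, ∃ i ∈ J, a ∈ (h i).support) ∧ mass (had xs x - av h J) ≤ η := by
  set N : ℕ := max (max N₀ 2) (2 ^ ⌈K⌉₊) with hN
  have hN2 : 2 ≤ N := le_trans (le_max_right _ _) (le_max_left _ _)
  have hN0 : N₀ ≤ N := le_trans (le_max_left _ _) (le_max_left _ _)
  have hKN : K ≤ fS N := by
    rw [fS]
    have h1 : ((2 ^ ⌈K⌉₊ : ℕ) : ℝ) ≤ N := by exact_mod_cast le_max_right _ _
    have h2 : (⌈K⌉₊ : ℝ) ≤ Real.logb 2 N := by
      rw [Real.le_logb_iff_rpow_le (by norm_num) (by positivity)]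
      push_cast at h1
      rw [Real.rpow_natCast]
      exact h1
    have h3 := Nat.le_ceil K
    linarith
  obtain ⟨R, hR⟩ := ent_tree N hN2 ((η / 2) ^ 2) (by positivity)
  set s : ℕ := max s₀ R with hsdef
  obtain ⟨q, i₀, hq, hle, hgain⟩ := hR n hn (fun i => h (i + s)) (fun i => hp _)
    (fun i => by
      have h1 := hs (i + s)
      have e : i + 1 + s = i + s + 1 := by ring
      show Bef (h (i + s)) (h (i + 1 + s))
      rw [e]
      exact h1)
  set H : ℕ → E := fun i => av (fun i => h (i + s)) (Ico (i₀ + i * q) (i₀ + (i + 1) * q)) with hH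
  have hne : ∀ i, (Ico (i₀ + i * q) (i₀ + (i + 1) * q)).Nonempty := by
    intro i
    rw [Finset.nonempty_Ico]
    nlinarith
  have hHp : ∀ i < N, Prob (H i) := fun i _ => type_prob_av (hne i) fun j _ => hp _
  have hHs : Suc N H := by
    intro i j hij _ a ha b hb'
    obtain ⟨u, hu, hau⟩ := type_supp_av ha
    obtain ⟨v, hv, hbv⟩ := type_supp_av hb'
    rw [Finset.mem_Ico] at hu hv
    have huv : u + s < v + s := by
      have : (i + 1) * q ≤ j * q := Nat.mul_le_mul_right q hij
      omega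
    exact hb.bef huv a hau b hbv
  have hav : av H (range N) = av (fun i => h (i + s)) (Ico i₀ (i₀ + N * q)) :=
    type_av_blocks _ i₀ q N hq (by omega)
  obtain ⟨x, xs, hx, hxs, hx0, hxs0, hxsup, hxssup, hmass⟩ := pair_of_gain hn N (by omega) H hHp
    hHs ((η / 2) ^ 2) (by positivity) (by rw [hav]; exact hgain)
  rw [hav, type_av_shift] at hmass hxsup hxssup
  set J : Finset ℕ := (Ico i₀ (i₀ + N * q)).map (addRightEmbedding s) with hJ
  have hcard : J.card = N * q := by
    rw [hJ, Finset.card_map, Nat.card_Ico]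
    omega
  refine ⟨N, J, x, xs, hN0, hKN, ?_, ?_, hx, hxs, hx0, hxs0, ?_, ?_, ?_⟩
  · rw [← Finset.card_pos, hcard]
    positivity
  · intro i hi
    rw [hJ, Finset.mem_map] at hi
    obtain ⟨j, _, rfl⟩ := hi
    simp only [addRightEmbedding_apply]
    rw [hcard]
    have h1 : s₀ ≤ s := le_max_left _ _
    have h2 : R ≤ s := le_max_right _ _
    constructor
    · omega
    · omega
  · intro a ha
    exact type_supp_av (hxsup ha)
  · intro a ha
    exact type_supp_av (hxssup ha)
  · refine hmass.trans ?_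
    rw [Real.sqrt_sq (by positivity)]
    linarith

/-- the partial construction -/
structure TypeP (n : Seminorm ℝ E) (η : ℝ) (h : ℕ → E) (r m : ℕ) (N : ℕ → ℕ)
    (J : ℕ → Finset ℕ) (x xs : ℕ → E) : Prop where
  ne : ∀ j < m, (J j).Nonempty
  ge : ∀ j < m, ∀ i ∈ J j, r ≤ i ∧ (J j).card ≤ i
  lt : ∀ i j, i < j → j < m → ∀ a ∈ J i, ∀ b ∈ J j, a < b
  avg : ∀ j < m, IsAvg n (N j) (x j)
  big : ∀ j < m, r ≤ N j
  mono : ∀ i j, i ≤ j → j < m → N i ≤ N j
  gr : ∀ j, j + 1 < m → 2 * ∑ i ∈ range (j + 1), mass (x i) ≤ fS (N (j + 1))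
  db : ∀ j < m, DB n (xs j)
  nn : ∀ j < m, ∀ i, 0 ≤ x j i
  nns : ∀ j < m, ∀ i, 0 ≤ xs j i
  sx : ∀ j < m, ∀ a ∈ (x j).support, ∃ i ∈ J j, a ∈ (h i).support
  sxs : ∀ j < m, ∀ a ∈ (xs j).support, ∃ i ∈ J j, a ∈ (h i).support
  close : ∀ j < m, mass (had (xs j) (x j) - av h (J j)) ≤ η

theorem type_rec {n : Seminorm ℝ E} (hn : IsNS n) (η : ℝ) (hη : 0 < η) (h : ℕ → E)
    (hp : ∀ i, Prob (h i)) (hs : ∀ i, Bef (h i) (h (i + 1))) (hb : IsBlk h) (r : ℕ) (m : ℕ) :
    ∃ N J x xs, TypeP n η h r m N J x xs := by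
  classical
  induction m with
  | zero =>
    refine ⟨fun _ => 0, fun _ => ∅, fun _ => 0, fun _ => 0, ?_⟩
    constructor <;> intros <;> omega
  | succ m ih =>
    obtain ⟨N, J, x, xs, P⟩ := ih
    obtain ⟨N', J', x', xs', h1, h2, h3, h4, h5, h6, h7, h8, h9, h10, h11⟩ :=
      type_step hn η hη h hp hs hb (max r (∑ i ∈ range m, N i))
        (2 * ∑ i ∈ range m, mass (x i)) (max r (((range m).biUnion J).sup id + 1))
    have hup : ∀ {α : Type} (f : ℕ → α) (v : α) (j : ℕ), j < m →
        Function.update f m v j = f j := fun f v j hj => Function.update_of_ne hj.ne v f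
    have hus : ∀ {α : Type} (f : ℕ → α) (v : α), Function.update f m v m = v :=
      fun f v => Function.update_self m v f
    have hsum : ∀ k, k ≤ m → ∑ i ∈ range k, mass (Function.update x m x' i) =
        ∑ i ∈ range k, mass (x i) := by
      intro k hk
      refine Finset.sum_congr rfl fun i hi => ?_
      rw [Finset.mem_range] at hi
      rw [hup x x' i (by omega)]
    refine ⟨Function.update N m N', Function.update J m J', Function.update x m x',
      Function.update xs m xs', ?_⟩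
    constructor
    · intro j hj
      rcases Nat.lt_succ_iff_lt_or_eq.1 hj with hj | rfl
      · rw [hup J J' j hj]; exact P.ne j hj
      · rw [hus]; exact h3
    · intro j hj
      rcases Nat.lt_succ_iff_lt_or_eq.1 hj with hj | rfl
      · rw [hup J J' j hj]; exact P.ge j hj
      · rw [hus]
        intro i hi
        exact ⟨le_trans (le_max_left _ _) (h4 i hi).1, (h4 i hi).2⟩
    · intro i j hij hj
      rcases Nat.lt_succ_iff_lt_or_eq.1 hj with hj | rfl
      · rw [hup J J' j hj, hup J J' i (by omega)]; exact P.lt i j hij hj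
      · rw [hus, hup J J' i hij]
        intro a ha b hb'
        have h12 : a ≤ ((range j).biUnion J).sup id :=
          Finset.le_sup (f := id) (Finset.mem_biUnion.2 ⟨i, Finset.mem_range.2 hij, ha⟩)
        have h13 := le_trans (le_max_right _ _) (h4 b hb').1
        omega
    · intro j hj
      rcases Nat.lt_succ_iff_lt_or_eq.1 hj with hj | rfl
      · rw [hup N N' j hj, hup x x' j hj]; exact P.avg j hj
      · rw [hus, hus]; exact h5
    · intro j hj
      rcases Nat.lt_succ_iff_lt_or_eq.1 hj with hj | rfl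
      · rw [hup N N' j hj]; exact P.big j hj
      · rw [hus]; exact le_trans (le_max_left _ _) h1
    · intro i j hij hj
      rcases Nat.lt_succ_iff_lt_or_eq.1 hj with hj | rfl
      · rw [hup N N' j hj, hup N N' i (by omega)]; exact P.mono i j hij hj
      · rw [hus]
        rcases Nat.lt_or_eq_of_le hij with hij | rfl
        · rw [hup N N' i hij]
          have h14 : N i ≤ ∑ i ∈ range j, N i :=
            Finset.single_le_sum (f := N) (fun _ _ => Nat.zero_le _) (Finset.mem_range.2 hij)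
          exact h14.trans (le_trans (le_max_right _ _) h1)
        · rw [hus]
    · intro j hj
      rw [hsum (j + 1) (by omega)]
      rcases Nat.lt_succ_iff_lt_or_eq.1 hj with hj | hj
      · rw [hup N N' (j + 1) hj]; exact P.gr j hj
      · rw [hj, hus]; exact h2
    · intro j hj
      rcases Nat.lt_succ_iff_lt_or_eq.1 hj with hj | rfl
      · rw [hup xs xs' j hj]; exact P.db j hj
      · rw [hus]; exact h6
    · intro j hj
      rcases Nat.lt_succ_iff_lt_or_eq.1 hj with hj | rfl
      · rw [hup x x' j hj]; exact P.nn j hj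
      · rw [hus]; exact h7
    · intro j hj
      rcases Nat.lt_succ_iff_lt_or_eq.1 hj with hj | rfl
      · rw [hup xs xs' j hj]; exact P.nns j hj
      · rw [hus]; exact h8
    · intro j hj
      rcases Nat.lt_succ_iff_lt_or_eq.1 hj with hj | rfl
      · rw [hup x x' j hj, hup J J' j hj]; exact P.sx j hj
      · rw [hus, hus]; exact h9
    · intro j hj
      rcases Nat.lt_succ_iff_lt_or_eq.1 hj with hj | rfl
      · rw [hup xs xs' j hj, hup J J' j hj]; exact P.sxs j hj
      · rw [hus, hus]; exact h10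
    · intro j hj
      rcases Nat.lt_succ_iff_lt_or_eq.1 hj with hj | rfl
      · rw [hup x x' j hj, hup xs xs' j hj, hup J J' j hj]; exact P.close j hj
      · rw [hus, hus, hus]; exact h11

theorem type_had_sum {r : ℕ} {x xs : ℕ → E} (hx : ∀ j < r, ∀ i, 0 ≤ x j i)
    (hxs : ∀ j < r, ∀ i, 0 ≤ xs j i)
    (hd : ∀ j < r, ∀ k < r, j ≠ k → ∀ i, xs j i * x k i = 0) :
    had (∑ j ∈ range r, xs j) (∑ j ∈ range r, x j) = ∑ j ∈ range r, had (xs j) (x j) := by
  ext i
  rw [had, Finsupp.zipWith_apply, Finsupp.finset_sum_apply, Finsupp.finset_sum_apply,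
    Finsupp.finset_sum_apply,
    abs_of_nonneg (Finset.sum_nonneg fun j hj => hxs j (Finset.mem_range.1 hj) i),
    abs_of_nonneg (Finset.sum_nonneg fun j hj => hx j (Finset.mem_range.1 hj) i),
    Finset.sum_mul_sum]
  refine Finset.sum_congr rfl fun j hj => ?_
  rw [had, Finsupp.zipWith_apply, abs_of_nonneg (hxs j (Finset.mem_range.1 hj) i),
    abs_of_nonneg (hx j (Finset.mem_range.1 hj) i)]
  rw [Finset.sum_eq_single j]
  · intro k hk hkj
    exact hd j (Finset.mem_range.1 hj) k (Finset.mem_range.1 hk) (Ne.symm hkj) i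
  · intro hj'
    exact absurd hj hj'

/-- TYPE (cites TREEE, GAIN) -/
theorem type_exists_pr {n : Seminorm ℝ E} (hn : IsNS n) (r : ℕ) (hr : 1 ≤ r) (η : ℝ)
    (hη : 0 < η) (h : ℕ → E) (hp : ∀ i, Prob (h i)) (hs : ∀ i, Bef (h i) (h (i + 1))) :
    ∃ (I : Finset ℕ) (β : ℕ → ℝ), TwoAdm I ∧ (∀ i ∈ I, 0 ≤ β i) ∧ ∑ i ∈ I, β i = 1 ∧
      ∑ i ∈ I, β i • h i ∈ MS n r η := by
  classical
  have hb : IsBlk h := by
    refine ⟨fun i h0 => ?_, hs⟩
    have h1 := (hp i).2
    rw [h0] at h1
    simp at h1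
  obtain ⟨N, J, x, xs, P⟩ := type_rec hn η hη h hp hs hb r r
  have hr0 : (0 : ℝ) < r := by exact_mod_cast hr
  have hdisj : (↑(range r) : Set ℕ).PairwiseDisjoint J := by
    intro i hi j hj hij
    rw [Finset.mem_coe, Finset.mem_range] at hi hj
    rw [Function.onFun, Finset.disjoint_left]
    intro a ha hb'
    rcases lt_or_gt_of_ne hij with h1 | h1
    · exact absurd (P.lt i j h1 hj a ha a hb') (lt_irrefl _)
    · exact absurd (P.lt j i h1 hi a hb' a ha) (lt_irrefl _)
  set β : ℕ → ℝ := fun i => ∑ j ∈ range r, if i ∈ J j then ((r : ℝ) * (J j).card)⁻¹ else 0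
    with hβ
  have hβJ : ∀ j < r, ∀ i ∈ J j, β i = ((r : ℝ) * (J j).card)⁻¹ := by
    intro j hj i hi
    rw [hβ]
    simp only []
    rw [Finset.sum_eq_single j]
    · rw [if_pos hi]
    · intro k hk hkj
      rw [if_neg]
      intro hik
      have := hdisj (Finset.mem_coe.2 (Finset.mem_range.2 hj)) (Finset.mem_coe.2 hk)
        (Ne.symm hkj)
      rw [Function.onFun, Finset.disjoint_left] at this
      exact this hi hik
    · intro hj'
      exact absurd (Finset.mem_range.2 hj) hj'
  have hcpos : ∀ j < r, (0 : ℝ) < (J j).card := fun j hj => by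
    exact_mod_cast (P.ne j hj).card_pos
  have hsumh : ∑ i ∈ (range r).biUnion J, β i • h i = (r : ℝ)⁻¹ • ∑ j ∈ range r, av h (J j) := by
    rw [Finset.sum_biUnion hdisj, Finset.smul_sum]
    refine Finset.sum_congr rfl fun j hj => ?_
    rw [Finset.mem_range] at hj
    rw [av, smul_smul, Finset.smul_sum]
    refine Finset.sum_congr rfl fun i hi => ?_
    rw [hβJ j hj i hi, mul_inv]
  have hav : ∀ j < r, Prob (av h (J j)) := fun j hj => type_prob_av (P.ne j hj) fun i _ => hp i
  refine ⟨(range r).biUnion J, β, ⟨r, J, rfl, P.ne, P.lt, ?_, fun j hj i hi => (P.ge j hj i hi).2⟩,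
    ?_, ?_, ?_⟩
  · intro i hi
    rw [Finset.mem_biUnion] at hi
    obtain ⟨j, hj, hij⟩ := hi
    exact (P.ge j (Finset.mem_range.1 hj) i hij).1
  · intro i hi
    rw [Finset.mem_biUnion] at hi
    obtain ⟨j, hj, hij⟩ := hi
    rw [hβJ j (Finset.mem_range.1 hj) i hij]
    positivity
  · rw [Finset.sum_biUnion hdisj]
    have h1 : ∀ j ∈ range r, ∑ i ∈ J j, β i = (r : ℝ)⁻¹ := by
      intro j hj
      rw [Finset.mem_range] at hj
      rw [Finset.sum_congr rfl (hβJ j hj), Finset.sum_const, nsmul_eq_mul, mul_inv]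
      have := (hcpos j hj).ne'
      field_simp
    rw [Finset.sum_congr rfl h1, Finset.sum_const, Finset.card_range, nsmul_eq_mul]
    exact mul_inv_cancel₀ hr0.ne'
  · rw [hsumh]
    have hSuc : ∀ (u v : ℕ → E), (∀ j < r, ∀ a ∈ (u j).support, ∃ i ∈ J j, a ∈ (h i).support) →
        (∀ j < r, ∀ a ∈ (v j).support, ∃ i ∈ J j, a ∈ (h i).support) →
        ∀ i j, i < j → j < r → Bef (u i) (v j) := by
      intro u v hu hv i j hij hj a ha b hb'
      obtain ⟨k, hk, hak⟩ := hu i (by omega) a ha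
      obtain ⟨l, hl, hbl⟩ := hv j hj b hb'
      exact hb.bef (P.lt i j hij hj k hk l hl) a hak b hbl
    refine ⟨x, xs, N, ⟨⟨?_, P.avg, P.big, P.mono, P.gr⟩, ?_, P.db, P.nn, P.nns, ?_, ?_⟩⟩
    · exact fun i j hij hj => hSuc x x P.sx P.sx i j hij hj
    · exact fun i j hij hj => hSuc xs xs P.sxs P.sxs i j hij hj
    · rw [type_prob_iff]
      constructor
      · intro i
        rw [Finsupp.smul_apply, Finsupp.finset_sum_apply, smul_eq_mul]
        apply mul_nonneg (by positivity)
        exact Finset.sum_nonneg fun j hj => (hav j (Finset.mem_range.1 hj)).1 i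
      · rw [map_smul, map_sum, smul_eq_mul, Finset.sum_congr rfl
          (fun j hj => (type_prob_iff.1 (hav j (Finset.mem_range.1 hj))).2), Finset.sum_const,
          Finset.card_range, nsmul_eq_mul, mul_one]
        exact inv_mul_cancel₀ hr0.ne'
    · have hd : ∀ j < r, ∀ k < r, j ≠ k → ∀ i, xs j i * x k i = 0 := by
        intro j hj k hk hjk i
        by_contra hne
        have h1 : i ∈ (xs j).support := by
          rw [Finsupp.mem_support_iff]
          exact left_ne_zero_of_mul hne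
        have h2 : i ∈ (x k).support := by
          rw [Finsupp.mem_support_iff]
          exact right_ne_zero_of_mul hne
        rcases lt_or_gt_of_ne hjk with h3 | h3
        · exact absurd (hSuc xs x P.sxs P.sx j k h3 hk i h1 i h2) (lt_irrefl _)
        · exact absurd (hSuc x xs P.sx P.sxs k j h3 hj i h2 i h1) (lt_irrefl _)
      rw [type_had_sum P.nn P.nns hd, smul_smul, mul_inv_cancel₀ hr0.ne', one_smul,
        ← Finset.sum_sub_distrib]
      refine (type_mass_sum _ _).trans ?_
      refine (Finset.sum_le_sum fun j hj => P.close j (Finset.mem_range.1 hj)).trans ?_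
      rw [Finset.sum_const, Finset.card_range, nsmul_eq_mul, mul_comm]

alias type_exists := type_exists_pr

end Pool.Agent.Lib_helper25.AD
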