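import Pool.Agent.Lib_helper25.AD.Base
import Pool.Agent.Lib_helper25.AD.Blk.NS
import Pool.Agent.Lib_helper25.AD.Blk.PAIR
import Pool.Agent.Lib_helper25.AD.Blk.RIS2
import Pool.Agent.Lib_helper25.AD.Blk.SING
import Pool.Agent.Lib_helper25.AD.Blk.TYPE

set_option autoImplicit false

open Finset

namespace Pool.Agent.Lib_helper25.AD

/-- THMS -/
theorem thmS_pr (ε : ℝ) (hε : 0 < ε) : ∃ M M' : Set E,
    (∀ h : ℕ → E, (∀ i, Prob (h i)) → (∀ i, Bef (h i) (h (i + 1))) →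
      ∃ (I : Finset ℕ) (β : ℕ → ℝ), TwoAdm I ∧ (∀ i ∈ I, 0 ≤ β i) ∧ ∑ i ∈ I, β i = 1 ∧
        ∑ i ∈ I, β i • h i ∈ M) ∧
    (∀ h : ℕ → E, (∀ i, Prob (h i)) → (∀ i, Bef (h i) (h (i + 1))) →
      ∃ (I : Finset ℕ) (β : ℕ → ℝ), TwoAdm I ∧ (∀ i ∈ I, 0 ≤ β i) ∧ ∑ i ∈ I, β i = 1 ∧
        ∑ i ∈ I, β i • h i ∈ M') ∧
    ∀ h ∈ M, ∀ h' ∈ M', ∃ A : Set ℕ, mass (res A h) ≤ ε ∧ mass (res Aᶜ h') ≤ ε := by
  obtain ⟨C₀, hC₀, hris⟩ := ris_main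
  have hC₀0 : 0 < C₀ := by linarith
  obtain ⟨n, hn⟩ := exists_NS
  obtain ⟨k, hk⟩ : ∃ k : ℕ, (4 * C₀ / ε) ^ 2 ≤ k := exists_nat_ge _
  have hfr : fS (2 ^ k) = 1 + k := by
    rw [fS]
    push_cast
    rw [Real.logb_pow, Real.logb_self_eq_one (by norm_num), mul_one]
  have hr : 1 ≤ 2 ^ k := Nat.one_le_two_pow
  have hbound : ε / 2 + 2 * C₀ / Real.sqrt (fS (2 ^ k)) ≤ ε := by
    rw [hfr]
    have hpos : 0 < 4 * C₀ / ε := by positivity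
    have h1 : 4 * C₀ / ε ≤ Real.sqrt (1 + k) := by
      apply Real.le_sqrt_of_sq_le
      linarith
    have h2 : 2 * C₀ / Real.sqrt (1 + k) ≤ 2 * C₀ / (4 * C₀ / ε) :=
      div_le_div_of_nonneg_left (by positivity) hpos h1
    have h3 : 2 * C₀ / (4 * C₀ / ε) = ε / 2 := by
      field_simp
      ring
    linarith
  obtain ⟨R, hR⟩ := pair_small C₀ hC₀ (2 ^ k) hr
  set r' := max R 1 with hr'
  refine ⟨MS n (2 ^ k) (ε / 2), MS n r' (ε / 2), ?_, ?_, ?_⟩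
  · intro h hp hs
    exact type_exists hn _ hr _ (by linarith) h hp hs
  · intro h hp hs
    exact type_exists hn _ (le_max_right _ _) _ (by linarith) h hp hs
  · rintro h ⟨x, xs, N, hx⟩ h' ⟨x', xs', N', hx'⟩
    have h1 : n (∑ j ∈ range (2 ^ k), x j) ≤ C₀ * GS (2 ^ k) := by
      have := hris n hn _ x N hx.ris (range (2 ^ k)) subset_rfl
      rwa [Finset.card_range] at this
    have h2 := hR r' (le_max_left _ _) n hn x' N' hx'.ris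
      (fun I hI => hris n hn _ x' N' hx'.ris I hI) xs hx.sucs hx.db
    obtain ⟨A, hA1, hA2⟩ := sing hn (2 ^ k) r' hr (le_max_right _ _) (ε / 2) C₀ hC₀ x xs x' xs' N N'
      h h' hx hx' h1 h2
    exact ⟨A, hA1.trans hbound, hA2.trans hbound⟩

alias thmS := thmS_pr

end Pool.Agent.Lib_helper25.AD
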