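import Pool.Agent.Lib_helper25.AD.Base

set_option autoImplicit false

open Finset Filter Topology

namespace Pool.Agent.Lib_helper25.AD

theorem REGL_dis (B : Set ℕ) (x y : E) : Dis (res B x) (res Bᶜ y) := by
  rw [Dis, Finset.disjoint_left]
  intro i hi hi'
  exact (mem_supp_res.1 hi').2 (mem_supp_res.1 hi).2

theorem reg_low_pr (μ μd : Seminorm ℝ E) (hμ : Lat μ) (hd : IsDual μ μd) (s : ℕ) (hs : 1 ≤ s)
    (h : LS μ s) (w g : E) (hw : μ w = 1) (hg : μd g ≤ 1) (hgw : pr g w = 1) (B : Set ℕ)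
    (δ : ℝ) (hδ : pr g (res B w) ≤ δ) (hδ1 : δ ≤ 1) : μ (res B w) ^ s ≤ s * δ := by
  have h1 : pr g (res B w) + pr g (res Bᶜ w) = 1 := by
    rw [← pr_add_dis g (REGL_dis B w w), res_add_compl, hgw]
  have h2 : pr g (res Bᶜ w) ≤ μ (res Bᶜ w) := by
    refine (hd.le g _).trans ?_
    calc μd g * μ (res Bᶜ w) ≤ 1 * μ (res Bᶜ w) :=
          mul_le_mul_of_nonneg_right hg (apply_nonneg μ _)
      _ = μ (res Bᶜ w) := one_mul _
  have h3 : 1 - δ ≤ μ (res Bᶜ w) := by linarith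
  have h4 : μ (res B w) ^ s + μ (res Bᶜ w) ^ s ≤ 1 := by
    have := h _ _ (REGL_dis B w w)
    rwa [res_add_compl, hw, one_pow] at this
  have h5 : (1 - δ) ^ s ≤ μ (res Bᶜ w) ^ s := pow_le_pow_left₀ (by linarith) h3 s
  have h6 : 1 - s * δ ≤ (1 - δ) ^ s := by
    have := one_add_mul_le_pow (a := -δ) (by linarith) s
    calc (1 : ℝ) - s * δ = 1 + s * (-δ) := by ring
      _ ≤ (1 + -δ) ^ s := this
      _ = (1 - δ) ^ s := by rw [sub_eq_add_neg]
  linarith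

alias reg_low := reg_low_pr

end Pool.Agent.Lib_helper25.AD
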