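import Pool.Agent.Lib_helper25.AD.Base

set_option autoImplicit false

open Finset Filter Topology

namespace Pool.Agent.Lib_helper25.AD

theorem REGU_dis (B : Set ℕ) (x y : E) : Dis (res Bᶜ x) (res B y) := by
  rw [Dis, Finset.disjoint_left]
  intro i hi hi'
  exact (mem_supp_res.1 hi).2 (mem_supp_res.1 hi').2

theorem REGU_swap (B : Set ℕ) (g u : E) : pr (res B g) u = pr g (res B u) := by
  classical
  rw [pr_eq_sum (g := res B g) (x := u) (Finset.Subset.refl _),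
    pr_eq_sum (g := g) (x := res B u) (supp_res_subset B u)]
  refine sum_congr rfl fun i _ => ?_
  rw [res_apply, res_apply]
  split_ifs <;> simp

theorem reg_upp_pr (μ μd : Seminorm ℝ E) (hμ : Lat μ) (hd : IsDual μ μd) (t : ℕ) (ht : 2 ≤ t)
    (h : UR μ ((t : ℝ) / ((t : ℝ) - 1))) (w g : E) (hw : μ w = 1) (hg : μd g ≤ 1)
    (hgw : pr g w = 1) (B : Set ℕ) (δ : ℝ) (hδ : pr g (res B w) ≤ δ) (hδ0 : 0 < δ)
    (hδ1 : δ ≤ 1) : μd (res B g) ≤ 2 * δ ^ ((1 : ℝ) / t) := by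
  have ht2 : (2 : ℝ) ≤ t := by exact_mod_cast ht
  set r : ℝ := (t : ℝ) / ((t : ℝ) - 1) with hr
  have hr0 : 0 < r := div_pos (by linarith) (by linarith)
  have hr1 : 1 ≤ r := by rw [hr, le_div_iff₀ (by linarith)]; linarith
  have hrt : 1 / r = 1 - 1 / (t : ℝ) := by
    rw [hr]
    have h1 : (t : ℝ) ≠ 0 := by positivity
    have h2 : (t : ℝ) - 1 ≠ 0 := by linarith
    field_simp
  refine hd.sup _ _ (by positivity) fun u hu => ?_
  rw [REGU_swap]
  set P := pr g (res B u) with hP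
  set τ : ℝ := δ ^ (1 / r) with hτ
  have hτ0 : 0 < τ := Real.rpow_pos_of_pos hδ0 _
  have hτr : τ ^ r = δ := by
    rw [hτ, ← Real.rpow_mul hδ0.le, one_div_mul_cancel hr0.ne', Real.rpow_one]
  have h1 : pr g (res Bᶜ w) + pr g (res B w) = 1 := by
    rw [← pr_add_dis g (REGU_dis B w w), add_comm, res_add_compl, hgw]
  have h2 : 1 - δ + τ * P ≤ pr g (res Bᶜ w + res B (τ • u)) := by
    rw [pr_add_dis g (REGU_dis B w (τ • u)), map_smul, pr_smul, abs_of_pos hτ0]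
    linarith
  have h3 : pr g (res Bᶜ w + res B (τ • u)) ≤ μ (res Bᶜ w + res B (τ • u)) := by
    refine (hd.le g _).trans ?_
    calc μd g * μ (res Bᶜ w + res B (τ • u)) ≤ 1 * μ (res Bᶜ w + res B (τ • u)) :=
          mul_le_mul_of_nonneg_right hg (apply_nonneg μ _)
      _ = _ := one_mul _
  have h4 : μ (res Bᶜ w + res B (τ • u)) ^ r ≤ 1 + δ := by
    refine (h _ _ (REGU_dis B w (τ • u))).trans ?_
    have h5 : μ (res Bᶜ w) ≤ 1 := by rw [← hw]; exact hμ.res_le _ _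
    have h6 : μ (res B (τ • u)) ≤ τ := by
      calc μ (res B (τ • u)) ≤ μ (τ • u) := hμ.res_le _ _
        _ = τ * μ u := by rw [map_smul_eq_mul, Real.norm_eq_abs, abs_of_pos hτ0]
        _ ≤ τ * 1 := mul_le_mul_of_nonneg_left hu hτ0.le
        _ = τ := mul_one _
    have h7 : μ (res Bᶜ w) ^ r ≤ 1 := Real.rpow_le_one (apply_nonneg μ _) h5 hr0.le
    have h8 : μ (res B (τ • u)) ^ r ≤ δ := by
      rw [← hτr]; exact Real.rpow_le_rpow (apply_nonneg μ _) h6 hr0.le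
    linarith
  have h9 : μ (res Bᶜ w + res B (τ • u)) ≤ 1 + δ := by
    have h10 : (1 : ℝ) + δ ≤ (1 + δ) ^ r := by
      calc (1 : ℝ) + δ = (1 + δ) ^ (1 : ℝ) := (Real.rpow_one _).symm
        _ ≤ (1 + δ) ^ r := Real.rpow_le_rpow_of_exponent_le (by linarith) hr1
    exact (Real.rpow_le_rpow_iff (apply_nonneg μ _) (by linarith) hr0).1 (h4.trans h10)
  have h11 : τ * P ≤ 2 * δ := by linarith
  have h12 : τ * δ ^ ((1 : ℝ) / t) = δ := by
    rw [hτ, ← Real.rpow_add hδ0, hrt]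
    simp
  have h13 : τ * P ≤ τ * (2 * δ ^ ((1 : ℝ) / t)) := by
    calc τ * P ≤ 2 * δ := h11
      _ = τ * (2 * δ ^ ((1 : ℝ) / t)) := by rw [← mul_assoc, mul_comm τ 2, mul_assoc, h12]
  exact le_of_mul_le_mul_left h13 hτ0

alias reg_upp := reg_upp_pr

end Pool.Agent.Lib_helper25.AD
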