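import Pool.Agent.Lib_helper25.AD.Base
import Pool.Agent.Lib_helper25.AD.Blk.REGL
import Pool.Agent.Lib_helper25.AD.Blk.REGU

/-!
# Blocks TV1, TV2, TV3 (helper85)
-/

set_option autoImplicit false

open Finset

namespace Pool.Agent.Lib_helper25.AD

theorem TV_had_apply (g x : E) (k : ℕ) : had g x k = |g k| * |x k| := by
  simp [had, Finsupp.zipWith_apply]

theorem TV_had_nonneg (g x : E) (k : ℕ) : 0 ≤ had g x k := by
  rw [TV_had_apply]; positivity

theorem TV_mass_eq {h : E} {S : Finset ℕ} (hS : h.support ⊆ S) : mass h = ∑ i ∈ S, |h i| := by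
  rw [mass]
  apply Finset.sum_subset hS
  intro i _ hi
  have h0 : h i = 0 := by simpa using hi
  simp [h0]

/-- supports of different blocks are disjoint -/
theorem TV_disj {w : ℕ → E} (hw : IsBlk w) {i j : ℕ} (hij : i ≠ j) {k : ℕ}
    (hi : k ∈ (w i).support) : k ∉ (w j).support := by
  intro hj
  rcases lt_or_gt_of_ne hij with h | h
  · exact absurd (hw.bef h k hi k hj) (lt_irrefl _)
  · exact absurd (hw.bef h k hj k hi) (lt_irrefl _)

/-- value of a block combination on the support of a block -/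
theorem TV_sum_apply {w : ℕ → E} (hw : IsBlk w) (I : Finset ℕ) (c : ℕ → ℝ) (u : ℕ → E)
    (hu : ∀ i, (u i).support ⊆ (w i).support) {i k : ℕ} (hi : i ∈ I) (hk : k ∈ (w i).support) :
    (∑ j ∈ I, c j • u j : E) k = c i * u i k := by
  rw [Finsupp.finsetSum_apply, Finset.sum_eq_single i]
  · simp
  · intro j _ hji
    have h1 : k ∉ (w j).support := TV_disj hw (Ne.symm hji) hk
    have h2 : k ∉ (u j).support := fun h => h1 (hu j h)
    have h3 : u j k = 0 := by simpa using h2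
    simp [h3]
  · intro h; exact absurd hi h

/-- the key identity -/
theorem TV_key {μ μd : Seminorm ℝ E} {p : ℝ} (hp : 1 < p) {w g : ℕ → E} {I : Finset ℕ}
    {β : ℕ → ℝ} {v vs : E} (h : IsTV μ μd p w g I β v vs) (A : Set ℕ) :
    mass (res A (had vs v)) = ∑ i ∈ I, β i * pr (g i) (res A (w i)) := by
  classical
  set S : Finset ℕ := I.biUnion fun i => (w i).support with hS
  have hsub : (res A (had vs v)).support ⊆ S := by
    intro k hk
    rw [mem_supp_res] at hk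
    have h1 : had vs v k ≠ 0 := by simpa using hk.1
    rw [TV_had_apply] at h1
    by_contra hc
    apply h1
    have : v k = 0 := by
      rw [h.hv, Finsupp.finsetSum_apply]
      apply Finset.sum_eq_zero
      intro i hi
      have : k ∉ (w i).support := fun h' => hc (by
        rw [hS, Finset.mem_biUnion]; exact ⟨i, hi, h'⟩)
      have h3 : w i k = 0 := by simpa using this
      simp [h3]
    simp [this]
  rw [TV_mass_eq hsub, hS, Finset.sum_biUnion]
  · apply Finset.sum_congr rfl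
    intro i hi
    rw [pr_eq_sum (S := (w i).support) (supp_res_subset A (w i)), Finset.mul_sum]
    apply Finset.sum_congr rfl
    intro k hk
    have hv : v k = β i ^ (1 / p) * w i k := by
      rw [h.hv]
      exact TV_sum_apply h.blk I _ w (fun i => Finset.Subset.refl _) hi hk
    have hvs : vs k = β i ^ (1 - 1 / p) * g i k := by
      rw [h.hvs]
      exact TV_sum_apply h.blk I _ g h.sg hi hk
    have hb : β i ^ (1 / p) * β i ^ (1 - 1 / p) = β i := by
      rcases eq_or_lt_of_le (h.nb i hi) with h0 | h0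
      · rw [← h0, Real.zero_rpow (by positivity), zero_mul]
      · rw [← Real.rpow_add h0]
        have : 1 / p + (1 - 1 / p) = 1 := by ring
        rw [this, Real.rpow_one]
    rw [res_apply, res_apply]
    by_cases hA : k ∈ A
    · rw [if_pos hA, if_pos hA, abs_of_nonneg (TV_had_nonneg _ _ _), TV_had_apply, hv, hvs,
        abs_mul, abs_mul, abs_of_nonneg (Real.rpow_nonneg (h.nb i hi) _),
        abs_of_nonneg (Real.rpow_nonneg (h.nb i hi) _)]
      calc β i ^ (1 - 1 / p) * |g i k| * (β i ^ (1 / p) * |w i k|)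
          = (β i ^ (1 / p) * β i ^ (1 - 1 / p)) * (|g i k| * |w i k|) := by ring
        _ = β i * (|g i k| * |w i k|) := by rw [hb]
    · rw [if_neg hA, if_neg hA]; simp
  · intro i _ j _ hij
    rw [Function.onFun, Finset.disjoint_left]
    intro k hk
    exact TV_disj h.blk hij hk

theorem TV_res_univ (x : E) : res Set.univ x = x := res_self fun _ _ => trivial

theorem TV_pr_vs {μ μd : Seminorm ℝ E} {p : ℝ} (hp : 1 < p) {w g : ℕ → E} {I : Finset ℕ}
    {β : ℕ → ℝ} {v vs : E} (h : IsTV μ μd p w g I β v vs) : pr vs v = 1 := by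
  have h1 := TV_key hp h Set.univ
  simp only [TV_res_univ] at h1
  have h2 : mass (had vs v) = pr vs v := by
    rw [TV_mass_eq (S := v.support), pr]
    · apply Finset.sum_congr rfl
      intro k _
      rw [abs_of_nonneg (TV_had_nonneg _ _ _), TV_had_apply]
    · intro k hk
      have h3 : had vs v k ≠ 0 := by simpa using hk
      rw [TV_had_apply] at h3
      rw [Finsupp.mem_support_iff]
      intro h0
      apply h3
      simp [h0]
  rw [← h2, h1]
  rw [Finset.sum_congr rfl fun i hi => by rw [h.pg i, mul_one]]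
  exact h.sb

/-- the upper bound for block combinations -/
theorem TV_upper {μ : Seminorm ℝ E} {p B : ℝ} (hp : 1 < p)
    (hU : ∀ (w : ℕ → E) (I : Finset ℕ), IsBlk w → TwoAdm I → ∀ u : ℕ → E,
      (∀ i, (u i).support ⊆ (w i).support) →
        μ (∑ i ∈ I, u i) ^ p ≤ B * ∑ i ∈ I, μ (u i) ^ p)
    {w : ℕ → E} (hw : IsBlk w) {I : Finset ℕ} (hI : TwoAdm I) {β : ℕ → ℝ}
    (hβ : ∀ i ∈ I, 0 ≤ β i) (u : ℕ → E) (hu : ∀ i, (u i).support ⊆ (w i).support) :
    μ (∑ i ∈ I, (β i ^ (1 / p)) • u i) ^ p ≤ B * ∑ i ∈ I, β i * μ (u i) ^ p := by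
  have h1 := hU w I hw hI (fun i => (β i ^ (1 / p)) • u i)
    (fun i => (Finsupp.support_smul).trans (hu i))
  refine h1.trans (le_of_eq ?_)
  congr 1
  apply Finset.sum_congr rfl
  intro i hi
  have h2 : 0 ≤ β i ^ (1 / p) := Real.rpow_nonneg (hβ i hi) _
  rw [map_smul_eq_mul, Real.norm_of_nonneg h2, Real.mul_rpow h2 (apply_nonneg μ _),
    ← Real.rpow_mul (hβ i hi)]
  have : 1 / p * p = 1 := by field_simp
  rw [this, Real.rpow_one]

/-- the upper bound for dual block combinations -/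
theorem TV_upper_dual {μd : Seminorm ℝ E} {p B : ℝ} (hp : 1 < p)
    (hLd : ∀ (w : ℕ → E) (I : Finset ℕ), IsBlk w → TwoAdm I → ∀ g : ℕ → E,
      (∀ i, (g i).support ⊆ (w i).support) →
        μd (∑ i ∈ I, g i) ≤ B * (∑ i ∈ I, μd (g i) ^ (p / (p - 1))) ^ (1 - 1 / p))
    {w : ℕ → E} (hw : IsBlk w) {I : Finset ℕ} (hI : TwoAdm I) {β : ℕ → ℝ}
    (hβ : ∀ i ∈ I, 0 ≤ β i) (u : ℕ → E) (hu : ∀ i, (u i).support ⊆ (w i).support) :
    μd (∑ i ∈ I, (β i ^ (1 - 1 / p)) • u i) ≤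
      B * (∑ i ∈ I, β i * μd (u i) ^ (p / (p - 1))) ^ (1 - 1 / p) := by
  have h1 := hLd w I hw hI (fun i => (β i ^ (1 - 1 / p)) • u i)
    (fun i => (Finsupp.support_smul).trans (hu i))
  refine h1.trans (le_of_eq ?_)
  congr 2
  apply Finset.sum_congr rfl
  intro i hi
  have h2 : 0 ≤ β i ^ (1 - 1 / p) := Real.rpow_nonneg (hβ i hi) _
  rw [map_smul_eq_mul, Real.norm_of_nonneg h2, Real.mul_rpow h2 (apply_nonneg μd _),
    ← Real.rpow_mul (hβ i hi)]
  have hp1 : p - 1 ≠ 0 := by linarith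
  have hp0 : p ≠ 0 := by linarith
  have : (1 - 1 / p) * (p / (p - 1)) = 1 := by
    field_simp
  rw [this, Real.rpow_one]

theorem TV_root {x B p : ℝ} (hx : 0 ≤ x) (hp : 1 < p) (hB : 1 ≤ B) (y : ℝ) (hy : 0 ≤ y)
    (h : x ^ p ≤ B * y ^ p) : x ≤ B * y := by
  have hp0 : 0 < p := by linarith
  have h1 : B ≤ B ^ p := by
    have := Real.rpow_le_rpow_of_exponent_le hB hp.le
    rwa [Real.rpow_one] at this
  have h2 : x ^ p ≤ (B * y) ^ p := by
    rw [Real.mul_rpow (by linarith) hy]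
    exact h.trans (mul_le_mul_of_nonneg_right h1 (Real.rpow_nonneg hy _))
  exact (Real.rpow_le_rpow_iff hx (by positivity) hp0).1 h2

/-- TV1 (cites TWO via hypotheses) -/
theorem tv_bounds_pr {μ μd : Seminorm ℝ E} (hμ : Lat μ) (hμd : Lat μd) (hd : IsDual μ μd)
    {p B : ℝ} (hp : 1 < p) (hB : 1 ≤ B)
    (hU : ∀ (w : ℕ → E) (I : Finset ℕ), IsBlk w → TwoAdm I → ∀ u : ℕ → E,
      (∀ i, (u i).support ⊆ (w i).support) →
        μ (∑ i ∈ I, u i) ^ p ≤ B * ∑ i ∈ I, μ (u i) ^ p)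
    (hLd : ∀ (w : ℕ → E) (I : Finset ℕ), IsBlk w → TwoAdm I → ∀ g : ℕ → E,
      (∀ i, (g i).support ⊆ (w i).support) →
        μd (∑ i ∈ I, g i) ≤ B * (∑ i ∈ I, μd (g i) ^ (p / (p - 1))) ^ (1 - 1 / p))
    {w g : ℕ → E} {I : Finset ℕ} {β : ℕ → ℝ} {v vs : E} (h : IsTV μ μd p w g I β v vs) :
    μ v ≤ B ∧ μd vs ≤ B ∧ pr vs v = 1 := by
  have hp0 : 0 < p := by linarith
  refine ⟨?_, ?_, TV_pr_vs hp h⟩
  · have h1 := TV_upper hp hU h.blk h.adm h.nb w (fun i => Finset.Subset.refl _)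
    rw [← h.hv] at h1
    have h2 : ∑ i ∈ I, β i * μ (w i) ^ p = 1 := by
      rw [Finset.sum_congr rfl fun i _ => by rw [h.nw i, Real.one_rpow, mul_one]]
      exact h.sb
    rw [h2] at h1
    have := TV_root (apply_nonneg μ v) hp hB 1 zero_le_one (by rwa [Real.one_rpow])
    rwa [mul_one] at this
  · have h1 := TV_upper_dual hp hLd h.blk h.adm h.nb g h.sg
    rw [← h.hvs] at h1
    have hq : 0 ≤ p / (p - 1) := div_nonneg hp0.le (by linarith)
    have h2 : ∑ i ∈ I, β i * μd (g i) ^ (p / (p - 1)) ≤ 1 := by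
      refine le_trans (Finset.sum_le_sum (g := β) ?_) (le_of_eq h.sb)
      intro i hi
      have h3 : μd (g i) ^ (p / (p - 1)) ≤ 1 := Real.rpow_le_one (apply_nonneg μd _) (h.ng i) hq
      calc β i * μd (g i) ^ (p / (p - 1)) ≤ β i * 1 := mul_le_mul_of_nonneg_left h3 (h.nb i hi)
        _ = β i := mul_one _
    have h3 : 0 ≤ ∑ i ∈ I, β i * μd (g i) ^ (p / (p - 1)) :=
      Finset.sum_nonneg fun i hi => mul_nonneg (h.nb i hi) (Real.rpow_nonneg (apply_nonneg μd _) _)
    have h4 : (0 : ℝ) ≤ 1 - 1 / p := by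
      have : 1 / p ≤ 1 := by rw [div_le_one hp0]; exact hp.le
      linarith
    have h5 : (∑ i ∈ I, β i * μd (g i) ^ (p / (p - 1))) ^ (1 - 1 / p) ≤ 1 :=
      Real.rpow_le_one h3 h2 h4
    calc μd vs ≤ B * (∑ i ∈ I, β i * μd (g i) ^ (p / (p - 1))) ^ (1 - 1 / p) := h1
      _ ≤ B * 1 := mul_le_mul_of_nonneg_left h5 (by linarith)
      _ = B := mul_one _

/-- Jensen for powers at most one -/
theorem TV_jensen (I : Finset ℕ) (β x : ℕ → ℝ) (hβ : ∀ i ∈ I, 0 ≤ β i) (hs : ∑ i ∈ I, β i = 1)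
    (hx : ∀ i ∈ I, 0 ≤ x i) (θ : ℝ) (h0 : 0 < θ) (h1 : θ ≤ 1) :
    ∑ i ∈ I, β i * x i ^ θ ≤ (∑ i ∈ I, β i * x i) ^ θ := by
  have h2 := Real.rpow_arith_mean_le_arith_mean_rpow I β (fun i => x i ^ θ) hβ hs
    (fun i hi => Real.rpow_nonneg (hx i hi) _) (p := 1 / θ) (by rw [le_div_iff₀ h0]; linarith)
  have h3 : ∑ i ∈ I, β i * (x i ^ θ) ^ (1 / θ) = ∑ i ∈ I, β i * x i := by
    apply Finset.sum_congr rfl
    intro i hi
    rw [← Real.rpow_mul (hx i hi)]
    have : θ * (1 / θ) = 1 := by field_simp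
    rw [this, Real.rpow_one]
  rw [h3] at h2
  have h4 : 0 ≤ ∑ i ∈ I, β i * x i ^ θ :=
    Finset.sum_nonneg fun i hi => mul_nonneg (hβ i hi) (Real.rpow_nonneg (hx i hi) _)
  have h5 := Real.rpow_le_rpow (Real.rpow_nonneg h4 _) h2 h0.le
  rw [← Real.rpow_mul h4] at h5
  have : 1 / θ * θ = 1 := by field_simp
  rwa [this, Real.rpow_one] at h5

theorem TV_pr_res_le (g w : E) (A : Set ℕ) : pr g (res A w) ≤ pr g w :=
  pr_mono (fun _ => le_rfl) (abs_res_le A w)

theorem TV_res_sum (A : Set ℕ) (I : Finset ℕ) (c : ℕ → ℝ) (u : ℕ → E) :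
    res A (∑ i ∈ I, c i • u i) = ∑ i ∈ I, c i • res A (u i) := by
  rw [map_sum]
  apply Finset.sum_congr rfl
  intro i _
  rw [map_smul]

/-- TV2 (cites REGL) -/
theorem tv_low_pr {μ μd : Seminorm ℝ E} (hμ : Lat μ) (hμd : Lat μd) (hd : IsDual μ μd)
    {p B : ℝ} (hp : 1 < p) (hB : 1 ≤ B) (s : ℕ) (hs : p ≤ s) (hLS : LS μ s)
    (hU : ∀ (w : ℕ → E) (I : Finset ℕ), IsBlk w → TwoAdm I → ∀ u : ℕ → E,
      (∀ i, (u i).support ⊆ (w i).support) →
        μ (∑ i ∈ I, u i) ^ p ≤ B * ∑ i ∈ I, μ (u i) ^ p)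
    {w g : ℕ → E} {I : Finset ℕ} {β : ℕ → ℝ} {v vs : E} (h : IsTV μ μd p w g I β v vs)
    (A : Set ℕ) (δ : ℝ) (hδ : mass (res A (had vs v)) ≤ δ) :
    μ (res A v) ≤ B * ((s : ℝ) * δ) ^ ((1 : ℝ) / s) := by
  have hp0 : 0 < p := by linarith
  have hs0 : (0 : ℝ) < s := by linarith
  have hs1 : 1 ≤ s := by
    have : (1 : ℝ) ≤ s := by linarith
    exact_mod_cast this
  rw [TV_key hp h A] at hδ
  set d : ℕ → ℝ := fun i => pr (g i) (res A (w i)) with hd'
  have hd0 : ∀ i, 0 ≤ d i := fun i => pr_nonneg _ _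
  have hd1 : ∀ i, d i ≤ 1 := fun i => by
    rw [← h.pg i]; exact TV_pr_res_le _ _ _
  have hδ0 : 0 ≤ δ := le_trans (Finset.sum_nonneg fun i hi => mul_nonneg (h.nb i hi) (hd0 i)) hδ
  have hreg : ∀ i, μ (res A (w i)) ^ p ≤ ((s : ℝ) * d i) ^ (p / s) := by
    intro i
    have h1 := reg_low μ μd hμ hd s hs1 hLS (w i) (g i) (h.nw i) (h.ng i) (h.pg i) A (d i) le_rfl
      (hd1 i)
    have h2 : μ (res A (w i)) ^ p = (μ (res A (w i)) ^ s) ^ (p / s) := by
      rw [← Real.rpow_natCast, ← Real.rpow_mul (apply_nonneg μ _)]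
      congr 1
      field_simp
    rw [h2]
    exact Real.rpow_le_rpow (pow_nonneg (apply_nonneg μ _) _) h1 (by positivity)
  have h1 := TV_upper hp hU h.blk h.adm h.nb (fun i => res A (w i))
    (fun i => supp_res_subset A (w i))
  rw [← TV_res_sum, ← h.hv] at h1
  have h2 : ∑ i ∈ I, β i * μ (res A (w i)) ^ p ≤ ((s : ℝ) * δ) ^ (p / s) := by
    calc ∑ i ∈ I, β i * μ (res A (w i)) ^ p ≤ ∑ i ∈ I, β i * ((s : ℝ) * d i) ^ (p / s) :=
          Finset.sum_le_sum fun i hi => mul_le_mul_of_nonneg_left (hreg i) (h.nb i hi)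
      _ ≤ (∑ i ∈ I, β i * ((s : ℝ) * d i)) ^ (p / s) :=
          TV_jensen I β (fun i => (s : ℝ) * d i) h.nb h.sb
            (fun i _ => mul_nonneg hs0.le (hd0 i)) (p / s) (by positivity)
            (by rw [div_le_one hs0]; exact hs)
      _ ≤ ((s : ℝ) * δ) ^ (p / s) := by
          apply Real.rpow_le_rpow
          · exact Finset.sum_nonneg fun i hi =>
              mul_nonneg (h.nb i hi) (mul_nonneg hs0.le (hd0 i))
          · have : ∑ i ∈ I, β i * ((s : ℝ) * d i) = (s : ℝ) * ∑ i ∈ I, β i * d i := by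
              rw [Finset.mul_sum]
              apply Finset.sum_congr rfl
              intro i _; ring
            rw [this]
            exact mul_le_mul_of_nonneg_left hδ hs0.le
          · positivity
  have h3 : 0 ≤ (s : ℝ) * δ := by positivity
  apply TV_root (apply_nonneg μ _) hp hB _ (Real.rpow_nonneg h3 _)
  rw [← Real.rpow_mul h3]
  have h4 : (1 : ℝ) / s * p = p / s := by ring
  rw [h4]
  exact h1.trans (mul_le_mul_of_nonneg_left h2 (by linarith))

/-- TV3 (cites REGU) -/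
theorem tv_upp_pr {μ μd : Seminorm ℝ E} (hμ : Lat μ) (hμd : Lat μd) (hd : IsDual μ μd)
    {p B : ℝ} (hp : 1 < p) (hB : 1 ≤ B) (t : ℕ) (ht : 2 ≤ t) (ht' : p / (p - 1) ≤ t)
    (hUR : UR μ ((t : ℝ) / ((t : ℝ) - 1)))
    (hLd : ∀ (w : ℕ → E) (I : Finset ℕ), IsBlk w → TwoAdm I → ∀ g : ℕ → E,
      (∀ i, (g i).support ⊆ (w i).support) →
        μd (∑ i ∈ I, g i) ≤ B * (∑ i ∈ I, μd (g i) ^ (p / (p - 1))) ^ (1 - 1 / p))
    {w g : ℕ → E} {I : Finset ℕ} {β : ℕ → ℝ} {v vs : E} (h : IsTV μ μd p w g I β v vs)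
    (A : Set ℕ) (δ : ℝ) (hδ0 : 0 < δ) (hδ : mass (res A (had vs v)) ≤ δ) :
    μd (res A vs) ≤ B * (2 * δ ^ ((1 : ℝ) / t)) := by
  have hp0 : 0 < p := by linarith
  have ht0 : (0 : ℝ) < t := by
    have : (2 : ℝ) ≤ t := by exact_mod_cast ht
    linarith
  have hq0 : 0 < p / (p - 1) := div_pos hp0 (by linarith)
  rw [TV_key hp h A] at hδ
  set q : ℝ := p / (p - 1) with hq
  set d : ℕ → ℝ := fun i => pr (g i) (res A (w i)) with hd'
  have hd0 : ∀ i, 0 ≤ d i := fun i => pr_nonneg _ _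
  have hd1 : ∀ i, d i ≤ 1 := fun i => by
    rw [← h.pg i]; exact TV_pr_res_le _ _ _
  have hreg : ∀ i, μd (res A (g i)) ≤ 2 * d i ^ ((1 : ℝ) / t) := by
    intro i
    rcases eq_or_lt_of_le (hd0 i) with h0 | h0
    · -- limit
      have hcont : Filter.Tendsto (fun x : ℝ => 2 * x ^ ((1 : ℝ) / t)) (nhdsWithin 0 (Set.Ioi 0))
          (nhds (2 * (0 : ℝ) ^ ((1 : ℝ) / t))) := by
        apply Filter.Tendsto.const_mul
        apply ((Real.continuous_rpow_const (by positivity)).tendsto 0).mono_left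
        exact nhdsWithin_le_nhds
      rw [← h0]
      apply ge_of_tendsto hcont
      have : Set.Ioc (0 : ℝ) 1 ∈ nhdsWithin (0 : ℝ) (Set.Ioi 0) :=
        Ioc_mem_nhdsGT one_pos
      filter_upwards [this] with x hx
      exact reg_upp μ μd hμ hd t ht hUR (w i) (g i) (h.nw i) (h.ng i) (h.pg i) A x
        (by rw [← hd'] at *; exact (le_of_eq h0.symm).trans hx.1.le) hx.1 hx.2
    · exact reg_upp μ μd hμ hd t ht hUR (w i) (g i) (h.nw i) (h.ng i) (h.pg i) A (d i) le_rfl h0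
        (hd1 i)
  have h1 := TV_upper_dual hp hLd h.blk h.adm h.nb (fun i => res A (g i))
    (fun i => (supp_res_subset A (g i)).trans (h.sg i))
  rw [← TV_res_sum, ← h.hvs] at h1
  have h2 : ∑ i ∈ I, β i * μd (res A (g i)) ^ q ≤ 2 ^ q * δ ^ (q / t) := by
    calc ∑ i ∈ I, β i * μd (res A (g i)) ^ q
        ≤ ∑ i ∈ I, β i * (2 ^ q * d i ^ (q / t)) := by
          apply Finset.sum_le_sum
          intro i hi
          apply mul_le_mul_of_nonneg_left _ (h.nb i hi)
          have h3 := Real.rpow_le_rpow (apply_nonneg μd _) (hreg i) hq0.le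
          rw [Real.mul_rpow (by norm_num) (Real.rpow_nonneg (hd0 i) _),
            ← Real.rpow_mul (hd0 i)] at h3
          have h4 : (1 : ℝ) / t * q = q / t := by ring
          rwa [h4] at h3
      _ = 2 ^ q * ∑ i ∈ I, β i * d i ^ (q / t) := by
          rw [Finset.mul_sum]
          apply Finset.sum_congr rfl
          intro i _; ring
      _ ≤ 2 ^ q * (∑ i ∈ I, β i * d i) ^ (q / t) := by
          apply mul_le_mul_of_nonneg_left _ (by positivity)
          exact TV_jensen I β d h.nb h.sb (fun i _ => hd0 i) (q / t) (by positivity)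
            (by rw [div_le_one ht0]; exact ht')
      _ ≤ 2 ^ q * δ ^ (q / t) := by
          apply mul_le_mul_of_nonneg_left _ (by positivity)
          apply Real.rpow_le_rpow _ hδ (by positivity)
          exact Finset.sum_nonneg fun i hi => mul_nonneg (h.nb i hi) (hd0 i)
  have h3 : 0 ≤ ∑ i ∈ I, β i * μd (res A (g i)) ^ q :=
    Finset.sum_nonneg fun i hi => mul_nonneg (h.nb i hi) (Real.rpow_nonneg (apply_nonneg μd _) _)
  have hqq : 1 - 1 / p = 1 / q := by
    rw [hq]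
    have hp1 : p - 1 ≠ 0 := by linarith
    field_simp
  have h4 : (∑ i ∈ I, β i * μd (res A (g i)) ^ q) ^ (1 - 1 / p) ≤ 2 * δ ^ ((1 : ℝ) / t) := by
    rw [hqq]
    calc (∑ i ∈ I, β i * μd (res A (g i)) ^ q) ^ (1 / q)
        ≤ (2 ^ q * δ ^ (q / t)) ^ (1 / q) := Real.rpow_le_rpow h3 h2 (by positivity)
      _ = 2 * δ ^ ((1 : ℝ) / t) := by
          rw [Real.mul_rpow (by positivity) (by positivity), ← Real.rpow_mul (by norm_num),
            ← Real.rpow_mul hδ0.le]
          have e1 : q * (1 / q) = 1 := by field_simp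
          have e2 : q / t * (1 / q) = 1 / t := by field_simp
          rw [e1, e2, Real.rpow_one]
  exact h1.trans (mul_le_mul_of_nonneg_left h4 (by linarith))

alias tv_bounds := tv_bounds_pr

alias tv_low := tv_low_pr

alias tv_upp := tv_upp_pr

end Pool.Agent.Lib_helper25.AD
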