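import Pool.Agent.Lib_helper25.AD.Base

/-!
# MP_a4bf89_an: block TWO
-/

set_option autoImplicit false

open Finset

namespace Pool.Agent.Lib_helper25.AD

theorem TWO_disj {w : ℕ → E} (hw : IsBlk w) {i j t : ℕ} (hi : t ∈ (w i).support)
    (hj : t ∈ (w j).support) : i = j := by
  rcases lt_trichotomy i j with h | h | h
  · exact absurd (hw.bef h t hi t hj) (lt_irrefl t)
  · exact h
  · exact absurd (hw.bef h t hj t hi) (lt_irrefl t)

theorem TWO_col {w : ℕ → E} (hw : IsBlk w) (J : Finset ℕ) (u : ℕ → E)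
    (hu : ∀ i, (u i).support ⊆ (w i).support) (m : ℕ) (hm : 0 < m) (f : ℕ → ℕ)
    (hf : ∀ i ∈ J, f i < m) :
    ∃ c : ℕ → ℕ, (∀ t, c t < m) ∧
      ∀ k, cls c k (∑ i ∈ J, u i) = ∑ i ∈ J.filter (fun i => f i = k), u i := by
  classical
  have key : ∀ t : ℕ, ∃ v : ℕ, v < m ∧ ∀ i ∈ J, t ∈ (w i).support → v = f i := by
    intro t
    by_cases ht : ∃ i ∈ J, t ∈ (w i).support
    · obtain ⟨i, hi, hti⟩ := ht
      refine ⟨f i, hf i hi, fun j _ htj => ?_⟩
      rw [TWO_disj hw hti htj]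
    · refine ⟨0, hm, fun i hi hti => absurd ⟨i, hi, hti⟩ ht⟩
  choose c hc1 hc2 using key
  refine ⟨c, hc1, fun k => ?_⟩
  rw [map_sum, Finset.sum_filter]
  apply Finset.sum_congr rfl
  intro i hi
  split_ifs with h
  · exact res_self fun t ht => by
      show c t = k
      rw [hc2 t i hi (hu i ht), h]
  · exact res_eq_zero fun t ht => by
      show ¬ c t = k
      rw [hc2 t i hi (hu i ht)]
      exact h

theorem TWO_group {ν : Seminorm ℝ E} {p C : ℝ} {T₀ : ℕ} (h : SA ν p C T₀) {w : ℕ → E}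
    (hw : IsBlk w) (J : Finset ℕ) (u : ℕ → E)
    (hu : ∀ i, (u i).support ⊆ (w i).support) (m : ℕ) (hm : 0 < m) (f : ℕ → ℕ)
    (hf : ∀ i ∈ J, f i < m) (hJ : ∀ i ∈ J, m ≤ i) :
    ∑ k ∈ range m, ν (∑ i ∈ J.filter (fun i => f i = k), u i) ^ p ≤
        C * ν (∑ i ∈ J, u i) ^ p ∧
      ν (∑ i ∈ J, u i) ^ p ≤
        C * ∑ k ∈ range m, ν (∑ i ∈ J.filter (fun i => f i = k), u i) ^ p := by
  classical
  obtain ⟨c, hc1, hc2⟩ := TWO_col hw J u hu m hm f hf
  have hsup : ∀ t ∈ (∑ i ∈ J, u i).support, m ≤ t + T₀ := by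
    intro t ht
    have h1 : t ∈ J.biUnion fun i => (u i).support := Finsupp.support_finset_sum ht
    rw [Finset.mem_biUnion] at h1
    obtain ⟨i, hi, hti⟩ := h1
    have h2 : st hw i ≤ t := st_le hw (hu i hti)
    have h3 := le_st hw i
    have h4 := hJ i hi
    omega
  have h1 := h m c _ hc1 hsup
  simp only [LowAt, UppAt, hc2] at h1
  exact h1

/-- TWO -/
theorem two_est_pr {ν : Seminorm ℝ E} {p C : ℝ} {T₀ : ℕ} (hp : 1 < p) (hC : 1 ≤ C)
    (h : SA ν p C T₀) {w : ℕ → E} (hw : IsBlk w) {I : Finset ℕ} (hI : TwoAdm I) (u : ℕ → E)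
    (hu : ∀ i, (u i).support ⊆ (w i).support) :
    ν (∑ i ∈ I, u i) ^ p ≤ C ^ 2 * ∑ i ∈ I, ν (u i) ^ p ∧
      ∑ i ∈ I, ν (u i) ^ p ≤ C ^ 2 * ν (∑ i ∈ I, u i) ^ p := by
  classical
  obtain ⟨n, J, hIJ, hne, hlt, hn, hcard⟩ := hI
  have hp0 : p ≠ 0 := by linarith
  have hC0 : 0 ≤ C := by linarith
  rcases Nat.eq_zero_or_pos n with h0 | hpos
  · subst h0
    have hI0 : I = ∅ := by rw [hIJ]; simp
    rw [hI0]
    simp [Real.zero_rpow hp0]
  -- the outer colouring
  have key : ∀ i : ℕ, ∃ v : ℕ, (i ∈ I → v < n) ∧ ∀ j < n, i ∈ J j → v = j := by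
    intro i
    by_cases hi : ∃ j, j < n ∧ i ∈ J j
    · obtain ⟨j, hj, hij⟩ := hi
      refine ⟨j, fun _ => hj, fun j' hj' hij' => ?_⟩
      rcases lt_trichotomy j j' with h1 | h1 | h1
      · exact absurd (hlt j j' h1 hj' i hij i hij') (lt_irrefl i)
      · exact h1
      · exact absurd (hlt j' j h1 hj i hij' i hij) (lt_irrefl i)
    · refine ⟨0, fun hiI => ?_, fun j hj hij => absurd ⟨j, hj, hij⟩ hi⟩
      rw [hIJ, Finset.mem_biUnion] at hiI
      obtain ⟨j, hj, hij⟩ := hiI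
      exact absurd ⟨j, Finset.mem_range.1 hj, hij⟩ hi
  choose f hf1 hf2 using key
  have hfil : ∀ j < n, I.filter (fun i => f i = j) = J j := by
    intro j hj
    ext i
    rw [Finset.mem_filter]
    constructor
    · rintro ⟨hi, hfi⟩
      rw [hIJ, Finset.mem_biUnion] at hi
      obtain ⟨j', hj', hij'⟩ := hi
      have h1 := hf2 i j' (Finset.mem_range.1 hj') hij'
      have h2 : j' = j := h1.symm.trans hfi
      rw [← h2]; exact hij'
    · intro hij
      refine ⟨?_, hf2 i j hj hij⟩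
      rw [hIJ, Finset.mem_biUnion]
      exact ⟨j, Finset.mem_range.2 hj, hij⟩
  have hout := TWO_group h hw I u hu n hpos f hf1 hn
  have hrew : ∑ k ∈ range n, ν (∑ i ∈ I.filter (fun i => f i = k), u i) ^ p =
      ∑ k ∈ range n, ν (∑ i ∈ J k, u i) ^ p :=
    Finset.sum_congr rfl fun k hk => by rw [hfil k (Finset.mem_range.1 hk)]
  rw [hrew] at hout
  -- the inner colourings
  have hin : ∀ j < n, ∑ i ∈ J j, ν (u i) ^ p ≤ C * ν (∑ i ∈ J j, u i) ^ p ∧
      ν (∑ i ∈ J j, u i) ^ p ≤ C * ∑ i ∈ J j, ν (u i) ^ p := by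
    intro j hj
    have hm : 0 < (J j).card := Finset.card_pos.2 (hne j hj)
    let rk : ℕ → ℕ := fun i => ((J j).filter (fun a => a < i)).card
    have hrk : ∀ i ∈ J j, rk i < (J j).card := by
      intro i hi
      apply Finset.card_lt_card
      rw [Finset.ssubset_iff_of_subset (Finset.filter_subset _ _)]
      exact ⟨i, hi, by simp⟩
    have hmono : ∀ a ∈ J j, ∀ b ∈ J j, a < b → rk a < rk b := by
      intro a ha b _ hab
      apply Finset.card_lt_card
      rw [Finset.ssubset_iff_of_subset]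
      · exact ⟨a, by simp [ha, hab], by simp⟩
      · intro t ht
        rw [Finset.mem_filter] at ht ⊢
        exact ⟨ht.1, lt_trans ht.2 hab⟩
    have hinj : Set.InjOn rk (J j : Set ℕ) := by
      intro a ha b hb hab
      rcases lt_trichotomy a b with h1 | h1 | h1
      · exact absurd hab (hmono a ha b hb h1).ne
      · exact h1
      · exact absurd hab (hmono b hb a ha h1).ne'
    have himg : (J j).image rk = range (J j).card := by
      apply Finset.eq_of_subset_of_card_le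
      · intro t ht
        rw [Finset.mem_image] at ht
        obtain ⟨a, ha, rfl⟩ := ht
        exact Finset.mem_range.2 (hrk a ha)
      · rw [Finset.card_image_of_injOn hinj, Finset.card_range]
    have h1 := TWO_group h hw (J j) u hu (J j).card hm rk hrk (hcard j hj)
    have h2 : ∑ k ∈ range (J j).card, ν (∑ i ∈ (J j).filter (fun i => rk i = k), u i) ^ p =
        ∑ i ∈ J j, ν (u i) ^ p := by
      rw [← himg, Finset.sum_image hinj]
      apply Finset.sum_congr rfl
      intro a ha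
      have h3 : (J j).filter (fun i => rk i = rk a) = {a} := by
        ext b
        rw [Finset.mem_filter, Finset.mem_singleton]
        constructor
        · rintro ⟨hb, hab⟩
          exact hinj hb ha hab
        · rintro rfl
          exact ⟨ha, rfl⟩
      rw [h3, Finset.sum_singleton]
    rw [h2] at h1
    exact h1
  have hsum : ∑ i ∈ I, ν (u i) ^ p = ∑ k ∈ range n, ∑ i ∈ J k, ν (u i) ^ p := by
    rw [← Finset.sum_fiberwise_of_maps_to (s := I) (t := range n) (g := f)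
      fun i hi => Finset.mem_range.2 (hf1 i hi)]
    exact Finset.sum_congr rfl fun k hk => by rw [hfil k (Finset.mem_range.1 hk)]
  constructor
  · calc ν (∑ i ∈ I, u i) ^ p ≤ C * ∑ k ∈ range n, ν (∑ i ∈ J k, u i) ^ p := hout.2
      _ ≤ C * ∑ k ∈ range n, C * ∑ i ∈ J k, ν (u i) ^ p :=
          mul_le_mul_of_nonneg_left
            (Finset.sum_le_sum fun k hk => (hin k (Finset.mem_range.1 hk)).2) hC0
      _ = C ^ 2 * ∑ i ∈ I, ν (u i) ^ p := by
          rw [hsum, ← Finset.mul_sum]; ring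
  · calc ∑ i ∈ I, ν (u i) ^ p = ∑ k ∈ range n, ∑ i ∈ J k, ν (u i) ^ p := hsum
      _ ≤ ∑ k ∈ range n, C * ν (∑ i ∈ J k, u i) ^ p :=
          Finset.sum_le_sum fun k hk => (hin k (Finset.mem_range.1 hk)).1
      _ = C * ∑ k ∈ range n, ν (∑ i ∈ J k, u i) ^ p := by rw [← Finset.mul_sum]
      _ ≤ C * (C * ν (∑ i ∈ I, u i) ^ p) := mul_le_mul_of_nonneg_left hout.1 hC0
      _ = C ^ 2 * ν (∑ i ∈ I, u i) ^ p := by ring

alias two_est := two_est_pr

end Pool.Agent.Lib_helper25.AD
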