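import Pool.Agent.Lib_helper25.AD.Base

/-!
# MP_a4bf89_an: block TWOD
-/

set_option autoImplicit false

open Finset

namespace Pool.Agent.Lib_helper25.AD

theorem TWOD_disj {w : ℕ → E} (hw : IsBlk w) {i j t : ℕ} (hi : t ∈ (w i).support)
    (hj : t ∈ (w j).support) : i = j := by
  rcases lt_trichotomy i j with h | h | h
  · exact absurd (hw.bef h t hi t hj) (lt_irrefl t)
  · exact h
  · exact absurd (hw.bef h t hj t hi) (lt_irrefl t)

theorem TWOD_pr_sum (y : E) (g : ℕ → E) (I : Finset ℕ) :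
    pr (∑ i ∈ I, g i) y ≤ ∑ i ∈ I, pr (g i) y := by
  classical
  induction I using Finset.induction_on with
  | empty => simp [pr]
  | insert a s ha ih =>
    rw [Finset.sum_insert ha, Finset.sum_insert ha, pr_comm]
    refine (pr_add_le y (g a) _).trans ?_
    rw [pr_comm y (g a), pr_comm y (∑ i ∈ s, g i)]
    linarith

theorem TWOD_pr_res (g y : E) (S : Set ℕ) (hS : ∀ t ∈ g.support, t ∈ S) :
    pr g y = pr g (res S y) := by
  classical
  rw [pr_eq_sum' (g := g) (x := y) (Finset.Subset.refl _),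
    pr_eq_sum' (g := g) (x := res S y) (Finset.Subset.refl _)]
  exact Finset.sum_congr rfl fun t ht => by rw [res_apply_mem (hS t ht)]

theorem TWOD_abs_le {w : ℕ → E} (hw : IsBlk w) (I : Finset ℕ) (y : E) (t : ℕ) :
    |(∑ i ∈ I, res {s | s ∈ (w i).support} y) t| ≤ |y t| := by
  classical
  rw [Finsupp.finset_sum_apply]
  by_cases ht : ∃ i ∈ I, t ∈ (w i).support
  · obtain ⟨i, hi, hti⟩ := ht
    rw [Finset.sum_eq_single i]
    · exact abs_res_le _ _ _
    · intro j _ hji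
      apply res_apply_not_mem
      intro htj
      exact hji (TWOD_disj hw htj hti)
    · intro h
      exact absurd hi h
  · rw [Finset.sum_eq_zero]
    · simp
    · intro i hi
      apply res_apply_not_mem
      intro hti
      exact ht ⟨i, hi, hti⟩

/-- TWOD (dual estimate) -/
theorem two_est_dual_pr {μ μd : Seminorm ℝ E} (hμ : Lat μ) (hd : IsDual μ μd) {p B : ℝ}
    (hp : 1 < p) (hB : 1 ≤ B) {w : ℕ → E} (hw : IsBlk w) {I : Finset ℕ}
    (h : ∀ u : ℕ → E, (∀ i, (u i).support ⊆ (w i).support) →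
      ∑ i ∈ I, μ (u i) ^ p ≤ B * μ (∑ i ∈ I, u i) ^ p)
    (g : ℕ → E) (hg : ∀ i, (g i).support ⊆ (w i).support) :
    μd (∑ i ∈ I, g i) ≤ B * (∑ i ∈ I, μd (g i) ^ (p / (p - 1))) ^ (1 - 1 / p) := by
  classical
  have hp0 : 0 < p := by linarith
  have hp1 : 0 < p - 1 := by linarith
  have hconj : (p / (p - 1)).HolderConjugate p := by
    have h1 : p.HolderConjugate (p / (p - 1)) := Real.HolderConjugate.conjExponent hp
    exact h1.symm
  have he : 1 / (p / (p - 1)) = 1 - 1 / p := by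
    field_simp
  have hS0 : 0 ≤ (∑ i ∈ I, μd (g i) ^ (p / (p - 1))) ^ (1 - 1 / p) :=
    Real.rpow_nonneg (Finset.sum_nonneg fun i _ => Real.rpow_nonneg (apply_nonneg μd _) _) _
  apply hd.sup _ _ (mul_nonneg (by linarith) hS0)
  intro y hy
  have h1 : pr (∑ i ∈ I, g i) y ≤
      ∑ i ∈ I, μd (g i) * μ (res {s | s ∈ (w i).support} y) := by
    refine (TWOD_pr_sum y g I).trans (Finset.sum_le_sum fun i _ => ?_)
    rw [TWOD_pr_res (g i) y {s | s ∈ (w i).support} fun t ht => hg i ht]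
    exact hd.le _ _
  have h2 := Real.inner_le_Lp_mul_Lq_of_nonneg I hconj
    (f := fun i => μd (g i)) (g := fun i => μ (res {s | s ∈ (w i).support} y))
    (fun i _ => apply_nonneg μd _) (fun i _ => apply_nonneg μ _)
  rw [he] at h2
  have h3 : ∑ i ∈ I, μ (res {s | s ∈ (w i).support} y) ^ p ≤ B := by
    have h4 := h (fun i => res {s | s ∈ (w i).support} y)
      fun i t ht => (mem_supp_res.1 ht).2
    have h5 : μ (∑ i ∈ I, res {s | s ∈ (w i).support} y) ≤ 1 :=
      (hμ _ _ (TWOD_abs_le hw I y)).trans hy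
    have h6 : μ (∑ i ∈ I, res {s | s ∈ (w i).support} y) ^ p ≤ 1 :=
      Real.rpow_le_one (apply_nonneg μ _) h5 hp0.le
    have h7 : B * μ (∑ i ∈ I, res {s | s ∈ (w i).support} y) ^ p ≤ B * 1 :=
      mul_le_mul_of_nonneg_left h6 (by linarith)
    linarith
  have h8 : (∑ i ∈ I, μ (res {s | s ∈ (w i).support} y) ^ p) ^ (1 / p) ≤ B := by
    have h9 : (∑ i ∈ I, μ (res {s | s ∈ (w i).support} y) ^ p) ^ (1 / p) ≤ B ^ (1 / p) :=
      Real.rpow_le_rpow (Finset.sum_nonneg fun i _ => Real.rpow_nonneg (apply_nonneg μ _) _) h3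
        (by positivity)
    have h10 : B ^ (1 / p) ≤ B ^ (1 : ℝ) := by
      apply Real.rpow_le_rpow_of_exponent_le hB
      rw [div_le_one hp0]; exact hp.le
    rw [Real.rpow_one] at h10
    exact h9.trans h10
  calc pr (∑ i ∈ I, g i) y ≤ _ := h1
    _ ≤ _ := h2
    _ ≤ (∑ i ∈ I, μd (g i) ^ (p / (p - 1))) ^ (1 - 1 / p) * B :=
        mul_le_mul_of_nonneg_left h8 hS0
    _ = _ := by ring

alias two_est_dual := two_est_dual_pr

end Pool.Agent.Lib_helper25.AD
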