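import Pool.Agent.Lib_helper25.AD.Base
import Pool.Agent.Lib_helper25.AD.Blk.HIT
import Pool.Agent.Lib_helper25.AD.Blk.RENORM
import Pool.Agent.Lib_helper25.AD.Blk.SUP
import Pool.Agent.Lib_helper25.AD.Blk.THMS
import Pool.Agent.Lib_helper25.AD.Blk.TV
import Pool.Agent.Lib_helper25.AD.Blk.TWO
import Pool.Agent.Lib_helper25.AD.Blk.TWOD

set_option autoImplicit false

open Finset Filter Topology

namespace Pool.Agent.Lib_helper25.AD

theorem partii_single : IsBlk (fun i => (Finsupp.single i (1 : ℝ) : E)) := by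
  refine ⟨fun i => ?_, fun i => ?_⟩
  · simp
  · intro a ha b hb
    rw [Finsupp.support_single] at ha hb <;> simp_all

theorem partii_top : bsp (fun i => (Finsupp.single i (1 : ℝ) : E)) = ⊤ := by
  rw [eq_top_iff]
  intro x _
  rw [mem_bsp]
  refine ⟨x, ?_⟩
  rw [lc_apply]
  conv_rhs => rw [← Finsupp.sum_single x]
  rw [Finsupp.sum]
  apply Finset.sum_congr rfl
  intro i _
  simp

/-- the choice of `δ` -/
theorem partii_delta (B : ℝ) (s t : ℕ) (hs : 1 ≤ s) (ht : 1 ≤ t) (θ : ℝ) (hθ : 0 < θ)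
    (hB : 1 ≤ B) : ∃ δ : ℝ, 0 < δ ∧
      B * (B * (2 * δ ^ ((1 : ℝ) / t))) + B * ((s : ℝ) * δ) ^ ((1 : ℝ) / s) * B ≤ θ := by
  have hs0 : (0 : ℝ) < 1 / s := by positivity
  have ht0 : (0 : ℝ) < 1 / t := by positivity
  have hc : ContinuousAt (fun δ : ℝ => B * (B * (2 * δ ^ ((1 : ℝ) / t))) +
      B * ((s : ℝ) * δ) ^ ((1 : ℝ) / s) * B) 0 := by
    have h1 : Continuous (fun δ : ℝ => δ ^ ((1 : ℝ) / t)) := Real.continuous_rpow_const ht0.le
    have h2 : Continuous (fun δ : ℝ => ((s : ℝ) * δ) ^ ((1 : ℝ) / s)) :=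
      (Real.continuous_rpow_const hs0.le).comp (continuous_const.mul continuous_id)
    exact (((continuous_const.mul (continuous_const.mul (continuous_const.mul h1)))).add
      ((continuous_const.mul h2).mul continuous_const)).continuousAt
  have h0 : B * (B * (2 * (0 : ℝ) ^ ((1 : ℝ) / t))) +
      B * ((s : ℝ) * 0) ^ ((1 : ℝ) / s) * B = 0 := by
    rw [Real.zero_rpow ht0.ne', mul_zero (s : ℝ), Real.zero_rpow hs0.ne']
    ring
  have hev : ∀ᶠ δ in 𝓝 (0 : ℝ), B * (B * (2 * δ ^ ((1 : ℝ) / t))) +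
      B * ((s : ℝ) * δ) ^ ((1 : ℝ) / s) * B < θ := by
    apply hc.eventually_lt continuousAt_const
    rw [h0]; exact hθ
  rw [Metric.eventually_nhds_iff] at hev
  obtain ⟨ρ, hρ, h⟩ := hev
  refine ⟨ρ / 2, by linarith, (h ?_).le⟩
  rw [Real.dist_eq, sub_zero, abs_of_pos (by linarith)]
  linarith

/-- PARTII -/
theorem partII_pr (p C : ℝ) (hp : 1 < p) (hC : 1 ≤ C) : ∃ T₀ : ℕ, ∀ ν : Seminorm ℝ E, Dfn ν →
    SA ν p C T₀ → ∀ D : ℝ, ¬ BDF ν D := by
  have hp0 : 0 < p := by linarith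
  obtain ⟨T₀, s, t, A, hA, hsp, ht, htq, hren⟩ := renorm p C hp hC
  refine ⟨T₀, fun ν hν hSA D hBD => ?_⟩
  obtain ⟨μ, μd, hL, hLd, hdf, hD, heq, hLS, hUR⟩ := hren ν hν hSA
  have hA0 : 0 < A := by linarith
  -- the constant B
  set B : ℝ := A ^ p * A ^ p * C ^ 2 with hB
  have hAp : 1 ≤ A ^ p := Real.one_le_rpow hA hp0.le
  have hB1 : 1 ≤ B := by
    have : 1 ≤ C ^ 2 := by nlinarith
    rw [hB]
    nlinarith [mul_le_mul hAp hAp (by norm_num) (by linarith)]
  have hB0 : 0 < B := by linarith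
  have htwo : ∀ (w : ℕ → E) (I : Finset ℕ), IsBlk w → TwoAdm I → ∀ u : ℕ → E,
      (∀ i, (u i).support ⊆ (w i).support) →
        μ (∑ i ∈ I, u i) ^ p ≤ B * ∑ i ∈ I, μ (u i) ^ p ∧
        ∑ i ∈ I, μ (u i) ^ p ≤ B * μ (∑ i ∈ I, u i) ^ p := by
    intro w I hw hI u hu
    obtain ⟨h1, h2⟩ := two_est hp hC hSA hw hI u hu
    have hμν : ∀ x, μ x ^ p ≤ A ^ p * ν x ^ p := fun x => by
      rw [← Real.mul_rpow hA0.le (apply_nonneg ν x)]
      exact Real.rpow_le_rpow (apply_nonneg μ x) (heq x).2 hp0.le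
    have hνμ : ∀ x, ν x ^ p ≤ A ^ p * μ x ^ p := fun x => by
      rw [← Real.mul_rpow hA0.le (apply_nonneg μ x)]
      exact Real.rpow_le_rpow (apply_nonneg ν x) (heq x).1 hp0.le
    have hAp0 : 0 ≤ A ^ p := by linarith
    have hC2 : 0 ≤ C ^ 2 := sq_nonneg C
    constructor
    · calc μ (∑ i ∈ I, u i) ^ p ≤ A ^ p * ν (∑ i ∈ I, u i) ^ p := hμν _
        _ ≤ A ^ p * (C ^ 2 * ∑ i ∈ I, ν (u i) ^ p) := mul_le_mul_of_nonneg_left h1 hAp0
        _ ≤ A ^ p * (C ^ 2 * ∑ i ∈ I, A ^ p * μ (u i) ^ p) := by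
          gcongr with i _
          exact hνμ _
        _ = B * ∑ i ∈ I, μ (u i) ^ p := by rw [← Finset.mul_sum, hB]; ring
    · calc ∑ i ∈ I, μ (u i) ^ p ≤ ∑ i ∈ I, A ^ p * ν (u i) ^ p := by
            gcongr with i _
            exact hμν _
        _ = A ^ p * ∑ i ∈ I, ν (u i) ^ p := by rw [Finset.mul_sum]
        _ ≤ A ^ p * (C ^ 2 * ν (∑ i ∈ I, u i) ^ p) := mul_le_mul_of_nonneg_left h2 hAp0
        _ ≤ A ^ p * (C ^ 2 * (A ^ p * μ (∑ i ∈ I, u i) ^ p)) := by
          gcongr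
          exact hνμ _
        _ = B * μ (∑ i ∈ I, u i) ^ p := by rw [hB]; ring
  have hU : ∀ (w : ℕ → E) (I : Finset ℕ), IsBlk w → TwoAdm I → ∀ u : ℕ → E,
      (∀ i, (u i).support ⊆ (w i).support) →
        μ (∑ i ∈ I, u i) ^ p ≤ B * ∑ i ∈ I, μ (u i) ^ p := fun w I hw hI u hu =>
    (htwo w I hw hI u hu).1
  have hLdual : ∀ (w : ℕ → E) (I : Finset ℕ), IsBlk w → TwoAdm I → ∀ g : ℕ → E,
      (∀ i, (g i).support ⊆ (w i).support) →
        μd (∑ i ∈ I, g i) ≤ B * (∑ i ∈ I, μd (g i) ^ (p / (p - 1))) ^ (1 - 1 / p) :=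
    fun w I hw hI g hg => two_est_dual hL hD hp hB1 hw (fun u hu => (htwo w I hw hI u hu).2) g hg
  -- D is positive
  have hD0 : 0 < D := by
    obtain ⟨z, hz, -, hq⟩ := hBD _ partii_single (fun x => ν x)
      ⟨fun a _ b _ => map_add_le_add ν a b, fun t a _ => by
        simp [map_smul_eq_mul], 1, 1, one_pos, one_pos, fun x _ => by simp⟩
    have h1 := hq (z 0) (self_mem_bsp z 0) (z 0) (self_mem_bsp z 0)
    have h2 := hν (z 0) (hz.ne 0)
    have h3 : 0 < ν (z 0) * ν (z 0) := mul_pos h2 h2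
    by_contra hneg
    push Not at hneg
    nlinarith
  -- small parameters
  set κ : ℝ := 1 / (A * B) / (2 * (D * (A * B))) with hκ
  have hκ0 : 0 < κ := by positivity
  obtain ⟨δ, hδ0, hδ⟩ := partii_delta B s t
    (by have : (1 : ℝ) < s := by linarith
        exact_mod_cast this.le) (by omega) (κ / 2) (by linarith) hB1
  obtain ⟨M, M', hM, hM', hMM'⟩ := thmS δ hδ0
  -- the functionals of type M
  set G : Set E := insert 0 {vs | ∃ w g I β v, IsTV μ μd p w g I β v vs ∧ had vs v ∈ M} with hG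
  have hGb : ∀ vs ∈ G, μd vs ≤ B := by
    rintro vs (rfl | ⟨w, g, I, β, v, h, -⟩)
    · simp [hB0.le]
    · exact (tv_bounds hL hLd hD hp hB1 hU hLdual h).2.1
  obtain ⟨σ, -, hσ1, hσ2⟩ := exists_sup G ⟨0, Set.mem_insert _ _⟩ (fun i => by
    refine ⟨B * μ (Finsupp.single i 1), fun g hg => ?_⟩
    calc |g i| = pr g (Finsupp.single i 1) := by
          rw [pr, Finsupp.support_single] <;> simp
      _ ≤ μd g * μ (Finsupp.single i 1) := hD.le _ _
      _ ≤ B * μ (Finsupp.single i 1) :=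
        mul_le_mul_of_nonneg_right (hGb g hg) (apply_nonneg μ _))
  have hσB : ∀ x, σ x ≤ B * μ x := fun x => hσ2 x _ fun g hg =>
    (hD.le g x).trans (mul_le_mul_of_nonneg_right (hGb g hg) (apply_nonneg μ x))
  set τ : ℝ := κ / (2 * B) with hτ
  have hτ0 : 0 < τ := by positivity
  -- apply bounded distortion
  obtain ⟨z, hz, -, hq⟩ := hBD _ partii_single (fun x => σ x + τ * μ x)
    ⟨fun a _ b _ => by
        have h1 := map_add_le_add σ a b
        have h2 := mul_le_mul_of_nonneg_left (map_add_le_add μ a b) hτ0.le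
        linarith,
      fun r a _ => by
        simp only [map_smul_eq_mul, Real.norm_eq_abs]; ring,
      τ / A, (B + τ) * A, by positivity, by positivity, fun x _ => by
        have hσ0 : 0 ≤ σ x := apply_nonneg σ x
        have hμ0 : 0 ≤ μ x := apply_nonneg μ x
        have hν0 : 0 ≤ ν x := apply_nonneg ν x
        constructor
        · have h1 : τ / A * ν x ≤ τ / A * (A * μ x) :=
            mul_le_mul_of_nonneg_left (heq x).1 (by positivity)
          have h2 : τ / A * (A * μ x) = τ * μ x := by field_simp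
          linarith
        · have h1 := hσB x
          have h2 : (B + τ) * μ x ≤ (B + τ) * (A * ν x) :=
            mul_le_mul_of_nonneg_left (heq x).2 (by positivity)
          nlinarith⟩
  obtain ⟨w, g, I, β, v, vs, hTV, hvz, hvM⟩ := hit μ μd hL hdf hD p hp M hM z hz
  obtain ⟨w', g', I', β', v', vs', hTV', hvz', hvM'⟩ := hit μ μd hL hdf hD p hp M' hM' z hz
  obtain ⟨hv1, hv2, hv3⟩ := tv_bounds hL hLd hD hp hB1 hU hLdual hTV
  obtain ⟨hv1', hv2', hv3'⟩ := tv_bounds hL hLd hD hp hB1 hU hLdual hTV'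
  -- N v ≥ 1
  have hNv : 1 ≤ σ v + τ * μ v := by
    have h1 : pr vs v ≤ σ v := hσ1 vs (Set.mem_insert_of_mem _ ⟨w, g, I, β, v, hTV, hvM⟩) v
    rw [hv3] at h1
    have h2 : 0 ≤ τ * μ v := mul_nonneg hτ0.le (apply_nonneg μ v)
    linarith
  -- μ v' ≥ 1 / B
  have hμv' : 1 / B ≤ μ v' := by
    have h1 : pr vs' v' ≤ μd vs' * μ v' := hD.le vs' v'
    rw [hv3'] at h1
    rw [div_le_iff₀ hB0]
    have h2 : μd vs' * μ v' ≤ B * μ v' :=
      mul_le_mul_of_nonneg_right hv2' (apply_nonneg μ v')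
    linarith
  have hνv' : 1 / (A * B) ≤ ν v' := by
    have h1 : 1 / B ≤ A * ν v' := hμv'.trans (heq v').2
    rw [div_le_iff₀ (by positivity)]
    rw [div_le_iff₀ hB0] at h1
    linarith
  -- σ v' small
  have hσv' : σ v' ≤ κ / 2 := by
    apply hσ2
    rintro y (rfl | ⟨w₁, g₁, I₁, β₁, v₁, hTV₁, hM₁⟩)
    · have : pr 0 v' = 0 := by rw [pr]; simp
      rw [this]; linarith
    · obtain ⟨S, hS1, hS2⟩ := hMM' _ hM₁ _ hvM'
      obtain ⟨hv1₁, hv2₁, hv3₁⟩ := tv_bounds hL hLd hD hp hB1 hU hLdual hTV₁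
      have ha := tv_upp hL hLd hD hp hB1 t ht htq hUR hLdual hTV₁ S δ hδ0 hS1
      have hb := tv_low hL hLd hD hp hB1 s hsp hLS hU hTV' Sᶜ δ hS2
      have hsplit : pr y v' ≤ pr (res S y) v' + pr y (res Sᶜ v') := by
        have h1 : pr y v' = pr y (res S v' + res Sᶜ v') := by rw [res_add_compl]
        have h2 : pr y (res S v') = pr (res S y) v' := by
          classical
          rw [pr_eq_sum (g := y) (x := res S v') (S := v'.support) (supp_res_subset S v'), pr]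
          apply Finset.sum_congr rfl
          intro i _
          rw [res_apply, res_apply]
          by_cases hi : i ∈ S <;> simp [hi]
        rw [h1, ← h2]
        exact pr_add_le _ _ _
      calc pr y v' ≤ pr (res S y) v' + pr y (res Sᶜ v') := hsplit
        _ ≤ μd (res S y) * μ v' + μd y * μ (res Sᶜ v') := add_le_add (hD.le _ _) (hD.le _ _)
        _ ≤ (B * (2 * δ ^ ((1 : ℝ) / t))) * B + B * (B * ((s : ℝ) * δ) ^ ((1 : ℝ) / s)) := by
          apply add_le_add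
          · apply mul_le_mul ha hv1' (apply_nonneg μ v')
            have : 0 ≤ δ ^ ((1 : ℝ) / t) := Real.rpow_nonneg hδ0.le _
            positivity
          · exact mul_le_mul hv2₁ hb (apply_nonneg μ _) hB0.le
        _ = B * (B * (2 * δ ^ ((1 : ℝ) / t))) + B * ((s : ℝ) * δ) ^ ((1 : ℝ) / s) * B := by ring
        _ ≤ κ / 2 := hδ
  have hNv' : σ v' + τ * μ v' ≤ κ := by
    have : τ * μ v' ≤ τ * B := mul_le_mul_of_nonneg_left hv1' hτ0.le
    have h2 : τ * B = κ / 2 := by rw [hτ]; field_simp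
    linarith
  -- contradiction
  have hfin := hq v hvz v' hvz'
  simp only at hfin
  have hνv : ν v ≤ A * B := (heq v).1.trans (mul_le_mul_of_nonneg_left hv1 hA0.le)
  have hl : 1 / (A * B) ≤ (σ v + τ * μ v) * ν v' := by
    calc 1 / (A * B) ≤ 1 * ν v' := by rw [one_mul]; exact hνv'
      _ ≤ _ := mul_le_mul_of_nonneg_right hNv (apply_nonneg ν v')
  have hr : D * ((σ v' + τ * μ v') * ν v) ≤ D * (κ * (A * B)) := by
    apply mul_le_mul_of_nonneg_left _ hD0.le
    exact mul_le_mul hNv' hνv (apply_nonneg ν v) hκ0.le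
  have hκ' : D * (κ * (A * B)) = 1 / (A * B) / 2 := by
    rw [hκ]; field_simp
  have hpos : 0 < 1 / (A * B) := by positivity
  linarith

alias partII := partII_pr

end Pool.Agent.Lib_helper25.AD
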