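import Pool.Agent.Lib_helper25.AD.Base

set_option autoImplicit false

open Finset Filter Topology

namespace Pool.Agent.Lib_helper25.AD

theorem pert_not_mem {y : ℕ → E} (hy : IsBlk y) {i j t : ℕ} (hij : i ≠ j)
    (ht : t ∈ (y i).support) : t ∉ (y j).support := by
  intro htj
  rcases lt_or_gt_of_ne hij with h | h
  · exact absurd (hy.bef h t ht t htj) (lt_irrefl _)
  · exact absurd (hy.bef h t htj t ht) (lt_irrefl _)

theorem pert_lc_eval (y : ℕ → E) (a : E) (t : ℕ) :
    lc y a t = ∑ i ∈ a.support, a i * y i t := by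
  rw [lc_apply, Finsupp.finsetSum_apply]
  rfl

theorem pert_lc_at {y : ℕ → E} (hy : IsBlk y) (a : E) {i t : ℕ} (ht : t ∈ (y i).support) :
    lc y a t = a i * y i t := by
  rw [pert_lc_eval]
  by_cases hi : i ∈ a.support
  · apply Finset.sum_eq_single_of_mem i hi
    intro j _ hji
    have : y j t = 0 := by
      have := pert_not_mem hy (Ne.symm hji) ht
      simpa using this
    rw [this, mul_zero]
  · have h0 : a i = 0 := by simpa using hi
    rw [h0, zero_mul]
    apply Finset.sum_eq_zero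
    intro j hj
    have hji : i ≠ j := fun h => hi (h ▸ hj)
    have : y j t = 0 := by
      have := pert_not_mem hy hji ht
      simpa using this
    rw [this, mul_zero]

theorem pert_lc_out {y : ℕ → E} (a : E) {t : ℕ} (ht : ∀ i, t ∉ (y i).support) :
    lc y a t = 0 := by
  rw [pert_lc_eval]
  apply Finset.sum_eq_zero
  intro j _
  have : y j t = 0 := by simpa using ht j
  rw [this, mul_zero]

theorem pert_supp {y : ℕ → E} (hy : IsBlk y) (a : E) (t : ℕ) :
    t ∈ (lc y a).support ↔ ∃ i ∈ a.support, t ∈ (y i).support := by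
  constructor
  · intro h
    by_cases hex : ∃ i, t ∈ (y i).support
    · obtain ⟨i, hi⟩ := hex
      refine ⟨i, ?_, hi⟩
      rw [Finsupp.mem_support_iff, pert_lc_at hy a hi] at h
      rw [Finsupp.mem_support_iff]
      exact left_ne_zero_of_mul h
    · push Not at hex
      rw [Finsupp.mem_support_iff] at h
      exact absurd (pert_lc_out a hex) h
  · rintro ⟨i, hi, ht⟩
    rw [Finsupp.mem_support_iff, pert_lc_at hy a ht]
    rw [Finsupp.mem_support_iff] at hi ht
    exact mul_ne_zero hi ht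

theorem pert_norm_lc (ν : Seminorm ℝ E) (y : ℕ → E) (a : E) :
    ν (lc y a) ≤ ∑ i ∈ a.support, |a i| * ν (y i) := by
  rw [lc_apply]
  refine (Finset.le_sum_of_subadditive ν (map_zero ν).le (map_add_le_add ν) _ _).trans
    (le_of_eq ?_)
  apply Finset.sum_congr rfl
  intro i _
  rw [map_smul_eq_mul, Real.norm_eq_abs]

/-- rational approximation in the span of a rational block sequence -/
theorem pert_approx (ν : Seminorm ℝ E) {y : ℕ → E} (hy : RBlk y) {x : E} (hx : x ∈ bsp y)
    {ε : ℝ} (hε : 0 < ε) : ∃ x' : E, x' ∈ bsp y ∧ (∀ j, ∃ q : ℚ, x' j = (q : ℝ)) ∧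
      x'.support = x.support ∧ ν (x' - x) ≤ ε := by
  classical
  obtain ⟨a, rfl⟩ := mem_bsp.1 hx
  set B : ℝ := ∑ j ∈ a.support, ν (y j) with hB
  have hB0 : 0 ≤ B := Finset.sum_nonneg fun _ _ => apply_nonneg _ _
  set δ : ℝ := ε / (B + 1) with hδ
  have hδ0 : 0 < δ := by positivity
  have hq : ∀ j : ℕ, ∃ q : ℚ, |(q : ℝ) - a j| ≤ δ ∧ (a j ≠ 0 → (q : ℝ) ≠ 0) := by
    intro j
    by_cases ha : 0 ≤ a j
    · obtain ⟨q, h1, h2⟩ := exists_rat_btwn (show a j < a j + δ by linarith)
      refine ⟨q, ?_, fun h0 => ?_⟩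
      · rw [abs_le]; constructor <;> linarith
      · exact ne_of_gt (lt_of_le_of_lt ha h1)
    · push Not at ha
      obtain ⟨q, h1, h2⟩ := exists_rat_btwn (show a j - δ < a j by linarith)
      refine ⟨q, ?_, fun h0 => ?_⟩
      · rw [abs_le]; constructor <;> linarith
      · exact ne_of_lt (lt_trans h2 ha)
  choose q hq1 hq2 using hq
  set a' : E := Finsupp.onFinset a.support (fun j => if a j = 0 then 0 else (q j : ℝ))
    (fun j hj => by
      rw [Finsupp.mem_support_iff]
      intro h0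
      rw [if_pos h0] at hj
      exact hj rfl) with ha'
  have ha'v : ∀ j, a' j = if a j = 0 then 0 else (q j : ℝ) := fun j => rfl
  have ha's : a'.support = a.support := by
    ext j
    rw [Finsupp.mem_support_iff, Finsupp.mem_support_iff, ha'v]
    by_cases h0 : a j = 0
    · rw [if_pos h0]; simp [h0]
    · rw [if_neg h0]; exact ⟨fun _ => h0, fun _ => hq2 j h0⟩
  refine ⟨lc y a', lc_mem y a', ?_, ?_, ?_⟩
  · intro t
    by_cases hex : ∃ i, t ∈ (y i).support
    · obtain ⟨i, hi⟩ := hex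
      rw [pert_lc_at hy.toIsBlk a' hi, ha'v]
      obtain ⟨r, hr⟩ := hy.rat i t
      rw [hr]
      by_cases h0 : a i = 0
      · rw [if_pos h0]; exact ⟨0, by simp⟩
      · rw [if_neg h0]; exact ⟨q i * r, by push_cast; ring⟩
    · push Not at hex
      exact ⟨0, by rw [pert_lc_out a' hex]; simp⟩
  · ext t
    rw [pert_supp hy.toIsBlk, pert_supp hy.toIsBlk, ha's]
  · rw [← map_sub]
    refine (pert_norm_lc ν y (a' - a)).trans ?_
    have hsub : (a' - a).support ⊆ a.support := by
      intro j hj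
      by_contra hcon
      have h0 : a j = 0 := by simpa using hcon
      rw [Finsupp.mem_support_iff, Finsupp.sub_apply, ha'v, if_pos h0, h0, sub_zero] at hj
      exact hj rfl
    calc ∑ i ∈ (a' - a).support, |(a' - a) i| * ν (y i) ≤
        ∑ i ∈ (a' - a).support, δ * ν (y i) := by
          apply Finset.sum_le_sum
          intro i hi
          apply mul_le_mul_of_nonneg_right _ (apply_nonneg _ _)
          rw [Finsupp.sub_apply, ha'v]
          by_cases h0 : a i = 0
          · rw [if_pos h0, h0]; simp [hδ0.le]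
          · rw [if_neg h0]; exact hq1 i
      _ ≤ ∑ i ∈ a.support, δ * ν (y i) :=
          Finset.sum_le_sum_of_subset_of_nonneg hsub fun i _ _ =>
            mul_nonneg hδ0.le (apply_nonneg _ _)
      _ = δ * B := by rw [← Finset.mul_sum]
      _ ≤ ε := by
          rw [hδ, div_mul_eq_mul_div, div_le_iff₀ (by positivity)]
          nlinarith

/-- coordinates are controlled by the norm -/
theorem pert_coord {ν : Seminorm ℝ E} {p K : ℝ} (hp : 1 < p) (hK : 1 ≤ K) (hAs : AsLp ν p K)
    {z : ℕ → E} (hz : IsBlk z) (h3 : ∀ i, ∀ t ∈ (z i).support, 3 ≤ t) (a : E) (i : ℕ) :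
    |a i| * ν (z i) ≤ K * ν (lc z a) := by
  classical
  have hne : (z i).support.Nonempty := Finsupp.support_nonempty_iff.2 (hz.ne i)
  set lo := (z i).support.min' hne with hlo
  set hi := (z i).support.max' hne with hhi
  have hlohi : lo ≤ hi := Finset.min'_le_max' _ _
  set s : ℕ → ℕ := fun t => if t < lo then 0 else if t ≤ hi then 1 else 2 with hs
  have hmono : Monotone s := by
    intro t u htu
    simp only [hs]
    split_ifs <;> omega
  have hs3 : ∀ t, s t < 3 := by
    intro t
    simp only [hs]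
    split_ifs <;> omega
  have hsup : ∀ t ∈ (lc z a).support, 3 ≤ t := by
    intro t ht
    obtain ⟨j, _, htj⟩ := (pert_supp hz a t).1 ht
    exact h3 j t htj
  have hlow := (hAs 3 s (lc z a) hmono hs3 hsup).1
  have hcls : cls s 1 (lc z a) = a i • z i := by
    ext t
    rw [cls_apply, Finsupp.smul_apply, smul_eq_mul]
    by_cases hti : t ∈ (z i).support
    · have h1 : lo ≤ t := Finset.min'_le _ _ hti
      have h2 : t ≤ hi := Finset.le_max' _ _ hti
      have h4 : s t = 1 := by
        simp only [hs]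
        rw [if_neg (by omega), if_pos h2]
      rw [if_pos h4, pert_lc_at hz a hti]
    · have h0 : z i t = 0 := by simpa using hti
      rw [h0, mul_zero]
      by_cases hex : ∃ j, t ∈ (z j).support
      · obtain ⟨j, hj⟩ := hex
        have hji : j ≠ i := fun h => hti (h ▸ hj)
        rcases lt_or_gt_of_ne hji with h | h
        · have h1 : t < lo := hz.bef h t hj lo (Finset.min'_mem _ _)
          rw [if_neg]
          simp only [hs]
          rw [if_pos h1]
          omega
        · have h1 : hi < t := hz.bef h hi (Finset.max'_mem _ _) t hj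
          rw [if_neg]
          simp only [hs]
          rw [if_neg (by omega), if_neg (by omega)]
          omega
      · push Not at hex
        rw [pert_lc_out a hex]
        simp
  have h1 : ν (cls s 1 (lc z a)) ^ p ≤ ∑ k ∈ range 3, ν (cls s k (lc z a)) ^ p :=
    Finset.single_le_sum (f := fun k => ν (cls s k (lc z a)) ^ p)
      (fun k _ => Real.rpow_nonneg (apply_nonneg _ _) _) (mem_range.mpr (by norm_num))
  rw [hcls, map_smul_eq_mul, Real.norm_eq_abs] at h1
  have h2 : (|a i| * ν (z i)) ^ p ≤ (K * ν (lc z a)) ^ p := by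
    refine (h1.trans hlow).trans ?_
    rw [Real.mul_rpow (by positivity) (apply_nonneg _ _)]
    apply mul_le_mul_of_nonneg_right _ (Real.rpow_nonneg (apply_nonneg _ _) _)
    calc K = K ^ (1 : ℝ) := (Real.rpow_one K).symm
      _ ≤ K ^ p := Real.rpow_le_rpow_of_exponent_le hK hp.le
  have h4 : 0 ≤ |a i| * ν (z i) := mul_nonneg (abs_nonneg _) (apply_nonneg _ _)
  have h5 : 0 ≤ K * ν (lc z a) := mul_nonneg (by linarith) (apply_nonneg _ _)
  exact (Real.rpow_le_rpow_iff h4 h5 (by linarith)).1 h2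

/-- the perturbed combination -/
theorem pert_close {ν : Seminorm ℝ E} {p K : ℝ} (hp : 1 < p) (hK : 1 ≤ K) (hAs : AsLp ν p K)
    {z z' : ℕ → E} (hz : IsBlk z) (h3 : ∀ i, ∀ t ∈ (z i).support, 3 ≤ t) {θ : ℝ} (hθ : 0 ≤ θ)
    (hcl : ∀ i, ν (z' i - z i) ≤ θ * (1 / 2) ^ (i + 1) * ν (z i)) (a : E) :
    ν (lc z' a - lc z a) ≤ θ * K * ν (lc z a) := by
  have e : lc z' a - lc z a = lc (fun i => z' i - z i) a := by
    rw [lc_apply, lc_apply, lc_apply, ← Finset.sum_sub_distrib]
    apply Finset.sum_congr rfl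
    intro i _
    rw [smul_sub]
  rw [e]
  refine (pert_norm_lc ν _ a).trans ?_
  have hn := apply_nonneg ν (lc z a)
  calc ∑ i ∈ a.support, |a i| * ν (z' i - z i) ≤
      ∑ i ∈ a.support, (1 / 2 : ℝ) ^ (i + 1) * (θ * K * ν (lc z a)) := by
        apply Finset.sum_le_sum
        intro i _
        have h1 := pert_coord hp hK hAs hz h3 a i
        calc |a i| * ν (z' i - z i) ≤ |a i| * (θ * (1 / 2) ^ (i + 1) * ν (z i)) :=
              mul_le_mul_of_nonneg_left (hcl i) (abs_nonneg _)
          _ = θ * (1 / 2) ^ (i + 1) * (|a i| * ν (z i)) := by ring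
          _ ≤ θ * (1 / 2) ^ (i + 1) * (K * ν (lc z a)) :=
              mul_le_mul_of_nonneg_left h1 (by positivity)
          _ = _ := by ring
    _ = (∑ i ∈ a.support, (1 / 2 : ℝ) ^ (i + 1)) * (θ * K * ν (lc z a)) := by
        rw [Finset.sum_mul]
    _ ≤ 1 * (θ * K * ν (lc z a)) := by
        apply mul_le_mul_of_nonneg_right
        · have hs : Summable (fun i : ℕ => (1 / 2 : ℝ) ^ (i + 1)) :=
            (summable_nat_add_iff 1).mpr
              (summable_geometric_of_lt_one (by norm_num) (by norm_num : (1 / 2 : ℝ) < 1))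
          have h1 := hs.sum_le_tsum a.support (fun i _ => by positivity)
          have h2 : ∑' i : ℕ, (1 / 2 : ℝ) ^ (i + 1) = 1 := by
            simp only [pow_succ]
            rw [tsum_mul_right, tsum_geometric_two]
            norm_num
          rw [h2] at h1
          exact h1
        · positivity
    _ = _ := one_mul _

theorem bdfq_of_bdf_pr (ν : Seminorm ℝ E) (hν : Dfn ν) (p K D : ℝ) (hp : 1 < p) (hK : 1 ≤ K)
    (hD : 1 ≤ D) (hAs : AsLp ν p K) (h : BDF ν D) : BDFQ ν (2 * D) := by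
  intro y hy N hN
  -- the tail
  have hy3 : RBlk (tl 3 y) :=
    { ne := fun i => hy.ne (i + 3)
      lt := fun i => by
        have := hy.lt (i + 3)
        have e : i + 1 + 3 = i + 3 + 1 := by ring
        intro a ha b hb
        simp only [tl] at ha hb
        rw [e] at hb
        exact this a ha b hb
      rat := fun i j => hy.rat (i + 3) j }
  have hle3 : Le (tl 3 y) y := fun i => self_mem_bsp y (i + 3)
  have hsub3 : bsp (tl 3 y) ≤ bsp y := bsp_le hle3
  obtain ⟨hN1, hN2, α, β, hα, hβ, hN3⟩ := hN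
  have hN' : EqOn ν (bsp (tl 3 y)) N :=
    ⟨fun a ha b hb => hN1 a (hsub3 ha) b (hsub3 hb), fun t a ha => hN2 t a (hsub3 ha),
      α, β, hα, hβ, fun x hx => hN3 x (hsub3 hx)⟩
  obtain ⟨z, hz, hzy, hQ⟩ := h (tl 3 y) hy3.toIsBlk N hN'
  have h3 : ∀ i, ∀ t ∈ (z i).support, 3 ≤ t := by
    intro i t ht
    obtain ⟨a, ha⟩ := mem_bsp.1 (hzy i)
    rw [← ha] at ht
    obtain ⟨j, _, htj⟩ := (pert_supp hy3.toIsBlk a t).1 ht
    have h1 : st hy.toIsBlk (j + 3) ≤ t := st_le hy.toIsBlk htj
    have h2 := le_st hy.toIsBlk (j + 3)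
    omega
  -- the constant
  set θ : ℝ := (10 * (K * (1 + β / α)))⁻¹ with hθ
  have hKp : 0 < K := by linarith
  have hθ0 : 0 < θ := by positivity
  have hθ1 : θ * K ≤ 1 / 10 := by
    rw [hθ, inv_mul_le_iff₀ (by positivity)]
    have : 0 ≤ β / α := by positivity
    nlinarith
  have hθ2 : β * (θ * K) ≤ 1 / 10 * α := by
    have e : β * (θ * K) = β / (10 * (1 + β / α)) := by
      rw [hθ]; field_simp
    rw [e, div_le_iff₀ (by positivity)]
    have : 1 / 10 * α * (10 * (1 + β / α)) = α + β := by field_simp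
    rw [this]
    linarith
  have hap : ∀ i, ∃ x' : E, x' ∈ bsp (tl 3 y) ∧ (∀ j, ∃ q : ℚ, x' j = (q : ℝ)) ∧
      x'.support = (z i).support ∧ ν (x' - z i) ≤ θ * (1 / 2) ^ (i + 1) * ν (z i) := by
    intro i
    apply pert_approx ν hy3 (hzy i)
    have := hν _ (hz.ne i)
    positivity
  choose z' hz1 hz2 hz3 hz4 using hap
  have hz'blk : RBlk z' :=
    { ne := fun i => by
        rw [← Finsupp.support_nonempty_iff, hz3 i, Finsupp.support_nonempty_iff]
        exact hz.ne i
      lt := fun i a ha b hb => by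
        rw [hz3] at ha hb
        exact hz.lt i a ha b hb
      rat := hz2 }
  refine ⟨z', hz'blk, fun i => hsub3 (hz1 i), ?_⟩
  have hzsub : bsp z ≤ bsp y := (bsp_le hzy).trans hsub3
  have hz'sub : bsp z' ≤ bsp y := (bsp_le hz1).trans hsub3
  -- comparison
  have hcmp : ∀ a : E,
      (9 / 10 * ν (lc z a) ≤ ν (lc z' a) ∧ ν (lc z' a) ≤ 11 / 10 * ν (lc z a)) ∧
      (9 / 10 * N (lc z a) ≤ N (lc z' a) ∧ N (lc z' a) ≤ 11 / 10 * N (lc z a)) := by
    intro a
    have hc := pert_close hp hK hAs hz h3 hθ0.le hz4 a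
    have hn := apply_nonneg ν (lc z a)
    have hc1 : ν (lc z' a - lc z a) ≤ 1 / 10 * ν (lc z a) :=
      hc.trans (mul_le_mul_of_nonneg_right hθ1 hn)
    have hmz : lc z a ∈ bsp y := hzsub (lc_mem z a)
    have hmz' : lc z' a ∈ bsp y := hz'sub (lc_mem z' a)
    have hmd : lc z' a - lc z a ∈ bsp y := Submodule.sub_mem _ hmz' hmz
    have hmd' : lc z a - lc z' a ∈ bsp y := Submodule.sub_mem _ hmz hmz'
    have hNd : N (lc z' a - lc z a) ≤ 1 / 10 * N (lc z a) := by
      have h1 := (hN3 _ hmd).2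
      have h2 := (hN3 _ hmz).1
      calc N (lc z' a - lc z a) ≤ β * ν (lc z' a - lc z a) := h1
        _ ≤ β * (θ * K * ν (lc z a)) := mul_le_mul_of_nonneg_left hc hβ.le
        _ = β * (θ * K) * ν (lc z a) := by ring
        _ ≤ 1 / 10 * α * ν (lc z a) := mul_le_mul_of_nonneg_right hθ2 hn
        _ = 1 / 10 * (α * ν (lc z a)) := by ring
        _ ≤ _ := by linarith
    have hNd' : N (lc z a - lc z' a) ≤ 1 / 10 * N (lc z a) := by
      have e : lc z a - lc z' a = (-1 : ℝ) • (lc z' a - lc z a) := by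
        rw [neg_one_smul, neg_sub]
      rw [e, hN2 _ _ hmd]
      simpa using hNd
    refine ⟨⟨?_, ?_⟩, ?_, ?_⟩
    · have h1 : ν (lc z a) ≤ ν (lc z' a) + ν (lc z a - lc z' a) := by
        have := map_add_le_add ν (lc z' a) (lc z a - lc z' a)
        rwa [add_sub_cancel] at this
      rw [map_sub_rev] at h1
      linarith
    · have h1 : ν (lc z' a) ≤ ν (lc z a) + ν (lc z' a - lc z a) := by
        have := map_add_le_add ν (lc z a) (lc z' a - lc z a)
        rwa [add_sub_cancel] at this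
      linarith
    · have h1 : N (lc z a) ≤ N (lc z' a) + N (lc z a - lc z' a) := by
        have := hN1 (lc z' a) hmz' (lc z a - lc z' a) hmd'
        rwa [add_sub_cancel] at this
      linarith
    · have h1 : N (lc z' a) ≤ N (lc z a) + N (lc z' a - lc z a) := by
        have := hN1 (lc z a) hmz (lc z' a - lc z a) hmd
        rwa [add_sub_cancel] at this
      linarith
  intro a ha b hb
  obtain ⟨a, rfl⟩ := mem_bsp.1 ha
  obtain ⟨b, rfl⟩ := mem_bsp.1 hb
  obtain ⟨⟨a1, a2⟩, a3, a4⟩ := hcmp a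
  obtain ⟨⟨b1, b2⟩, b3, b4⟩ := hcmp b
  have hq := hQ (lc z a) (lc_mem z a) (lc z b) (lc_mem z b)
  have na := apply_nonneg ν (lc z a)
  have nb := apply_nonneg ν (lc z b)
  have Na : 0 ≤ N (lc z a) :=
    (mul_nonneg hα.le na).trans (hN3 _ (hzsub (lc_mem z a))).1
  have Nb : 0 ≤ N (lc z b) :=
    (mul_nonneg hα.le nb).trans (hN3 _ (hzsub (lc_mem z b))).1
  have na' := apply_nonneg ν (lc z' a)
  have nb' := apply_nonneg ν (lc z' b)
  have Nb' : 0 ≤ N (lc z' b) := by linarith
  have h1 : N (lc z' a) * ν (lc z' b) ≤ (11 / 10 * N (lc z a)) * (11 / 10 * ν (lc z b)) :=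
    mul_le_mul a4 b2 nb' (by positivity)
  have h2 : (9 / 10 * N (lc z b)) * (9 / 10 * ν (lc z a)) ≤ N (lc z' b) * ν (lc z' a) :=
    mul_le_mul b3 a1 (by positivity) Nb'
  have h5 : 0 ≤ N (lc z b) * ν (lc z a) := mul_nonneg Nb na
  have h6 : N (lc z a) * ν (lc z b) ≤ D * (N (lc z b) * ν (lc z a)) := hq
  have h7 : N (lc z b) * ν (lc z a) ≤ 100 / 81 * (N (lc z' b) * ν (lc z' a)) := by linarith
  calc N (lc z' a) * ν (lc z' b) ≤ 121 / 100 * (N (lc z a) * ν (lc z b)) := by linarith
    _ ≤ 121 / 100 * (D * (N (lc z b) * ν (lc z a))) := by linarith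
    _ ≤ 121 / 100 * (D * (100 / 81 * (N (lc z' b) * ν (lc z' a)))) := by
        have : D * (N (lc z b) * ν (lc z a)) ≤ D * (100 / 81 * (N (lc z' b) * ν (lc z' a))) :=
          mul_le_mul_of_nonneg_left h7 (by linarith)
        linarith
    _ = 121 / 81 * (D * (N (lc z' b) * ν (lc z' a))) := by ring
    _ ≤ 2 * (D * (N (lc z' b) * ν (lc z' a))) := by
        have : 0 ≤ D * (N (lc z' b) * ν (lc z' a)) :=
          mul_nonneg (by linarith) (mul_nonneg Nb' na')
        linarith
    _ = _ := by ring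


alias bdfq_of_bdf := bdfq_of_bdf_pr

end Pool.Agent.Lib_helper25.AD
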