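import Pool.Agent.Lib_helper25.AD.Base
import Pool.Agent.Lib_helper25.AD.Blk.BDF
import Pool.Agent.Lib_helper25.AD.Blk.FAS
import Pool.Agent.Lib_helper25.AD.Blk.FBD
import Pool.Agent.Lib_helper25.AD.Blk.FINJ
import Pool.Agent.Lib_helper25.AD.Blk.LCI
import Pool.Agent.Lib_helper25.AD.Blk.PARTI
import Pool.Agent.Lib_helper25.AD.Blk.PARTII
import Pool.Agent.Lib_helper25.AD.Blk.PERT
import Pool.Agent.Lib_helper25.AD.Blk.PULL

set_option autoImplicit false

open Finset Filter Topology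

namespace Pool.Agent.Lib_helper25.AD

theorem final_single : IsBlk (fun i => (Finsupp.single i (1 : ℝ) : E)) := by
  refine ⟨fun i => ?_, fun i => ?_⟩
  · simp
  · intro a ha b hb
    rw [Finsupp.support_single] at ha hb <;> simp_all

/-- bounded distortion forces `1 ≤ D` -/
theorem final_one_le {ν : Seminorm ℝ E} (hν : Dfn ν) {D : ℝ} (h : BDF ν D) : 1 ≤ D := by
  obtain ⟨z, hz, -, hq⟩ := h _ final_single (fun x => ν x)
    ⟨fun a _ b _ => map_add_le_add ν a b, fun t a _ => by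
      simp [map_smul_eq_mul], 1, 1, one_pos, one_pos, fun x _ => by simp⟩
  have h1 := hq (z 0) (self_mem_bsp z 0) (z 0) (self_mem_bsp z 0)
  have h2 := hν (z 0) (hz.ne 0)
  have h3 : 0 < ν (z 0) * ν (z 0) := mul_pos h2 h2
  simp only at h1
  by_contra hneg
  push Not at hneg
  nlinarith

/-- FINAL: no asymptotic `l_p` space is of bounded distortion -/
theorem final_pr :
    ¬ (∃ p : ℝ, 1 < p ∧
      ∃ (X : Type) (_ : NormedAddCommGroup X) (_ : NormedSpace ℝ X) (_ : CompleteSpace X)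
        (e : ℕ → X),
        (∀ x : X, ∃! a : ℕ → ℝ,
            Tendsto (fun n => ∑ i ∈ Finset.range n, a i • e i) atTop (𝓝 x)) ∧
        (∃ K : ℝ, 0 < K ∧
          ∀ (n : ℕ) (q : ℕ → ℕ) (c : ℕ → ℕ → ℝ), Monotone q → n ≤ q 0 →
            (∀ j < n, ‖∑ i ∈ Finset.Ico (q j) (q (j + 1)), c j i • e i‖ = 1) →
            ∀ a : ℕ → ℝ,
              K⁻¹ * (∑ j ∈ Finset.range n, |a j| ^ p) ^ (1 / p) ≤
                ‖∑ j ∈ Finset.range n,
                    a j • ∑ i ∈ Finset.Ico (q j) (q (j + 1)), c j i • e i‖ ∧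
              ‖∑ j ∈ Finset.range n,
                    a j • ∑ i ∈ Finset.Ico (q j) (q (j + 1)), c j i • e i‖ ≤
                K * (∑ j ∈ Finset.range n, |a j| ^ p) ^ (1 / p)) ∧
        (∃ D : ℝ, ∀ N : Seminorm ℝ X,
          (∃ α β : ℝ, 0 < α ∧ 0 < β ∧ ∀ x : X, α * ‖x‖ ≤ N x ∧ N x ≤ β * ‖x‖) →
          ∀ Y : Submodule ℝ X, ¬ FiniteDimensional ℝ Y →
            ∃ Z : Submodule ℝ X, Z ≤ Y ∧ ¬ FiniteDimensional ℝ Z ∧
              ∀ z ∈ Z, ∀ w ∈ Z, ‖z‖ = 1 → ‖w‖ = 1 → N z ≤ D * N w)) := by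
  rintro ⟨p, hp, X, _, _, _, e, hexp, ⟨K, hK0, hK⟩, D, hD⟩
  have hinj := frozen_inj X e hexp
  obtain ⟨K', hK', hAs⟩ := frozen_aslp p hp X e hinj K hK0 hK
  have hBDX := frozen_bd X D hD
  set φ : E →ₗ[ℝ] X := Finsupp.linearCombination ℝ e with hφ
  have hBD : BD ((normSeminorm ℝ X).comp φ) D := bd_pullback _ D hBDX φ hinj
  have hdf : Dfn ((normSeminorm ℝ X).comp φ) := by
    intro x hx
    rw [Seminorm.comp_apply, coe_normSeminorm]
    rw [norm_pos_iff]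
    intro h
    exact hx (hinj (by rw [h, map_zero]))
  have hBDF := bdf_of_bd _ D hBD
  have hD1 : 1 ≤ D := final_one_le hdf hBDF
  have hBDQ := bdfq_of_bdf _ hdf p K' D hp hK' hD1 hAs hBDF
  obtain ⟨C, hC, hI⟩ := partI _ hdf p K' (2 * D) hp hK' (by linarith) hAs hBDQ
  obtain ⟨T₀, hT₀⟩ := partII p C hp hC
  obtain ⟨z, hz, hSA⟩ := hI T₀
  have hBDz := bd_pullback _ D hBD (lc z) (lc_injective hz)
  have hdz : Dfn (((normSeminorm ℝ X).comp φ).comp (lc z)) := by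
    intro x hx
    rw [Seminorm.comp_apply]
    apply hdf
    intro h
    exact hx (lc_injective hz (by rw [h, map_zero]))
  exact hT₀ _ hdz hSA D (bdf_of_bd _ D hBDz)

alias final := final_pr

end Pool.Agent.Lib_helper25.AD
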